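import Mathlib

set_option autoImplicit false

/-!
Certificates for the density inequality: data and checker.
-/

namespace Pool.Agent.H466.AB.Crt

/-- common denominator -/
def Dn : ℤ := 240000

/-- a threshold cut of a cell -/
structure Cut where
  j : ℕ
  g : ℤ
  b : ℤ
  m0 : ℤ
  m1 : ℤ

/-- a certificate -/
structure Dat where
  mu : List (ℤ × ℤ)
  cuts : List (List Cut)
  r1 : List (ℤ × ℤ)
  r2 : List (ℤ × ℤ)
  rh : List (ℤ × ℤ × List (ℤ × ℤ))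
  m : ℕ
  Q1 : ℤ
  Q2 : ℤ
  al : ℤ
  be : ℤ

/-- the nodes of the cells -/
def aL : List ℤ := [0, 20000, 40000, 60000, 70000, 80000, 90000, 100000, 110000, 120000, 130000,
  140000, 150000, 160000, 170000, 180000, 200000, 220000, 240000]

/-- the values of the sampling density at the nodes -/
def qL : List ℤ := [348000, 336000, 324000, 288000, 273600, 259200, 253200, 247200, 243600, 240000,
  240000, 240000, 240000, 240000, 240000, 240000, 240000, 240000, 240000]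

def A (k : ℕ) : ℤ := aL.getD k 0
def Q (k : ℕ) : ℤ := qL.getD k 0

/-- Bernstein coefficients of twice a linear function -/
def lin (x y : ℤ) : ℕ → ℤ
  | 0 => 2 * x
  | 1 => x + y
  | _ => 2 * y

/-- Bernstein coefficients of twice a product of two linear functions -/
def prd (x0 x1 y0 y1 : ℤ) : ℕ → ℤ
  | 0 => 2 * (x0 * y0)
  | 1 => x0 * y1 + x1 * y0
  | _ => 2 * (x1 * y1)

def wc (k i : ℕ) : ℤ := lin (A k) (A (k + 1)) i
def qc (k i : ℕ) : ℤ := lin (Q k) (Q (k + 1)) i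
def Pc (k i : ℕ) : ℤ := prd (A k) (A (k + 1)) (Q k ^ 4) (Q (k + 1) ^ 4) i
def Cc (al be : ℤ) (k i : ℕ) : ℤ := lin (al * A k - be * Q k) (al * A (k + 1) - be * Q (k + 1)) i
def gn (g x : ℤ) : ℤ := Dn ^ 2 - (Dn - x) * g
def Mn (g b x : ℤ) : ℤ := Dn ^ 2 - (Dn - x) * (g + b)

def Bl (a0 a1 : ℤ) (i : ℕ) : List Cut → ℤ
  | [] => 0
  | c :: cs => prd c.m0 c.m1 (Mn c.g c.b a0) (Mn c.g c.b a1) i + Bl a0 a1 i cs

def Tl (a0 a1 : ℤ) (l : ℕ) (wj : ℤ) (i : ℕ) : List Cut → ℤ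
  | [] => 0
  | c :: cs => (if c.j ≤ l then 2 * Dn ^ 2 * prd c.m0 c.m1 a0 a1 i else
      prd c.m0 c.m1 (gn c.g a0) (gn c.g a1) i * wj) + Tl a0 a1 l wj i cs

def Bc (d : Dat) (k i : ℕ) : ℤ :=
  Dn ^ 2 * lin (d.mu.getD k (0, 0)).1 (d.mu.getD k (0, 0)).2 i +
    Bl (A k) (A (k + 1)) i (d.cuts.getD k [])

def Tc (d : Dat) (k l i j : ℕ) : ℤ :=
  2 * Dn ^ 3 * lin (d.mu.getD k (0, 0)).1 (d.mu.getD k (0, 0)).2 i +
    Tl (A k) (A (k + 1)) l (wc l j) i (d.cuts.getD k [])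

def l1 (Q1 : ℤ) (k i : ℕ) : ℤ := lin (Dn * Q k - Q1 * A k) (Dn * Q (k + 1) - Q1 * A (k + 1)) i
def l2 (Q2 : ℤ) (k i : ℕ) : ℤ := lin (Q2 * A k - Dn * Q k) (Q2 * A (k + 1) - Dn * Q (k + 1)) i
def lh (g b : ℤ) (k i : ℕ) : ℤ :=
  if 9 ≤ k then lin (b * A k + (g * A k - Dn ^ 2)) (b * A (k + 1) + (g * A (k + 1) - Dn ^ 2)) i
  else lin (b * A k) (b * A (k + 1)) i

def Hl (k l i j : ℕ) : List (ℤ × ℤ × List (ℤ × ℤ)) → ℤ
  | [] => 0
  | x :: xs => lin (x.2.2.getD k (0, 0)).1 (x.2.2.getD k (0, 0)).2 i * lh x.1 x.2.1 l j + Hl k l i j xs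

def RL (d : Dat) (k l i j : ℕ) : ℤ :=
  lin (d.r1.getD k (0, 0)).1 (d.r1.getD k (0, 0)).2 i * l1 d.Q1 l j +
    lin (d.r2.getD k (0, 0)).1 (d.r2.getD k (0, 0)).2 i * l2 d.Q2 l j + Hl k l i j d.rh

def mm (d : Dat) : ℤ := 64 * (d.m : ℤ) * ((d.m : ℤ) - 1)

def Xf (d : Dat) (k l i j : ℕ) : ℤ :=
  mm d * Dn ^ 3 * (Bc d k i * wc l j) - 448 * ((d.m : ℤ) - 2) * Dn ^ 5 * (qc k i * qc l j) -
    ((d.m : ℤ) - 2) * ((d.m : ℤ) - 3) * ((d.m : ℤ) * ((d.m : ℤ) - 1)) * (Cc d.al d.be k i * Pc l j) -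
    mm d * Dn ^ 4 * RL d k l i j

def Yf (d : Dat) (k l i j : ℕ) : ℤ :=
  mm d * Dn ^ 3 * (Dn ^ 2 * (qc k i * qc l j) - Tc d k l i j)

/-- the required margin -/
def dl (d : Dat) : ℤ := 192 * Dn ^ 6 * mm d

def nonneg : ℤ → Bool
  | Int.ofNat _ => true
  | Int.negSucc _ => false

def chk1 (d : Dat) (k l i j : ℕ) : Bool :=
  let x := Xf d k l i j + Xf d l k j i - dl d
  (nonneg (x + (Yf d k l i j + Yf d l k j i))) &&
    ((decide (1 ≤ k) && decide (1 ≤ l) && nonneg (A k + A l - Dn)) || nonneg x)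

def chkP (d : Dat) (k l : ℕ) : Bool :=
  chk1 d k l 0 0 && chk1 d k l 0 1 && chk1 d k l 0 2 && chk1 d k l 1 0 && chk1 d k l 1 1 &&
  chk1 d k l 1 2 && chk1 d k l 2 0 && chk1 d k l 2 1 && chk1 d k l 2 2

def chkAll (d : Dat) : Bool :=
  (List.range 18).all fun k => (List.range (k + 1)).all fun l => chkP d k l

def pos2 (x : ℤ × ℤ) : Bool := nonneg x.1 && nonneg x.2

def chkCut (k : ℕ) (c : Cut) : Bool :=
  decide (k < c.j) && nonneg (c.g - 1) && nonneg (100 * Dn - c.g) && nonneg (c.b - 1) &&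
    nonneg (10 * Dn - c.b) && nonneg (25600 * c.g * c.b ^ 3 - 2701 * Dn ^ 4) &&
    nonneg c.m0 && nonneg c.m1

def chkH (x : ℤ × ℤ × List (ℤ × ℤ)) : Bool :=
  nonneg (x.1 - 1) && nonneg (100 * Dn - x.1) && nonneg (x.2.1 - 1) &&
    nonneg (10 * Dn - x.2.1) && nonneg (25600 * x.1 * x.2.1 ^ 3 - 2701 * Dn ^ 4) &&
    x.2.2.all pos2

def chkQ (al be q : ℤ) : Bool := nonneg (q * q * (al * Dn - be * q) - Dn ^ 4)

def check (d : Dat) : Bool :=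
  chkAll d && d.mu.all pos2 && d.r1.all pos2 && d.r2.all pos2 && d.rh.all chkH &&
    ((List.range 18).all fun k => (d.cuts.getD k []).all (chkCut k)) &&
    nonneg (d.Q1 - 1) && nonneg (d.Q2 - d.Q1 - 1) && chkQ d.al d.be d.Q1 && chkQ d.al d.be d.Q2 &&
    decide (4 ≤ d.m) && decide (d.m ≤ 200)

end Pool.Agent.H466.AB.Crt
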