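import Pool.Agent.H466.AB.Min

set_option autoImplicit false

/-!
The system of inequalities satisfied by the weights of a minimal counterexample.
-/

open Set Classical
open Pool.Agent.Helper770.Crossing Pool.Agent.NH90.CN
open Pool.Agent.H466.AL (exists_good cr_mono DX_good K cr_inside_top cr_K_mono)

namespace Pool.Agent.H466.AB

variable {V : Type} [Fintype V]

/-- the inequalities for the weights -/
structure Sys (G : SimpleGraph V) (w : V → ℝ) (W : ℝ) : Prop where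
  big : (10 : ℝ) ^ 49 ≤ W
  w0 : ∀ v, 0 ≤ w v
  w1 : ∀ v, w v ≤ 1
  sum : ∑ v, w v = W
  c0 : ∀ u, W ≤ (cn G u).card
  c1 : ∀ u, ∀ L ⊆ cn G u, u ∈ L → ∀ g b, adm g b →
    W ≤ ∑ v ∈ L, w v + w u * ((cn G u \ L).card : ℝ) +
      (1 - w u) * (b * W + g * (W - ∑ v ∈ L, w v))
  c2 : ∀ u v, 1 < w u + w v → v ∈ cn G u
  c3 : ∀ g b, adm g b → ((Finset.univ.filter (fun v => 1 / 2 < w v)).card : ℝ) ≤
    b * W + g * ∑ v ∈ Finset.univ.filter (fun v => 1 / 2 < w v), w v
  c5 : ∀ m : ℕ, 4 ≤ m → m ≤ 200 → ∀ q : V → ℝ, (∀ v, 1 ≤ q v) → (∀ v, q v ≤ 2) →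
    (∑ v, q v) ^ 2 * (∑ u, ∑ v ∈ cn G u, q u * q v) ≤
      7 * ((m : ℝ) - 2) / ((m : ℝ) * ((m : ℝ) - 1)) * (∑ v, q v) ^ 4 +
      ((m : ℝ) - 2) * ((m : ℝ) - 3) / 64 * W ^ 3 * ∑ v, w v * q v ^ 4 +
      1 / 10 ^ 5 * W ^ 2 * (∑ v, q v) ^ 2

variable {G : SimpleGraph V} {F : ℕ → ℝ} {t : ℕ}

section weights

variable (hm : MinC G F t) (hF : FReg F t) (hn : Fintype.card V ≤ 16 * t) (D : Drawing G)
  (hfin : D.crossings.Finite) (hgood : Good D)
  (hopt : 2 * crossingNumber G = ∑ e : Sym2 V, ∑ f : Sym2 V, DX D e f)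

include hm hF hn hfin hgood hopt in
theorem sys_c2 (u v : V) (h : 1 < wt2 D F t u + wt2 D F t v) : v ∈ cn G u := by
  by_contra hc
  rw [mem_cn] at hc
  push Not at hc
  have h1 := ind_le hm hF hn D hfin hgood hopt {u, v} (by
    intro x hx y hy
    simp only [Finset.mem_insert, Finset.mem_singleton] at hx hy
    rcases hx with rfl | rfl <;> rcases hy with rfl | rfl
    · exact G.irrefl
    · exact hc.2
    · exact fun h' => hc.2 h'.symm
    · exact G.irrefl)
  rw [Finset.sum_pair hc.1] at h1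
  linarith

include hm hF hn hfin hgood hopt in
theorem sys_w1 (u : V) : wt2 D F t u ≤ 1 := by
  have h1 := ind_le hm hF hn D hfin hgood hopt {u} (by
    intro x hx y hy
    rw [Finset.mem_singleton.1 hx, Finset.mem_singleton.1 hy]
    exact G.irrefl)
  rw [Finset.sum_singleton] at h1
  exact h1

include hm hF hn hfin hgood hopt in
theorem sys_c1 (u : V) (L : Finset V) (hL : L ⊆ cn G u) (hu : u ∈ L) (g b : ℝ) (ha : adm g b) :
    ∑ v, wt2 D F t v ≤ ∑ v ∈ L, wt2 D F t v + wt2 D F t u * ((cn G u \ L).card : ℝ) +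
      (1 - wt2 D F t u) * (b * (∑ v, wt2 D F t v) +
        g * ((∑ v, wt2 D F t v) - ∑ v ∈ L, wt2 D F t v)) := by
  set w := wt2 D F t with hw
  have hX : (Lᶜ : Finset V) ≠ Finset.univ := by
    intro h'
    have : u ∈ (Lᶜ : Finset V) := by rw [h']; exact Finset.mem_univ u
    exact (Finset.mem_compl.1 this) hu
  obtain ⟨c, ⟨f, hf1, hf2⟩, hc⟩ := col_sub hm hF hn D hfin hopt _ hX g b ha
  have hsplit : ∑ v ∈ L, w v + ∑ v ∈ (Lᶜ : Finset V), w v = ∑ v, w v := Finset.sum_add_sum_compl L w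
  have hu1 := sys_w1 hm hF hn D hfin hgood hopt u
  have hu0 := wt2_nonneg D hF u
  have hcls : ∑ v ∈ (Lᶜ : Finset V), w v ≤ (1 - w u) * c + w u * ((cn G u \ L).card : ℝ) := by
    have h1 : ∑ v ∈ (Lᶜ : Finset V), w v = ∑ i ∈ (Lᶜ : Finset V).image f,
        ∑ v ∈ (Lᶜ : Finset V).filter (fun v => f v = i), w v :=
      (Finset.sum_fiberwise_of_maps_to (fun v hv => Finset.mem_image_of_mem f hv) w).symm
    have h2 : ∀ i ∈ (Lᶜ : Finset V).image f,
        ∑ v ∈ (Lᶜ : Finset V).filter (fun v => f v = i), w v ≤ (1 - w u) +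
          w u * (((cn G u \ L).filter (fun v => f v = i)).card : ℝ) := by
      intro i _
      set J := (Lᶜ : Finset V).filter (fun v => f v = i) with hJ
      have mJ : ∀ x, x ∈ J ↔ x ∉ L ∧ f x = i := fun x => by
        rw [hJ, Finset.mem_filter, Finset.mem_compl]
      have hJi : ∀ x ∈ J, ∀ y ∈ J, ¬ G.Adj x y := by
        intro x hx y hy hxy
        have hx := (mJ x).1 hx
        have hy := (mJ y).1 hy
        exact hf1 x (Finset.mem_compl.2 hx.1) y (Finset.mem_compl.2 hy.1) hxy (hx.2.trans hy.2.symm)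
      by_cases he : (cn G u \ L).filter (fun v => f v = i) = ∅
      · rw [he, Finset.card_empty, Nat.cast_zero, mul_zero, add_zero]
        have huJ : u ∉ J := fun h => ((mJ u).1 h).1 hu
        have hnadj : ∀ x ∈ J, ¬ G.Adj u x := by
          intro x hx hux
          have hx' := (mJ x).1 hx
          have : x ∈ (cn G u \ L).filter (fun v => f v = i) :=
            Finset.mem_filter.2 ⟨Finset.mem_sdiff.2 ⟨mem_cn.2 (Or.inr hux), hx'.1⟩, hx'.2⟩
          rw [he] at this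
          simp at this
        have h3 := ind_le hm hF hn D hfin hgood hopt (insert u J) (by
          intro x hx y hy
          rcases Finset.mem_insert.1 hx with hx1 | hx1
          · rcases Finset.mem_insert.1 hy with hy1 | hy1
            · rw [hx1, hy1]; exact G.irrefl
            · rw [hx1]; exact hnadj y hy1
          · rcases Finset.mem_insert.1 hy with hy1 | hy1
            · rw [hy1]; exact fun h => hnadj x hx1 h.symm
            · exact hJi x hx1 y hy1)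
        rw [Finset.sum_insert huJ] at h3
        linarith
      · have h3 := ind_le hm hF hn D hfin hgood hopt J hJi
        have h4 : 1 ≤ ((cn G u \ L).filter (fun v => f v = i)).card :=
          Finset.card_pos.2 (Finset.nonempty_iff_ne_empty.2 he)
        have h5 : (1 : ℝ) ≤ (((cn G u \ L).filter (fun v => f v = i)).card : ℝ) := by
          exact_mod_cast h4
        nlinarith
    rw [h1]
    refine (Finset.sum_le_sum h2).trans ?_
    rw [Finset.sum_add_distrib, Finset.sum_const, nsmul_eq_mul, ← Finset.mul_sum]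
    have h6 : ((((Lᶜ : Finset V).image f).card : ℕ) : ℝ) ≤ c := by exact_mod_cast hf2
    have h7 : ∑ i ∈ (Lᶜ : Finset V).image f,
        (((cn G u \ L).filter (fun v => f v = i)).card : ℝ) ≤ ((cn G u \ L).card : ℝ) := by
      have h8 : (cn G u \ L).card = ∑ i ∈ (Lᶜ : Finset V).image f,
          ((cn G u \ L).filter (fun v => f v = i)).card :=
        Finset.card_eq_sum_card_fiberwise (fun v hv => Finset.mem_image_of_mem f
          (Finset.mem_compl.2 (Finset.mem_sdiff.1 hv).2))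
      rw [h8]
      push_cast
      exact le_rfl
    have h9 : ((((Lᶜ : Finset V).image f).card : ℕ) : ℝ) * (1 - w u) ≤ (1 - w u) * c := by
      rw [mul_comm]
      exact mul_le_mul_of_nonneg_left h6 (by linarith)
    have h10 := mul_le_mul_of_nonneg_left h7 hu0
    linarith
  have hc' : (c : ℝ) ≤ b * (∑ v, w v) + g * ((∑ v, w v) - ∑ v ∈ L, w v) := by
    have : ∑ v ∈ (Lᶜ : Finset V), w v = (∑ v, w v) - ∑ v ∈ L, w v := by linarith
    rw [this] at hc
    exact hc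
  have h11 := mul_le_mul_of_nonneg_left hc' (show 0 ≤ 1 - w u by linarith)
  linarith

include hm hF hn hfin hgood hopt in
theorem sys_c3 (hK : F t ≤ crossingNumber (K t)) (g b : ℝ) (ha : adm g b) :
    ((Finset.univ.filter (fun v => 1 / 2 < wt2 D F t v)).card : ℝ) ≤
    b * (∑ v, wt2 D F t v) +
      g * ∑ v ∈ Finset.univ.filter (fun v => 1 / 2 < wt2 D F t v), wt2 D F t v := by
  set H := Finset.univ.filter (fun v => 1 / 2 < wt2 D F t v) with hH
  have hadj : ∀ u ∈ H, ∀ v ∈ H, u ≠ v → G.Adj u v := by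
    intro u hu v hv huv
    have h1 := (Finset.mem_filter.1 hu).2
    have h2 := (Finset.mem_filter.1 hv).2
    have h3 := sys_c2 hm hF hn D hfin hgood hopt u v (by linarith)
    rcases mem_cn.1 h3 with h | h
    · exact absurd h huv
    · exact h
  have hne : H ≠ Finset.univ := by
    intro h
    have h1 := cr_inside_top (n := Fintype.card V) G (Fintype.equivFin V).symm.toEmbedding
      (by
        intro i j hij
        refine hadj _ (by rw [h]; exact Finset.mem_univ _) _ (by rw [h]; exact Finset.mem_univ _) ?_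
        exact fun h' => hij ((Fintype.equivFin V).symm.injective h'))
    have h2 := cr_K_mono hm.card_ge
    have h3 := hm.lt
    have h4 : (crossingNumber (K t) : ℝ) ≤ crossingNumber G := by exact_mod_cast h2.trans h1
    linarith
  obtain ⟨c, ⟨f, hf1, hf2⟩, hc⟩ := col_sub hm hF hn D hfin hopt _ hne g b ha
  have h1 : (H.image f).card = H.card := by
    refine Finset.card_image_of_injOn ?_
    intro x hx y hy hxy
    by_contra hne
    exact hf1 x hx y hy (hadj x hx y hy hne) hxy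
  have h2 : (H.card : ℝ) ≤ c := by
    rw [← h1]; exact_mod_cast hf2
  linarith

include hm hF hn hfin hgood hopt in
theorem sys_c5 (m : ℕ) (h4 : 4 ≤ m) (h200 : m ≤ 200) (q : V → ℝ) (hq1 : ∀ v, 1 ≤ q v)
    (hq2 : ∀ v, q v ≤ 2) :
    (∑ v, q v) ^ 2 * (∑ u, ∑ v ∈ cn G u, q u * q v) ≤
      7 * ((m : ℝ) - 2) / ((m : ℝ) * ((m : ℝ) - 1)) * (∑ v, q v) ^ 4 +
      ((m : ℝ) - 2) * ((m : ℝ) - 3) / 64 * (∑ v, wt2 D F t v) ^ 3 * ∑ v, wt2 D F t v * q v ^ 4 +
      1 / 10 ^ 5 * (∑ v, wt2 D F t v) ^ 2 * (∑ v, q v) ^ 2 := by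
  have ht := hF.tpos
  have hFp := hF.Fpos
  have hbig := hF.big
  have hn' : (Fintype.card V : ℝ) ≤ 16 * t := by exact_mod_cast hn
  have htn : (t : ℝ) ≤ Fintype.card V := by exact_mod_cast hm.card_ge
  set W := ∑ v, wt2 D F t v with hW
  set S := ∑ v, q v with hS
  set n : ℝ := (Fintype.card V : ℝ) with hnn
  have hSn : n ≤ S := by
    calc n = ∑ _v : V, (1 : ℝ) := by rw [Finset.sum_const, nsmul_eq_mul, Finset.card_univ, mul_one]
      _ ≤ S := Finset.sum_le_sum fun v _ => hq1 v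
  have hWt := W_le hm hF D hopt
  have hWt2 := W_ge hm hF hn D hopt
  rw [← hW] at hWt hWt2
  have hn0 : 0 < n := lt_of_lt_of_le ht htn
  have hS0 : 0 < S := lt_of_lt_of_le hn0 hSn
  have hW0 : 0 < W := by
    have : 0 < (1 - 1 / 10 ^ 10) * (t : ℝ) := by
      have : (0 : ℝ) < 1 - 1 / 10 ^ 10 := by norm_num
      positivity
    linarith
  have hmr : (4 : ℝ) ≤ m := by exact_mod_cast h4
  have hmr2 : (m : ℝ) ≤ 200 := by exact_mod_cast h200
  have h1 := wsamp D hfin hgood q (fun v => by linarith [hq1 v]) h4 S hS hS0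
  -- diagonal
  have h2 : ∑ u, ∑ v ∈ cn G u, q u * q v = wE G q + ∑ u, q u ^ 2 := by
    unfold wE
    rw [← Finset.sum_add_distrib]
    refine Finset.sum_congr rfl fun u _ => ?_
    have e1 : cn G u = insert u (Finset.univ.filter (fun v => G.Adj u v)) := by
      ext v
      rw [mem_cn, Finset.mem_insert, Finset.mem_filter]
      constructor
      · rintro (h | h)
        · exact Or.inl h.symm
        · exact Or.inr ⟨Finset.mem_univ _, h⟩
      · rintro (h | h)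
        · exact Or.inl h.symm
        · exact Or.inr h.2
    rw [e1, Finset.sum_insert, Finset.sum_filter, add_comm]
    · congr 1
      · refine Finset.sum_congr rfl fun v _ => ?_
        split_ifs <;> simp
      · ring
    · rw [Finset.mem_filter]
      exact fun h => G.irrefl h.2
  have hq2s : ∑ u, q u ^ 2 ≤ 4 * n := by
    calc ∑ u, q u ^ 2 ≤ ∑ _u : V, (4 : ℝ) := by
          refine Finset.sum_le_sum fun u _ => ?_
          nlinarith [hq1 u, hq2 u]
      _ = 4 * n := by rw [Finset.sum_const, nsmul_eq_mul, Finset.card_univ]; ring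
  have hq2p : 0 ≤ ∑ u, q u ^ 2 := Finset.sum_nonneg fun u _ => sq_nonneg _
  -- crossings
  have h3 : ∑ a, q a ^ 4 * R4 D a ≤ M2 F t * (∑ v, wt2 D F t v * q v ^ 4 + 16 * n / 10 ^ 12) := by
    calc ∑ a, q a ^ 4 * R4 D a ≤ ∑ a, M2 F t * (wt2 D F t a * q a ^ 4 + 16 / 10 ^ 12) := by
          refine Finset.sum_le_sum fun a _ => ?_
          have g1 := wt2_ge D (F := F) (t := t) a
          rw [div_le_iff₀ hF.M2pos] at g1
          have g2 : q a ^ 4 ≤ 16 := by
            have : q a ^ 4 ≤ 2 ^ 4 := pow_le_pow_left₀ (by linarith [hq1 a]) (hq2 a) 4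
            norm_num at this ⊢
            exact this
          have g3 : 0 ≤ q a ^ 4 := by positivity
          have g4 := hF.M2pos
          calc q a ^ 4 * R4 D a ≤ q a ^ 4 * ((wt2 D F t a + 1 / 10 ^ 12) * M2 F t) := by gcongr
            _ = M2 F t * (wt2 D F t a * q a ^ 4 + q a ^ 4 * (1 / 10 ^ 12)) := by ring
            _ ≤ M2 F t * (wt2 D F t a * q a ^ 4 + 16 * (1 / 10 ^ 12)) := by gcongr
            _ = _ := by ring
      _ = _ := by
          rw [← Finset.mul_sum, Finset.sum_add_distrib, Finset.sum_const, nsmul_eq_mul,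
            Finset.card_univ]
          ring
  have hM2 : M2 F t ≤ (1 + 4 / 10 ^ 10) * W ^ 3 / 8 := by
    have g1 := hF.up
    have g2 : F t / t ≤ (t : ℝ) ^ 3 / 64 := by
      rw [div_le_iff₀ ht]
      calc F t ≤ (t : ℝ) ^ 4 / 64 := g1
        _ = (t : ℝ) ^ 3 / 64 * t := by ring
    have g3 : M2 F t ≤ (1 + 2 / 10 ^ 12) * (t : ℝ) ^ 3 / 8 := by
      unfold M2
      calc 8 * (1 + 2 / 10 ^ 12) * (F t / t) ≤ 8 * (1 + 2 / 10 ^ 12) * ((t : ℝ) ^ 3 / 64) := by gcongr
        _ = _ := by ring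
    have g4 : ((1 - 1 / 10 ^ 10) * (t : ℝ)) ^ 3 ≤ W ^ 3 := by
      have : (0 : ℝ) ≤ 1 - 1 / 10 ^ 10 := by norm_num
      gcongr
    have g5 : (1 + 2 / 10 ^ 12) * (t : ℝ) ^ 3 ≤ (1 + 4 / 10 ^ 10) * ((1 - 1 / 10 ^ 10) * (t : ℝ)) ^ 3 := by
      have : (1 + 2 / 10 ^ 12 : ℝ) ≤ (1 + 4 / 10 ^ 10) * (1 - 1 / 10 ^ 10) ^ 3 := by norm_num
      calc (1 + 2 / 10 ^ 12) * (t : ℝ) ^ 3 ≤ ((1 + 4 / 10 ^ 10) * (1 - 1 / 10 ^ 10) ^ 3) * (t : ℝ) ^ 3 := by
            gcongr
        _ = _ := by ring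
    have g6 : (1 + 4 / 10 ^ 10) * ((1 - 1 / 10 ^ 10) * (t : ℝ)) ^ 3 ≤ (1 + 4 / 10 ^ 10) * W ^ 3 := by
      gcongr
    linarith
  set X := ∑ v, wt2 D F t v * q v ^ 4 with hX
  have hX0 : 0 ≤ X := Finset.sum_nonneg fun v _ => mul_nonneg (wt2_nonneg D hF v) (by positivity)
  have hXW : X ≤ 16 * W := by
    rw [hX, hW, Finset.mul_sum]
    refine Finset.sum_le_sum fun v _ => ?_
    have g2 : q v ^ 4 ≤ 16 := by
      have : q v ^ 4 ≤ 2 ^ 4 := pow_le_pow_left₀ (by linarith [hq1 v]) (hq2 v) 4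
      norm_num at this ⊢
      exact this
    have := mul_le_mul_of_nonneg_left g2 (wt2_nonneg D hF v)
    linarith
  set k : ℝ := ((m : ℝ) - 2) * ((m : ℝ) - 3) with hk
  have hk0 : 0 ≤ k := by
    have : (0 : ℝ) ≤ (m : ℝ) - 2 := by linarith
    have : (0 : ℝ) ≤ (m : ℝ) - 3 := by linarith
    positivity
  have hk1 : k ≤ 40000 := by nlinarith
  have htW : (t : ℝ) ≤ 2 * W := by nlinarith
  have hnW : n ≤ 32 * W := by linarith
  have h5 : k / 8 * ∑ a, q a ^ 4 * R4 D a ≤ k / 64 * W ^ 3 * X + 1 / (2 * 10 ^ 5) * W ^ 4 := by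
    have g1 : 0 ≤ X + 16 * n / 10 ^ 12 := by positivity
    calc k / 8 * ∑ a, q a ^ 4 * R4 D a
        ≤ k / 8 * (M2 F t * (X + 16 * n / 10 ^ 12)) := by gcongr
      _ ≤ k / 8 * (((1 + 4 / 10 ^ 10) * W ^ 3 / 8) * (X + 16 * n / 10 ^ 12)) := by gcongr
      _ = k / 64 * W ^ 3 * X + k / 64 * W ^ 3 * (4 / 10 ^ 10 * X + (1 + 4 / 10 ^ 10) * (16 * n / 10 ^ 12)) := by
          ring
      _ ≤ k / 64 * W ^ 3 * X + 40000 / 64 * W ^ 3 * (4 / 10 ^ 10 * (16 * W) +
          (1 + 4 / 10 ^ 10) * (16 * (32 * W) / 10 ^ 12)) := by gcongr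
      _ ≤ k / 64 * W ^ 3 * X + 1 / (2 * 10 ^ 5) * W ^ 4 := by
          have e : 40000 / 64 * W ^ 3 * (4 / 10 ^ 10 * (16 * W) +
              (1 + 4 / 10 ^ 10) * (16 * (32 * W) / 10 ^ 12)) =
              (40000 / 64 * (4 / 10 ^ 10 * 16 + (1 + 4 / 10 ^ 10) * (16 * 32 / 10 ^ 12))) * W ^ 4 := by ring
          rw [e]
          have e2 : (40000 / 64 * (4 / 10 ^ 10 * 16 + (1 + 4 / 10 ^ 10) * (16 * 32 / 10 ^ 12)) : ℝ) ≤
              1 / (2 * 10 ^ 5) := by norm_num
          gcongr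
  have hWS : W ≤ S := hWt.trans (htn.trans hSn)
  have h6 : 1 / (2 * 10 ^ 5) * W ^ 4 ≤ 1 / (2 * 10 ^ 5) * W ^ 2 * S ^ 2 := by
    have : W ^ 4 ≤ W ^ 2 * S ^ 2 := by
      have : W ^ 2 ≤ S ^ 2 := by gcongr
      calc W ^ 4 = W ^ 2 * W ^ 2 := by ring
        _ ≤ _ := by gcongr
    linarith
  have h7 : ((m : ℝ) ^ 2 + 1) * (∑ u, q u ^ 2) ≤ 1 / (2 * 10 ^ 5) * W ^ 2 := by
    have g1 : ((m : ℝ) ^ 2 + 1) * (∑ u, q u ^ 2) ≤ (200 ^ 2 + 1) * (4 * (32 * W)) := by
      have : ∑ u, q u ^ 2 ≤ 4 * (32 * W) := by linarith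
      gcongr
    refine g1.trans ?_
    have g2 : (10 : ℝ) ^ 48 ≤ W := by
      have : (10 : ℝ) ^ 48 ≤ (1 - 1 / 10 ^ 10) * 10 ^ 50 := by norm_num
      have g3 : (1 - 1 / 10 ^ 10) * (10 : ℝ) ^ 50 ≤ (1 - 1 / 10 ^ 10) * t := by
        have : (0 : ℝ) ≤ 1 - 1 / 10 ^ 10 := by norm_num
        gcongr
      linarith
    have g3 : (200 ^ 2 + 1) * (4 * 32) ≤ 1 / (2 * 10 ^ 5) * W := by
      have : 1 / (2 * 10 ^ 5) * (10 : ℝ) ^ 48 ≤ 1 / (2 * 10 ^ 5) * W := by gcongr
      norm_num at this ⊢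
      linarith
    nlinarith
  have h8 : (m : ℝ) ^ 2 * S ^ 2 * (∑ u, q u ^ 2) + S ^ 2 * (∑ u, q u ^ 2) ≤
      1 / (2 * 10 ^ 5) * W ^ 2 * S ^ 2 := by
    have := mul_le_mul_of_nonneg_right h7 (show 0 ≤ S ^ 2 by positivity)
    linarith
  rw [h2]
  linarith

include hm hF hn hfin hgood hopt in
theorem sys_all (hK : F t ≤ crossingNumber (K t)) :
    Sys G (wt2 D F t) (∑ v, wt2 D F t v) where
  big := by
    have h1 := W_ge hm hF hn D hopt
    have h2 := hF.big
    have : (10 : ℝ) ^ 49 ≤ (1 - 1 / 10 ^ 10) * 10 ^ 50 := by norm_num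
    have g3 : (1 - 1 / 10 ^ 10) * (10 : ℝ) ^ 50 ≤ (1 - 1 / 10 ^ 10) * t := by
      have : (0 : ℝ) ≤ 1 - 1 / 10 ^ 10 := by norm_num
      gcongr
    linarith
  w0 := wt2_nonneg D hF
  w1 := sys_w1 hm hF hn D hfin hgood hopt
  sum := rfl
  c0 := fun u => (W_le hm hF D hopt).trans (by exact_mod_cast hm.deg u)
  c1 := fun u L hL hu g b ha => sys_c1 hm hF hn D hfin hgood hopt u L hL hu g b ha
  c2 := sys_c2 hm hF hn D hfin hgood hopt
  c3 := sys_c3 hm hF hn D hfin hgood hopt hK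
  c5 := sys_c5 hm hF hn D hfin hgood hopt

end weights

end Pool.Agent.H466.AB
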