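import Pool.Agent.H466.AB.CDef
import Pool.Agent.H466.AB.Sys

set_option autoImplicit false

/-!
Soundness of the certificates.
-/

open Classical

namespace Pool.Agent.H466.AB.Crt

/-- Bernstein form of degree 2 -/
def E3 (s : ℝ) (f : ℕ → ℝ) : ℝ := (1 - s) ^ 2 * f 0 + 2 * s * (1 - s) * f 1 + s ^ 2 * f 2

def EE (s r : ℝ) (M : ℕ → ℕ → ℝ) : ℝ := E3 s (fun i => E3 r (fun j => M i j))

theorem E3_lin (s : ℝ) (x y : ℤ) :
    E3 s (fun i => (lin x y i : ℝ)) = 2 * ((1 - s) * x + s * y) := by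
  simp only [E3, lin]; push_cast; ring

theorem E3_prd (s : ℝ) (x0 x1 y0 y1 : ℤ) : E3 s (fun i => (prd x0 x1 y0 y1 i : ℝ)) =
    2 * ((1 - s) * x0 + s * x1) * ((1 - s) * y0 + s * y1) := by
  simp only [E3, prd]; push_cast; ring

theorem E3_add (s : ℝ) (f g : ℕ → ℝ) : E3 s (fun i => f i + g i) = E3 s f + E3 s g := by
  simp only [E3]; ring

theorem E3_smul (s c : ℝ) (f : ℕ → ℝ) : E3 s (fun i => c * f i) = c * E3 s f := by
  simp only [E3]; ring

theorem E3_ge (s : ℝ) (hs0 : 0 ≤ s) (hs1 : s ≤ 1) (f : ℕ → ℝ) (c : ℝ) (h0 : c ≤ f 0)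
    (h1 : c ≤ f 1) (h2 : c ≤ f 2) : c ≤ E3 s f := by
  have e : E3 s f - c = (1 - s) ^ 2 * (f 0 - c) + 2 * s * (1 - s) * (f 1 - c) + s ^ 2 * (f 2 - c) := by
    simp only [E3]; ring
  have g1 : 0 ≤ 1 - s := by linarith
  have g2 : 0 ≤ f 0 - c := by linarith
  have g3 : 0 ≤ f 1 - c := by linarith
  have g4 : 0 ≤ f 2 - c := by linarith
  have : 0 ≤ (1 - s) ^ 2 * (f 0 - c) + 2 * s * (1 - s) * (f 1 - c) + s ^ 2 * (f 2 - c) := by positivity
  linarith

theorem EE_mul (s r : ℝ) (f g : ℕ → ℝ) : EE s r (fun i j => f i * g j) = E3 s f * E3 r g := by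
  simp only [EE, E3]; ring

theorem EE_left (s r : ℝ) (f : ℕ → ℝ) : EE s r (fun i _ => f i) = E3 s f := by
  simp only [EE, E3]; ring

theorem EE_add (s r : ℝ) (M N : ℕ → ℕ → ℝ) :
    EE s r (fun i j => M i j + N i j) = EE s r M + EE s r N := by
  simp only [EE, E3]; ring

theorem EE_sub (s r : ℝ) (M N : ℕ → ℕ → ℝ) :
    EE s r (fun i j => M i j - N i j) = EE s r M - EE s r N := by
  simp only [EE, E3]; ring

theorem EE_smul (s r c : ℝ) (M : ℕ → ℕ → ℝ) :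
    EE s r (fun i j => c * M i j) = c * EE s r M := by
  simp only [EE, E3]; ring

theorem EE_swap (s r : ℝ) (M : ℕ → ℕ → ℝ) : EE s r M = EE r s (fun i j => M j i) := by
  simp only [EE, E3]; ring

theorem EE_zero (s r : ℝ) : EE s r (fun _ _ => 0) = 0 := by
  simp only [EE, E3]; ring

theorem EE_ge (s r : ℝ) (hs0 : 0 ≤ s) (hs1 : s ≤ 1) (hr0 : 0 ≤ r) (hr1 : r ≤ 1)
    (M : ℕ → ℕ → ℝ) (c : ℝ) (h : ∀ i j, i < 3 → j < 3 → c ≤ M i j) : c ≤ EE s r M :=
  E3_ge s hs0 hs1 _ c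
    (E3_ge r hr0 hr1 _ c (h 0 0 (by norm_num) (by norm_num)) (h 0 1 (by norm_num) (by norm_num))
      (h 0 2 (by norm_num) (by norm_num)))
    (E3_ge r hr0 hr1 _ c (h 1 0 (by norm_num) (by norm_num)) (h 1 1 (by norm_num) (by norm_num))
      (h 1 2 (by norm_num) (by norm_num)))
    (E3_ge r hr0 hr1 _ c (h 2 0 (by norm_num) (by norm_num)) (h 2 1 (by norm_num) (by norm_num))
      (h 2 2 (by norm_num) (by norm_num)))

/-- the value of a linear function -/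
def lv (s : ℝ) (x y : ℤ) : ℝ := (1 - s) * x + s * y

theorem E3_lin' (s : ℝ) (x y : ℤ) : E3 s (fun i => (lin x y i : ℝ)) = 2 * lv s x y := E3_lin s x y

theorem E3_prd' (s : ℝ) (x0 x1 y0 y1 : ℤ) : E3 s (fun i => (prd x0 x1 y0 y1 i : ℝ)) =
    2 * lv s x0 x1 * lv s y0 y1 := E3_prd s x0 x1 y0 y1

def wh (k : ℕ) (s : ℝ) : ℝ := lv s (A k) (A (k + 1))
def qh (k : ℕ) (s : ℝ) : ℝ := lv s (Q k) (Q (k + 1))
def ph (k : ℕ) (s : ℝ) : ℝ := lv s (Q k ^ 4) (Q (k + 1) ^ 4)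

noncomputable def BlR (k : ℕ) (s : ℝ) : List Cut → ℝ
  | [] => 0
  | c :: cs => 2 * lv s c.m0 c.m1 * (240000 ^ 2 - (240000 - wh k s) * ((c.g : ℝ) + c.b)) + BlR k s cs

noncomputable def TlR (k : ℕ) (s : ℝ) (l : ℕ) (w' : ℝ) : List Cut → ℝ
  | [] => 0
  | c :: cs => (if c.j ≤ l then 2 * 240000 ^ 2 * (2 * lv s c.m0 c.m1 * wh k s) else
      2 * lv s c.m0 c.m1 * (240000 ^ 2 - (240000 - wh k s) * (c.g : ℝ)) * (2 * w')) +
      TlR k s l w' cs

noncomputable def HlR (k : ℕ) (s : ℝ) (l : ℕ) (w' : ℝ) : List (ℤ × ℤ × List (ℤ × ℤ)) → ℝ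
  | [] => 0
  | x :: xs => 2 * lv s (x.2.2.getD k (0, 0)).1 (x.2.2.getD k (0, 0)).2 *
      (2 * ((x.2.1 : ℝ) * w' + if 9 ≤ l then ((x.1 : ℝ) * w' - 240000 ^ 2) else 0)) + HlR k s l w' xs

theorem E3_Bl (k : ℕ) (s : ℝ) (cs : List Cut) :
    E3 s (fun i => (Bl (A k) (A (k + 1)) i cs : ℝ)) = BlR k s cs := by
  induction cs with
  | nil => simp only [Bl, BlR, E3]; push_cast; ring
  | cons c cs ih =>
    simp only [Bl, BlR]
    rw [← ih]
    push_cast
    rw [E3_add, E3_prd']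
    congr 1
    have : lv s (Mn c.g c.b (A k)) (Mn c.g c.b (A (k + 1))) =
        240000 ^ 2 - (240000 - wh k s) * ((c.g : ℝ) + c.b) := by
      simp only [lv, Mn, wh, Dn]; push_cast; ring
    rw [this]

theorem EE_Tl (k : ℕ) (s : ℝ) (l : ℕ) (r : ℝ) (cs : List Cut) :
    EE s r (fun i j => (Tl (A k) (A (k + 1)) l (wc l j) i cs : ℝ)) = TlR k s l (wh l r) cs := by
  induction cs with
  | nil => simp only [Tl, TlR]; push_cast; exact EE_zero s r
  | cons c cs ih =>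
    simp only [Tl, TlR]
    rw [← ih]
    push_cast
    rw [EE_add]
    congr 1
    by_cases hj : c.j ≤ l
    · simp only [if_pos hj]
      rw [EE_smul, EE_left, E3_prd']
      simp only [wh, Dn]
      push_cast
      ring
    · simp only [if_neg hj]
      rw [EE_mul, E3_prd']
      have h1 : lv s (gn c.g (A k)) (gn c.g (A (k + 1))) =
          240000 ^ 2 - (240000 - wh k s) * (c.g : ℝ) := by
        simp only [lv, gn, wh, Dn]; push_cast; ring
      have h2 : E3 r (fun j => (wc l j : ℝ)) = 2 * wh l r := E3_lin' r _ _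
      rw [h1, h2]

theorem EE_Hl (k : ℕ) (s : ℝ) (l : ℕ) (r : ℝ) (xs : List (ℤ × ℤ × List (ℤ × ℤ))) :
    EE s r (fun i j => (Hl k l i j xs : ℝ)) = HlR k s l (wh l r) xs := by
  induction xs with
  | nil => simp only [Hl, HlR]; push_cast; exact EE_zero s r
  | cons x xs ih =>
    simp only [Hl, HlR]
    rw [← ih]
    push_cast
    rw [EE_add, EE_mul, E3_lin']
    congr 2
    unfold lh
    by_cases h9 : 9 ≤ l
    · simp only [if_pos h9]
      rw [E3_lin']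
      simp only [lv, wh, Dn]; push_cast; ring
    · simp only [if_neg h9]
      rw [E3_lin']
      simp only [lv, wh]; push_cast; ring

noncomputable def m0h (d : Dat) (k : ℕ) (s : ℝ) : ℝ :=
  lv s (d.mu.getD k (0, 0)).1 (d.mu.getD k (0, 0)).2
noncomputable def r1h (d : Dat) (k : ℕ) (s : ℝ) : ℝ :=
  lv s (d.r1.getD k (0, 0)).1 (d.r1.getD k (0, 0)).2
noncomputable def r2h (d : Dat) (k : ℕ) (s : ℝ) : ℝ :=
  lv s (d.r2.getD k (0, 0)).1 (d.r2.getD k (0, 0)).2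

noncomputable def BhR (d : Dat) (k : ℕ) (s : ℝ) : ℝ :=
  240000 ^ 2 * (2 * m0h d k s) + BlR k s (d.cuts.getD k [])

noncomputable def ThR (d : Dat) (k : ℕ) (s : ℝ) (l : ℕ) (r : ℝ) : ℝ :=
  2 * 240000 ^ 3 * (2 * m0h d k s) + TlR k s l (wh l r) (d.cuts.getD k [])

noncomputable def RhR (d : Dat) (k : ℕ) (s : ℝ) (l : ℕ) (r : ℝ) : ℝ :=
  2 * r1h d k s * (2 * (240000 * qh l r - d.Q1 * wh l r)) +
    2 * r2h d k s * (2 * (d.Q2 * wh l r - 240000 * qh l r)) + HlR k s l (wh l r) d.rh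

theorem EE_T (d : Dat) (k : ℕ) (s : ℝ) (l : ℕ) (r : ℝ) :
    EE s r (fun i j => (Tc d k l i j : ℝ)) = ThR d k s l r := by
  unfold Tc ThR
  rw [← EE_Tl]
  push_cast
  rw [EE_add, EE_smul, EE_left, E3_lin']
  simp only [Dn, m0h]
  push_cast
  ring

theorem E3_B (d : Dat) (k : ℕ) (s : ℝ) : E3 s (fun i => (Bc d k i : ℝ)) = BhR d k s := by
  unfold Bc BhR
  rw [← E3_Bl]
  push_cast
  rw [E3_add, E3_smul, E3_lin']
  simp only [Dn, m0h]
  push_cast
  ring

theorem EE_R (d : Dat) (k : ℕ) (s : ℝ) (l : ℕ) (r : ℝ) :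
    EE s r (fun i j => (RL d k l i j : ℝ)) = RhR d k s l r := by
  unfold RL RhR
  rw [← EE_Hl]
  push_cast
  rw [EE_add, EE_add, EE_mul, EE_mul, E3_lin', E3_lin']
  have h1 : E3 r (fun j => (l1 d.Q1 l j : ℝ)) = 2 * (240000 * qh l r - d.Q1 * wh l r) := by
    unfold l1
    rw [E3_lin']
    simp only [lv, qh, wh, Dn]; push_cast; ring
  have h2 : E3 r (fun j => (l2 d.Q2 l j : ℝ)) = 2 * (d.Q2 * wh l r - 240000 * qh l r) := by
    unfold l2
    rw [E3_lin']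
    simp only [lv, qh, wh, Dn]; push_cast; ring
  rw [h1, h2]
  rfl

/-- real form of the two parts -/
noncomputable def XR (d : Dat) (k : ℕ) (s : ℝ) (l : ℕ) (r : ℝ) : ℝ :=
  (mm d : ℝ) * 240000 ^ 3 * (BhR d k s * (2 * wh l r)) -
    448 * ((d.m : ℝ) - 2) * 240000 ^ 5 * ((2 * qh k s) * (2 * qh l r)) -
    ((d.m : ℝ) - 2) * ((d.m : ℝ) - 3) * ((d.m : ℝ) * ((d.m : ℝ) - 1)) *
      ((2 * ((d.al : ℝ) * wh k s - d.be * qh k s)) * (2 * wh l r * ph l r)) -
    (mm d : ℝ) * 240000 ^ 4 * RhR d k s l r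

noncomputable def YR (d : Dat) (k : ℕ) (s : ℝ) (l : ℕ) (r : ℝ) : ℝ :=
  (mm d : ℝ) * 240000 ^ 3 * (240000 ^ 2 * ((2 * qh k s) * (2 * qh l r)) - ThR d k s l r)

theorem EE_X (d : Dat) (k : ℕ) (s : ℝ) (l : ℕ) (r : ℝ) :
    EE s r (fun i j => (Xf d k l i j : ℝ)) = XR d k s l r := by
  have e1 : ∀ i j, (Xf d k l i j : ℝ) =
      ((mm d : ℝ) * 240000 ^ 3) * ((Bc d k i : ℝ) * (wc l j : ℝ)) -
      (448 * ((d.m : ℝ) - 2) * 240000 ^ 5) * ((qc k i : ℝ) * (qc l j : ℝ)) -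
      (((d.m : ℝ) - 2) * ((d.m : ℝ) - 3) * ((d.m : ℝ) * ((d.m : ℝ) - 1))) *
        ((Cc d.al d.be k i : ℝ) * (Pc l j : ℝ)) -
      ((mm d : ℝ) * 240000 ^ 4) * (RL d k l i j : ℝ) := by
    intro i j
    unfold Xf Dn
    push_cast
    ring
  have e2 : (fun i j => (Xf d k l i j : ℝ)) = fun i j =>
      ((mm d : ℝ) * 240000 ^ 3) * ((Bc d k i : ℝ) * (wc l j : ℝ)) -
      (448 * ((d.m : ℝ) - 2) * 240000 ^ 5) * ((qc k i : ℝ) * (qc l j : ℝ)) -
      (((d.m : ℝ) - 2) * ((d.m : ℝ) - 3) * ((d.m : ℝ) * ((d.m : ℝ) - 1))) *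
        ((Cc d.al d.be k i : ℝ) * (Pc l j : ℝ)) -
      ((mm d : ℝ) * 240000 ^ 4) * (RL d k l i j : ℝ) := by
    funext i j; exact e1 i j
  rw [e2, EE_sub, EE_sub, EE_sub, EE_smul, EE_smul, EE_smul, EE_smul, EE_mul, EE_mul, EE_mul, EE_R,
    E3_B]
  have h1 : E3 r (fun j => (wc l j : ℝ)) = 2 * wh l r := E3_lin' r _ _
  have h2 : ∀ k s, E3 s (fun j => (qc k j : ℝ)) = 2 * qh k s := fun k s => E3_lin' s _ _
  have h3 : E3 r (fun j => (Pc l j : ℝ)) = 2 * wh l r * ph l r := E3_prd' r _ _ _ _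
  have h4 : E3 s (fun j => (Cc d.al d.be k j : ℝ)) = 2 * ((d.al : ℝ) * wh k s - d.be * qh k s) := by
    unfold Cc
    rw [E3_lin']
    simp only [lv, qh, wh]; push_cast; ring
  rw [h1, h2, h2, h3, h4]
  rfl

theorem EE_Y (d : Dat) (k : ℕ) (s : ℝ) (l : ℕ) (r : ℝ) :
    EE s r (fun i j => (Yf d k l i j : ℝ)) = YR d k s l r := by
  have e2 : (fun i j => (Yf d k l i j : ℝ)) = fun i j =>
      ((mm d : ℝ) * 240000 ^ 3) * (240000 ^ 2 * ((qc k i : ℝ) * (qc l j : ℝ)) - (Tc d k l i j : ℝ)) := by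
    funext i j
    unfold Yf Dn
    push_cast
    ring
  have h2 : ∀ k s, E3 s (fun j => (qc k j : ℝ)) = 2 * qh k s := fun k s => E3_lin' s _ _
  rw [e2, EE_smul, EE_sub, EE_smul, EE_mul, EE_T, h2, h2]
  rfl

/-! ## unpacking the check -/

theorem nonneg_iff (x : ℤ) : nonneg x = true ↔ 0 ≤ x := by
  cases x with
  | ofNat n => simp [nonneg]
  | negSucc n =>
    simp only [nonneg, Bool.false_eq_true, false_iff, not_le]
    exact Int.negSucc_lt_zero n

theorem pos2_getD {l : List (ℤ × ℤ)} (h : ∀ x ∈ l, pos2 x = true) (k : ℕ) :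
    0 ≤ (l.getD k (0, 0)).1 ∧ 0 ≤ (l.getD k (0, 0)).2 := by
  rw [List.getD_eq_getElem?_getD]
  cases hk : l[k]? with
  | none => simp
  | some x =>
    have hx : x ∈ l := List.mem_of_getElem? hk
    have := h x hx
    simp only [pos2, Bool.and_eq_true, nonneg_iff] at this
    simpa using this

theorem lv_nonneg {s : ℝ} (h0 : 0 ≤ s) (h1 : s ≤ 1) {x y : ℤ} (hx : 0 ≤ x) (hy : 0 ≤ y) :
    0 ≤ lv s x y := by
  unfold lv
  have : (0 : ℝ) ≤ x := by exact_mod_cast hx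
  have : (0 : ℝ) ≤ y := by exact_mod_cast hy
  have : 0 ≤ 1 - s := by linarith
  positivity

theorem chk_all {d : Dat} (hd : chkAll d = true) (k l i j : ℕ) (hk : k < 18) (hl : l < 18)
    (hi : i < 3) (hj : j < 3) :
    0 ≤ Xf d k l i j + Xf d l k j i - dl d + (Yf d k l i j + Yf d l k j i) ∧
      ((1 ≤ k ∧ 1 ≤ l ∧ 0 ≤ A k + A l - Dn) ∨ 0 ≤ Xf d k l i j + Xf d l k j i - dl d) := by
  have base : ∀ k l i j, k < 18 → l < k + 1 → i < 3 → j < 3 → chk1 d k l i j = true := by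
    intro k l i j hk hl hi hj
    unfold chkAll at hd
    rw [List.all_eq_true] at hd
    have h1 := hd k (List.mem_range.2 hk)
    rw [List.all_eq_true] at h1
    have h2 := h1 l (List.mem_range.2 hl)
    simp only [chkP, Bool.and_eq_true] at h2
    interval_cases i <;> interval_cases j <;> simp_all
  have fin : ∀ k l i j, chk1 d k l i j = true →
      0 ≤ Xf d k l i j + Xf d l k j i - dl d + (Yf d k l i j + Yf d l k j i) ∧
      ((1 ≤ k ∧ 1 ≤ l ∧ 0 ≤ A k + A l - Dn) ∨ 0 ≤ Xf d k l i j + Xf d l k j i - dl d) := by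
    intro k l i j h
    simp only [chk1, Bool.and_eq_true, Bool.or_eq_true, nonneg_iff, decide_eq_true_eq] at h
    obtain ⟨h1, h2⟩ := h
    refine ⟨h1, ?_⟩
    rcases h2 with ⟨⟨a, b⟩, c⟩ | h2
    · exact Or.inl ⟨a, b, c⟩
    · exact Or.inr h2
  by_cases hlk : l < k + 1
  · exact fin k l i j (base k l i j hk hlk hi hj)
  · obtain ⟨h1, h2⟩ := fin l k j i (base l k j i hl (by omega) hj hi)
    refine ⟨by linarith, ?_⟩
    rcases h2 with ⟨a, b, c⟩ | h2
    · exact Or.inl ⟨b, a, by linarith⟩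
    · right; linarith

theorem A_mono (i j : ℕ) (hij : i ≤ j) (hj : j ≤ 18) : A i ≤ A j := by
  have : ∀ j < 19, ∀ i < j + 1, A i ≤ A j := by decide +kernel
  exact this j (by omega) i (by omega)

theorem Q_bd (i : ℕ) (hi : i ≤ 18) : 240000 ≤ Q i ∧ Q i ≤ 480000 := by
  have : ∀ i < 19, 240000 ≤ Q i ∧ Q i ≤ 480000 := by decide +kernel
  exact this i (by omega)

theorem inv_sq_chord {al be a b x : ℝ} (ha : 0 < a) (hab : a < b) (h1 : 1 ≤ a ^ 2 * (al - be * a))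
    (h2 : 1 ≤ b ^ 2 * (al - be * b)) (hx1 : a ≤ x) (hx2 : x ≤ b) : 1 ≤ x ^ 2 * (al - be * x) := by
  have hb : 0 < b := ha.trans hab
  have hx : 0 < x := lt_of_lt_of_le ha hx1
  -- multiply everything by a^2 b^2 (b-a)
  have e1 : 1 / a ^ 2 ≤ al - be * a := by
    rw [div_le_iff₀ (by positivity)]; linarith
  have e2 : 1 / b ^ 2 ≤ al - be * b := by
    rw [div_le_iff₀ (by positivity)]; linarith
  have hconv := (convexOn_zpow (𝕜 := ℝ) (-2)).2 (show a ∈ Set.Ioi (0 : ℝ) from ha)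
    (show b ∈ Set.Ioi (0 : ℝ) from hb) (show 0 ≤ (b - x) / (b - a) from
      div_nonneg (by linarith) (by linarith)) (show 0 ≤ (x - a) / (b - a) from
      div_nonneg (by linarith) (by linarith)) (by
        rw [← add_div]
        have : b - x + (x - a) = b - a := by ring
        rw [this, div_self (by linarith)])
  have hba : b - a ≠ 0 := by linarith
  have hxe : (b - x) / (b - a) * a + (x - a) / (b - a) * b = x := by
    field_simp
    ring
  simp only [smul_eq_mul] at hconv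
  rw [hxe] at hconv
  have z : ∀ y : ℝ, y ^ (-2 : ℤ) = 1 / y ^ 2 := by
    intro y
    rw [zpow_neg]
    norm_cast
    rw [one_div]
  rw [z, z, z] at hconv
  have e3 : (b - x) / (b - a) * (1 / a ^ 2) + (x - a) / (b - a) * (1 / b ^ 2) ≤ al - be * x := by
    have g1 : (b - x) / (b - a) * (1 / a ^ 2) ≤ (b - x) / (b - a) * (al - be * a) :=
      mul_le_mul_of_nonneg_left e1 (div_nonneg (by linarith) (by linarith))
    have g2 : (x - a) / (b - a) * (1 / b ^ 2) ≤ (x - a) / (b - a) * (al - be * b) :=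
      mul_le_mul_of_nonneg_left e2 (div_nonneg (by linarith) (by linarith))
    have g3 : (b - x) / (b - a) * (al - be * a) + (x - a) / (b - a) * (al - be * b) =
        al - be * x := by
      have s1 : (b - x) / (b - a) + (x - a) / (b - a) = 1 := by
        rw [← add_div]
        have : b - x + (x - a) = b - a := by ring
        rw [this, div_self hba]
      calc (b - x) / (b - a) * (al - be * a) + (x - a) / (b - a) * (al - be * b)
          = al * ((b - x) / (b - a) + (x - a) / (b - a)) -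
            be * ((b - x) / (b - a) * a + (x - a) / (b - a) * b) := by ring
        _ = al - be * x := by rw [s1, hxe]; ring
    linarith
  have e4 : 1 / x ^ 2 ≤ al - be * x := hconv.trans e3
  rw [div_le_iff₀ (by positivity)] at e4
  linarith

end Pool.Agent.H466.AB.Crt
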