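import Pool.Agent.H466.AB.Cert

set_option autoImplicit false

/-!
Soundness of the certificates, summation.
-/

open Classical

namespace Pool.Agent.H466.AB.Crt

variable {V : Type} [Fintype V] {G : SimpleGraph V} {w : V → ℝ} {W : ℝ}

theorem cn_symm {u v : V} : v ∈ cn G u ↔ u ∈ cn G v := by
  rw [mem_cn, mem_cn]
  constructor
  · rintro (h | h)
    · exact Or.inl h.symm
    · exact Or.inr h.symm
  · rintro (h | h)
    · exact Or.inl h.symm
    · exact Or.inr h.symm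

section

variable (h : Sys G w W) (k : V → ℕ) (s : V → ℝ) (hk : ∀ v, k v < 18) (hs0 : ∀ v, 0 ≤ s v)
  (hs1 : ∀ v, s v ≤ 1) (hw : ∀ v, wh (k v) (s v) = 240000 * w v)
  (hgt : ∀ v, 1 ≤ k v → (A (k v) : ℝ) < 240000 * w v)

include h hs0 hs1 hw in
theorem cut_sum (u : V) (cs : List Cut) (hcs : ∀ c ∈ cs, chkCut (k u) c = true) :
    BlR (k u) (s u) cs * (2 * (240000 * W)) ≤
      ∑ v ∈ cn G u, TlR (k u) (s u) (k v) (wh (k v) (s v)) cs := by
  induction cs with
  | nil => simp [BlR, TlR]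
  | cons c cs ih =>
    have ih' := ih (fun c hc => hcs c (List.mem_cons_of_mem _ hc))
    have hc := hcs c List.mem_cons_self
    simp only [chkCut, Bool.and_eq_true, nonneg_iff, decide_eq_true_eq, Dn] at hc
    obtain ⟨⟨⟨⟨⟨⟨⟨hj, hg0⟩, hg1⟩, hb0⟩, hb1⟩, hgb⟩, hm0⟩, hm1⟩ := hc
    simp only [BlR, TlR]
    rw [Finset.sum_add_distrib, add_mul]
    refine add_le_add ?_ ih'
    have hμ : 0 ≤ lv (s u) c.m0 c.m1 := lv_nonneg (hs0 u) (hs1 u) hm0 hm1
    set μ := lv (s u) c.m0 c.m1 with hμd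
    -- the inequality c1
    have hg0' : (1 : ℝ) ≤ c.g := by exact_mod_cast (by linarith : (1 : ℤ) ≤ c.g)
    have hg1' : (c.g : ℝ) ≤ 24000000 := by exact_mod_cast (by linarith : c.g ≤ (24000000 : ℤ))
    have hb0' : (1 : ℝ) ≤ c.b := by exact_mod_cast (by linarith : (1 : ℤ) ≤ c.b)
    have hb1' : (c.b : ℝ) ≤ 2400000 := by exact_mod_cast (by linarith : c.b ≤ (2400000 : ℤ))
    have hgb' : (2701 : ℝ) * 240000 ^ 4 ≤ 25600 * c.g * c.b ^ 3 := by
      exact_mod_cast (by linarith : (2701 : ℤ) * 240000 ^ 4 ≤ 25600 * c.g * c.b ^ 3)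
    have ha : adm ((c.g : ℝ) / 240000) ((c.b : ℝ) / 240000) := by
      refine ⟨by positivity, ?_, by positivity, ?_, ?_⟩
      · rw [div_le_iff₀ (by norm_num)]; linarith
      · rw [div_le_iff₀ (by norm_num)]; linarith
      · have : 256 * ((c.g : ℝ) / 240000) * ((c.b : ℝ) / 240000) ^ 3 =
            (25600 * c.g * c.b ^ 3) / (100 * 240000 ^ 4) := by ring
        rw [this, le_div_iff₀ (by positivity)]
        linarith
    set L := (cn G u).filter (fun v => k v < c.j) with hL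
    have hLs : L ⊆ cn G u := Finset.filter_subset _ _
    have huL : u ∈ L := Finset.mem_filter.2 ⟨mem_cn.2 (Or.inl rfl), hj⟩
    have h1 := h.c1 u L hLs huL _ _ ha
    have hK : cn G u \ L = (cn G u).filter (fun v => c.j ≤ k v) := by
      ext v
      rw [Finset.mem_sdiff, hL, Finset.mem_filter, Finset.mem_filter]
      constructor
      · rintro ⟨a, b⟩
        refine ⟨a, ?_⟩
        by_contra hc
        exact b ⟨a, by omega⟩
      · rintro ⟨a, b⟩
        exact ⟨a, fun h => by omega⟩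
    have hsum : ∑ v ∈ cn G u, (if c.j ≤ k v then 2 * 240000 ^ 2 * (2 * μ * wh (k u) (s u)) else
        2 * μ * (240000 ^ 2 - (240000 - wh (k u) (s u)) * (c.g : ℝ)) * (2 * wh (k v) (s v))) =
        ((cn G u \ L).card : ℝ) * (2 * 240000 ^ 2 * (2 * μ * wh (k u) (s u))) +
        2 * μ * (240000 ^ 2 - (240000 - wh (k u) (s u)) * (c.g : ℝ)) * (2 * (240000 * ∑ v ∈ L, w v)) := by
      rw [Finset.sum_ite, ← hK, Finset.sum_const, nsmul_eq_mul]
      congr 1
      have : (cn G u).filter (fun v => ¬ c.j ≤ k v) = L := by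
        rw [hL]
        refine Finset.filter_congr fun v _ => ?_
        exact not_le
      rw [this, Finset.mul_sum, Finset.mul_sum, Finset.mul_sum]
      refine Finset.sum_congr rfl fun v _ => ?_
      rw [hw v]
    rw [hsum, hw u]
    have h2 : W ≤ ∑ v ∈ L, w v + w u * ((cn G u \ L).card : ℝ) +
        (1 - w u) * ((c.b : ℝ) / 240000 * W + (c.g : ℝ) / 240000 * (W - ∑ v ∈ L, w v)) := h1
    have h3 := mul_le_mul_of_nonneg_left h2 (show 0 ≤ 4 * 240000 ^ 3 * μ by positivity)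
    have e1 : 4 * 240000 ^ 3 * μ * (∑ v ∈ L, w v + w u * ((cn G u \ L).card : ℝ) +
        (1 - w u) * ((c.b : ℝ) / 240000 * W + (c.g : ℝ) / 240000 * (W - ∑ v ∈ L, w v))) -
        4 * 240000 ^ 3 * μ * W =
        (((cn G u \ L).card : ℝ) * (2 * 240000 ^ 2 * (2 * μ * (240000 * w u))) +
        2 * μ * (240000 ^ 2 - (240000 - 240000 * w u) * (c.g : ℝ)) * (2 * (240000 * ∑ v ∈ L, w v))) -
        2 * μ * (240000 ^ 2 - (240000 - 240000 * w u) * ((c.g : ℝ) + c.b)) * (2 * (240000 * W)) := by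
      ring
    linarith

include h hs0 hs1 hw in
theorem T_sum (d : Dat) (u : V) (hcs : ∀ c ∈ d.cuts.getD (k u) [], chkCut (k u) c = true)
    (hmu : 0 ≤ m0h d (k u) (s u)) :
    BhR d (k u) (s u) * (2 * (240000 * W)) ≤
      ∑ v ∈ cn G u, ThR d (k u) (s u) (k v) (s v) := by
  unfold BhR ThR
  rw [Finset.sum_add_distrib, add_mul, Finset.sum_const, nsmul_eq_mul]
  refine add_le_add ?_ (cut_sum h k s hs0 hs1 hw u _ hcs)
  have h1 := mul_le_mul_of_nonneg_left (h.c0 u)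
    (show 0 ≤ 2 * 240000 ^ 3 * (2 * m0h d (k u) (s u)) by positivity)
  linarith

include hk hs0 hs1 hw hgt in
theorem half_iff (v : V) : 9 ≤ k v ↔ 1 / 2 < w v := by
  constructor
  · intro h9
    have h1 := hgt v (by omega)
    have h2 : A 9 ≤ A (k v) := A_mono 9 (k v) h9 (by have := hk v; omega)
    have h3 : A 9 = 120000 := by decide
    rw [h3] at h2
    have h4 : (120000 : ℝ) ≤ A (k v) := by exact_mod_cast h2
    linarith
  · intro hv
    by_contra hc
    push Not at hc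
    have h1 : A (k v) ≤ A 9 := A_mono _ 9 (by omega) (by norm_num)
    have h2 : A (k v + 1) ≤ A 9 := A_mono _ 9 (by omega) (by norm_num)
    have h3 : A 9 = 120000 := by decide
    rw [h3] at h1 h2
    have h4 : (A (k v) : ℝ) ≤ 120000 := by exact_mod_cast h1
    have h5 : (A (k v + 1) : ℝ) ≤ 120000 := by exact_mod_cast h2
    have h6 := hw v
    unfold wh lv at h6
    have h7 := hs0 v
    have h8 := hs1 v
    nlinarith [mul_le_mul_of_nonneg_left h4 (show 0 ≤ 1 - s v by linarith),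
      mul_le_mul_of_nonneg_left h5 h7]

include h hk hs0 hs1 hw hgt in
theorem H_sum (u : V) (xs : List (ℤ × ℤ × List (ℤ × ℤ))) (hxs : ∀ x ∈ xs, chkH x = true) :
    0 ≤ ∑ v, HlR (k u) (s u) (k v) (wh (k v) (s v)) xs := by
  induction xs with
  | nil => simp [HlR]
  | cons x xs ih =>
    have ih' := ih (fun c hc => hxs c (List.mem_cons_of_mem _ hc))
    have hc := hxs x List.mem_cons_self
    simp only [chkH, Bool.and_eq_true, nonneg_iff, Dn, List.all_eq_true] at hc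
    obtain ⟨⟨⟨⟨⟨hg0, hg1⟩, hb0⟩, hb1⟩, hgb⟩, hρ⟩ := hc
    simp only [HlR]
    rw [Finset.sum_add_distrib]
    refine add_nonneg ?_ ih'
    have hμ : 0 ≤ lv (s u) (x.2.2.getD (k u) (0, 0)).1 (x.2.2.getD (k u) (0, 0)).2 := by
      have := pos2_getD (l := x.2.2) (fun y hy => hρ y hy) (k u)
      exact lv_nonneg (hs0 u) (hs1 u) this.1 this.2
    rw [← Finset.mul_sum]
    refine mul_nonneg (by positivity) ?_
    rw [← Finset.mul_sum]
    refine mul_nonneg (by norm_num) ?_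
    have hg0' : (1 : ℝ) ≤ x.1 := by exact_mod_cast (by linarith : (1 : ℤ) ≤ x.1)
    have hg1' : (x.1 : ℝ) ≤ 24000000 := by exact_mod_cast (by linarith : x.1 ≤ (24000000 : ℤ))
    have hb0' : (1 : ℝ) ≤ x.2.1 := by exact_mod_cast (by linarith : (1 : ℤ) ≤ x.2.1)
    have hb1' : (x.2.1 : ℝ) ≤ 2400000 := by exact_mod_cast (by linarith : x.2.1 ≤ (2400000 : ℤ))
    have hgb' : (2701 : ℝ) * 240000 ^ 4 ≤ 25600 * x.1 * x.2.1 ^ 3 := by
      exact_mod_cast (by linarith : (2701 : ℤ) * 240000 ^ 4 ≤ 25600 * x.1 * x.2.1 ^ 3)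
    have ha : adm ((x.1 : ℝ) / 240000) ((x.2.1 : ℝ) / 240000) := by
      refine ⟨by positivity, ?_, by positivity, ?_, ?_⟩
      · rw [div_le_iff₀ (by norm_num)]; linarith
      · rw [div_le_iff₀ (by norm_num)]; linarith
      · have : 256 * ((x.1 : ℝ) / 240000) * ((x.2.1 : ℝ) / 240000) ^ 3 =
            (25600 * x.1 * x.2.1 ^ 3) / (100 * 240000 ^ 4) := by ring
        rw [this, le_div_iff₀ (by positivity)]
        linarith
    have h1 := h.c3 _ _ ha
    set H := Finset.univ.filter (fun v => 1 / 2 < w v) with hH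
    have hH2 : Finset.univ.filter (fun v => 9 ≤ k v) = H := by
      rw [hH]
      refine Finset.filter_congr fun v _ => ?_
      exact half_iff k s hk hs0 hs1 hw hgt v
    have e1 : ∑ v, ((x.2.1 : ℝ) * wh (k v) (s v) +
        if 9 ≤ k v then ((x.1 : ℝ) * wh (k v) (s v) - 240000 ^ 2) else 0) =
        240000 * ((x.2.1 : ℝ) * W) + (240000 * ((x.1 : ℝ) * ∑ v ∈ H, w v) - (H.card : ℝ) * 240000 ^ 2) := by
      rw [Finset.sum_add_distrib, ← Finset.mul_sum, ← Finset.sum_filter, hH2,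
        Finset.sum_sub_distrib, Finset.sum_const, nsmul_eq_mul, ← Finset.mul_sum]
      have e2 : ∀ T : Finset V, ∑ v ∈ T, wh (k v) (s v) = 240000 * ∑ v ∈ T, w v := by
        intro T
        rw [Finset.mul_sum]
        exact Finset.sum_congr rfl fun v _ => hw v
      rw [e2, e2, h.sum]
      ring
    rw [e1]
    have h2 := mul_le_mul_of_nonneg_left h1 (show (0 : ℝ) ≤ 240000 ^ 2 by positivity)
    have e3 : (240000 : ℝ) ^ 2 * ((x.2.1 : ℝ) / 240000 * W + (x.1 : ℝ) / 240000 * ∑ v ∈ H, w v) =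
        240000 * ((x.2.1 : ℝ) * W) + 240000 * ((x.1 : ℝ) * ∑ v ∈ H, w v) := by ring
    rw [e3] at h2
    linarith

end

theorem sound (d : Dat) (hd : check d = true) (h : Sys G w W) (k : V → ℕ) (s : V → ℝ)
    (hk : ∀ v, k v < 18) (hs0 : ∀ v, 0 ≤ s v) (hs1 : ∀ v, s v ≤ 1)
    (hw : ∀ v, wh (k v) (s v) = 240000 * w v)
    (hgt : ∀ v, 1 ≤ k v → (A (k v) : ℝ) < 240000 * w v) (S : ℝ)
    (hS : ∑ v, qh (k v) (s v) = 240000 * S) (hQ1 : d.Q1 * W ≤ 240000 * S)
    (hQ2 : 240000 * S ≤ d.Q2 * W) : False := by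
  simp only [check, Bool.and_eq_true, decide_eq_true_eq, nonneg_iff, chkQ, Dn] at hd
  obtain ⟨⟨⟨⟨⟨⟨⟨⟨⟨⟨⟨hall, hmu⟩, hr1⟩, hr2⟩, hrh⟩, hcuts⟩, hq1⟩, hq2⟩, hc1⟩, hc2⟩, hm4⟩, hm200⟩ := hd
  rw [List.all_eq_true] at hmu hr1 hr2 hrh hcuts
  have hWp := (lt_of_lt_of_le (by positivity) h.big : 0 < W)
  have hcard : W ≤ Fintype.card V := by
    rw [← h.sum]
    calc ∑ v, w v ≤ ∑ _v : V, (1 : ℝ) := Finset.sum_le_sum fun v _ => h.w1 v
      _ = _ := by rw [Finset.sum_const, nsmul_eq_mul, Finset.card_univ, mul_one]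
  set n : ℝ := (Fintype.card V : ℝ) with hn
  have hmr : (4 : ℝ) ≤ d.m := by exact_mod_cast hm4
  have hmm : (mm d : ℝ) = 64 * (d.m : ℝ) * ((d.m : ℝ) - 1) := by unfold mm; push_cast; ring
  have hmm0 : 0 < (mm d : ℝ) := by
    rw [hmm]
    have : 0 < (d.m : ℝ) - 1 := by linarith
    positivity
  -- the sampling density
  have hqb : ∀ v, 240000 ≤ qh (k v) (s v) ∧ qh (k v) (s v) ≤ 480000 := by
    intro v
    have h1 := Q_bd (k v) (by have := hk v; omega)
    have h2 := Q_bd (k v + 1) (by have := hk v; omega)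
    have a1 : (240000 : ℝ) ≤ Q (k v) := by exact_mod_cast h1.1
    have a2 : (Q (k v) : ℝ) ≤ 480000 := by exact_mod_cast h1.2
    have a3 : (240000 : ℝ) ≤ Q (k v + 1) := by exact_mod_cast h2.1
    have a4 : (Q (k v + 1) : ℝ) ≤ 480000 := by exact_mod_cast h2.2
    unfold qh lv
    have b1 := hs0 v
    have b2 : 0 ≤ 1 - s v := by linarith [hs1 v]
    constructor
    · nlinarith [mul_le_mul_of_nonneg_left a1 b2, mul_le_mul_of_nonneg_left a3 b1]
    · nlinarith [mul_le_mul_of_nonneg_left a2 b2, mul_le_mul_of_nonneg_left a4 b1]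
  set q : V → ℝ := fun v => qh (k v) (s v) / 240000 with hq
  have hqh : ∀ v, qh (k v) (s v) = 240000 * q v := by intro v; rw [hq]; ring
  have hqS : ∑ v, q v = S := by
    rw [hq]
    simp only
    rw [← Finset.sum_div, hS]
    field_simp
  have h5 := h.c5 d.m hm4 hm200 q (fun v => by
      rw [hq]; simp only; rw [le_div_iff₀ (by norm_num)]; linarith [(hqb v).1]) (fun v => by
      rw [hq]; simp only; rw [div_le_iff₀ (by norm_num)]; linarith [(hqb v).2])
  rw [hqS] at h5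
  set EQ := ∑ u, ∑ v ∈ cn G u, q u * q v with hEQ
  set X := ∑ v, w v * q v ^ 4 with hX
  have hX0 : 0 ≤ X := Finset.sum_nonneg fun v _ => mul_nonneg (h.w0 v) (by positivity)
  have hSn : n ≤ S := by
    rw [← hqS]
    calc n = ∑ _v : V, (1 : ℝ) := by rw [Finset.sum_const, nsmul_eq_mul, Finset.card_univ, mul_one]
      _ ≤ _ := Finset.sum_le_sum fun v _ => by
          rw [hq]; simp only; rw [le_div_iff₀ (by norm_num)]; linarith [(hqb v).1]
  have hS0 : 0 < S := by linarith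
  -- lower bound
  set E : V → V → ℝ := fun u v => if v ∈ cn G u then 1 else 0 with hE
  have hEs : ∀ u v, E u v = E v u := by
    intro u v
    rw [hE]
    simp only [cn_symm (u := u) (v := v)]
  set FR : V → V → ℝ := fun u v => XR d (k u) (s u) (k v) (s v) + E u v * YR d (k u) (s u) (k v) (s v)
    with hFR
  have hpt : ∀ u v, (dl d : ℝ) ≤ FR u v + FR v u := by
    intro u v
    have e1 : FR u v + FR v u = EE (s u) (s v) (fun i j =>
        ((Xf d (k u) (k v) i j : ℝ) + Xf d (k v) (k u) j i) +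
        E u v * ((Yf d (k u) (k v) i j : ℝ) + Yf d (k v) (k u) j i)) := by
      rw [EE_add, EE_add, EE_smul, EE_add, EE_X, EE_Y,
        EE_swap (s u) (s v) (fun i j => (Xf d (k v) (k u) j i : ℝ)),
        EE_swap (s u) (s v) (fun i j => (Yf d (k v) (k u) j i : ℝ))]
      have x1 := EE_X d (k v) (s v) (k u) (s u)
      have x2 := EE_Y d (k v) (s v) (k u) (s u)
      rw [x1, x2, hFR]
      simp only
      rw [hEs v u]
      ring
    rw [e1]
    refine EE_ge _ _ (hs0 u) (hs1 u) (hs0 v) (hs1 v) _ _ ?_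
    intro i j hi hj
    obtain ⟨g1, g2⟩ := chk_all hall (k u) (k v) i j (hk u) (hk v) hi hj
    by_cases hadj : v ∈ cn G u
    · rw [hE]
      simp only [if_pos hadj, one_mul]
      have g1' : (0 : ℝ) ≤ Xf d (k u) (k v) i j + Xf d (k v) (k u) j i - dl d +
          (Yf d (k u) (k v) i j + Yf d (k v) (k u) j i) := by exact_mod_cast g1
      linarith
    · rw [hE]
      simp only [if_neg hadj, zero_mul, add_zero]
      rcases g2 with ⟨a, b, c⟩ | g2
      · exfalso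
        apply hadj
        apply h.c2
        have c1 := hgt u a
        have c2 := hgt v b
        have c3 : (0 : ℝ) ≤ A (k u) + A (k v) - 240000 := by
          have : (0 : ℤ) ≤ A (k u) + A (k v) - 240000 := c
          exact_mod_cast this
        linarith
      · have g2' : (0 : ℝ) ≤ Xf d (k u) (k v) i j + Xf d (k v) (k u) j i - dl d := by
          exact_mod_cast g2
        linarith
  have hlow : (dl d : ℝ) * n ^ 2 ≤ 2 * ∑ u, ∑ v, FR u v := by
    have e1 : 2 * ∑ u, ∑ v, FR u v = ∑ u, ∑ v, (FR u v + FR v u) := by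
      simp only [Finset.sum_add_distrib]
      rw [Finset.sum_comm (f := fun u v => FR v u)]
      ring
    rw [e1]
    calc (dl d : ℝ) * n ^ 2 = ∑ _u : V, ∑ _v : V, (dl d : ℝ) := by
          simp only [Finset.sum_const, nsmul_eq_mul, Finset.card_univ]
          ring
      _ ≤ _ := Finset.sum_le_sum fun u _ => Finset.sum_le_sum fun v _ => hpt u v
  -- upper bound
  have hwhs : ∑ v, wh (k v) (s v) = 240000 * W := by
    rw [← h.sum, Finset.mul_sum]
    exact Finset.sum_congr rfl fun v _ => hw v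
  have hR0 : 0 ≤ ∑ u, ∑ v, RhR d (k u) (s u) (k v) (s v) := by
    refine Finset.sum_nonneg fun u _ => ?_
    unfold RhR
    rw [Finset.sum_add_distrib, Finset.sum_add_distrib]
    have g1 := pos2_getD (l := d.r1) (fun y hy => hr1 y hy) (k u)
    have g2 := pos2_getD (l := d.r2) (fun y hy => hr2 y hy) (k u)
    have g1' : 0 ≤ r1h d (k u) (s u) := lv_nonneg (hs0 u) (hs1 u) g1.1 g1.2
    have g2' : 0 ≤ r2h d (k u) (s u) := lv_nonneg (hs0 u) (hs1 u) g2.1 g2.2
    have s1 : ∑ v, (240000 * qh (k v) (s v) - d.Q1 * wh (k v) (s v)) =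
        240000 * (240000 * S - d.Q1 * W) := by
      rw [Finset.sum_sub_distrib, ← Finset.mul_sum, ← Finset.mul_sum, hS, hwhs]; ring
    have s2 : ∑ v, (d.Q2 * wh (k v) (s v) - 240000 * qh (k v) (s v)) =
        240000 * (d.Q2 * W - 240000 * S) := by
      rw [Finset.sum_sub_distrib, ← Finset.mul_sum, ← Finset.mul_sum, hS, hwhs]; ring
    refine add_nonneg (add_nonneg ?_ ?_) (H_sum h k s hk hs0 hs1 hw hgt u d.rh hrh)
    · rw [← Finset.mul_sum, ← Finset.mul_sum, s1]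
      have : 0 ≤ 240000 * S - d.Q1 * W := by linarith
      positivity
    · rw [← Finset.mul_sum, ← Finset.mul_sum, s2]
      have : 0 ≤ d.Q2 * W - 240000 * S := by linarith
      positivity
  have hT : ∑ u, BhR d (k u) (s u) * (2 * (240000 * W)) ≤
      ∑ u, ∑ v ∈ cn G u, ThR d (k u) (s u) (k v) (s v) := by
    refine Finset.sum_le_sum fun u _ => ?_
    refine T_sum h k s hs0 hs1 hw d u ?_ ?_
    · have := hcuts (k u) (List.mem_range.2 (hk u))
      rw [List.all_eq_true] at this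
      exact this
    · have g := pos2_getD (l := d.mu) (fun y hy => hmu y hy) (k u)
      exact lv_nonneg (hs0 u) (hs1 u) g.1 g.2
  have hP : 240000 ^ 5 * X ≤ ∑ v, wh (k v) (s v) * ph (k v) (s v) := by
    rw [hX, Finset.mul_sum]
    refine Finset.sum_le_sum fun v _ => ?_
    rw [hw v]
    have g1 : (240000 * q v) ^ 4 ≤ ph (k v) (s v) := by
      rw [← hqh v]
      unfold qh ph lv
      have a1 := Q_bd (k v) (by have := hk v; omega)
      have a2 := Q_bd (k v + 1) (by have := hk v; omega)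
      have b1 : (0 : ℝ) ≤ Q (k v) := by exact_mod_cast (by linarith [a1.1] : (0 : ℤ) ≤ Q (k v))
      have b2 : (0 : ℝ) ≤ Q (k v + 1) := by exact_mod_cast (by linarith [a2.1] : (0 : ℤ) ≤ Q (k v + 1))
      have := (convexOn_pow 4).2 (show (Q (k v) : ℝ) ∈ Set.Ici (0 : ℝ) from b1)
        (show (Q (k v + 1) : ℝ) ∈ Set.Ici (0 : ℝ) from b2)
        (show 0 ≤ 1 - s v by linarith [hs1 v]) (hs0 v) (by ring)
      simp only [smul_eq_mul] at this
      push_cast
      exact this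
    have g2 := mul_le_mul_of_nonneg_left g1 (show 0 ≤ 240000 * w v by
      have := h.w0 v; positivity)
    calc 240000 ^ 5 * (w v * q v ^ 4) = 240000 * w v * (240000 * q v) ^ 4 := by ring
      _ ≤ _ := g2
  have hXs : ∑ u, ∑ v, XR d (k u) (s u) (k v) (s v) =
      (mm d : ℝ) * 240000 ^ 3 * (∑ u, BhR d (k u) (s u) * (2 * (240000 * W))) -
      448 * ((d.m : ℝ) - 2) * 240000 ^ 5 * (4 * (240000 * S) ^ 2) -
      ((d.m : ℝ) - 2) * ((d.m : ℝ) - 3) * ((d.m : ℝ) * ((d.m : ℝ) - 1)) *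
        (4 * ((d.al : ℝ) * (240000 * W) - d.be * (240000 * S)) *
          (∑ v, wh (k v) (s v) * ph (k v) (s v))) -
      (mm d : ℝ) * 240000 ^ 4 * ∑ u, ∑ v, RhR d (k u) (s u) (k v) (s v) := by
    unfold XR
    simp only [Finset.sum_sub_distrib, ← Finset.mul_sum, ← Finset.sum_mul]
    rw [hwhs]
    have a1 : ∑ v, 2 * qh (k v) (s v) = 2 * (240000 * S) := by rw [← Finset.mul_sum, hS]
    have a3 : ∑ v, 2 * wh (k v) (s v) * ph (k v) (s v) =
        2 * ∑ v, wh (k v) (s v) * ph (k v) (s v) := by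
      rw [Finset.mul_sum]
      exact Finset.sum_congr rfl fun v _ => by ring
    rw [hS, a3]
    ring
  have hYs : ∑ u, ∑ v, E u v * YR d (k u) (s u) (k v) (s v) =
      (mm d : ℝ) * 240000 ^ 3 * (240000 ^ 4 * (4 * EQ) -
        ∑ u, ∑ v ∈ cn G u, ThR d (k u) (s u) (k v) (s v)) := by
    have e1 : ∀ u, ∑ v, E u v * YR d (k u) (s u) (k v) (s v) =
        ∑ v ∈ cn G u, YR d (k u) (s u) (k v) (s v) := by
      intro u
      rw [hE]
      simp only [ite_mul, one_mul, zero_mul]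
      rw [Finset.sum_ite_mem, Finset.univ_inter]
    rw [Finset.sum_congr rfl fun u _ => e1 u]
    have e3 : ∀ u, ∑ v ∈ cn G u, YR d (k u) (s u) (k v) (s v) = (mm d : ℝ) * 240000 ^ 3 *
        (240000 ^ 2 * (∑ v ∈ cn G u, 2 * qh (k u) (s u) * (2 * qh (k v) (s v))) -
          ∑ v ∈ cn G u, ThR d (k u) (s u) (k v) (s v)) := by
      intro u
      unfold YR
      rw [← Finset.mul_sum, Finset.sum_sub_distrib, ← Finset.mul_sum]
    rw [Finset.sum_congr rfl fun u _ => e3 u]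
    have e2 : ∑ u, ∑ v ∈ cn G u, 2 * qh (k u) (s u) * (2 * qh (k v) (s v)) =
        240000 ^ 2 * (4 * EQ) := by
      rw [hEQ]
      simp only [Finset.mul_sum]
      refine Finset.sum_congr rfl fun u _ => Finset.sum_congr rfl fun v _ => ?_
      rw [hqh u, hqh v]
      ring
    rw [← Finset.mul_sum, Finset.sum_sub_distrib, ← Finset.mul_sum, e2]
    ring
  -- chord
  have hch : (240000 : ℝ) * W ^ 3 ≤ S ^ 2 * ((d.al : ℝ) * W - d.be * S) := by
    have q1 : (1 : ℝ) ≤ d.Q1 := by exact_mod_cast (by linarith : (1 : ℤ) ≤ d.Q1)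
    have q2 : (d.Q1 : ℝ) + 1 ≤ d.Q2 := by exact_mod_cast (by linarith : d.Q1 + 1 ≤ d.Q2)
    have c1 : (240000 : ℝ) ^ 4 ≤ d.Q1 * d.Q1 * (d.al * 240000 - d.be * d.Q1) := by
      exact_mod_cast (by linarith : (240000 : ℤ) ^ 4 ≤ d.Q1 * d.Q1 * (d.al * 240000 - d.be * d.Q1))
    have c2 : (240000 : ℝ) ^ 4 ≤ d.Q2 * d.Q2 * (d.al * 240000 - d.be * d.Q2) := by
      exact_mod_cast (by linarith : (240000 : ℤ) ^ 4 ≤ d.Q2 * d.Q2 * (d.al * 240000 - d.be * d.Q2))
    have := inv_sq_chord (al := (d.al : ℝ) / 240000) (be := (d.be : ℝ) / 240000)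
      (a := (d.Q1 : ℝ) / 240000) (b := (d.Q2 : ℝ) / 240000) (x := S / W)
      (by positivity) (by
        rw [div_lt_div_iff_of_pos_right (by norm_num)]; linarith)
      (by
        have e : ((d.Q1 : ℝ) / 240000) ^ 2 * ((d.al : ℝ) / 240000 - (d.be : ℝ) / 240000 *
            ((d.Q1 : ℝ) / 240000)) =
            (d.Q1 * d.Q1 * (d.al * 240000 - d.be * d.Q1)) / 240000 ^ 4 := by ring
        rw [e, le_div_iff₀ (by positivity)]; linarith)
      (by
        have e : ((d.Q2 : ℝ) / 240000) ^ 2 * ((d.al : ℝ) / 240000 - (d.be : ℝ) / 240000 *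
            ((d.Q2 : ℝ) / 240000)) =
            (d.Q2 * d.Q2 * (d.al * 240000 - d.be * d.Q2)) / 240000 ^ 4 := by ring
        rw [e, le_div_iff₀ (by positivity)]; linarith)
      (by rw [div_le_div_iff₀ (by norm_num) hWp]; linarith)
      (by rw [div_le_div_iff₀ hWp (by norm_num)]; linarith)
    have e : (S / W) ^ 2 * ((d.al : ℝ) / 240000 - (d.be : ℝ) / 240000 * (S / W)) =
        (S ^ 2 * ((d.al : ℝ) * W - d.be * S)) / (240000 * W ^ 3) := by
      field_simp
    rw [e, le_div_iff₀ (by positivity)] at this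
    linarith
  -- conclusion
  have hFsum : ∑ u, ∑ v, FR u v = ∑ u, ∑ v, XR d (k u) (s u) (k v) (s v) +
      ∑ u, ∑ v, E u v * YR d (k u) (s u) (k v) (s v) := by
    rw [hFR]
    simp only [Finset.sum_add_distrib]
  rw [hFsum, hXs, hYs] at hlow
  have hdl : (dl d : ℝ) = 192 * 240000 ^ 6 * mm d := by unfold dl Dn; push_cast; ring
  rw [hdl] at hlow
  set c2 : ℝ := ((d.m : ℝ) - 2) * ((d.m : ℝ) - 3) * ((d.m : ℝ) * ((d.m : ℝ) - 1)) with hc2d
  have hc20 : 0 ≤ c2 := by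
    have : (0 : ℝ) ≤ (d.m : ℝ) - 2 := by linarith
    have : (0 : ℝ) ≤ (d.m : ℝ) - 3 := by linarith
    have : (0 : ℝ) ≤ (d.m : ℝ) - 1 := by linarith
    positivity
  set P := ∑ v, wh (k v) (s v) * ph (k v) (s v) with hPd
  set T := ∑ u, ∑ v ∈ cn G u, ThR d (k u) (s u) (k v) (s v) with hTd
  set B := ∑ u, BhR d (k u) (s u) * (2 * (240000 * W)) with hBd
  set RR := ∑ u, ∑ v, RhR d (k u) (s u) (k v) (s v) with hRd
  have k1 : (mm d : ℝ) * 240000 ^ 3 * B ≤ (mm d : ℝ) * 240000 ^ 3 * T := by gcongr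
  have k2 : 0 ≤ (mm d : ℝ) * 240000 ^ 4 * RR := by positivity
  have hal0 : 0 ≤ (d.al : ℝ) * W - d.be * S := by
    by_contra hcon
    push Not at hcon
    have : S ^ 2 * ((d.al : ℝ) * W - d.be * S) < 0 := mul_neg_of_pos_of_neg (by positivity) hcon
    have : 0 < (240000 : ℝ) * W ^ 3 := by positivity
    linarith
  have k3 : c2 * (4 * ((d.al : ℝ) * (240000 * W) - d.be * (240000 * S)) * (240000 ^ 5 * X)) ≤
      c2 * (4 * ((d.al : ℝ) * (240000 * W) - d.be * (240000 * S)) * P) := by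
    have : 0 ≤ (d.al : ℝ) * (240000 * W) - d.be * (240000 * S) := by
      have : (d.al : ℝ) * (240000 * W) - d.be * (240000 * S) = 240000 * ((d.al : ℝ) * W - d.be * S) := by
        ring
      rw [this]; positivity
    gcongr
  have k4 : 192 * 240000 ^ 6 * (mm d : ℝ) * n ^ 2 ≤ 2 * ((mm d : ℝ) * 240000 ^ 7 * (4 * EQ) -
      448 * ((d.m : ℝ) - 2) * 240000 ^ 5 * (4 * (240000 * S) ^ 2) -
      c2 * (4 * ((d.al : ℝ) * (240000 * W) - d.be * (240000 * S)) * (240000 ^ 5 * X))) := by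
    linarith
  have k5 : 192 * 240000 ^ 6 * (mm d : ℝ) * n ^ 2 * S ^ 2 ≤
      (2 * ((mm d : ℝ) * 240000 ^ 7 * (4 * EQ) -
      448 * ((d.m : ℝ) - 2) * 240000 ^ 5 * (4 * (240000 * S) ^ 2) -
      c2 * (4 * ((d.al : ℝ) * (240000 * W) - d.be * (240000 * S)) * (240000 ^ 5 * X)))) * S ^ 2 := by
    gcongr
  have k6 : c2 * (8 * 240000 ^ 6 * X) * (240000 * W ^ 3) ≤
      c2 * (8 * 240000 ^ 6 * X) * (S ^ 2 * ((d.al : ℝ) * W - d.be * S)) := by gcongr
  have k7 : (mm d : ℝ) * (S ^ 2 * EQ) ≤ 448 * ((d.m : ℝ) - 2) * S ^ 4 + c2 * W ^ 3 * X +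
      (mm d : ℝ) * (1 / 10 ^ 5 * W ^ 2 * S ^ 2) := by
    have := mul_le_mul_of_nonneg_left h5 hmm0.le
    refine this.trans (le_of_eq ?_)
    rw [hmm, hc2d]
    have m0 : (d.m : ℝ) ≠ 0 := by linarith
    have m1 : (d.m : ℝ) - 1 ≠ 0 := by linarith
    field_simp
    ring
  have k8 : 192 * 240000 ^ 6 * (mm d : ℝ) * n ^ 2 * S ^ 2 ≤
      8 * 240000 ^ 7 * ((mm d : ℝ) * (1 / 10 ^ 5 * W ^ 2 * S ^ 2)) := by
    have e1 : (2 * ((mm d : ℝ) * 240000 ^ 7 * (4 * EQ) -
      448 * ((d.m : ℝ) - 2) * 240000 ^ 5 * (4 * (240000 * S) ^ 2) -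
      c2 * (4 * ((d.al : ℝ) * (240000 * W) - d.be * (240000 * S)) * (240000 ^ 5 * X)))) * S ^ 2 =
      8 * 240000 ^ 7 * ((mm d : ℝ) * (S ^ 2 * EQ)) - 8 * 240000 ^ 7 * (448 * ((d.m : ℝ) - 2) * S ^ 4) -
      c2 * (8 * 240000 ^ 6 * X) * (S ^ 2 * ((d.al : ℝ) * W - d.be * S)) := by ring
    rw [e1] at k5
    have e2 : c2 * (8 * 240000 ^ 6 * X) * (240000 * W ^ 3) = 8 * 240000 ^ 7 * (c2 * W ^ 3 * X) := by ring
    have k9 := mul_le_mul_of_nonneg_left k7 (show (0 : ℝ) ≤ 8 * 240000 ^ 7 by positivity)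
    linarith
  have k10 : (mm d : ℝ) * S ^ 2 * 240000 ^ 6 * (192 * n ^ 2) ≤
      (mm d : ℝ) * S ^ 2 * 240000 ^ 6 * (8 * 240000 * (1 / 10 ^ 5) * W ^ 2) := by
    calc (mm d : ℝ) * S ^ 2 * 240000 ^ 6 * (192 * n ^ 2)
        = 192 * 240000 ^ 6 * (mm d : ℝ) * n ^ 2 * S ^ 2 := by ring
      _ ≤ _ := k8
      _ = _ := by ring
  have k11 := le_of_mul_le_mul_left k10 (by positivity)
  have k12 : W ^ 2 ≤ n ^ 2 := by gcongr
  have k13 : 0 < W ^ 2 := by positivity
  norm_num at k11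
  linarith

end Pool.Agent.H466.AB.Crt
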