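import Mathlib

set_option autoImplicit false

/-!
Colourings of subsets.
-/

open Classical

namespace Pool.Agent.H466.AB

variable {V : Type}

/-- `S` can be coloured with `j` colours -/
def Cb (G : SimpleGraph V) (S : Finset V) (j : ℕ) : Prop :=
  ∃ c : V → ℕ, (∀ x ∈ S, ∀ y ∈ S, G.Adj x y → c x ≠ c y) ∧ (S.image c).card ≤ j

theorem Cb.mono {G : SimpleGraph V} {S T : Finset V} {i j : ℕ} (h : Cb G T j) (hS : S ⊆ T)
    (hij : j ≤ i) : Cb G S i := by
  obtain ⟨c, h1, h2⟩ := h
  refine ⟨c, fun x hx y hy => h1 x (hS hx) y (hS hy), ?_⟩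
  exact (Finset.card_le_card (Finset.image_subset_image hS)).trans (h2.trans hij)

theorem Cb.union {G : SimpleGraph V} {S T : Finset V} {i j : ℕ} (hS : Cb G S i) (hT : Cb G T j) :
    Cb G (S ∪ T) (i + j) := by
  obtain ⟨c, h1, h2⟩ := hS
  obtain ⟨d, h3, h4⟩ := hT
  refine ⟨fun x => if x ∈ S then 2 * c x else 2 * d x + 1, ?_, ?_⟩
  · intro x hx y hy hxy
    by_cases hxS : x ∈ S <;> by_cases hyS : y ∈ S
    · simp only [if_pos hxS, if_pos hyS]
      have := h1 x hxS y hyS hxy
      omega
    · simp only [if_pos hxS, if_neg hyS]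
      omega
    · simp only [if_neg hxS, if_pos hyS]
      omega
    · simp only [if_neg hxS, if_neg hyS]
      have hxT : x ∈ T := by
        rcases Finset.mem_union.1 hx with h | h
        · exact absurd h hxS
        · exact h
      have hyT : y ∈ T := by
        rcases Finset.mem_union.1 hy with h | h
        · exact absurd h hyS
        · exact h
      have := h3 x hxT y hyT hxy
      omega
  · have hsub : (S ∪ T).image (fun x => if x ∈ S then 2 * c x else 2 * d x + 1) ⊆
        (S.image c).image (fun a => 2 * a) ∪ (T.image d).image (fun a => 2 * a + 1) := by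
      intro a ha
      obtain ⟨x, hx, rfl⟩ := Finset.mem_image.1 ha
      by_cases hxS : x ∈ S
      · rw [if_pos hxS]
        exact Finset.mem_union_left _ (Finset.mem_image_of_mem _ (Finset.mem_image_of_mem _ hxS))
      · rw [if_neg hxS]
        refine Finset.mem_union_right _ (Finset.mem_image_of_mem (fun a => 2 * a + 1)
          (Finset.mem_image_of_mem _ ?_))
        rcases Finset.mem_union.1 hx with h | h
        · exact absurd h hxS
        · exact h
    refine (Finset.card_le_card hsub).trans ((Finset.card_union_le _ _).trans ?_)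
    exact Nat.add_le_add (Finset.card_image_le.trans h2) (Finset.card_image_le.trans h4)

theorem Cb.split {G : SimpleGraph V} {S T : Finset V} {j : ℕ} (h : Cb G (S ∪ T) j)
    (hj : ∀ x ∈ S, ∀ y ∈ T, G.Adj x y) :
    ∃ a b, a + b ≤ j ∧ Cb G S a ∧ Cb G T b := by
  obtain ⟨c, h1, h2⟩ := h
  refine ⟨(S.image c).card, (T.image c).card, ?_, ⟨c, ?_, le_rfl⟩, ⟨c, ?_, le_rfl⟩⟩
  · rw [Finset.image_union] at h2
    rw [← Finset.card_union_of_disjoint]
    · exact h2
    · rw [Finset.disjoint_left]
      intro a ha hb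
      obtain ⟨x, hx, rfl⟩ := Finset.mem_image.1 ha
      obtain ⟨y, hy, hxy⟩ := Finset.mem_image.1 hb
      exact h1 x (Finset.mem_union_left _ hx) y (Finset.mem_union_right _ hy) (hj x hx y hy) hxy.symm
  · exact fun x hx y hy => h1 x (Finset.mem_union_left _ hx) y (Finset.mem_union_left _ hy)
  · exact fun x hx y hy => h1 x (Finset.mem_union_right _ hx) y (Finset.mem_union_right _ hy)

theorem Cb.empty (G : SimpleGraph V) : Cb G ∅ 0 := ⟨fun _ => 0, by simp, by simp⟩

theorem Cb.indep {G : SimpleGraph V} {S : Finset V} (h : ∀ x ∈ S, ∀ y ∈ S, ¬ G.Adj x y) :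
    Cb G S 1 := by
  refine ⟨fun _ => 0, fun x hx y hy hxy => absurd hxy (h x hx y hy), ?_⟩
  refine (Finset.card_le_card (t := {0}) ?_).trans (by simp)
  intro a ha
  obtain ⟨x, hx, rfl⟩ := Finset.mem_image.1 ha
  simp

theorem Cb.biUnion {ι : Type} {G : SimpleGraph V} (T : Finset ι) (R : ι → Finset V) (f : ι → ℕ)
    (h : ∀ i ∈ T, Cb G (R i) (f i)) : Cb G (T.biUnion R) (∑ i ∈ T, f i) := by
  induction T using Finset.induction with
  | empty => simpa using Cb.empty G
  | insert i T hi ih =>
    rw [Finset.biUnion_insert, Finset.sum_insert hi]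
    exact (h i (Finset.mem_insert_self _ _)).union (ih fun j hj => h j (Finset.mem_insert_of_mem hj))

theorem Cb.card (G : SimpleGraph V) (Z : Finset V) : Cb G Z Z.card := by
  have := Cb.biUnion (G := G) Z (fun x => {x}) (fun _ => 1) (fun x _ => Cb.indep (by
    intro a ha b hb
    rw [Finset.mem_singleton.1 ha, Finset.mem_singleton.1 hb]
    exact G.irrefl))
  refine this.mono ?_ (by simp)
  intro x hx
  exact Finset.mem_biUnion.2 ⟨x, hx, Finset.mem_singleton_self x⟩

theorem Cb.lower {ι : Type} {G : SimpleGraph V} (T : Finset ι) (R : ι → Finset V) (f : ι → ℕ)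
    (hn : ∀ i ∈ T, ¬ Cb G (R i) (f i))
    (hj : ∀ i ∈ T, ∀ j ∈ T, i ≠ j → ∀ x ∈ R i, ∀ y ∈ R j, G.Adj x y) :
    ∀ N, Cb G (T.biUnion R) N → ∑ i ∈ T, (f i + 1) ≤ N := by
  induction T using Finset.induction with
  | empty => intro N _; simp
  | insert i T hi ih =>
    intro N hN
    rw [Finset.biUnion_insert] at hN
    obtain ⟨a, b, hab, ha, hb⟩ := hN.split (by
      intro x hx y hy
      obtain ⟨j, hjT, hyj⟩ := Finset.mem_biUnion.1 hy
      exact hj i (Finset.mem_insert_self _ _) j (Finset.mem_insert_of_mem hjT)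
        (by rintro rfl; exact hi hjT) x hx y hyj)
    have h1 : f i + 1 ≤ a := by
      by_contra hc
      exact hn i (Finset.mem_insert_self _ _) (ha.mono (Finset.Subset.refl _) (by omega))
    have h2 := ih (fun j hjT => hn j (Finset.mem_insert_of_mem hjT))
      (fun j hjT l hl => hj j (Finset.mem_insert_of_mem hjT) l (Finset.mem_insert_of_mem hl)) b hb
    rw [Finset.sum_insert hi]
    omega

theorem Cb.colorable [Fintype V] {G : SimpleGraph V} {j : ℕ} (h : Cb G Finset.univ j) :
    G.Colorable j := by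
  obtain ⟨c, h1, h2⟩ := h
  have C : G.Coloring {a // a ∈ Finset.univ.image c} :=
    SimpleGraph.Coloring.mk (fun x => ⟨c x, Finset.mem_image_of_mem _ (Finset.mem_univ x)⟩) (by
      intro x y hxy hc
      exact h1 x (Finset.mem_univ _) y (Finset.mem_univ _) hxy (congrArg Subtype.val hc))
  have h3 := C.colorable
  rw [Fintype.card_coe] at h3
  exact h3.mono h2

theorem Cb_of_colorable {G : SimpleGraph V} {T : Finset V} {j : ℕ}
    (h : (G.comap (Subtype.val : {x // x ∈ T} → V)).Colorable j) : Cb G T j := by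
  obtain ⟨C⟩ := h
  refine ⟨fun x => if hx : x ∈ T then (C ⟨x, hx⟩ : ℕ) else 0, ?_, ?_⟩
  · intro x hx y hy hxy
    simp only [dif_pos hx, dif_pos hy]
    have h1 : (G.comap (Subtype.val : {x // x ∈ T} → V)).Adj ⟨x, hx⟩ ⟨y, hy⟩ := hxy
    have h2 := C.valid h1
    intro h3
    exact h2 (Fin.ext h3)
  · refine (Finset.card_le_card (t := Finset.range j) ?_).trans (by simp)
    intro a ha
    obtain ⟨x, hx, rfl⟩ := Finset.mem_image.1 ha
    rw [dif_pos hx, Finset.mem_range]
    exact (C ⟨x, hx⟩).2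

theorem Cb.comap {G : SimpleGraph V} {T : Finset V} {j : ℕ} (h : Cb G T j) :
    (G.comap (Subtype.val : {x // x ∈ T} → V)).Colorable j := by
  obtain ⟨c, h1, h2⟩ := h
  have C : (G.comap (Subtype.val : {x // x ∈ T} → V)).Coloring {a // a ∈ T.image c} :=
    SimpleGraph.Coloring.mk (fun x => ⟨c x.1, Finset.mem_image_of_mem _ x.2⟩) (by
      intro x y hxy hc
      exact h1 x.1 x.2 y.1 y.2 hxy (congrArg Subtype.val hc))
  have h3 := C.colorable
  rw [Fintype.card_coe] at h3
  exact h3.mono h2

end Pool.Agent.H466.AB
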