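import Pool.Agent.H466.AB.Sdv

set_option autoImplicit false

/-!
Duplicating a vertex of a complete graph.
-/

open Set Classical
open Pool.Agent.Helper770.Crossing Pool.Agent.NH90.CN
open Pool.Agent.H466.AL

namespace Pool.Agent.H466.AB

section gen

variable {W : Type} [Fintype W]

omit [Fintype W] in
theorem pth_sum_le (P : SimpleGraph W) (mid : Sym2 W → W) (x : Sym2 W) (hx : x ∉ P.edgeSet)
    (S : Finset (Sym2 W)) (hS : ∀ y ∈ x, s(y, mid x) ∈ S) (h : Sym2 W → ℕ) :
    ∑ z ∈ pth P mid x, h z ≤ ∑ z ∈ S, h z := by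
  unfold pth
  rw [if_neg hx]
  refine Finset.sum_le_sum_of_subset ?_
  intro z hz
  obtain ⟨y, hy, rfl⟩ := Finset.mem_image.1 hz
  exact hS y (Sym2.mem_toFinset.1 hy)

theorem reroute' {G : SimpleGraph W} (D : Drawing G) (mid : Sym2 W → W)
    (hfin : D.crossings.Finite) (hg : Good D) (G' : SimpleGraph W)
    (h : ∀ e ∈ eF G', e ∉ G.edgeSet → ∀ v ∈ e, G.Adj v (mid e)) :
    2 * crossingNumber G' ≤ ∑ e ∈ eF G', ∑ f ∈ eF G', cst D mid e f := by
  refine (reroute D mid hfin hg G' h).trans ?_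
  exact Finset.sum_le_sum fun e _ => Finset.sum_le_sum_of_subset (Finset.erase_subset _ _)

omit [Fintype W] in
theorem lcc_sum (P : SimpleGraph W) (mid : Sym2 W → W) (A : Finset (Sym2 W)) (N : ℕ)
    (hnew : (A.filter (fun e => e ∉ P.edgeSet)).card ≤ N)
    (hat : ∀ z, (A.filter (fun e => z ∈ e)).card ≤ N) :
    ∑ e ∈ A, ∑ f ∈ A, lcc P mid e f ≤ 8 * N ^ 2 := by
  have h1 : ∑ e ∈ A, ∑ f ∈ A, (if e ∉ P.edgeSet ∧ mid e ∈ f then 2 else 0) ≤ 2 * N ^ 2 := by
    calc ∑ e ∈ A, ∑ f ∈ A, (if e ∉ P.edgeSet ∧ mid e ∈ f then 2 else 0)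
        = ∑ e ∈ A, if e ∉ P.edgeSet then (A.filter (fun f => mid e ∈ f)).card * 2 else 0 := by
          refine Finset.sum_congr rfl fun e _ => ?_
          by_cases h : e ∉ P.edgeSet
          · simp only [h, not_false_eq_true, true_and, if_true]
            rw [← Finset.sum_filter, Finset.sum_const, smul_eq_mul]
          · simp only [h, false_and, if_false, Finset.sum_const_zero]
      _ ≤ ∑ e ∈ A, if e ∉ P.edgeSet then N * 2 else 0 := by
          refine Finset.sum_le_sum fun e _ => ?_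
          by_cases c1 : e ∉ P.edgeSet
          · rw [if_pos c1, if_pos c1]
            exact Nat.mul_le_mul_right _ (hat _)
          · rw [if_neg c1, if_neg c1]
      _ = (A.filter (fun e => e ∉ P.edgeSet)).card * (N * 2) := by
          rw [← Finset.sum_filter, Finset.sum_const, smul_eq_mul]
      _ ≤ N * (N * 2) := Nat.mul_le_mul_right _ hnew
      _ = 2 * N ^ 2 := by ring
  have h2 : ∑ e ∈ A, ∑ f ∈ A, (if f ∉ P.edgeSet ∧ mid f ∈ e then 2 else 0) ≤ 2 * N ^ 2 := by
    rw [Finset.sum_comm]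
    exact h1
  have h3 : ∑ e ∈ A, ∑ f ∈ A,
      (if e ∉ P.edgeSet ∧ f ∉ P.edgeSet ∧ mid e = mid f then 4 else 0) ≤ 4 * N ^ 2 := by
    calc ∑ e ∈ A, ∑ f ∈ A,
        (if e ∉ P.edgeSet ∧ f ∉ P.edgeSet ∧ mid e = mid f then 4 else 0)
        ≤ ∑ e ∈ A, ∑ f ∈ A, (if e ∉ P.edgeSet then (if f ∉ P.edgeSet then 4 else 0) else 0) := by
          refine Finset.sum_le_sum fun e _ => Finset.sum_le_sum fun f _ => ?_
          by_cases c1 : e ∉ P.edgeSet
          · by_cases c2 : f ∉ P.edgeSet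
            · rw [if_pos c1, if_pos c2]
              split_ifs <;> omega
            · rw [if_neg (fun h => c2 h.2.1)]
              exact Nat.zero_le _
          · rw [if_neg (fun h => c1 h.1)]
            exact Nat.zero_le _
      _ = ∑ e ∈ A, (if e ∉ P.edgeSet then (A.filter (fun f => f ∉ P.edgeSet)).card * 4 else 0) := by
          refine Finset.sum_congr rfl fun e _ => ?_
          by_cases c1 : e ∉ P.edgeSet
          · simp only [if_pos c1]
            rw [← Finset.sum_filter, Finset.sum_const, smul_eq_mul]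
          · simp only [if_neg c1, Finset.sum_const_zero]
      _ = (A.filter (fun e => e ∉ P.edgeSet)).card *
            ((A.filter (fun f => f ∉ P.edgeSet)).card * 4) := by
          rw [← Finset.sum_filter, Finset.sum_const, smul_eq_mul]
      _ ≤ N * (N * 4) := Nat.mul_le_mul hnew (Nat.mul_le_mul_right _ hnew)
      _ = 4 * N ^ 2 := by ring
  have h4 : ∑ e ∈ A, ∑ f ∈ A, lcc P mid e f =
      ∑ e ∈ A, ∑ f ∈ A, (if e ∉ P.edgeSet ∧ mid e ∈ f then 2 else 0) +
      ∑ e ∈ A, ∑ f ∈ A, (if f ∉ P.edgeSet ∧ mid f ∈ e then 2 else 0) +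
      ∑ e ∈ A, ∑ f ∈ A, (if e ∉ P.edgeSet ∧ f ∉ P.edgeSet ∧ mid e = mid f then 4 else 0) := by
    unfold lcc
    simp only [Finset.sum_add_distrib]
  rw [h4]
  omega

theorem card_at (z : W) (A : Finset (Sym2 W)) :
    (A.filter (fun e => z ∈ e)).card ≤ Fintype.card W := by
  have h : A.filter (fun e => z ∈ e) ⊆ Finset.univ.image (fun y : W => s(z, y)) := by
    intro e he
    obtain ⟨y, hy⟩ := (Finset.mem_filter.1 he).2
    exact Finset.mem_image.2 ⟨y, Finset.mem_univ _, hy.symm⟩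
  refine (Finset.card_le_card h).trans (Finset.card_image_le.trans ?_)
  rw [Finset.card_univ]

theorem card_new_gen (P : SimpleGraph W) (A S : Finset (Sym2 W))
    (hS : ∀ e ∈ A, e ∉ P.edgeSet → e ∈ S) :
    (A.filter (fun e => e ∉ P.edgeSet)).card ≤ S.card :=
  Finset.card_le_card fun e he => hS e (Finset.mem_filter.1 he).1 (Finset.mem_filter.1 he).2

end gen

variable {V : Type}

/-- the middle vertices -/
noncomputable def mdl (v u : V) (x : Sym2 (Option V)) : Option V :=
  if x = toC s(v, u) then none else some v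

theorem mem_cone_top {e : Sym2 (Option V)} (he : e ∈ (cone (⊤ : SimpleGraph V)).edgeSet) :
    (∃ x : Sym2 V, ¬ x.IsDiag ∧ e = toC x) ∨ ∃ w, e = arm w := by
  obtain ⟨x, rfl⟩ := CNC.mem_range he
  rcases x with x | w
  · left
    refine ⟨x, ?_, rfl⟩
    intro hx
    induction x using Sym2.ind with
    | _ a b =>
      rw [Sym2.mk_isDiag_iff] at hx
      subst hx
      have : (cone (⊤ : SimpleGraph V)).Adj (some a) (some a) := he
      exact this.1 rfl
  · exact Or.inr ⟨w, rfl⟩

theorem cls {v u : V} {e : Sym2 (Option V)} (he : e ∈ (cone (⊤ : SimpleGraph V)).edgeSet)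
    (he' : e ∉ (sdv (⊤ : SimpleGraph V) v u).edgeSet) :
    e = toC s(v, u) ∨ ∃ w, w ≠ v ∧ w ≠ u ∧ e = arm w := by
  rcases mem_cone_top he with ⟨x, hx, rfl⟩ | ⟨w, rfl⟩
  · left
    by_contra h
    apply he'
    rw [mem_sdv]
    left
    refine ⟨x, ?_, fun h' => h (by rw [h']), rfl⟩
    induction x using Sym2.ind with
    | _ a b =>
      rw [SimpleGraph.mem_edgeSet, SimpleGraph.top_adj]
      exact fun h => hx (Sym2.mk_isDiag_iff.2 h)
  · right
    refine ⟨w, ?_, ?_, rfl⟩
    · rintro rfl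
      exact he' (mem_sdv.2 (Or.inr (Or.inl rfl)))
    · rintro rfl
      exact he' (mem_sdv.2 (Or.inr (Or.inr rfl)))

theorem toC_ne_arm' (x : Sym2 V) (w : V) : arm w ≠ toC x := fun h => CNC.toC_ne_arm x w h.symm

theorem mdl_adj {v u : V} (huv : u ≠ v) {e : Sym2 (Option V)}
    (he : e ∈ (cone (⊤ : SimpleGraph V)).edgeSet)
    (he' : e ∉ (sdv (⊤ : SimpleGraph V) v u).edgeSet) (y : Option V) (hy : y ∈ e) :
    (sdv (⊤ : SimpleGraph V) v u).Adj y (mdl v u e) := by
  rcases cls he he' with rfl | ⟨w, h1, h2, rfl⟩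
  · unfold mdl
    rw [if_pos rfl]
    unfold toC at hy
    rw [Sym2.map_mk, Sym2.mem_iff] at hy
    exact Or.inr (Or.inr ⟨rfl, hy⟩)
  · unfold mdl
    rw [if_neg (toC_ne_arm' _ _)]
    unfold arm at hy
    rw [Sym2.mem_iff] at hy
    rcases hy with rfl | rfl
    · exact Or.inr (Or.inl ⟨rfl, Or.inl rfl⟩)
    · refine Or.inl ⟨w, v, rfl, rfl, h1, ?_⟩
      rw [ne_eq, Sym2.eq_iff]
      rintro (⟨h3, h4⟩ | ⟨h3, h4⟩)
      · exact h1 h3
      · exact h2 h3

/-- the sum over a path -/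
theorem sum_pth {v u : V} (huv : u ≠ v) {e : Sym2 (Option V)}
    (he : e ∈ (cone (⊤ : SimpleGraph V)).edgeSet) :
    ∃ e' : Sym2 (Option V), psi v e' = psi v e ∧ ∀ h : Sym2 (Option V) → ℕ, h (arm v) = 0 →
      ∑ x ∈ pth (sdv (⊤ : SimpleGraph V) v u) (mdl v u) e, h x ≤ h e' := by
  by_cases he' : e ∈ (sdv (⊤ : SimpleGraph V) v u).edgeSet
  · refine ⟨e, rfl, fun h _ => ?_⟩
    unfold pth
    rw [if_pos he', Finset.sum_singleton]
  · rcases cls he he' with rfl | ⟨w, h1, h2, rfl⟩
    · refine ⟨arm u, ?_, fun h hv => ?_⟩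
      · rw [psi_arm, psi_toC]
      · have e1 : mdl v u (toC s(v, u)) = none := by unfold mdl; rw [if_pos rfl]
        refine (pth_sum_le _ _ _ he' {arm v, arm u} ?_ h).trans ?_
        · intro y hy
          rw [e1]
          unfold toC at hy
          rw [Sym2.map_mk, Sym2.mem_iff] at hy
          rw [Finset.mem_insert, Finset.mem_singleton]
          rcases hy with rfl | rfl
          · left; exact Sym2.eq_swap
          · right; exact Sym2.eq_swap
        · rw [Finset.sum_pair (fun h' => huv (CNC.arm_injective h').symm), hv, zero_add]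
    · refine ⟨toC s(v, w), ?_, fun h hv => ?_⟩
      · rw [psi_arm, psi_toC]
      · have e1 : mdl v u (arm w) = some v := by
          unfold mdl; rw [if_neg (toC_ne_arm' _ _)]
        refine (pth_sum_le _ _ _ he' {arm v, toC s(v, w)} ?_ h).trans ?_
        · intro y hy
          rw [e1]
          unfold arm at hy
          rw [Sym2.mem_iff] at hy
          rw [Finset.mem_insert, Finset.mem_singleton]
          rcases hy with rfl | rfl
          · left; rfl
          · right; exact Sym2.eq_swap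
        · rw [Finset.sum_pair (toC_ne_arm' _ _), hv, zero_add]

variable [Fintype V]

theorem split_le (g : Sym2 (Option V) → ℕ) :
    ∑ e ∈ eF (cone (⊤ : SimpleGraph V)), g e ≤ ∑ x : Sym2 V, g (toC x) + ∑ w : V, g (arm w) := by
  have h := CNC.split (G := (⊤ : SimpleGraph V))
    (fun e => if e ∈ eF (cone (⊤ : SimpleGraph V)) then g e else 0)
    (fun e he => if_neg (fun h => he (DEL.mem_eF.1 h)))
  rw [Finset.sum_ite_mem, Finset.univ_inter] at h
  rw [h]
  refine Nat.add_le_add (Finset.sum_le_sum fun x _ => ?_) (Finset.sum_le_sum fun x _ => ?_)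
  · split_ifs
    · exact le_rfl
    · exact Nat.zero_le _
  · split_ifs
    · exact le_rfl
    · exact Nat.zero_le _

theorem sum_lcc (v u : V) : ∑ e ∈ eF (cone (⊤ : SimpleGraph V)),
    ∑ f ∈ eF (cone (⊤ : SimpleGraph V)), lcc (sdv (⊤ : SimpleGraph V) v u) (mdl v u) e f ≤
      8 * (Fintype.card V + 1) ^ 2 := by
  refine lcc_sum _ _ _ _ ?_ ?_
  · refine (card_new_gen _ _ (insert (toC s(v, u)) (Finset.univ.image (fun w : V => arm w))) ?_).trans
      ?_
    · intro e h1 h2
      rw [Finset.mem_insert, Finset.mem_image]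
      rcases cls (DEL.mem_eF.1 h1) h2 with h | ⟨w, -, -, h⟩
      · exact Or.inl h
      · exact Or.inr ⟨w, Finset.mem_univ _, h.symm⟩
    · refine (Finset.card_insert_le _ _).trans ?_
      have := Finset.card_image_le (s := (Finset.univ : Finset V)) (f := fun w : V => arm w)
      rw [Finset.card_univ] at this
      omega
  · intro z
    refine (card_at z _).trans ?_
    rw [Fintype.card_option]

theorem dup_aux (D : Drawing (⊤ : SimpleGraph V)) (hfin : D.crossings.Finite) (hg : Good D)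
    (v u : V) (huv : u ≠ v) :
    2 * crossingNumber (cone (⊤ : SimpleGraph V)) ≤ ∑ e : Sym2 V, ∑ f : Sym2 V, DX D e f +
      2 * ∑ w : V, ∑ f : Sym2 V, DX D s(v, w) f + 8 * (Fintype.card V + 1) ^ 2 := by
  have hadj : (⊤ : SimpleGraph V).Adj v u := huv.symm
  obtain ⟨D', hf', hg', hz, hle⟩ := exists_sdr D hfin hg hadj
  have h := reroute' D' (mdl v u) hf' hg' (cone (⊤ : SimpleGraph V))
    (fun e he he' y hy => mdl_adj huv (DEL.mem_eF.1 he) he' y hy)
  refine h.trans ?_
  set A := eF (cone (⊤ : SimpleGraph V)) with hA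
  have h1 : ∀ e ∈ A, ∀ f ∈ A, cst D' (mdl v u) e f ≤
      DX D (psi v e) (psi v f) + lcc (sdv (⊤ : SimpleGraph V) v u) (mdl v u) e f := by
    intro e he f hf
    obtain ⟨e', he1, he2⟩ := sum_pth huv (DEL.mem_eF.1 he)
    obtain ⟨f', hf1, hf2⟩ := sum_pth huv (DEL.mem_eF.1 hf)
    unfold cst
    refine Nat.add_le_add_right ?_ _
    refine (he2 (fun x => ∑ y ∈ pth (sdv (⊤ : SimpleGraph V) v u) (mdl v u) f, DX D' x y)
      (Finset.sum_eq_zero fun y _ => hz y)).trans ?_
    refine (hf2 (fun y => DX D' e' y) (by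
      show DX D' e' (arm v) = 0
      rw [DEL.DX_comm]; exact hz _)).trans ?_
    refine (hle e' f').trans ?_
    rw [he1, hf1]
  have h2 : ∑ e ∈ A, ∑ f ∈ A, cst D' (mdl v u) e f ≤
      ∑ e ∈ A, ∑ f ∈ A, DX D (psi v e) (psi v f) +
      ∑ e ∈ A, ∑ f ∈ A, lcc (sdv (⊤ : SimpleGraph V) v u) (mdl v u) e f := by
    rw [← Finset.sum_add_distrib]
    refine Finset.sum_le_sum fun e he => ?_
    rw [← Finset.sum_add_distrib]
    exact Finset.sum_le_sum fun f hf => h1 e he f hf
  have h3 := sum_lcc v u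
  rw [← hA] at h3
  have h4 : ∑ e ∈ A, ∑ f ∈ A, DX D (psi v e) (psi v f) ≤ ∑ e : Sym2 V, ∑ f : Sym2 V, DX D e f +
      2 * ∑ w : V, ∑ f : Sym2 V, DX D s(v, w) f := by
    have k1 : ∀ x : Sym2 V, ∑ f ∈ A, DX D x (psi v f) ≤
        ∑ y : Sym2 V, DX D x y + ∑ w : V, DX D x s(v, w) := by
      intro x
      have := split_le (fun f => DX D x (psi v f))
      simp only [psi_toC, psi_arm] at this
      exact this
    have k2 := split_le (fun e => ∑ f ∈ A, DX D (psi v e) (psi v f))
    simp only [psi_toC, psi_arm] at k2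
    refine k2.trans ?_
    have k3 : ∑ x : Sym2 V, ∑ f ∈ A, DX D x (psi v f) ≤
        ∑ x : Sym2 V, ∑ y : Sym2 V, DX D x y + ∑ w : V, ∑ f : Sym2 V, DX D s(v, w) f := by
      calc ∑ x : Sym2 V, ∑ f ∈ A, DX D x (psi v f)
          ≤ ∑ x : Sym2 V, (∑ y : Sym2 V, DX D x y + ∑ w : V, DX D x s(v, w)) :=
            Finset.sum_le_sum fun x _ => k1 x
        _ = _ := by
            rw [Finset.sum_add_distrib, Finset.sum_comm (f := fun x w => DX D x s(v, w))]
            congr 1
            refine Finset.sum_congr rfl fun w _ => Finset.sum_congr rfl fun f _ => ?_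
            exact DEL.DX_comm D _ _
    have k4 : ∑ w : V, ∑ f ∈ A, DX D s(v, w) (psi v f) ≤
        ∑ w : V, ∑ f : Sym2 V, DX D s(v, w) f := by
      refine Finset.sum_le_sum fun w _ => ?_
      refine (k1 s(v, w)).trans ?_
      have : ∑ w' : V, DX D s(v, w) s(v, w') = 0 := by
        refine Finset.sum_eq_zero fun w' _ => ?_
        by_contra hne
        exact (DX_good hg hne).2.2 v (Sym2.mem_mk_left _ _) (Sym2.mem_mk_left _ _)
      rw [this, add_zero]
    omega
  omega

/-- **Duplication.** -/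
theorem dup (t : ℕ) (ht : 2 ≤ t) : (crossingNumber (K (t + 1)) : ℝ) ≤
    crossingNumber (K t) + 4 * (crossingNumber (K t) : ℝ) / t + 4 * ((t : ℝ) + 1) ^ 2 := by
  obtain ⟨D, hfin, hg, hopt⟩ := exists_good (K t)
  have hsum := sum_R4 D hopt
  have htr : (0 : ℝ) < t := by exact_mod_cast (by omega : 0 < t)
  have : Nonempty (Fin t) := ⟨⟨0, by omega⟩⟩
  obtain ⟨v, hv⟩ : ∃ v : Fin t, R4 D v ≤ 8 * (crossingNumber (K t) : ℝ) / t := by
    by_contra hc
    push Not at hc
    have h1 : ∑ _v : Fin t, 8 * (crossingNumber (K t) : ℝ) / t < ∑ v, R4 D v :=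
      Finset.sum_lt_sum_of_nonempty Finset.univ_nonempty fun v _ => hc v
    rw [Finset.sum_const, nsmul_eq_mul, Finset.card_univ, Fintype.card_fin, hsum] at h1
    have h2 : (t : ℝ) * (8 * (crossingNumber (K t) : ℝ) / t) = 8 * crossingNumber (K t) := by
      field_simp
    rw [h2] at h1
    exact lt_irrefl _ h1
  obtain ⟨u, hu⟩ : ∃ u : Fin t, u ≠ v := by
    have : Nontrivial (Fin t) := Fin.nontrivial_iff_two_le.2 ht
    exact exists_ne v
  have h := dup_aux D hfin hg v u hu
  have h1 : (∑ w : Fin t, ∑ f : Sym2 (Fin t), DX D s(v, w) f : ℕ) * (2 : ℝ) = R4 D v := by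
    unfold R4
    push_cast
    rw [Finset.sum_mul]
    refine Finset.sum_congr rfl fun w _ => ?_
    have h3 := sum_pairs_eq (fun f => DX D s(v, w) f) (fun f hf => DX_diag D _ f (Or.inr hf))
    have h4 : (∑ a, ∑ b, (X4 D v w a b : ℝ)) = 2 * ∑ e : Sym2 (Fin t), (DX D s(v, w) e : ℝ) := by
      unfold X4
      exact_mod_cast h3
    rw [h4]; ring
  have h2 : crossingNumber (K (t + 1)) ≤ crossingNumber (cone (⊤ : SimpleGraph (Fin t))) := by
    have e : Fin (t + 1) ≃ Option (Fin t) := finSuccEquiv t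
    refine cr_inside_top _ e.toEmbedding ?_
    intro i j hij
    have hne : e i ≠ e j := fun h => hij (e.injective h)
    show (cone (⊤ : SimpleGraph (Fin t))).Adj (e i) (e j)
    refine ⟨hne, ?_⟩
    rcases h5 : e i with _ | a
    · exact Or.inl rfl
    · rcases h6 : e j with _ | b
      · exact Or.inr (Or.inl rfl)
      · refine Or.inr (Or.inr ⟨a, b, rfl, rfl, ?_⟩)
        rw [h5, h6] at hne
        exact fun h => hne (congrArg some h)
  rw [← hopt, Fintype.card_fin] at h
  have h7 : (2 : ℝ) * crossingNumber (cone (⊤ : SimpleGraph (Fin t))) ≤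
      2 * crossingNumber (K t) +
        2 * ((∑ w : Fin t, ∑ f : Sym2 (Fin t), DX D s(v, w) f : ℕ) : ℝ) +
        8 * ((t : ℝ) + 1) ^ 2 := by
    exact_mod_cast h
  have h8 : (crossingNumber (K (t + 1)) : ℝ) ≤
      crossingNumber (cone (⊤ : SimpleGraph (Fin t))) := by exact_mod_cast h2
  have h9 : 8 * (crossingNumber (K t) : ℝ) / t = 2 * (4 * (crossingNumber (K t) : ℝ) / t) := by ring
  rw [h9] at hv
  linarith

end Pool.Agent.H466.AB
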