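import Pool.Agent.H466.AB.Ind
import Pool.Agent.H466.AB.Dup

set_option autoImplicit false

/-!
Albertson's conjecture for all large chromatic numbers.
-/

open Set Classical
open Pool.Agent.Helper770.Crossing Pool.Agent.NH90.CN
open Pool.Agent.H466.AL

namespace Pool.Agent.H466.AB

/-- the crossing number of the complete graph -/
noncomputable def cK (n : ℕ) : ℝ := crossingNumber (K n)

theorem cK_nonneg (n : ℕ) : 0 ≤ cK n := Nat.cast_nonneg _

theorem cK_le (n : ℕ) : cK n ≤ (n : ℝ) ^ 4 / 64 := by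
  have h : (64 : ℝ) * crossingNumber (K n) ≤ (n : ℝ) ^ 4 := by exact_mod_cast Geo.cr_K_le n
  unfold cK
  linarith

theorem cK_low : ∃ N : ℕ, ∀ n, N ≤ n → (kap - 2 / 10 ^ 15) * (n : ℝ) ^ 4 ≤ cK n := by
  obtain ⟨C, hC, h⟩ := cr_ge_kap (1 / 10 ^ 15) (by norm_num)
  obtain ⟨N, hN⟩ := exists_nat_ge (10 ^ 15 * C)
  refine ⟨N, fun n hn => ?_⟩
  have h1 := h n
  have h2 : 10 ^ 15 * C ≤ (n : ℝ) := hN.trans (by exact_mod_cast hn)
  have h3 : C * (n : ℝ) ^ 3 ≤ 1 / 10 ^ 15 * (n : ℝ) ^ 4 := by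
    have h4 : C ≤ 1 / 10 ^ 15 * (n : ℝ) := by linarith
    calc C * (n : ℝ) ^ 3 ≤ 1 / 10 ^ 15 * (n : ℝ) * (n : ℝ) ^ 3 := by gcongr
      _ = _ := by ring
  unfold cK
  linarith

theorem cK_dup (t : ℕ) (ht : 5 ≤ t) : cK t ≤ cK (t - 1) + 4 * (cK t / t) + 4 * (t : ℝ) ^ 2 ∧
    cK (t - 1) / ((t : ℝ) - 1) ≤ cK t / t := by
  obtain ⟨n, rfl⟩ : ∃ n, t = n + 1 := ⟨t - 1, by omega⟩
  have h1 := dup n (by omega)
  have h2 := step n (by omega)
  have hn : (4 : ℝ) ≤ n := by exact_mod_cast (by omega : 4 ≤ n)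
  simp only [Nat.add_sub_cancel]
  unfold cK
  push_cast
  have e1 : (n : ℝ) + 1 - 1 = n := by ring
  rw [e1]
  set a : ℝ := (crossingNumber (K n) : ℝ) with ha
  set b : ℝ := (crossingNumber (K (n + 1)) : ℝ) with hb
  have hb0 : 0 ≤ b := Nat.cast_nonneg _
  have h3 : a / n ≤ b / (n + 1) := by
    rw [div_le_div_iff₀ (by linarith) (by linarith)]
    nlinarith
  refine ⟨?_, h3⟩
  have e2 : 4 * a / n = 4 * (a / n) := by ring
  rw [e2] at h1
  linarith

/-- the slowly increasing factor -/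
noncomputable def rho (s₀ n : ℕ) : ℝ :=
  min 1 (1 / 15 + 1 / 10 ^ 17 * max 0 (Real.log n - Real.log s₀))

theorem rho_le (s₀ n : ℕ) : rho s₀ n ≤ 1 := min_le_left _ _

theorem rho_ge (s₀ n : ℕ) : 1 / 15 ≤ rho s₀ n := by
  unfold rho
  refine le_min (by norm_num) ?_
  have := le_max_left (0 : ℝ) (Real.log n - Real.log s₀)
  linarith

theorem rho_small {s₀ n : ℕ} (h : n ≤ s₀) (hn : 1 ≤ n) : rho s₀ n = 1 / 15 := by
  unfold rho
  have h1 : Real.log n ≤ Real.log s₀ :=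
    Real.log_le_log (by exact_mod_cast hn) (by exact_mod_cast h)
  rw [max_eq_left (by linarith), mul_zero, add_zero, min_eq_right (by norm_num)]

theorem rho_lip {s₀ c t : ℕ} (h : c ≤ t) (hc : 1 ≤ c) :
    rho s₀ t - rho s₀ c ≤ 1 / 10 ^ 17 * (((t : ℝ) - c) / c) := by
  have hc' : (0 : ℝ) < c := by exact_mod_cast hc
  have ht' : (0 : ℝ) < t := lt_of_lt_of_le hc' (by exact_mod_cast h)
  have h0 : Real.log c ≤ Real.log t := Real.log_le_log hc' (by exact_mod_cast h)
  have h1 : Real.log t - Real.log c ≤ ((t : ℝ) - c) / c := by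
    rw [← Real.log_div ht'.ne' hc'.ne']
    have := Real.log_le_sub_one_of_pos (show 0 < (t : ℝ) / c by positivity)
    have e : (t : ℝ) / c - 1 = ((t : ℝ) - c) / c := by field_simp
    rw [← e]; exact this
  have h2 : max 0 (Real.log t - Real.log s₀) ≤
      max 0 (Real.log c - Real.log s₀) + (Real.log t - Real.log c) := by
    refine max_le ?_ ?_
    · have := le_max_left (0 : ℝ) (Real.log c - Real.log s₀)
      linarith
    · have := le_max_right (0 : ℝ) (Real.log c - Real.log s₀)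
      linarith
  unfold rho
  have h3 : min 1 (1 / 15 + 1 / 10 ^ 17 * max 0 (Real.log t - Real.log s₀)) ≤
      min 1 (1 / 15 + 1 / 10 ^ 17 * max 0 (Real.log c - Real.log s₀)) +
        1 / 10 ^ 17 * (Real.log t - Real.log c) := by
    have h4 : 0 ≤ 1 / 10 ^ 17 * (Real.log t - Real.log c) := by
      have : 0 ≤ Real.log t - Real.log c := by linarith
      positivity
    rcases min_choice 1 (1 / 15 + 1 / 10 ^ 17 * max 0 (Real.log c - Real.log s₀)) with h5 | h5
    · rw [h5]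
      exact (min_le_left _ _).trans (by linarith)
    · rw [h5]
      refine (min_le_right _ _).trans ?_
      linarith
  linarith

theorem rho_top (s₀ : ℕ) : ∃ N : ℕ, ∀ n, N ≤ n → rho s₀ n = 1 := by
  have h1 := Real.tendsto_log_atTop.comp (tendsto_natCast_atTop_atTop (R := ℝ))
  obtain ⟨N, hN⟩ := Filter.eventually_atTop.1
    (h1.eventually_ge_atTop (Real.log s₀ + 10 ^ 17))
  refine ⟨N, fun n hn => ?_⟩
  have h2 : Real.log s₀ + 10 ^ 17 ≤ Real.log n := hN n hn
  unfold rho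
  refine min_eq_left ?_
  have h3 := le_max_right (0 : ℝ) (Real.log n - Real.log s₀)
  have h4 : (10 : ℝ) ^ 17 ≤ max 0 (Real.log n - Real.log s₀) := by linarith
  have h5 : 1 / 10 ^ 17 * (10 : ℝ) ^ 17 ≤ 1 / 10 ^ 17 * max 0 (Real.log n - Real.log s₀) := by
    gcongr
  have h6 : 1 / 10 ^ 17 * (10 : ℝ) ^ 17 = 1 := by norm_num
  linarith

/-- the regularised crossing numbers -/
noncomputable def FF (s₀ n : ℕ) : ℝ := if n ≤ 100 then 0 else rho s₀ n * cK n

theorem FF_nonneg (s₀ n : ℕ) : 0 ≤ FF s₀ n := by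
  unfold FF
  split_ifs
  · exact le_rfl
  · exact mul_nonneg (by linarith [rho_ge s₀ n]) (cK_nonneg n)

theorem FF_big {s₀ n : ℕ} (h : 100 < n) : FF s₀ n = rho s₀ n * cK n := by
  unfold FF; rw [if_neg (by omega)]

theorem FF_reg (N s₀ : ℕ) (hN : ∀ n, N ≤ n → (kap - 2 / 10 ^ 15) * (n : ℝ) ^ 4 ≤ cK n)
    (h1 : 10 ^ 50 ≤ s₀) (h2 : 1000 * N ≤ s₀) (t : ℕ) (ht : s₀ < t) : FReg (FF s₀) t := by
  have hbig : (10 : ℝ) ^ 50 ≤ t := by
    have : (10 ^ 50 : ℕ) ≤ t := by omega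
    exact_mod_cast this
  have ht100 : 100 < t := by
    have : (10 ^ 50 : ℕ) ≤ t := by omega
    norm_num at this
    omega
  have ht0 : (0 : ℝ) < t := lt_of_lt_of_le (by norm_num) hbig
  have hk1 := kap_ge
  have hk2 := kap_le
  have hr1 := rho_le s₀ t
  have hr2 := rho_ge s₀ t
  have hlow := hN t (by omega)
  have hlow' : (t : ℝ) ^ 4 / 121 ≤ cK t := by
    have : (1 / 121 : ℝ) ≤ kap - 2 / 10 ^ 15 := by
      have : (1 / 121 : ℝ) ≤ 1 / 120 - 2 / 10 ^ 15 := by norm_num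
      linarith
    calc (t : ℝ) ^ 4 / 121 = 1 / 121 * (t : ℝ) ^ 4 := by ring
      _ ≤ (kap - 2 / 10 ^ 15) * (t : ℝ) ^ 4 := by gcongr
      _ ≤ _ := hlow
  have hup := cK_le t
  have hupk : cK t ≤ kap * (t : ℝ) ^ 4 := cr_le_kap t
  have hFt : FF s₀ t = rho s₀ t * cK t := FF_big ht100
  have hct : 0 < cK t := lt_of_lt_of_le (by positivity) hlow'
  refine ⟨hbig, ?_, ?_, ?_, ?_⟩
  · rw [hFt]
    calc (t : ℝ) ^ 4 / 10000 ≤ 1 / 15 * ((t : ℝ) ^ 4 / 121) := by
          have : (0 : ℝ) < (t : ℝ) ^ 4 := by positivity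
          linarith
      _ ≤ rho s₀ t * cK t := by gcongr
  · rw [hFt]
    calc rho s₀ t * cK t ≤ 1 * cK t := by gcongr
      _ ≤ _ := by linarith
  · -- increments
    obtain ⟨d1, d2⟩ := cK_dup t (by omega)
    have hc1 : FF s₀ (t - 1) = rho s₀ (t - 1) * cK (t - 1) := by
      refine FF_big ?_
      have : (10 ^ 50 : ℕ) ≤ t - 1 := by omega
      norm_num at this
      omega
    have hlip := rho_lip (s₀ := s₀) (c := t - 1) (t := t) (by omega) (by omega)
    have e1 : ((t - 1 : ℕ) : ℝ) = (t : ℝ) - 1 := by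
      rw [Nat.cast_sub (by omega)]; push_cast; ring
    rw [e1] at hlip
    have e2 : ((t : ℝ) - ((t : ℝ) - 1)) / ((t : ℝ) - 1) = 1 / ((t : ℝ) - 1) := by
      congr 1; ring
    rw [e2] at hlip
    have hc10 := cK_nonneg (t - 1)
    have ht1 : (0 : ℝ) < (t : ℝ) - 1 := by
      have : (100 : ℝ) < t := by exact_mod_cast ht100
      linarith
    have k1 : (rho s₀ t - rho s₀ (t - 1)) * cK (t - 1) ≤ 1 / 10 ^ 17 * (cK t / t) := by
      calc (rho s₀ t - rho s₀ (t - 1)) * cK (t - 1)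
          ≤ 1 / 10 ^ 17 * (1 / ((t : ℝ) - 1)) * cK (t - 1) := by gcongr
        _ = 1 / 10 ^ 17 * (cK (t - 1) / ((t : ℝ) - 1)) := by ring
        _ ≤ _ := by gcongr
    have k2 : rho s₀ t * (cK t - cK (t - 1)) ≤ rho s₀ t * (4 * (cK t / t) + 4 * (t : ℝ) ^ 2) := by
      have : 0 ≤ rho s₀ t := by linarith
      have h3 : cK t - cK (t - 1) ≤ 4 * (cK t / t) + 4 * (t : ℝ) ^ 2 := by linarith
      gcongr
    have k3 : FF s₀ t - FF s₀ (t - 1) = rho s₀ t * (cK t - cK (t - 1)) +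
        (rho s₀ t - rho s₀ (t - 1)) * cK (t - 1) := by
      rw [hFt, hc1]; ring
    have k4 : 4 * (t : ℝ) ^ 2 ≤ 1 / 10 ^ 13 * (cK t / t) := by
      rw [show 1 / 10 ^ 13 * (cK t / t) = 1 / 10 ^ 13 * cK t / t by ring, le_div_iff₀ ht0]
      have k5 : (t : ℝ) ^ 3 * 10 ^ 50 ≤ (t : ℝ) ^ 4 := by
        calc (t : ℝ) ^ 3 * 10 ^ 50 ≤ (t : ℝ) ^ 3 * t := by gcongr
          _ = _ := by ring
      have k6 : (0 : ℝ) < (t : ℝ) ^ 3 := by positivity
      calc 4 * (t : ℝ) ^ 2 * t = 4 * (t : ℝ) ^ 3 := by ring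
        _ ≤ 1 / 10 ^ 13 * ((t : ℝ) ^ 4 / 121) := by linarith
        _ ≤ _ := by gcongr
    have hcd : 0 ≤ cK t / t := by positivity
    have k7 : 1 / 10 ^ 17 * (cK t / t) ≤ 1 / 10 ^ 14 * (rho s₀ t * (cK t / t)) := by
      have h3 : 1 / 15 * (cK t / t) ≤ rho s₀ t * (cK t / t) := by gcongr
      linarith
    have k8 : rho s₀ t * (4 * (cK t / t) + 4 * (t : ℝ) ^ 2) ≤
        (4 + 1 / 10 ^ 13) * (rho s₀ t * (cK t / t)) := by
      have h3 : rho s₀ t * (4 * (t : ℝ) ^ 2) ≤ rho s₀ t * (1 / 10 ^ 13 * (cK t / t)) := by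
        have : 0 ≤ rho s₀ t := by linarith
        gcongr
      linarith
    have k9 : FF s₀ t / t = rho s₀ t * (cK t / t) := by rw [hFt]; ring
    have k10 : 0 ≤ rho s₀ t * (cK t / t) := mul_nonneg (by linarith) hcd
    rw [k3, k9]
    linarith
  · -- regularity
    intro c hct'
    have hctr : (c : ℝ) ≤ t := by exact_mod_cast hct'
    have hFtp : 0 < FF s₀ t := by rw [hFt]; exact mul_pos (by linarith) hct
    by_cases hc : 1000 * c ≤ t
    · have hcr : (1000 : ℝ) * c ≤ t := by exact_mod_cast hc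
      have h3 : ((c : ℝ) / t) ^ 4 ≤ (1 / 1000) ^ 4 := by
        have : (c : ℝ) / t ≤ 1 / 1000 := by
          rw [div_le_div_iff₀ ht0 (by norm_num)]; linarith
        gcongr
      have h4 : ((c : ℝ) / t) ^ 4 - 1 / 10 ^ 12 ≤ 0 := by
        norm_num at h3 ⊢
        linarith
      exact (mul_nonpos_of_nonpos_of_nonneg h4 hFtp.le).trans (FF_nonneg s₀ c)
    · push Not at hc
      have hcN : N ≤ c := by omega
      have hc100 : 100 < c := by
        have : (10 ^ 50 : ℕ) < 1000 * c := by omega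
        norm_num at this
        omega
      have hcr : (t : ℝ) < 1000 * c := by exact_mod_cast hc
      have hc0 : (0 : ℝ) < c := by exact_mod_cast (by omega : 0 < c)
      have hcl := hN c hcN
      have hlip := rho_lip (s₀ := s₀) (c := c) (t := t) hct' (by omega)
      have h3 : ((t : ℝ) - c) / c ≤ 1000 := by
        rw [div_le_iff₀ hc0]; linarith
      have h4 : rho s₀ t - rho s₀ c ≤ 1 / 10 ^ 14 := by
        have : 1 / 10 ^ 17 * (((t : ℝ) - c) / c) ≤ 1 / 10 ^ 17 * 1000 := by gcongr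
        norm_num at this hlip ⊢
        linarith
      set x : ℝ := ((c : ℝ) / t) ^ 4 with hx
      have hx0 : 0 ≤ x := by positivity
      have hx1 : x ≤ 1 := by
        rw [hx]
        exact pow_le_one₀ (by positivity) ((div_le_one ht0).2 hctr)
      have hxc : (c : ℝ) ^ 4 = x * (t : ℝ) ^ 4 := by
        rw [hx]; field_simp
      have hrc : (1 - 15 / 10 ^ 14) * rho s₀ t ≤ rho s₀ c := by linarith
      rw [hFt, FF_big hc100]
      have hkp : 0 ≤ kap - 2 / 10 ^ 15 := by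
        have : (0 : ℝ) ≤ 1 / 120 - 2 / 10 ^ 15 := by norm_num
        linarith
      have hr0 : 0 ≤ rho s₀ t := by linarith
      have t4 : 0 < (t : ℝ) ^ 4 := by positivity
      -- upper bound of the left side
      by_cases hxs : x - 1 / 10 ^ 12 ≤ 0
      · refine (mul_nonpos_of_nonpos_of_nonneg hxs (mul_nonneg hr0 hct.le)).trans ?_
        exact mul_nonneg (by linarith [rho_ge s₀ c]) (cK_nonneg c)
      push Not at hxs
      calc (x - 1 / 10 ^ 12) * (rho s₀ t * cK t)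
          ≤ (x - 1 / 10 ^ 12) * (rho s₀ t * (kap * (t : ℝ) ^ 4)) := by gcongr
        _ = rho s₀ t * (t : ℝ) ^ 4 * ((x - 1 / 10 ^ 12) * kap) := by ring
        _ ≤ rho s₀ t * (t : ℝ) ^ 4 * ((1 - 15 / 10 ^ 14) * ((kap - 2 / 10 ^ 15) * x)) := by
            refine mul_le_mul_of_nonneg_left ?_ (mul_nonneg hr0 t4.le)
            have g1 : kap * x ≤ kap := by
              have : 0 ≤ kap := by linarith
              nlinarith
            have g2 : 15 / 10 ^ 14 * (kap * x) ≤ 15 / 10 ^ 14 * kap := by gcongr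
            have g3 : 2 / 10 ^ 15 * ((1 - 15 / 10 ^ 14) * x) ≤ 2 / 10 ^ 15 := by
              norm_num
              linarith
            have g4 : (2 / 10 ^ 15 : ℝ) ≤ (1 / 10 ^ 12 - 15 / 10 ^ 14) * kap := by
              have : (2 / 10 ^ 15 : ℝ) ≤ (1 / 10 ^ 12 - 15 / 10 ^ 14) * (1 / 120) := by norm_num
              have h5 : (1 / 10 ^ 12 - 15 / 10 ^ 14) * (1 / 120 : ℝ) ≤
                  (1 / 10 ^ 12 - 15 / 10 ^ 14) * kap :=
                mul_le_mul_of_nonneg_left hk1 (by norm_num)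
              linarith
            linarith
        _ = (1 - 15 / 10 ^ 14) * rho s₀ t * ((kap - 2 / 10 ^ 15) * (x * (t : ℝ) ^ 4)) := by ring
        _ ≤ rho s₀ c * cK c := by
            rw [← hxc]
            have g1 : 0 ≤ (kap - 2 / 10 ^ 15) * (c : ℝ) ^ 4 := by positivity
            have g2 : 0 ≤ rho s₀ c := by linarith [rho_ge s₀ c]
            gcongr

/-- **Albertson's conjecture for large chromatic numbers**, in terms of colourings. -/
theorem large : ∃ t₀ : ℕ, ∀ t, t₀ ≤ t → ∀ (V : Type) [Fintype V] (G : SimpleGraph V),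
    ¬ Cb G Finset.univ (t - 1) → crossingNumber (K t) ≤ crossingNumber G := by
  obtain ⟨N, hN⟩ := cK_low
  obtain ⟨s₀, hs₀⟩ : ∃ s₀ : ℕ, s₀ = 10 ^ 50 + 1000 * N := ⟨_, rfl⟩
  have h50 : 10 ^ 50 ≤ s₀ := by omega
  have h100 : 101 ≤ s₀ := le_trans (by norm_num) h50
  obtain ⟨t₁, ht₁⟩ := rho_top s₀
  refine ⟨t₁ + 101, ?_⟩
  intro t ht V _ G hG
  have key := ind (FF s₀) s₀ (by omega) (fun s hs => by unfold FF; rw [if_pos hs]) (by
      intro s hs
      by_cases h : s ≤ 100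
      · unfold FF
        rw [if_pos h]
        positivity
      · rw [FF_big (by omega), rho_small hs (by omega)]
        have := cK_le s
        linarith)
    (fun t ht => FF_reg N s₀ hN h50 (by omega) t ht) (by
      intro t ht
      rw [FF_big (by omega)]
      have h1 := rho_le s₀ t
      have h2 := cK_nonneg t
      have h3 : rho s₀ t * cK t ≤ 1 * cK t := by gcongr
      rw [one_mul] at h3
      exact h3) (Fintype.card V) V G rfl (t - 1) hG
  have e : t - 1 + 1 = t := by omega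
  rw [e, FF_big (by omega), ht₁ t (by omega), one_mul] at key
  unfold cK at key
  exact_mod_cast key

end Pool.Agent.H466.AB
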