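import Pool.Agent.H466.AB.Col
import Pool.Agent.H466.AL.Tut
import Mathlib.Combinatorics.Hall.Basic

set_option autoImplicit false

/-!
Gallai's theorem on critical graphs with few vertices.
-/

open Classical

namespace Pool.Agent.H466.AB

open Pool.Agent.H466.AL (wt tut wt_sdiff wt_le)

variable {V : Type}

/-- labelled parts, any two of them joined completely -/
def JP {ι : Type} (G : SimpleGraph V) (S : Finset V) (p : V → ι) : Prop :=
  ∀ x ∈ S, ∀ y ∈ S, p x ≠ p y → G.Adj x y

theorem wt_embed {W ι κ : Type} [Fintype ι] [Fintype κ] (p : V → ι) (S : Finset V) (p' : W → κ)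
    (S' : Finset W) (g : κ → ι) (hg : Function.Injective g) (f : W → V)
    (hf : Function.Injective f) (h : ∀ y ∈ S', f y ∈ S ∧ p (f y) = g (p' y)) :
    wt p' S' ≤ wt p S := by
  unfold wt
  have h1 : ∑ j : κ, ((S.filter (fun v => p v = g j)).card + 1) / 2 ≤
      ∑ i : ι, ((S.filter (fun v => p v = i)).card + 1) / 2 := by
    rw [← Finset.sum_image (f := fun i => ((S.filter (fun v => p v = i)).card + 1) / 2) (g := g)
      (fun a _ b _ hab => hg hab)]
    exact Finset.sum_le_sum_of_subset (Finset.subset_univ _)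
  refine le_trans (Finset.sum_le_sum fun j _ => ?_) h1
  refine Nat.div_le_div_right (Nat.add_le_add_right ?_ 1)
  rw [← Finset.card_image_of_injective _ hf]
  apply Finset.card_le_card
  intro x hx
  obtain ⟨y, hy, rfl⟩ := Finset.mem_image.1 hx
  obtain ⟨hy1, hy2⟩ := Finset.mem_filter.1 hy
  obtain ⟨h3, h4⟩ := h y hy1
  rw [Finset.mem_filter]
  exact ⟨h3, by rw [h4, hy2]⟩

theorem tutS (G : SimpleGraph V) (T : Finset V) (m : ℕ) (hT : T.card ≤ 2 * m)
    (h : ¬ Cb G T m) : ∃ (ι : Type) (_ : Fintype ι) (S : Finset V) (p : V → ι),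
      S ⊆ T ∧ JP G S p ∧ m + 1 ≤ wt p S := by
  have h1 : ¬ (G.comap (Subtype.val : {x // x ∈ T} → V)).Colorable (m + 1 - 1) := by
    intro hc
    exact h (Cb_of_colorable hc)
  obtain ⟨ι, hι, S', p', h2, h3⟩ := tut (G.comap (Subtype.val : {x // x ∈ T} → V)) (m + 1)
    (by omega) (by rw [Fintype.card_coe]; omega) h1
  obtain ⟨pp, hpp⟩ : ∃ pp : V → Option ι, ∀ x (hx : x ∈ T), pp x = some (p' ⟨x, hx⟩) :=
    ⟨fun x => if hx : x ∈ T then some (p' ⟨x, hx⟩) else none, fun x hx => dif_pos hx⟩
  refine ⟨Option ι, inferInstance, S'.map (Function.Embedding.subtype _), pp, ?_, ?_, ?_⟩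
  · intro x hx
    obtain ⟨y, -, rfl⟩ := Finset.mem_map.1 hx
    exact y.2
  · intro x hx y hy hxy
    obtain ⟨x, hx', rfl⟩ := Finset.mem_map.1 hx
    obtain ⟨y, hy', rfl⟩ := Finset.mem_map.1 hy
    simp only [Function.Embedding.subtype_apply] at hxy
    rw [hpp _ x.2, hpp _ y.2] at hxy
    exact h2 x hx' y hy' (fun h' => hxy (by rw [h']))
  · refine h3.trans (wt_embed pp _ p' S' some (Option.some_injective _) Subtype.val
      Subtype.val_injective ?_)
    intro y hy
    exact ⟨Finset.mem_map_of_mem _ hy, hpp _ y.2⟩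

/-- the part with label `i` -/
noncomputable def prt {ι : Type} (S : Finset V) (p : V → ι) (i : ι) : Finset V :=
  S.filter (fun v => p v = i)

theorem mem_prt {ι : Type} {S : Finset V} {p : V → ι} {i : ι} {x : V} :
    x ∈ prt S p i ↔ x ∈ S ∧ p x = i := by unfold prt; rw [Finset.mem_filter]

theorem wt_def {ι : Type} [Fintype ι] (S : Finset V) (p : V → ι) :
    wt p S = ∑ i, ((prt S p i).card + 1) / 2 := rfl

/-- replacing a part by smaller parts -/
theorem comb {ι ι' : Type} [Fintype ι] [Fintype ι'] {G : SimpleGraph V} {S S' : Finset V}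
    {p : V → ι} {p' : V → ι'} (i : ι) (hJ : JP G S p) (hS' : S' ⊆ prt S p i) (hJ' : JP G S' p') :
    ∃ q : V → ι ⊕ ι', JP G (S \ prt S p i ∪ S') q ∧
      wt p S + wt p' S' ≤ wt q (S \ prt S p i ∪ S') + ((prt S p i).card + 1) / 2 := by
  have hdis : ∀ x ∈ S', x ∉ S \ prt S p i := fun x hx h => (Finset.mem_sdiff.1 h).2 (hS' hx)
  refine ⟨fun x => if x ∈ S' then Sum.inr (p' x) else Sum.inl (p x), ?_, ?_⟩
  · intro x hx y hy hxy
    by_cases hx' : x ∈ S' <;> by_cases hy' : y ∈ S'
    · simp only [if_pos hx', if_pos hy', ne_eq, Sum.inr.injEq] at hxy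
      exact hJ' x hx' y hy' hxy
    · have h1 := mem_prt.1 (hS' hx')
      have h2 : y ∈ S \ prt S p i := by
        rcases Finset.mem_union.1 hy with h | h
        · exact h
        · exact absurd h hy'
      obtain ⟨h3, h4⟩ := Finset.mem_sdiff.1 h2
      refine hJ x h1.1 y h3 ?_
      rw [h1.2]
      intro h5
      exact h4 (mem_prt.2 ⟨h3, h5.symm⟩)
    · have h1 := mem_prt.1 (hS' hy')
      have h2 : x ∈ S \ prt S p i := by
        rcases Finset.mem_union.1 hx with h | h
        · exact h
        · exact absurd h hx'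
      obtain ⟨h3, h4⟩ := Finset.mem_sdiff.1 h2
      refine hJ x h3 y h1.1 ?_
      rw [h1.2]
      intro h5
      exact h4 (mem_prt.2 ⟨h3, h5⟩)
    · simp only [if_neg hx', if_neg hy', ne_eq, Sum.inl.injEq] at hxy
      have h2 : ∀ z ∈ S \ prt S p i ∪ S', z ∉ S' → z ∈ S := by
        intro z hz hz'
        rcases Finset.mem_union.1 hz with h | h
        · exact (Finset.mem_sdiff.1 h).1
        · exact absurd h hz'
      exact hJ x (h2 x hx hx') y (h2 y hy hy') hxy
  · rw [wt_def, wt_def, wt_def, Fintype.sum_sum_type,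
      ← Finset.add_sum_erase Finset.univ _ (Finset.mem_univ i)]
    have e1 : ∑ j ∈ Finset.univ.erase i, ((prt S p j).card + 1) / 2 ≤
        ∑ j : ι, ((prt (S \ prt S p i ∪ S')
          (fun x => if x ∈ S' then (Sum.inr (p' x) : ι ⊕ ι') else Sum.inl (p x))
          (Sum.inl j)).card + 1) / 2 := by
      refine le_trans (Finset.sum_le_sum fun j hj => ?_)
        (Finset.sum_le_sum_of_subset (Finset.subset_univ (Finset.univ.erase i)))
      have hji := (Finset.mem_erase.1 hj).1
      refine Nat.div_le_div_right (Nat.add_le_add_right (Finset.card_le_card ?_) 1)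
      intro x hx
      obtain ⟨h1, h2⟩ := mem_prt.1 hx
      have h3 : x ∉ prt S p i := fun h => hji (h2.symm.trans (mem_prt.1 h).2)
      rw [mem_prt]
      refine ⟨Finset.mem_union_left _ (Finset.mem_sdiff.2 ⟨h1, h3⟩), ?_⟩
      rw [if_neg (fun h => h3 (hS' h)), h2]
    have e2 : ∑ j : ι', ((prt S' p' j).card + 1) / 2 ≤
        ∑ j : ι', ((prt (S \ prt S p i ∪ S')
          (fun x => if x ∈ S' then (Sum.inr (p' x) : ι ⊕ ι') else Sum.inl (p x))
          (Sum.inr j)).card + 1) / 2 := by
      refine Finset.sum_le_sum fun j _ => ?_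
      refine Nat.div_le_div_right (Nat.add_le_add_right (Finset.card_le_card ?_) 1)
      intro x hx
      obtain ⟨h1, h2⟩ := mem_prt.1 hx
      rw [mem_prt]
      refine ⟨Finset.mem_union_right _ h1, ?_⟩
      rw [if_pos h1, h2]
    omega

/-- **Gallai's theorem**: a vertex-critical graph which is not `k`-colourable and has at most
`2 k` vertices is a join. -/
theorem gallai [Fintype V] (G : SimpleGraph V) (k : ℕ) (hk : ¬ Cb G Finset.univ k)
    (hc : ∀ v, Cb G (Finset.univ.erase v) k) (hn : Fintype.card V ≤ 2 * k) :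
    ∃ U : Finset V, U.Nonempty ∧ Uᶜ.Nonempty ∧ ∀ x ∈ U, ∀ y ∉ U, G.Adj x y := by
  have hex : ∃ s, ∃ (ι : Type) (_ : Fintype ι) (S : Finset V) (p : V → ι),
      JP G S p ∧ k + 1 ≤ wt p S ∧ S.card = s := by
    obtain ⟨ι, hι, S, p, -, h1, h2⟩ := tutS G Finset.univ k (by rw [Finset.card_univ]; exact hn) hk
    exact ⟨S.card, ι, hι, S, p, h1, h2, rfl⟩
  obtain ⟨ι, _, S, p, hJ, hwt, hcard⟩ := Nat.find_spec hex
  have hmin : ∀ (κ : Type) [Fintype κ] (S' : Finset V) (p' : V → κ), JP G S' p' →
      k + 1 ≤ wt p' S' → S.card ≤ S'.card := by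
    intro κ _ S' p' h1 h2
    rw [hcard]
    exact Nat.find_min' hex ⟨κ, inferInstance, S', p', h1, h2, rfl⟩
  clear hcard
  have hJ' : ∀ S' ⊆ S, JP G S' p := fun S' h x hx y hy => hJ x (h hx) y (h hy)
  -- removing a vertex
  have hrem : ∀ y ∈ S, wt p (S \ {y}) ≤ k := by
    intro y hy
    by_contra hc'
    have h1 := hmin ι (S \ {y}) p (hJ' _ Finset.sdiff_subset) (by omega)
    have h2 : (S \ {y}).card + 1 = S.card := by
      rw [Finset.sdiff_singleton_eq_erase]
      exact Finset.card_erase_add_one hy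
    omega
  have hcp : ∀ y ∈ S, (prt (S \ {y}) p (p y)).card + 1 = (prt S p (p y)).card := by
    intro y hy
    have : prt (S \ {y}) p (p y) = (prt S p (p y)).erase y := by
      ext x
      rw [mem_prt, Finset.mem_erase, mem_prt, Finset.mem_sdiff, Finset.mem_singleton]
      tauto
    rw [this]
    exact Finset.card_erase_add_one (mem_prt.2 ⟨hy, rfl⟩)
  have hsd : ∀ y ∈ S, wt p (S \ {y}) + ((prt S p (p y)).card + 1) / 2 =
      wt p S + ((prt (S \ {y}) p (p y)).card + 1) / 2 := by
    intro y hy
    exact wt_sdiff p S {y} (p y) (by intro v hv; rw [Finset.mem_singleton.1 hv])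
  -- the parts are odd
  let m : ι → ℕ := fun i => (prt S p i).card / 2
  have hodd : ∀ y ∈ S, (prt S p (p y)).card = 2 * m (p y) + 1 := by
    intro y hy
    have h1 := hrem y hy
    have h2 := hcp y hy
    have h3 := hsd y hy
    simp only [m]
    omega
  have hwt' : wt p S = k + 1 := by
    have hSne : S.Nonempty := by
      rw [Finset.nonempty_iff_ne_empty]
      rintro rfl
      have := wt_le p (∅ : Finset V)
      rw [Finset.card_empty] at this
      omega
    obtain ⟨y, hy⟩ := hSne
    have h1 := hrem y hy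
    have h2 := hcp y hy
    have h3 := hsd y hy
    omega
  -- parts minus a vertex
  have hcol : ∀ y ∈ S, Cb G ((prt S p (p y)).erase y) (m (p y)) := by
    intro y hy
    by_contra hc'
    have hy' : y ∈ prt S p (p y) := mem_prt.2 ⟨hy, rfl⟩
    have h0 := hodd y hy
    have h1 : ((prt S p (p y)).erase y).card + 1 = (prt S p (p y)).card :=
      Finset.card_erase_add_one hy'
    obtain ⟨ι', _, S', p', hS', hJ1, hw1⟩ := tutS G _ (m (p y)) (by omega) hc'
    obtain ⟨q, hq1, hq2⟩ := comb (p y) hJ (hS'.trans (Finset.erase_subset _ _)) hJ1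
    have h2 := hmin _ _ q hq1 (by omega)
    have h3 : (S \ prt S p (p y) ∪ S').card ≤ (S.erase y).card := by
      apply Finset.card_le_card
      intro x hx
      rw [Finset.mem_erase]
      rcases Finset.mem_union.1 hx with h | h
      · obtain ⟨h4, h5⟩ := Finset.mem_sdiff.1 h
        exact ⟨fun h6 => h5 (by rw [h6]; exact hy'), h4⟩
      · have h4 := hS' h
        rw [Finset.mem_erase] at h4
        exact ⟨h4.1, (mem_prt.1 h4.2).1⟩
    have h4 : (S.erase y).card + 1 = S.card := Finset.card_erase_add_one hy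
    omega
  have hcol' : ∀ y ∈ S, Cb G (prt S p (p y)) (m (p y) + 1) := by
    intro y hy
    refine ((hcol y hy).union (Cb.indep (S := {y}) ?_)).mono ?_ le_rfl
    · intro a ha b hb
      rw [Finset.mem_singleton.1 ha, Finset.mem_singleton.1 hb]
      exact G.irrefl
    · intro x hx
      by_cases hxy : x = y
      · exact Finset.mem_union_right _ (Finset.mem_singleton.2 hxy)
      · exact Finset.mem_union_left _ (Finset.mem_erase.2 ⟨hxy, hx⟩)
  -- the labels which are used
  let I : Finset ι := S.image p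
  have hI : ∀ i ∈ I, ∃ y ∈ S, p y = i := fun i hi => Finset.mem_image.1 hi
  have hIc : ∀ i ∈ I, (prt S p i).card = 2 * m i + 1 := by
    intro i hi
    obtain ⟨y, hy, rfl⟩ := hI i hi
    exact hodd y hy
  have hout : ∀ i, i ∉ I → (prt S p i).card = 0 := by
    intro i hi
    rw [Finset.card_eq_zero, Finset.eq_empty_iff_forall_notMem]
    intro x hx
    obtain ⟨h1, h2⟩ := mem_prt.1 hx
    exact hi (Finset.mem_image.2 ⟨x, h1, h2⟩)
  have hwI : wt p S = ∑ i ∈ I, (m i + 1) := by
    rw [wt_def, ← Finset.sum_subset (Finset.subset_univ I) (by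
      intro i _ hi
      rw [hout i hi]
      norm_num)]
    refine Finset.sum_congr rfl fun i hi => ?_
    rw [hIc i hi]
    omega
  have hSI : S.card = ∑ i ∈ I, (2 * m i + 1) := by
    rw [Finset.card_eq_sum_card_fiberwise (f := p) (t := I)
      (fun x hx => Finset.mem_coe.2 (Finset.mem_image_of_mem _ hx))]
    exact Finset.sum_congr rfl fun i hi => hIc i hi
  have hnum : S.card + I.card = 2 * (k + 1) := by
    rw [← hwt', hwI, hSI, Finset.card_eq_sum_ones, ← Finset.sum_add_distrib, Finset.mul_sum]
    exact Finset.sum_congr rfl fun i _ => by ring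
  have hAS : (Sᶜ : Finset V).card + S.card = Fintype.card V := by
    rw [Finset.card_compl]
    have := Finset.card_le_univ S
    omega
  have hI2 : (Sᶜ : Finset V).card + 2 ≤ I.card := by omega
  -- join of parts
  have hjoin : ∀ T : Finset ι, ∀ x ∈ T.biUnion (prt S p), ∀ y ∈ S, y ∉ T.biUnion (prt S p) →
      G.Adj x y := by
    intro T x hx y hy hy'
    obtain ⟨i, hi, hxi⟩ := Finset.mem_biUnion.1 hx
    obtain ⟨h1, h2⟩ := mem_prt.1 hxi
    refine hJ x h1 y hy ?_
    rw [h2]
    intro h3
    exact hy' (Finset.mem_biUnion.2 ⟨i, hi, mem_prt.2 ⟨hy, h3.symm⟩⟩)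
  by_cases hA : (Sᶜ : Finset V) = ∅
  · -- no further vertices
    have hSu : ∀ y, y ∈ S := by
      intro y
      by_contra hy
      have : y ∈ (Sᶜ : Finset V) := Finset.mem_compl.2 hy
      rw [hA] at this
      exact absurd this (Finset.notMem_empty y)
    have h2 : 1 < I.card := by omega
    obtain ⟨i, hi, j, hj, hij⟩ := Finset.one_lt_card.1 h2
    obtain ⟨x, hx, hxi⟩ := hI i hi
    obtain ⟨y, hy, hyj⟩ := hI j hj
    refine ⟨prt S p i, ⟨x, mem_prt.2 ⟨hx, hxi⟩⟩, ⟨y, ?_⟩, ?_⟩
    · rw [Finset.mem_compl, mem_prt]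
      rintro ⟨-, h⟩
      exact hij (h.symm.trans hyj)
    · intro a ha b hb
      obtain ⟨h3, h4⟩ := mem_prt.1 ha
      refine hJ a h3 b (hSu b) ?_
      rw [h4]
      intro h5
      exact hb (mem_prt.2 ⟨hSu b, h5.symm⟩)
  -- the bipartite relation
  let T : Finset ι := I.filter (fun i => ¬ Cb G (prt S p i) (m i))
  have hTI : T ⊆ I := Finset.filter_subset _ _
  let rel : V → ι → Prop := fun a i => ∃ y ∈ prt S p i, ¬ G.Adj a y
  let Nb : Finset V → Finset ι := fun B => T.filter (fun i => ∃ a ∈ B, rel a i)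
  have habs : ∀ a, a ∉ S → ∀ i ∈ I, rel a i → Cb G (insert a (prt S p i)) (m i + 1) := by
    intro a ha i hi ⟨y, hy, hay⟩
    obtain ⟨h1, h2⟩ := mem_prt.1 hy
    have h3 := hcol y h1
    rw [h2] at h3
    refine (h3.union (Cb.indep (S := {a, y}) ?_)).mono ?_ le_rfl
    · intro b hb c hc' hbc
      simp only [Finset.mem_insert, Finset.mem_singleton] at hb hc'
      rcases hb with rfl | rfl <;> rcases hc' with rfl | rfl
      · exact G.irrefl hbc
      · exact hay hbc
      · exact hay hbc.symm
      · exact G.irrefl hbc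
    · intro x hx
      by_cases hxy : x = y
      · exact Finset.mem_union_right _ (by rw [hxy]; simp)
      · rcases Finset.mem_insert.1 hx with h | h
        · exact Finset.mem_union_right _ (by rw [h]; simp)
        · exact Finset.mem_union_left _ (Finset.mem_erase.2 ⟨hxy, h⟩)
  obtain ⟨B, hB, hBmax⟩ := Finset.exists_max_image (Sᶜ : Finset V).powerset
    (fun B => (B.card : ℤ) - (Nb B).card) ⟨∅, Finset.empty_mem_powerset _⟩
  rw [Finset.mem_powerset] at hB
  have hcolI : ∀ i ∈ I, Cb G (prt S p i) (m i + 1) := by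
    intro i hi
    obtain ⟨y, hy, rfl⟩ := hI i hi
    exact hcol' y hy
  by_cases hBA : B = Sᶜ
  · subst hBA
    by_cases hT0 : (T \ Nb Sᶜ).Nonempty
    · obtain ⟨i, hi⟩ := hT0
      have hiT := (Finset.mem_sdiff.1 hi).1
      obtain ⟨x, hx, hxi⟩ := hI i (hTI hiT)
      refine ⟨(T \ Nb Sᶜ).biUnion (prt S p), ⟨x, Finset.mem_biUnion.2 ⟨i, hi,
        mem_prt.2 ⟨hx, hxi⟩⟩⟩, ?_, ?_⟩
      · obtain ⟨a, ha⟩ := Finset.nonempty_iff_ne_empty.2 hA
        refine ⟨a, ?_⟩
        rw [Finset.mem_compl]
        intro h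
        obtain ⟨j, -, hj⟩ := Finset.mem_biUnion.1 h
        exact Finset.mem_compl.1 ha (mem_prt.1 hj).1
      · intro a ha b hb
        by_cases hbS : b ∈ S
        · exact hjoin _ a ha b hbS hb
        · obtain ⟨j, hj, haj⟩ := Finset.mem_biUnion.1 ha
          obtain ⟨h1, h2⟩ := Finset.mem_sdiff.1 hj
          by_contra hab
          apply h2
          refine Finset.mem_filter.2 ⟨h1, b, Finset.mem_compl.2 hbS, a, haj, ?_⟩
          exact fun h => hab h.symm
    · exfalso
      rw [Finset.not_nonempty_iff_eq_empty, Finset.sdiff_eq_empty_iff_subset] at hT0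
      have hTN : Nb Sᶜ = T := Finset.Subset.antisymm (Finset.filter_subset _ _) hT0
      -- Hall from the side of the labels
      obtain ⟨ψ, hψ, hψ'⟩ := (Finset.all_card_le_biUnion_card_iff_exists_injective
        (fun i : {i // i ∈ T} => (Sᶜ : Finset V).filter (fun a => rel a i.1))).1 (by
          intro s
          obtain ⟨N, hN⟩ : ∃ N : Finset V, N = s.biUnion
            (fun i : {i // i ∈ T} => (Sᶜ : Finset V).filter (fun a => rel a i.1)) := ⟨_, rfl⟩
          rw [← hN]
          have hNs : N ⊆ Sᶜ := by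
            intro a ha
            rw [hN] at ha
            obtain ⟨i, -, h1⟩ := Finset.mem_biUnion.1 ha
            exact (Finset.mem_filter.1 h1).1
          have h1 := hBmax (Sᶜ \ N) (Finset.mem_powerset.2 Finset.sdiff_subset)
          rw [hTN] at h1
          have h2 : (Nb (Sᶜ \ N)).card + s.card ≤ T.card := by
            have h3 : (s.map (Function.Embedding.subtype _)).card = s.card := Finset.card_map _
            rw [← h3, ← Finset.card_union_of_disjoint]
            · apply Finset.card_le_card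
              intro i hi
              rcases Finset.mem_union.1 hi with h | h
              · exact (Finset.mem_filter.1 h).1
              · obtain ⟨j, -, rfl⟩ := Finset.mem_map.1 h
                exact j.2
            · rw [Finset.disjoint_left]
              intro i hi hi'
              obtain ⟨j, hj, rfl⟩ := Finset.mem_map.1 hi'
              obtain ⟨-, a, ha, har⟩ := Finset.mem_filter.1 hi
              obtain ⟨ha1, ha2⟩ := Finset.mem_sdiff.1 ha
              apply ha2
              rw [hN]
              exact Finset.mem_biUnion.2 ⟨j, hj, Finset.mem_filter.2 ⟨ha1, har⟩⟩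
          have h4 : (Sᶜ \ N : Finset V).card + N.card = (Sᶜ : Finset V).card :=
            Finset.card_sdiff_add_card_eq_card hNs
          omega)
      have hψ1 : ∀ i, ψ i ∉ S ∧ rel (ψ i) i.1 := by
        intro i
        obtain ⟨h1, h2⟩ := Finset.mem_filter.1 (hψ' i)
        exact ⟨Finset.mem_compl.1 h1, h2⟩
      -- a colouring
      let R : ι → Finset V := fun i => if h : i ∈ T then insert (ψ ⟨i, h⟩) (prt S p i)
        else prt S p i
      let f : ι → ℕ := fun i => if i ∈ T then m i + 1 else m i
      have hR : ∀ i ∈ I, Cb G (R i) (f i) := by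
        intro i hi
        simp only [R, f]
        by_cases h : i ∈ T
        · rw [dif_pos h, if_pos h]
          exact habs _ (hψ1 _).1 i hi (hψ1 ⟨i, h⟩).2
        · rw [dif_neg h, if_neg h]
          by_contra hc'
          exact h (Finset.mem_filter.2 ⟨hi, hc'⟩)
      let Z : Finset V := Sᶜ \ Finset.univ.image ψ
      have hZ : Z.card + T.card = (Sᶜ : Finset V).card := by
        have h1 : Finset.univ.image ψ ⊆ Sᶜ := by
          intro a ha
          obtain ⟨i, -, rfl⟩ := Finset.mem_image.1 ha
          exact Finset.mem_compl.2 (hψ1 i).1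
        have h2 := Finset.card_sdiff_add_card_eq_card h1
        rw [Finset.card_image_of_injective _ hψ, Finset.card_univ, Fintype.card_coe] at h2
        exact h2
      have hall : Cb G Finset.univ (∑ i ∈ I, f i + Z.card) := by
        refine ((Cb.biUnion I R f hR).union (Cb.card G Z)).mono ?_ le_rfl
        intro x _
        by_cases hx : x ∈ S
        · refine Finset.mem_union_left _ (Finset.mem_biUnion.2 ⟨p x,
            Finset.mem_image_of_mem _ hx, ?_⟩)
          simp only [R]
          split_ifs with h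
          · exact Finset.mem_insert_of_mem (mem_prt.2 ⟨hx, rfl⟩)
          · exact mem_prt.2 ⟨hx, rfl⟩
        · by_cases hxψ : ∃ i, ψ i = x
          · obtain ⟨i, rfl⟩ := hxψ
            refine Finset.mem_union_left _ (Finset.mem_biUnion.2 ⟨i.1, hTI i.2, ?_⟩)
            simp only [R]
            rw [dif_pos i.2]
            exact Finset.mem_insert_self _ _
          · refine Finset.mem_union_right _ (Finset.mem_sdiff.2 ⟨Finset.mem_compl.2 hx, ?_⟩)
            intro h
            obtain ⟨i, -, hi⟩ := Finset.mem_image.1 h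
            exact hxψ ⟨i, hi⟩
      have hsum : ∑ i ∈ I, f i + I.card = wt p S + T.card := by
        rw [hwI, Finset.card_eq_sum_ones, ← Finset.sum_add_distrib]
        have h1 : T.card = ∑ i ∈ I, if i ∈ T then 1 else 0 := by
          rw [← Finset.card_filter]
          congr 1
          ext i
          constructor
          · intro h
            exact Finset.mem_filter.2 ⟨hTI h, h⟩
          · intro h
            exact (Finset.mem_filter.1 h).2
        rw [h1, ← Finset.sum_add_distrib]
        refine Finset.sum_congr rfl fun i _ => ?_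
        simp only [f]
        split_ifs <;> omega
      exact hk (hall.mono (Finset.Subset.refl _) (by omega))
  · exfalso
    obtain ⟨a0, ha0, ha0'⟩ : ∃ a, a ∈ (Sᶜ : Finset V) ∧ a ∉ B := by
      by_contra h
      push Not at h
      exact hBA (Finset.Subset.antisymm hB h)
    obtain ⟨φ, hφ, hφ'⟩ := (Finset.all_card_le_biUnion_card_iff_exists_injective
        (fun a : {a // a ∈ Sᶜ \ B} => (T \ Nb B).filter (fun i => rel a.1 i))).1 (by
          intro s
          have hsm : s.map (Function.Embedding.subtype _) ⊆ Sᶜ \ B := by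
            intro a ha
            obtain ⟨b, -, rfl⟩ := Finset.mem_map.1 ha
            exact b.2
          have h1 := hBmax (B ∪ s.map (Function.Embedding.subtype _)) (Finset.mem_powerset.2 (by
            intro a ha
            rcases Finset.mem_union.1 ha with h | h
            · exact hB h
            · exact (Finset.mem_sdiff.1 (hsm h)).1))
          have h2 : (B ∪ s.map (Function.Embedding.subtype _)).card = B.card + s.card := by
            rw [Finset.card_union_of_disjoint, Finset.card_map]
            rw [Finset.disjoint_left]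
            intro a ha hb
            exact (Finset.mem_sdiff.1 (hsm hb)).2 ha
          have h3 : (Nb (B ∪ s.map (Function.Embedding.subtype _))).card ≤ (Nb B).card +
              (s.biUnion (fun a : {a // a ∈ Sᶜ \ B} =>
                (T \ Nb B).filter (fun i => rel a.1 i))).card := by
            refine le_trans (Finset.card_le_card ?_) (Finset.card_union_le _ _)
            intro i hi
            obtain ⟨h4, a, ha, har⟩ := Finset.mem_filter.1 hi
            by_cases hiN : i ∈ Nb B
            · exact Finset.mem_union_left _ hiN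
            · rcases Finset.mem_union.1 ha with h | h
              · exact absurd (Finset.mem_filter.2 ⟨h4, a, h, har⟩) hiN
              · obtain ⟨b, hb, rfl⟩ := Finset.mem_map.1 h
                exact Finset.mem_union_right _ (Finset.mem_biUnion.2 ⟨b, hb,
                  Finset.mem_filter.2 ⟨Finset.mem_sdiff.2 ⟨h4, hiN⟩, har⟩⟩)
          omega)
    have hφ1 : ∀ a, φ a ∈ T ∧ φ a ∉ Nb B ∧ rel a.1 (φ a) := by
      intro a
      obtain ⟨h1, h2⟩ := Finset.mem_filter.1 (hφ' a)
      exact ⟨(Finset.mem_sdiff.1 h1).1, (Finset.mem_sdiff.1 h1).2, h2⟩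
    let T2 : Finset ι := T \ Nb B
    let U : Finset V := T2.biUnion (prt S p)
    let W : Finset V := (Finset.univ \ (Sᶜ \ B)) \ U
    have hUW : ∀ x ∈ U, ∀ y ∈ W, G.Adj x y := by
      intro x hx y hy
      obtain ⟨h1, h2⟩ := Finset.mem_sdiff.1 hy
      have h3 := (Finset.mem_sdiff.1 h1).2
      by_cases hyS : y ∈ S
      · exact hjoin T2 x hx y hyS h2
      · have hyB : y ∈ B := by
          by_contra h
          exact h3 (Finset.mem_sdiff.2 ⟨Finset.mem_compl.2 hyS, h⟩)
        obtain ⟨j, hj, hxj⟩ := Finset.mem_biUnion.1 hx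
        obtain ⟨h4, h5⟩ := Finset.mem_sdiff.1 hj
        by_contra hab
        exact h5 (Finset.mem_filter.2 ⟨h4, y, hyB, x, hxj, fun h => hab h.symm⟩)
    have hUs : ∀ x ∈ U, x ∈ S := by
      intro x hx
      obtain ⟨j, hj, hxj⟩ := Finset.mem_biUnion.1 hx
      exact (mem_prt.1 hxj).1
    obtain ⟨a, b, hab, hca, hcb⟩ := ((hc a0).mono (S := U ∪ W) (by
      intro x hx
      rw [Finset.mem_erase]
      refine ⟨?_, Finset.mem_univ _⟩
      rintro rfl
      rcases Finset.mem_union.1 hx with h | h
      · exact Finset.mem_compl.1 ha0 (hUs _ h)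
      · exact (Finset.mem_sdiff.1 (Finset.mem_sdiff.1 h).1).2
          (Finset.mem_sdiff.2 ⟨ha0, ha0'⟩)) le_rfl).split hUW
    have hlow := Cb.lower T2 (prt S p) m (by
      intro i hi
      exact (Finset.mem_filter.1 (Finset.mem_sdiff.1 hi).1).2) (by
      intro i _ j _ hij x hx y hy
      obtain ⟨h1, h2⟩ := mem_prt.1 hx
      obtain ⟨h3, h4⟩ := mem_prt.1 hy
      exact hJ x h1 y h3 (by rw [h2, h4]; exact hij)) a hca
    let R : ι → Finset V := fun i => prt S p i ∪
      (Finset.univ.filter (fun a : {a // a ∈ Sᶜ \ B} => φ a = i)).map (Function.Embedding.subtype _)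
    have hR : ∀ i ∈ T2, Cb G (R i) (m i + 1) := by
      intro i hi
      have hiI : i ∈ I := hTI (Finset.mem_sdiff.1 hi).1
      by_cases hex' : ∃ a, φ a = i
      · obtain ⟨c, hc'⟩ := hex'
        refine (habs c.1 (Finset.mem_compl.1 (Finset.mem_sdiff.1 c.2).1) i hiI ?_).mono ?_ le_rfl
        · rw [← hc']
          exact (hφ1 c).2.2
        · intro x hx
          rcases Finset.mem_union.1 hx with h | h
          · exact Finset.mem_insert_of_mem h
          · obtain ⟨d, hd, rfl⟩ := Finset.mem_map.1 h
            have hd' := (Finset.mem_filter.1 hd).2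
            have : d = c := hφ (hd'.trans hc'.symm)
            rw [this]
            exact Finset.mem_insert_self _ _
      · refine (hcolI i hiI).mono ?_ le_rfl
        intro x hx
        rcases Finset.mem_union.1 hx with h | h
        · exact h
        · obtain ⟨d, hd, rfl⟩ := Finset.mem_map.1 h
          exact absurd ⟨d, (Finset.mem_filter.1 hd).2⟩ hex'
    apply hk
    refine (hcb.union (Cb.biUnion T2 R _ hR)).mono ?_ (by omega)
    intro x _
    by_cases hx1 : x ∈ Sᶜ \ B
    · refine Finset.mem_union_right _ (Finset.mem_biUnion.2 ⟨φ ⟨x, hx1⟩, ?_, ?_⟩)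
      · exact Finset.mem_sdiff.2 ⟨(hφ1 _).1, (hφ1 _).2.1⟩
      · exact Finset.mem_union_right _ (Finset.mem_map.2 ⟨⟨x, hx1⟩,
          Finset.mem_filter.2 ⟨Finset.mem_univ _, rfl⟩, rfl⟩)
    · by_cases hx2 : x ∈ U
      · obtain ⟨j, hj, hxj⟩ := Finset.mem_biUnion.1 hx2
        exact Finset.mem_union_right _ (Finset.mem_biUnion.2 ⟨j, hj,
          Finset.mem_union_left _ hxj⟩)
      · exact Finset.mem_union_left _ (Finset.mem_sdiff.2 ⟨Finset.mem_sdiff.2
          ⟨Finset.mem_univ _, hx1⟩, hx2⟩)

end Pool.Agent.H466.AB
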