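import Pool.Agent.H466.AL.Rep2
import Pool.Agent.H466.AB.AvgG

set_option autoImplicit false

/-!
Replacing a part of at least `2t-1` vertices by a clique on `t` of its vertices: averaging.
-/

open Set Classical
open Pool.Agent.Helper770.Crossing Pool.Agent.NH90.CN

namespace Pool.Agent.H466.AB

open Pool.Agent.H466.AL

theorem rn1 (t k r : ℝ) (ht : 2 ≤ t) (hk : 2 * t - 1 ≤ k) (hB : 2 * t ≤ 3 * r)
    (h2 : 200000 ≤ r) : t / k * (1 + (k - t) / (2 * r)) ≤ 97 / 100 := by
  have hr : 0 < r := by linarith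
  have hk' : 0 < k := by linarith
  have e : t / k * (1 + (k - t) / (2 * r)) = (t * (2 * r + k - t)) / (k * (2 * r)) := by
    field_simp
    ring
  rw [e, div_le_div_iff₀ (by positivity) (by norm_num)]
  have h3 : 0 ≤ (k - (2 * t - 1)) * (194 * r - 100 * t) :=
    mul_nonneg (by linarith) (by linarith)
  rcases le_total t 1000 with h | h
  · nlinarith [mul_nonneg (by linarith : (0 : ℝ) ≤ t - 2) hr.le,
      mul_nonneg (by linarith : (0 : ℝ) ≤ 1000 - t) (by linarith : (0 : ℝ) ≤ t),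
      mul_nonneg (by linarith : (0 : ℝ) ≤ r - 200000) (by linarith : (0 : ℝ) ≤ t)]
  · nlinarith [mul_nonneg (by linarith : (0 : ℝ) ≤ t - 1000) hr.le,
      mul_nonneg (by linarith : (0 : ℝ) ≤ 3 * r - 2 * t) (by linarith : (0 : ℝ) ≤ t)]

theorem rn2 (t k r : ℝ) (ht : 2 ≤ t) (hk : 2 * t - 1 ≤ k) (hB : 2 * t ≤ 3 * r)
    (hA : 2 * (k - t) ≤ 3 * r) (h2 : 200000 ≤ r) :
    t / k / 2 * (1 + (k - t + 1) / r + ((k - t) ^ 2 + 3 * (k - t)) / (4 * r ^ 2)) ≤
      97 / 100 := by
  have hr : 0 < r := by linarith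
  have hk' : 0 < k := by linarith
  have ht0 : 0 < t := by linarith
  have hD : 0 ≤ k - t := by linarith
  have e : t / k / 2 * (1 + (k - t + 1) / r + ((k - t) ^ 2 + 3 * (k - t)) / (4 * r ^ 2)) =
      (t * (4 * r ^ 2 + 4 * (k - t + 1) * r + ((k - t) ^ 2 + 3 * (k - t)))) /
        (k * (8 * r ^ 2)) := by
    field_simp
    norm_num
  rw [e, div_le_div_iff₀ (by positivity) (by norm_num)]
  have g1 : (k - t) ^ 2 ≤ 3 / 2 * r * (k - t) := by nlinarith
  have g2 : 4 * r ^ 2 + 4 * (k - t + 1) * r + ((k - t) ^ 2 + 3 * (k - t)) ≤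
      r * (4 * r + 11 / 2 * (k - t) + 17 / 2) := by nlinarith
  have g3 : t * (4 * r ^ 2 + 4 * (k - t + 1) * r + ((k - t) ^ 2 + 3 * (k - t))) ≤
      t * (r * (4 * r + 11 / 2 * (k - t) + 17 / 2)) := mul_le_mul_of_nonneg_left g2 ht0.le
  have g4 : 0 ≤ k * (776 * r - 550 * t) - 400 * t * r + 550 * t ^ 2 - 850 * t := by
    rcases le_total 0 (776 * r - 550 * t) with hc | hc
    · have h3 : 0 ≤ (k - (2 * t - 1)) * (776 * r - 550 * t) := mul_nonneg (by linarith) hc
      have h4 : 0 ≤ 1152 * t * r - 550 * t ^ 2 - 776 * r - 300 * t := by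
        rcases le_total t 1000 with h | h
        · nlinarith [mul_nonneg (by linarith : (0 : ℝ) ≤ t - 2) hr.le,
            mul_nonneg (by linarith : (0 : ℝ) ≤ 1000 - t) (by linarith : (0 : ℝ) ≤ t),
            mul_nonneg (by linarith : (0 : ℝ) ≤ r - 200000) (by linarith : (0 : ℝ) ≤ t)]
        · nlinarith [mul_nonneg (by linarith : (0 : ℝ) ≤ t - 1000) hr.le,
            mul_nonneg (by linarith : (0 : ℝ) ≤ 3 * r - 2 * t) (by linarith : (0 : ℝ) ≤ t)]
      nlinarith
    · have h3 : 0 ≤ (t + 3 / 2 * r - k) * (550 * t - 776 * r) :=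
        mul_nonneg (by linarith) (by linarith)
      have h4 : 0 ≤ 1164 * r ^ 2 - 449 * t * r - 850 * t := by
        nlinarith [mul_nonneg (by linarith : (0 : ℝ) ≤ 3 * r - 2 * t) hr.le,
          mul_nonneg (by linarith : (0 : ℝ) ≤ r - 200000) hr.le]
      nlinarith
  have g5 : 0 ≤ r * (k * (776 * r - 550 * t) - 400 * t * r + 550 * t ^ 2 - 850 * t) :=
    mul_nonneg hr.le g4
  nlinarith

theorem rn3 (t k r q : ℝ) (ht : 2 ≤ t) (hk : 2 * t - 1 ≤ k) (hB : 2 * t ≤ 3 * r)
    (hA : 2 * (k - t) ≤ 3 * r) (h2 : 200000 ≤ r) (hq : q = t * (t + 1) / 2) :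
    4 * q * (r + k) + 4 * (q ^ 2 / r) ≤ 6 / 100 * ((k * (k - 1)) * (r * (r - 1)) / 36) := by
  have hr : 0 < r := by linarith
  have hk3 : 3 ≤ k := by linarith
  have hkr : k ≤ 3 * r := by linarith
  have hq0 : 0 ≤ q := by rw [hq]; positivity
  have hq1 : q ≤ k ^ 2 / 3 := by
    have : t ≤ (k + 1) / 2 := by linarith
    rw [hq]
    nlinarith
  have a1 : 4 * q * (r + k) ≤ 4 * (k ^ 2 / 3) * (4 * r) :=
    mul_le_mul (by linarith) (by linarith) (by linarith) (by positivity)
  have a2 : 4 * (q ^ 2 / r) ≤ 4 * (k ^ 2 * r) := by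
    have b1 : q ^ 2 ≤ (k ^ 2 / 3) ^ 2 := pow_le_pow_left₀ hq0 hq1 2
    have b2 : k ^ 2 ≤ 9 * r ^ 2 := by nlinarith
    have b3 : (k ^ 2 / 3) ^ 2 ≤ k ^ 2 * r * r := by
      have : (k ^ 2 / 3) ^ 2 = k ^ 2 * (k ^ 2 / 9) := by ring
      rw [this, mul_assoc]
      exact mul_le_mul_of_nonneg_left (by nlinarith) (by positivity)
    have b4 : q ^ 2 / r ≤ k ^ 2 * r := (div_le_iff₀ hr).2 (b1.trans b3)
    linarith
  have a3 : (2 / 3 * k ^ 2) * (r * 199999) ≤ (k * (k - 1)) * (r * (r - 1)) := by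
    refine mul_le_mul (by nlinarith) (mul_le_mul_of_nonneg_left (by linarith) hr.le)
      (by positivity) (by nlinarith)
  have a4 : 0 ≤ k ^ 2 * r := by positivity
  nlinarith

variable {V : Type} [Fintype V]

section pair

variable (G : SimpleGraph V) (U : Finset V) (t : ℕ) (ht : 2 ≤ t) (hU : 2 * t ≤ U.card + 1)
  (hj : ∀ x ∈ U, ∀ y ∉ U, G.Adj x y) (r : ℝ) (hr : r = Fintype.card {x // x ∉ U})
  (hr1 : 2 * (t : ℝ) ≤ 3 * r) (hr1' : 2 * ((U.card : ℝ) - t) ≤ 3 * r) (hr2 : 200000 ≤ r)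
  (N Mt : ℝ) (hN : N = ((U.card.choose t : ℕ) : ℝ))
  (hMt : Mt = (Fintype.card (Sym2 V → {x // x ∉ U}) : ℝ))
  (hD : ∀ u ∈ U, (nb G u).card + t ≤ U.card)

include ht hU hj hr hr1 hr1' hr2 hN hMt hD in
theorem pair_bd (a b : Sym2 V) (hdis : ∀ v ∈ a, v ∉ b) :
    ∑ B ∈ Finset.powersetCard t U, ∑ m : Sym2 V → {x // x ∉ U},
      ((ld G (GB G U B) (md m) a : ℝ) * ld G (GB G U B) (md m) b) ≤
      N * Mt * (if (∃ v ∈ a, v ∈ U) ∨ (∃ v ∈ b, v ∈ U) then 97 / 100 else 1) := by
  have htr : (2 : ℝ) ≤ t := by exact_mod_cast ht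
  have hr0 : 0 < r := by linarith
  have hUr : 2 * (t : ℝ) - 1 ≤ U.card := by
    have : 2 * (t : ℝ) ≤ (U.card : ℝ) + 1 := by exact_mod_cast hU
    linarith
  have hNn : 0 ≤ N := by rw [hN]; positivity
  have hMn : 0 ≤ Mt := by rw [hMt]; positivity
  have hNM : 0 ≤ N * Mt := mul_nonneg hNn hMn
  have hD' : ∀ u ∈ U, ((nb G u).card : ℝ) ≤ (U.card : ℝ) - t := by
    intro u hu
    have h1 := hD u hu
    have h2 : (((nb G u).card : ℕ) : ℝ) + t ≤ U.card := by exact_mod_cast h1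
    linarith
  have hnb : ∀ u ∈ U, nb G u ⊆ U := by
    intro u hu z hz
    by_contra hzU
    exact (mem_nb.1 hz).2 (hj u hu z hzU)
  have hκ1 : 1 < Fintype.card {x // x ∉ U} := by
    have : (1 : ℝ) < Fintype.card {x // x ∉ U} := by rw [← hr]; linarith
    exact_mod_cast this
  haveI : Nontrivial {x // x ∉ U} := Fintype.one_lt_card_iff_nontrivial.1 hκ1
  have mE1 : ∀ u ∈ U, ∀ w : {x // x ∉ U}, ∑ B ∈ Finset.powersetCard t U,
      ∑ m : Sym2 V → {x // x ∉ U}, Lam G B m u w ≤ N * Mt * (97 / 100) := by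
    intro u hu w
    refine (AB.E1 G U t (by omega) hU r hr hr0 N Mt ((t : ℝ) / U.card) ((U.card : ℝ) - t) hN hMt rfl hD'
      u hu (hnb u hu) w).trans (mul_le_mul_of_nonneg_left ?_ hNM)
    exact rn1 t _ r htr hUr hr1 hr2
  have mE2 : ∀ u ∈ U, ∀ u' ∈ U, u ≠ u' → ∀ w w' : {x // x ∉ U}, w ≠ w' →
      ∑ B ∈ Finset.powersetCard t U,
      ∑ m : Sym2 V → {x // x ∉ U}, Lam G B m u w * Lam G B m u' w' ≤ N * Mt * (97 / 100) := by
    intro u hu u' hu' huu w w' hww
    refine (AB.E2 G U t (by omega) hU r hr hr0 N Mt ((t : ℝ) / U.card) ((U.card : ℝ) - t) hN hMt rfl hD'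
      u u' hu hu' huu (hnb u hu) (hnb u' hu') w w' hww (by linarith)).trans
      (mul_le_mul_of_nonneg_left ?_ hNM)
    exact rn2 t _ r htr hUr hr1 hr1' hr2
  have wit : ∀ a : Sym2 V, ∀ u ∈ a, u ∈ U → (∃ w : {x // x ∉ U}, ∀ v ∈ a, v ∉ U → v = w.1) := by
    intro a u hua huU
    obtain ⟨v, rfl⟩ := hua
    by_cases hv : v ∈ U
    · obtain ⟨w, -⟩ := exists_pair_ne {x // x ∉ U}
      refine ⟨w, ?_⟩
      intro x hx hxU
      rcases Sym2.mem_iff.1 hx with rfl | rfl
      · exact absurd huU hxU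
      · exact absurd hv hxU
    · refine ⟨⟨v, hv⟩, ?_⟩
      intro x hx hxU
      rcases Sym2.mem_iff.1 hx with rfl | rfl
      · exact absurd huU hxU
      · rfl
  by_cases ha : ∃ v ∈ a, v ∈ U
  · rw [if_pos (Or.inl ha)]
    obtain ⟨u, hua, huU⟩ := ha
    by_cases hb : ∃ v ∈ b, v ∈ U
    · obtain ⟨u', hub, huU'⟩ := hb
      have huu : u ≠ u' := by rintro rfl; exact hdis u hua hub
      obtain ⟨w, w', hww, hw, hw'⟩ : ∃ w w' : {x // x ∉ U}, w ≠ w' ∧
          (∀ v ∈ a, v ∉ U → v = w.1) ∧ (∀ v ∈ b, v ∉ U → v = w'.1) := by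
        obtain ⟨v, rfl⟩ := hua
        obtain ⟨v', rfl⟩ := hub
        by_cases hv : v ∈ U
        · obtain ⟨w', hw'⟩ := wit s(u', v') u' (by simp) huU'
          obtain ⟨w, hw⟩ := exists_ne w'
          refine ⟨w, w', hw, ?_, hw'⟩
          intro x hx hxU
          rcases Sym2.mem_iff.1 hx with rfl | rfl
          · exact absurd huU hxU
          · exact absurd hv hxU
        · by_cases hv' : v' ∈ U
          · obtain ⟨w, hw⟩ := wit s(u, v) u (by simp) huU
            obtain ⟨w', hw'⟩ := exists_ne w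
            refine ⟨w, w', hw'.symm, hw, ?_⟩
            intro x hx hxU
            rcases Sym2.mem_iff.1 hx with rfl | rfl
            · exact absurd huU' hxU
            · exact absurd hv' hxU
          · refine ⟨⟨v, hv⟩, ⟨v', hv'⟩, ?_, ?_, ?_⟩
            · intro h
              have : v = v' := congrArg Subtype.val h
              exact hdis v (by simp) (by rw [this]; simp)
            · intro x hx hxU
              rcases Sym2.mem_iff.1 hx with rfl | rfl
              · exact absurd huU hxU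
              · rfl
            · intro x hx hxU
              rcases Sym2.mem_iff.1 hx with rfl | rfl
              · exact absurd huU' hxU
              · rfl
      refine le_trans ?_ (mE2 u huU u' huU' huu w w' hww)
      refine Finset.sum_le_sum fun B hB => Finset.sum_le_sum fun m _ => ?_
      have hBU := (Finset.mem_powersetCard.1 hB).1
      exact mul_le_mul (ld_in hBU m a u hua huU w hw) (ld_in hBU m b u' hub huU' w' hw')
        (Nat.cast_nonneg _) (Lam_nonneg _ _ _ _ _)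
    · push Not at hb
      obtain ⟨w, hw⟩ := wit a u hua huU
      refine le_trans ?_ (mE1 u huU w)
      refine Finset.sum_le_sum fun B hB => Finset.sum_le_sum fun m _ => ?_
      have hBU := (Finset.mem_powersetCard.1 hB).1
      have h1 : (ld G (GB G U B) (md m) b : ℝ) ≤ 1 := by
        exact_mod_cast ld_out hBU m b hb
      calc (ld G (GB G U B) (md m) a : ℝ) * ld G (GB G U B) (md m) b
          ≤ Lam G B m u w * 1 := mul_le_mul (ld_in hBU m a u hua huU w hw) h1
            (Nat.cast_nonneg _) (Lam_nonneg _ _ _ _ _)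
        _ = _ := mul_one _
  · by_cases hb : ∃ v ∈ b, v ∈ U
    · rw [if_pos (Or.inr hb)]
      push Not at ha
      obtain ⟨u, hub, huU⟩ := hb
      obtain ⟨w, hw⟩ := wit b u hub huU
      refine le_trans ?_ (mE1 u huU w)
      refine Finset.sum_le_sum fun B hB => Finset.sum_le_sum fun m _ => ?_
      have hBU := (Finset.mem_powersetCard.1 hB).1
      have h1 : (ld G (GB G U B) (md m) a : ℝ) ≤ 1 := by
        exact_mod_cast ld_out hBU m a ha
      calc (ld G (GB G U B) (md m) a : ℝ) * ld G (GB G U B) (md m) b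
          ≤ 1 * Lam G B m u w := mul_le_mul h1 (ld_in hBU m b u hub huU w hw)
            (Nat.cast_nonneg _) zero_le_one
        _ = _ := one_mul _
    · rw [if_neg (not_or.2 ⟨ha, hb⟩)]
      push Not at ha hb
      calc _ ≤ ∑ B ∈ Finset.powersetCard t U, ∑ m : Sym2 V → {x // x ∉ U}, (1 : ℝ) := by
            refine Finset.sum_le_sum fun B hB => Finset.sum_le_sum fun m _ => ?_
            have hBU := (Finset.mem_powersetCard.1 hB).1
            have h1 : (ld G (GB G U B) (md m) a : ℝ) ≤ 1 := by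
              exact_mod_cast ld_out hBU m a ha
            have h2 : (ld G (GB G U B) (md m) b : ℝ) ≤ 1 := by
              exact_mod_cast ld_out hBU m b hb
            calc (ld G (GB G U B) (md m) a : ℝ) * ld G (GB G U B) (md m) b
                ≤ 1 * 1 := mul_le_mul h1 h2 (Nat.cast_nonneg _) zero_le_one
              _ = 1 := one_mul _
        _ = N * Mt * 1 := by
            rw [Finset.sum_const, Finset.sum_const, Finset.card_powersetCard, Finset.card_univ,
              nsmul_eq_mul, nsmul_eq_mul, hN, hMt]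
            ring

end pair

end Pool.Agent.H466.AB
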