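import Pool.Agent.H466.AL.Rep3
import Pool.Agent.H466.AB.Rep2G

set_option autoImplicit false

/-!
Replacing a part of at least `2t-1` vertices by a clique on `t` of its vertices.
-/

open Set Classical
open Pool.Agent.Helper770.Crossing Pool.Agent.NH90.CN

namespace Pool.Agent.H466.AB

open Pool.Agent.H466.AL

variable {V : Type} [Fintype V]

/-- **Replacement.** -/
theorem repG (G : SimpleGraph V) (U : Finset V) (t : ℕ) (ht : 2 ≤ t)
    (hU : 2 * t ≤ U.card + 1) (hj : ∀ x ∈ U, ∀ y ∉ U, G.Adj x y)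
    (hD : ∀ u ∈ U, (nb G u).card + t ≤ U.card)
    (h1 : 2 * t ≤ 3 * (Uᶜ : Finset V).card) (h1' : 2 * U.card ≤ 3 * (Uᶜ : Finset V).card + 2 * t)
    (h2 : 200000 ≤ (Uᶜ : Finset V).card) :
    ∃ B ⊆ U, B.card = t ∧ crossingNumber (GB G U B) ≤ crossingNumber G := by
  have hnb : ∀ u ∈ U, nb G u ⊆ U := by
    intro u hu z hz
    by_contra hzU
    exact (mem_nb.1 hz).2 (hj u hu z hzU)
  obtain ⟨r, hr⟩ : ∃ r : ℝ, r = Fintype.card {x // x ∉ U} := ⟨_, rfl⟩
  obtain ⟨N, hN⟩ : ∃ N : ℝ, N = ((U.card.choose t : ℕ) : ℝ) := ⟨_, rfl⟩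
  obtain ⟨Mt, hMt⟩ : ∃ Mt : ℝ, Mt = (Fintype.card (Sym2 V → {x // x ∉ U}) : ℝ) := ⟨_, rfl⟩
  have hcc : Fintype.card {x // x ∉ U} + U.card = Fintype.card V := by
    rw [kcard, Finset.card_compl]
    have := Finset.card_le_univ U
    omega
  have htr : (2 : ℝ) ≤ t := by exact_mod_cast ht
  have hUr : 2 * (t : ℝ) - 1 ≤ U.card := by
    have : 2 * (t : ℝ) ≤ (U.card : ℝ) + 1 := by exact_mod_cast hU
    linarith
  have hn : (Fintype.card V : ℝ) = r + U.card := by
    rw [hr]; exact_mod_cast hcc.symm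
  have hrc : r = (Uᶜ : Finset V).card := by rw [hr, kcard]
  have hr1 : 2 * (t : ℝ) ≤ 3 * r := by rw [hrc]; exact_mod_cast h1
  have hr1' : 2 * ((U.card : ℝ) - t) ≤ 3 * r := by
    have : 2 * (U.card : ℝ) ≤ 3 * (Uᶜ : Finset V).card + 2 * t := by exact_mod_cast h1'
    rw [hrc]; linarith
  have hr2 : 200000 ≤ r := by rw [hrc]; exact_mod_cast h2
  have hr0 : 0 < r := by linarith
  have hMpos : 0 < Mt := by
    rw [hMt]
    have hκ1 : 0 < Fintype.card {x // x ∉ U} := by
      have : (0 : ℝ) < Fintype.card {x // x ∉ U} := by rw [← hr]; linarith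
      exact_mod_cast this
    haveI : Nonempty {x // x ∉ U} := Fintype.card_pos_iff.1 hκ1
    exact_mod_cast Fintype.card_pos
  have hNn : 0 ≤ N := by rw [hN]; positivity
  have hNM : 0 ≤ N * Mt := mul_nonneg hNn hMpos.le
  obtain ⟨D, hfin, hgood, hcr⟩ := exists_good G
  -- the deterministic bound
  have det : ∀ B ∈ Finset.powersetCard t U, ∀ m : Sym2 V → {x // x ∉ U},
      2 * (crossingNumber (GB G U B) : ℝ) ≤
      ∑ a, ∑ b, (ld G (GB G U B) (md m) a : ℝ) * ld G (GB G U B) (md m) b * DX D a b +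
      ((∑ e ∈ eF (GB G U B), ∑ f ∈ eF (GB G U B),
        (if e = f then 0 else lcc G (md m) e f) : ℕ) : ℝ) := by
    intro B hB m
    have hBU := (Finset.mem_powersetCard.1 hB).1
    have k1 := reroute D (md m) hfin hgood (GB G U B) (by
      intro e he heG v hv
      rw [DEL.mem_eF] at he
      exact hj v (mem_GB_not hBU he heG v hv).2 _ (m e).2)
    have k2 := k1.trans (sum_cst D (GB G U B) (md m))
    exact_mod_cast k2
  have tot : ∑ B ∈ Finset.powersetCard t U, ∑ _m : Sym2 V → {x // x ∉ U},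
      2 * (crossingNumber (GB G U B) : ℝ) ≤
      ∑ a, ∑ b, (∑ B ∈ Finset.powersetCard t U, ∑ m : Sym2 V → {x // x ∉ U},
        ((ld G (GB G U B) (md m) a : ℝ) * ld G (GB G U B) (md m) b)) * DX D a b +
      ∑ B ∈ Finset.powersetCard t U, ∑ m : Sym2 V → {x // x ∉ U},
        ((∑ e ∈ eF (GB G U B), ∑ f ∈ eF (GB G U B),
        (if e = f then 0 else lcc G (md m) e f) : ℕ) : ℝ) := by
    refine (Finset.sum_le_sum fun B hB => Finset.sum_le_sum fun m _ => det B hB m).trans
      (le_of_eq ?_)
    simp only [Finset.sum_add_distrib]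
    congr 1
    calc ∑ B ∈ Finset.powersetCard t U, ∑ m : Sym2 V → {x // x ∉ U}, ∑ a, ∑ b,
          (ld G (GB G U B) (md m) a : ℝ) * ld G (GB G U B) (md m) b * DX D a b
        = ∑ B ∈ Finset.powersetCard t U, ∑ a, ∑ m : Sym2 V → {x // x ∉ U}, ∑ b,
          (ld G (GB G U B) (md m) a : ℝ) * ld G (GB G U B) (md m) b * DX D a b :=
          Finset.sum_congr rfl fun B _ => Finset.sum_comm
      _ = ∑ a, ∑ B ∈ Finset.powersetCard t U, ∑ m : Sym2 V → {x // x ∉ U}, ∑ b,
          (ld G (GB G U B) (md m) a : ℝ) * ld G (GB G U B) (md m) b * DX D a b :=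
          Finset.sum_comm
      _ = ∑ a, ∑ B ∈ Finset.powersetCard t U, ∑ b, ∑ m : Sym2 V → {x // x ∉ U},
          (ld G (GB G U B) (md m) a : ℝ) * ld G (GB G U B) (md m) b * DX D a b :=
          Finset.sum_congr rfl fun a _ => Finset.sum_congr rfl fun B _ => Finset.sum_comm
      _ = ∑ a, ∑ b, ∑ B ∈ Finset.powersetCard t U, ∑ m : Sym2 V → {x // x ∉ U},
          (ld G (GB G U B) (md m) a : ℝ) * ld G (GB G U B) (md m) b * DX D a b :=
          Finset.sum_congr rfl fun a _ => Finset.sum_comm
      _ = _ := by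
          simp only [← Finset.sum_mul]
  have hloc := loc_bd G U t r hr hr0 N Mt hN hMt _ rfl
  obtain ⟨q, hq⟩ : ∃ q, q = (t + 1).choose 2 := ⟨_, rfl⟩
  rw [← hq] at hloc
  have hqr : (q : ℝ) = t * (t + 1) / 2 := by
    have := Nat.add_one_mul_choose_eq t 1
    rw [Nat.choose_one_right, ← hq] at this
    have h3 : ((t : ℝ) + 1) * t = q * (1 + 1) := by exact_mod_cast this
    linarith
  -- the pairs of arcs
  have hb1 := cr_le_sum' D hfin (bip G U) (bip_le G U)
  have hbr : (2 : ℝ) * crossingNumber (bip G U) ≤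
      ∑ a ∈ eF (bip G U), ∑ b ∈ eF (bip G U), (DX D a b : ℝ) := by exact_mod_cast hb1
  have main : ∑ a, ∑ b, (∑ B ∈ Finset.powersetCard t U, ∑ m : Sym2 V → {x // x ∉ U},
        ((ld G (GB G U B) (md m) a : ℝ) * ld G (GB G U B) (md m) b)) * DX D a b ≤
      N * Mt * (2 * crossingNumber G - 3 / 100 * (2 * crossingNumber (bip G U))) := by
    calc _ ≤ ∑ a, ∑ b, N * Mt * ((DX D a b : ℝ) - 3 / 100 *
          (if a ∈ eF (bip G U) then (if b ∈ eF (bip G U) then (DX D a b : ℝ) else 0) else 0)) := by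
          refine Finset.sum_le_sum fun a _ => Finset.sum_le_sum fun b _ => ?_
          by_cases h0 : DX D a b = 0
          · rw [h0]; simp
          · obtain ⟨e1, e2, e3⟩ := DX_good hgood h0
            have k1 := AB.pair_bd G U t ht hU hj r hr hr1 hr1' hr2 N Mt hN hMt hD a b e3
            have hDX : (0 : ℝ) ≤ DX D a b := Nat.cast_nonneg _
            refine (mul_le_mul_of_nonneg_right k1 hDX).trans ?_
            rw [mul_assoc]
            refine mul_le_mul_of_nonneg_left ?_ hNM
            by_cases h3 : a ∈ eF (bip G U)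
            · rw [if_pos h3]
              have h4 : ∃ v ∈ a, v ∈ U := by
                rw [DEL.mem_eF] at h3
                induction a with
                | _ x y =>
                  have h5 : (bip G U).Adj x y := h3
                  rcases h5.2 with h6 | h6
                  · exact ⟨x, by simp, h6.1⟩
                  · exact ⟨y, by simp, h6.2⟩
              rw [if_pos (Or.inl h4)]
              split_ifs <;> linarith
            · rw [if_neg h3]
              split_ifs <;> linarith
      _ = N * Mt * (∑ a, ∑ b, (DX D a b : ℝ) - 3 / 100 *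
          ∑ a ∈ eF (bip G U), ∑ b ∈ eF (bip G U), (DX D a b : ℝ)) := by
          simp only [← Finset.mul_sum, Finset.sum_sub_distrib]
          congr 3
          rw [← Finset.sum_filter_add_sum_filter_not Finset.univ (fun a => a ∈ eF (bip G U))]
          have z : ∑ x ∈ Finset.univ.filter (fun a => a ∉ eF (bip G U)),
              ∑ b, (if x ∈ eF (bip G U) then (if b ∈ eF (bip G U) then
                (DX D x b : ℝ) else 0) else 0) = 0 := by
            refine Finset.sum_eq_zero fun x hx => ?_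
            have := (Finset.mem_filter.1 hx).2
            refine Finset.sum_eq_zero fun b _ => ?_
            rw [if_neg this]
          rw [z, add_zero, Finset.filter_mem_eq_inter, Finset.univ_inter]
          refine Finset.sum_congr rfl fun a ha => ?_
          rw [← Finset.sum_filter_add_sum_filter_not Finset.univ (fun a => a ∈ eF (bip G U))]
          have z : ∑ b ∈ Finset.univ.filter (fun a => a ∉ eF (bip G U)),
              (if a ∈ eF (bip G U) then (if b ∈ eF (bip G U) then
                (DX D a b : ℝ) else 0) else 0) = 0 := by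
            refine Finset.sum_eq_zero fun x hx => ?_
            have := (Finset.mem_filter.1 hx).2
            rw [if_pos ha, if_neg this]
          rw [z, add_zero, Finset.filter_mem_eq_inter, Finset.univ_inter]
          refine Finset.sum_congr rfl fun b hb => ?_
          rw [if_pos ha, if_pos hb]
      _ ≤ _ := by
          refine mul_le_mul_of_nonneg_left ?_ hNM
          have hcr' : (2 : ℝ) * crossingNumber G = ∑ a, ∑ b, (DX D a b : ℝ) := by
            exact_mod_cast hcr
          rw [← hcr']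
          linarith
  -- the bipartite part
  obtain ⟨l, hl⟩ : ∃ l, (Uᶜ : Finset V).card = l + 2 := by
    refine ⟨(Uᶜ : Finset V).card - 2, ?_⟩
    have : (2 : ℝ) ≤ (Uᶜ : Finset V).card := by rw [← kcard, ← hr]; linarith
    have : 2 ≤ (Uᶜ : Finset V).card := by exact_mod_cast this
    omega
  have hrl : r = l + 2 := by rw [hr, kcard, hl]; push_cast; ring
  obtain ⟨k, hk⟩ : ∃ k, U.card = k + 2 := ⟨U.card - 2, by omega⟩
  have hbc := bip_cr G U hj k l hk hl (by omega) (by
    have : (1 : ℝ) ≤ l := by linarith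
    exact_mod_cast this)
  have e1 : (((k : ℝ) + 2) * (k + 1)) * (((l : ℝ) + 2) * (l + 1)) =
      ((U.card : ℝ) * (U.card - 1)) * (r * (r - 1)) := by rw [hrl, hk]; push_cast; ring
  rw [e1] at hbc
  have hnum := rn3 t _ r q htr hUr hr1 hr1' hr2 hqr
  have fin : ∑ B ∈ Finset.powersetCard t U, ∑ _m : Sym2 V → {x // x ∉ U},
      2 * (crossingNumber (GB G U B) : ℝ) ≤ N * Mt * (2 * crossingNumber G) := by
    refine tot.trans ((add_le_add main hloc).trans ?_)
    rw [← mul_add]
    refine mul_le_mul_of_nonneg_left ?_ hNM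
    rw [hn]
    linarith
  have fin2 : ∑ B ∈ Finset.powersetCard t U, (crossingNumber (GB G U B) : ℝ) ≤
      ∑ _B ∈ Finset.powersetCard t U, (crossingNumber G : ℝ) := by
    have k1 : ∑ B ∈ Finset.powersetCard t U, ∑ _m : Sym2 V → {x // x ∉ U},
      2 * (crossingNumber (GB G U B) : ℝ) =
      (2 * Mt) * ∑ B ∈ Finset.powersetCard t U, (crossingNumber (GB G U B) : ℝ) := by
      rw [Finset.mul_sum]
      refine Finset.sum_congr rfl fun B _ => ?_
      rw [Finset.sum_const, nsmul_eq_mul, Finset.card_univ, ← hMt]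
      ring
    rw [k1] at fin
    rw [Finset.sum_const, nsmul_eq_mul, Finset.card_powersetCard, ← hN]
    have k2 : (2 * Mt) * ∑ B ∈ Finset.powersetCard t U, (crossingNumber (GB G U B) : ℝ) ≤
        (2 * Mt) * (N * crossingNumber G) := by
      refine fin.trans (le_of_eq ?_)
      ring
    exact le_of_mul_le_mul_left k2 (by positivity)
  have hne : (Finset.powersetCard t U).Nonempty := by
    rw [Finset.powersetCard_nonempty]
    omega
  obtain ⟨B, hB, hBle⟩ := Finset.exists_le_of_sum_le hne fin2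
  obtain ⟨hBU, hBt⟩ := Finset.mem_powersetCard.1 hB
  exact ⟨B, hBU, hBt, by exact_mod_cast hBle⟩

end Pool.Agent.H466.AB
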