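import Pool.Agent.H466.AB.Min
import Pool.Agent.H466.AB.Gal
import Pool.Agent.H466.AB.Rep3G

set_option autoImplicit false

/-!
Minimal counterexamples have more than `1.59 t` vertices.
-/

open Set Classical
open Pool.Agent.Helper770.Crossing Pool.Agent.NH90.CN
open Pool.Agent.H466.AL (cr_mono K cr_inside_top cr_K_mono nb mem_nb GB)

namespace Pool.Agent.H466.AB

theorem Cb.pull {V W : Type} {G : SimpleGraph V} {S : Finset V} {j : ℕ} (h : Cb G S j) (f : W → V)
    (S' : Finset W) (hS : ∀ x ∈ S', f x ∈ S) : Cb (G.comap f) S' j := by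
  obtain ⟨c, h1, h2⟩ := h
  refine ⟨fun x => c (f x), fun x hx y hy hxy => h1 _ (hS x hx) _ (hS y hy) hxy, ?_⟩
  refine le_trans (Finset.card_le_card ?_) h2
  intro a ha
  obtain ⟨x, hx, rfl⟩ := Finset.mem_image.1 ha
  exact Finset.mem_image_of_mem _ (hS x hx)

theorem Cb.push {V : Type} {G : SimpleGraph V} {T : Finset V} {j : ℕ}
    (h : Cb (G.comap (Subtype.val : {x // x ∈ T} → V)) Finset.univ j) : Cb G T j := by
  obtain ⟨c, h1, h2⟩ := h
  refine ⟨fun x => if hx : x ∈ T then c ⟨x, hx⟩ else 0, ?_, ?_⟩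
  · intro x hx y hy hxy
    simp only [dif_pos hx, dif_pos hy]
    exact h1 ⟨x, hx⟩ (Finset.mem_univ _) ⟨y, hy⟩ (Finset.mem_univ _) hxy
  · refine le_trans (Finset.card_le_card ?_) h2
    intro a ha
    obtain ⟨x, hx, rfl⟩ := Finset.mem_image.1 ha
    rw [dif_pos hx]
    exact Finset.mem_image_of_mem _ (Finset.mem_univ _)

theorem Cb.zero {V : Type} {G : SimpleGraph V} {S : Finset V} (h : Cb G S 0) : S = ∅ := by
  obtain ⟨c, -, h2⟩ := h
  have h3 : S.image c = ∅ := Finset.card_eq_zero.1 (Nat.le_zero.1 h2)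
  exact Finset.image_eq_empty.1 h3

variable {V : Type} [Fintype V]

theorem deg_sub {G : SimpleGraph V} {U : Finset V} {j : ℕ} {u : V} (hu : u ∈ U)
    (h1 : ¬ Cb G U j) (h2 : Cb G (U.erase u) j) : j ≤ (U.filter (fun v => G.Adj u v)).card := by
  by_contra hc
  push Not at hc
  obtain ⟨c, c1, c2⟩ := h2
  set N := U.filter (fun v => G.Adj u v) with hN
  have mN : ∀ v ∈ U, G.Adj u v → v ∈ N := fun v hv h => Finset.mem_filter.2 ⟨hv, h⟩
  by_cases hsub : (U.erase u).image c ⊆ N.image c
  · apply h1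
    have h3 : ((U.erase u).image c).card ≤ N.card :=
      (Finset.card_le_card hsub).trans Finset.card_image_le
    have h4 : Cb G (U.erase u) ((U.erase u).image c).card := ⟨c, c1, le_rfl⟩
    have h5 := h4.union (Cb.indep (G := G) (S := {u}) (by
      intro x hx y hy
      rw [Finset.mem_singleton.1 hx, Finset.mem_singleton.1 hy]
      exact G.irrefl))
    refine h5.mono ?_ (by omega)
    intro x hx
    by_cases hxu : x = u
    · rw [hxu]; simp
    · exact Finset.mem_union_left _ (Finset.mem_erase.2 ⟨hxu, hx⟩)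
  · rw [Finset.not_subset] at hsub
    obtain ⟨a, ha, ha'⟩ := hsub
    apply h1
    refine ⟨Function.update c u a, ?_, ?_⟩
    · intro x hx y hy hxy
      by_cases hxu : x = u
      · subst hxu
        rw [Function.update_self, Function.update_of_ne hxy.ne']
        intro h'
        apply ha'
        rw [h']
        exact Finset.mem_image_of_mem _ (mN y hy hxy)
      · by_cases hyu : y = u
        · subst hyu
          rw [Function.update_self, Function.update_of_ne hxy.ne]
          intro h'
          apply ha'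
          rw [← h']
          exact Finset.mem_image_of_mem _ (mN x hx hxy.symm)
        · rw [Function.update_of_ne hxu, Function.update_of_ne hyu]
          exact c1 x (Finset.mem_erase.2 ⟨hxu, hx⟩) y (Finset.mem_erase.2 ⟨hyu, hy⟩) hxy
    · refine le_trans (Finset.card_le_card ?_) c2
      intro b hb
      obtain ⟨x, hx, rfl⟩ := Finset.mem_image.1 hb
      by_cases hxu : x = u
      · rw [hxu, Function.update_self]; exact ha
      · rw [Function.update_of_ne hxu]
        exact Finset.mem_image_of_mem _ (Finset.mem_erase.2 ⟨hxu, hx⟩)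

theorem clique_card {G : SimpleGraph V} {B : Finset V} {a : ℕ}
    (hB : ∀ x ∈ B, ∀ y ∈ B, x ≠ y → G.Adj x y) (h : Cb G B a) : B.card ≤ a := by
  obtain ⟨c, c1, c2⟩ := h
  rw [← Finset.card_image_of_injOn (s := B) (f := c)]
  · exact c2
  · intro x hx y hy hxy
    by_contra hne
    exact c1 x hx y hy (hB x hx y hy hne) hxy

theorem gallai' (G : SimpleGraph V) (k : ℕ) (hk : ¬ Cb G Finset.univ k)
    (hc : ∀ v, ∃ S : Finset V, (∀ z, z ≠ v → z ∈ S) ∧ Cb G S k) (hn : Fintype.card V ≤ 2 * k) :
    ∃ U : Finset V, (∃ z, z ∈ U) ∧ (∃ z, z ∉ U) ∧ ∀ x ∈ U, ∀ y ∉ U, G.Adj x y := by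
  obtain ⟨U, ⟨a, ha⟩, ⟨b, hb⟩, h3⟩ := gallai G k hk (by
    intro v
    obtain ⟨S, hS1, hS2⟩ := hc v
    exact hS2.mono (fun z hz => hS1 z (Finset.ne_of_mem_erase hz)) le_rfl) hn
  exact ⟨U, ⟨a, ha⟩, ⟨b, Finset.mem_compl.1 hb⟩, h3⟩

theorem gal_range {G : SimpleGraph V} {F : ℕ → ℝ} {t : ℕ}
    (IH : ∀ (V' : Type) [Fintype V'] (H : SimpleGraph V'), Fintype.card V' < Fintype.card V →
      ∀ j, ¬ Cb H Finset.univ j → F (j + 1) ≤ crossingNumber H)
    (hm : MinC G F t) (hK : F t ≤ crossingNumber (K t)) (hn : 100 * Fintype.card V ≤ 159 * t)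
    (ht : 10 ^ 7 ≤ t) : False := by
  -- a non-adjacent pair
  have hpair : ∃ x y : V, x ≠ y ∧ ¬ G.Adj x y := by
    by_contra hc
    push Not at hc
    have h1 := cr_inside_top (n := Fintype.card V) G (Fintype.equivFin V).symm.toEmbedding
      (by
        intro i j hij
        exact hc _ _ (fun h' => hij ((Fintype.equivFin V).symm.injective h')))
    have h2 := cr_K_mono hm.card_ge
    have h3 := hm.lt
    have h4 : (crossingNumber (K t) : ℝ) ≤ crossingNumber G := by exact_mod_cast h2.trans h1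
    linarith
  obtain ⟨x, y, hxy, hnadj⟩ := hpair
  -- a minimal joined part containing both
  set P : Finset V → Prop := fun U => x ∈ U ∧ y ∈ U ∧ ∀ a ∈ U, ∀ b ∉ U, G.Adj a b with hP
  have hex : ∃ c, ∃ U : Finset V, P U ∧ U.card = c :=
    ⟨_, Finset.univ, ⟨Finset.mem_univ _, Finset.mem_univ _, fun a _ b hb =>
      absurd (Finset.mem_univ b) hb⟩, rfl⟩
  obtain ⟨U, ⟨hxU, hyU, hjoin⟩, hUc⟩ := Nat.find_spec hex
  have hUmin : ∀ U' : Finset V, P U' → U.card ≤ U'.card := by
    intro U' hU'
    rw [hUc]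
    exact Nat.find_min' hex ⟨U', hU', rfl⟩
  -- chromatic numbers
  have hexs : ∃ j, Cb G U j := ⟨_, Cb.card G U⟩
  have hexr : ∃ j, Cb G (Uᶜ : Finset V) j := ⟨_, Cb.card G _⟩
  obtain ⟨s, hs⟩ : ∃ s, s = Nat.find hexs := ⟨_, rfl⟩
  obtain ⟨r, hr⟩ : ∃ r, r = Nat.find hexr := ⟨_, rfl⟩
  have hs1 : Cb G U s := by rw [hs]; exact Nat.find_spec hexs
  have hs2 : ∀ j, Cb G U j → s ≤ j := fun j hj => by rw [hs]; exact Nat.find_min' hexs hj
  have hr1 : Cb G (Uᶜ : Finset V) r := by rw [hr]; exact Nat.find_spec hexr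
  have hr2 : ∀ j, Cb G (Uᶜ : Finset V) j → r ≤ j := fun j hj => by
    rw [hr]; exact Nat.find_min' hexr hj
  have hst : t ≤ s + r := by
    by_contra hc
    push Not at hc
    apply hm.hi
    refine (hs1.union hr1).mono ?_ (by omega)
    intro z _
    by_cases hz : z ∈ U
    · exact Finset.mem_union_left _ hz
    · exact Finset.mem_union_right _ (Finset.mem_compl.2 hz)
  have hs0 : 1 ≤ s := by
    by_contra hc
    have : s = 0 := by omega
    rw [this] at hs1
    have := hs1.zero
    rw [this] at hxU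
    simp at hxU
  have hcrit : ∀ u ∈ U, Cb G (U.erase u) (s - 1) := by
    intro u hu
    have hne : (Finset.univ.erase u : Finset V) ≠ Finset.univ := by
      intro h'
      have : u ∈ (Finset.univ.erase u : Finset V) := by rw [h']; exact Finset.mem_univ u
      exact (Finset.notMem_erase u _) this
    have h1 := hm.crit _ hne
    have h2 : Cb G (U.erase u ∪ Uᶜ) (t - 1) := by
      refine h1.mono ?_ le_rfl
      intro z hz
      rw [Finset.mem_union, Finset.mem_erase, Finset.mem_compl] at hz
      rw [Finset.mem_erase]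
      refine ⟨?_, Finset.mem_univ _⟩
      rcases hz with hz | hz
      · exact hz.1
      · rintro rfl; exact hz hu
    obtain ⟨a, b, hab, ha, hb⟩ := h2.split (by
      intro p hp q hq
      exact hjoin p (Finset.mem_of_mem_erase hp) q (Finset.mem_compl.1 hq))
    have h3 := hr2 b hb
    exact ha.mono (Finset.Subset.refl _) (by omega)
  have hs3 : ¬ Cb G U (s - 1) := by
    intro h
    have := hs2 _ h
    omega
  have hs4 : 2 ≤ s := by
    by_contra hc
    have h1 : s = 1 := by omega
    have h2 := hcrit x hxU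
    rw [h1] at h2
    have h3 := h2.zero
    have : y ∈ U.erase x := Finset.mem_erase.2 ⟨hxy.symm, hyU⟩
    rw [h3] at this
    simp at this
  -- Gallai
  have hbig : 2 * s ≤ U.card + 1 := by
    by_contra hc
    push Not at hc
    obtain ⟨U', ⟨z1, hz1⟩, ⟨z0, hz0'⟩, hU3⟩ :=
      gallai' (G.comap (Subtype.val : {x // x ∈ U} → V)) (s - 1) (fun h => hs3 h.push) (by
        intro v
        refine ⟨Finset.univ.filter (fun z => z ≠ v), fun z hz => Finset.mem_filter.2
          ⟨Finset.mem_univ _, hz⟩, (hcrit v.1 v.2).pull _ _ ?_⟩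
        intro z hz
        have hz' := (Finset.mem_filter.1 hz).2
        exact Finset.mem_erase.2 ⟨fun h => hz' (Subtype.ext h), z.2⟩)
      (by rw [Fintype.card_coe]; omega)
    have hU3' : ∀ a ∈ U', ∀ b ∉ U', G.Adj a.1 b.1 := hU3
    -- the part containing `x`
    have fin : ∀ T : Finset {x // x ∈ U}, (∀ a ∈ T, ∀ b ∉ T, G.Adj a.1 b.1) →
        (∃ z, z ∉ T) → ⟨x, hxU⟩ ∈ T → False := by
      intro T hT hTc hxT
      have hyT : (⟨y, hyU⟩ : {x // x ∈ U}) ∈ T := by
        by_contra h
        exact hnadj (hT _ hxT _ h)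
      have hPT : P (T.map (Function.Embedding.subtype _)) := by
        refine ⟨Finset.mem_map.2 ⟨_, hxT, rfl⟩, Finset.mem_map.2 ⟨_, hyT, rfl⟩, ?_⟩
        intro a ha b hb
        obtain ⟨a', ha', rfl⟩ := Finset.mem_map.1 ha
        by_cases hbU : b ∈ U
        · have : (⟨b, hbU⟩ : {x // x ∈ U}) ∉ T := fun h => hb (Finset.mem_map.2 ⟨_, h, rfl⟩)
          exact hT a' ha' _ this
        · exact hjoin _ a'.2 b hbU
      have h1 := hUmin _ hPT
      rw [Finset.card_map] at h1
      have h2 : T.card < U.card := by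
        rw [← Fintype.card_coe U, ← Finset.card_univ]
        refine Finset.card_lt_card ?_
        rw [Finset.ssubset_univ_iff]
        rintro h3
        obtain ⟨z, hz⟩ := hTc
        exact hz (by rw [h3]; exact Finset.mem_univ z)
      omega
    by_cases hxU' : (⟨x, hxU⟩ : {x // x ∈ U}) ∈ U'
    · exact fin U' hU3' ⟨z0, hz0'⟩ hxU'
    · refine fin (Finset.univ.filter (fun z => z ∉ U')) ?_ ⟨z1, by
        rw [Finset.mem_filter]; exact fun h => h.2 hz1⟩
        (Finset.mem_filter.2 ⟨Finset.mem_univ _, hxU'⟩)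
      intro a ha b hb
      rw [Finset.mem_filter] at ha hb
      have hb' : b ∈ U' := by
        by_contra h
        exact hb ⟨Finset.mem_univ _, h⟩
      exact (hU3' b hb' a ha.2).symm
  -- sizes
  have hrc : r ≤ (Uᶜ : Finset V).card := hr2 _ (Cb.card G _)
  have hcard : U.card + (Uᶜ : Finset V).card = Fintype.card V := Finset.card_add_card_compl U
  have hnbU : ∀ u ∈ U, (nb G u).card + s ≤ U.card := by
    intro u hu
    have h1 := deg_sub hu hs3 (hcrit u hu)
    have h2 : nb G u ⊆ U.filter (fun v => v ≠ u ∧ ¬ G.Adj u v) := by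
      intro z hz
      obtain ⟨h3, h4⟩ := mem_nb.1 hz
      rw [Finset.mem_filter]
      refine ⟨?_, h3, h4⟩
      by_contra h5
      exact h4 (hjoin u hu z h5)
    have h3 := Finset.card_le_card h2
    have h4 : (U.filter (fun v => v ≠ u ∧ ¬ G.Adj u v)).card +
        ((U.filter (fun v => G.Adj u v)).card + 1) ≤ U.card := by
      have e1 : Disjoint (U.filter (fun v => v ≠ u ∧ ¬ G.Adj u v))
          (insert u (U.filter (fun v => G.Adj u v))) := by
        rw [Finset.disjoint_left]
        intro z hz hz'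
        rw [Finset.mem_filter] at hz
        rw [Finset.mem_insert, Finset.mem_filter] at hz'
        rcases hz' with h | h
        · exact hz.2.1 h
        · exact hz.2.2 h.2
      have e2 : (insert u (U.filter (fun v => G.Adj u v))).card =
          (U.filter (fun v => G.Adj u v)).card + 1 := by
        rw [Finset.card_insert_of_notMem]
        rw [Finset.mem_filter]
        exact fun h => G.irrefl h.2
      rw [← e2, ← Finset.card_union_of_disjoint e1]
      refine Finset.card_le_card ?_
      intro z hz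
      rw [Finset.mem_union, Finset.mem_filter, Finset.mem_insert, Finset.mem_filter] at hz
      rcases hz with h | h | h
      · exact h.1
      · rw [h]; exact hu
      · exact h.1
    omega
  obtain ⟨B, hBU, hBc, hBcr⟩ := repG G U s hs4 hbig hjoin hnbU (by omega) (by omega) (by omega)
  -- the smaller graph
  set T : Finset V := B ∪ Uᶜ with hT
  have hTcard : T.card < Fintype.card V := by
    have h1 : T.card ≤ B.card + (Uᶜ : Finset V).card := Finset.card_union_le _ _
    omega
  have hIH := IH {x // x ∈ T} ((GB G U B).comap (Subtype.val : {x // x ∈ T} → V))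
    (by rw [Fintype.card_coe]; exact hTcard) (t - 1) (by
      intro h
      have h1 : Cb (GB G U B) (B ∪ Uᶜ) (t - 1) := h.push
      obtain ⟨a, b, hab, ha, hb⟩ := h1.split (by
        intro p hp q hq
        have hq' := Finset.mem_compl.1 hq
        have hadj := hjoin p (hBU hp) q hq'
        exact ⟨hadj.ne, Or.inl hp, Or.inr hq', Or.inl hadj⟩)
      have h2 : B.card ≤ a := clique_card (by
        intro p hp q hq hpq
        exact ⟨hpq, Or.inl hp, Or.inl hq, Or.inr ⟨hp, hq⟩⟩) ha
      have h3 : Cb G (Uᶜ : Finset V) b := by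
        obtain ⟨c, c1, c2⟩ := hb
        refine ⟨c, fun p hp q hq hpq => c1 p hp q hq ?_, c2⟩
        exact ⟨hpq.ne, Or.inr (Finset.mem_compl.1 hp), Or.inr (Finset.mem_compl.1 hq), Or.inl hpq⟩
      have h4 := hr2 b h3
      omega)
  have h1 : t - 1 + 1 = t := by omega
  rw [h1] at hIH
  have h2 := cr_sub_le (GB G U B) T
  have h3 : (crossingNumber ((GB G U B).comap (Subtype.val : {x // x ∈ T} → V)) : ℝ) ≤
      crossingNumber G := by exact_mod_cast h2.trans hBcr
  have h4 := hm.lt
  linarith

end Pool.Agent.H466.AB
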