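import Pool.Agent.H466.AB.Rng
import Pool.Agent.H466.AB.GalR

set_option autoImplicit false

/-!
The main induction.
-/

open Set Classical
open Pool.Agent.Helper770.Crossing Pool.Agent.NH90.CN
open Pool.Agent.H466.AL (exists_good cr_mono DX_good K)

namespace Pool.Agent.H466.AB

/-- the crossing lemma for graphs of large minimum degree -/
theorem cl_deg {V : Type} [Fintype V] (G : SimpleGraph V) (t : ℕ) (ht : 13 ≤ t)
    (hdeg : ∀ v, t ≤ (cn G v).card) :
    (Fintype.card V : ℝ) * ((t : ℝ) - 1) ^ 3 ≤ 864 * crossingNumber G := by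
  obtain ⟨D, h1, h2, h3⟩ := exists_good G
  have hEI : EI G Finset.univ = eF G := by
    unfold EI
    rw [Finset.filter_true_of_mem]
    intro e _ v _
    exact Finset.mem_univ v
  have hdeg' : ∀ v, t - 1 ≤ G.degree v := by
    intro v
    have h4 := hdeg v
    have h5 : cn G v = insert v (G.neighborFinset v) := by
      ext u
      rw [mem_cn, Finset.mem_insert, SimpleGraph.mem_neighborFinset]
      constructor
      · rintro (h | h)
        · exact Or.inl h.symm
        · exact Or.inr h
      · rintro (h | h)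
        · exact Or.inl h.symm
        · exact Or.inr h
    rw [h5] at h4
    have h6 := Finset.card_insert_le v (G.neighborFinset v)
    rw [SimpleGraph.card_neighborFinset_eq_degree] at h6
    omega
  have hm : Fintype.card V * (t - 1) ≤ 2 * (eF G).card := by
    have h2 : 2 * (eF G).card = ∑ v, G.degree v := by
      rw [G.sum_degrees_eq_twice_card_edges]
      congr 2
      ext e
      rw [DEL.mem_eF, SimpleGraph.mem_edgeFinset]
    rw [h2]
    calc Fintype.card V * (t - 1) = ∑ _v : V, (t - 1) := by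
          rw [Finset.sum_const, smul_eq_mul, Finset.card_univ]
      _ ≤ _ := Finset.sum_le_sum fun v _ => hdeg' v
  have hXI : XI D Finset.univ ≤ 2 * crossingNumber G := by
    rw [h3]
    unfold XI
    rw [hEI]
    calc ∑ e ∈ eF G, ∑ f ∈ eF G, DX D e f ≤ ∑ e ∈ eF G, ∑ f : Sym2 V, DX D e f :=
          Finset.sum_le_sum fun e _ => Finset.sum_le_sum_of_subset (Finset.subset_univ _)
      _ ≤ _ := Finset.sum_le_sum_of_subset (Finset.subset_univ _)
  have h6 : 6 * Fintype.card V ≤ (eF G).card := by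
    have : Fintype.card V * 12 ≤ Fintype.card V * (t - 1) := Nat.mul_le_mul_left _ (by omega)
    omega
  have hCL := p_CL V G D h1 h2 Finset.univ (by rw [hEI, Finset.card_univ]; exact h6)
  rw [hEI, Finset.card_univ] at hCL
  rcases Nat.eq_zero_or_pos (Fintype.card V) with h0 | hpos
  · rw [h0]
    have : (0 : ℝ) ≤ crossingNumber G := Nat.cast_nonneg _
    push_cast
    linarith
  have e1 : ((t - 1 : ℕ) : ℝ) = (t : ℝ) - 1 := by
    rw [Nat.cast_sub (by omega)]; push_cast; ring
  have hmr : (Fintype.card V : ℝ) * ((t : ℝ) - 1) ≤ 2 * (eF G).card := by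
    rw [← e1]; exact_mod_cast hm
  have hCr : ((eF G).card : ℝ) ^ 3 ≤ 54 * (Fintype.card V : ℝ) ^ 2 * (2 * crossingNumber G) := by
    calc ((eF G).card : ℝ) ^ 3 ≤ 54 * (Fintype.card V : ℝ) ^ 2 * (XI D Finset.univ : ℝ) := by
          exact_mod_cast hCL
      _ ≤ _ := by
          have : (XI D Finset.univ : ℝ) ≤ 2 * crossingNumber G := by exact_mod_cast hXI
          gcongr
  have hn0 : (0 : ℝ) < Fintype.card V := by exact_mod_cast hpos
  have ht0 : (0 : ℝ) ≤ (t : ℝ) - 1 := by
    have : (13 : ℝ) ≤ t := by exact_mod_cast ht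
    linarith
  have h7 : ((Fintype.card V : ℝ) * ((t : ℝ) - 1)) ^ 3 ≤ (2 * ((eF G).card : ℝ)) ^ 3 := by
    gcongr
  have h8 : (Fintype.card V : ℝ) ^ 2 * ((Fintype.card V : ℝ) * ((t : ℝ) - 1) ^ 3) ≤
      (Fintype.card V : ℝ) ^ 2 * (864 * crossingNumber G) := by
    calc (Fintype.card V : ℝ) ^ 2 * ((Fintype.card V : ℝ) * ((t : ℝ) - 1) ^ 3)
        = ((Fintype.card V : ℝ) * ((t : ℝ) - 1)) ^ 3 := by ring
      _ ≤ (2 * ((eF G).card : ℝ)) ^ 3 := h7
      _ = 8 * ((eF G).card : ℝ) ^ 3 := by ring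
      _ ≤ 8 * (54 * (Fintype.card V : ℝ) ^ 2 * (2 * crossingNumber G)) := by gcongr
      _ = _ := by ring
  exact le_of_mul_le_mul_left h8 (by positivity)

theorem ind (F : ℕ → ℝ) (s₀ : ℕ) (hs₀ : 100 ≤ s₀) (h100 : ∀ s ≤ 100, F s ≤ 0)
    (hbase : ∀ s ≤ s₀, F s ≤ (s : ℝ) ^ 4 / 960)
    (hreg : ∀ t, s₀ < t → FReg F t) (hK : ∀ t, s₀ < t → F t ≤ crossingNumber (K t)) :
    ∀ (n : ℕ) (V : Type) [Fintype V] (G : SimpleGraph V), Fintype.card V = n →
      ∀ j, ¬ Cb G Finset.univ j → F (j + 1) ≤ crossingNumber G := by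
  intro n
  induction n using Nat.strong_induction_on with
  | _ n IH =>
    intro V _ G hcard j hj
    by_contra hc
    push Not at hc
    have hcr0 : (0 : ℝ) ≤ crossingNumber G := Nat.cast_nonneg _
    have hj100 : 100 < j + 1 := by
      by_contra h
      have := h100 (j + 1) (by omega)
      linarith
    have IH' : ∀ (V' : Type) [Fintype V'] (H : SimpleGraph V'), Fintype.card V' < Fintype.card V →
      ∀ j, ¬ Cb H Finset.univ j → F (j + 1) ≤ crossingNumber H :=
      fun V' _ H h j hj => IH _ (by rw [← hcard]; exact h) V' H rfl j hj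
    have hm : MinC G F (j + 1) := by
      refine ⟨?_, ?_, hc, by omega⟩
      · intro X hX i hi
        refine IH' {x // x ∈ X} _ ?_ i (fun h => hi h.push)
        rw [Fintype.card_coe]
        exact (Finset.card_lt_iff_ne_univ X).2 hX
      · simpa using hj
    obtain ⟨t, ht⟩ : ∃ t, t = j + 1 := ⟨_, rfl⟩
    rw [← ht] at hm hc hj100
    have hcl := cl_deg G t (by omega) hm.deg
    have hcge := hm.card_ge
    have htr : (101 : ℝ) ≤ t := by exact_mod_cast hj100
    have hcger : (t : ℝ) ≤ Fintype.card V := by exact_mod_cast hcge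
    have hcub : (99 / 100 * (t : ℝ)) ^ 3 ≤ ((t : ℝ) - 1) ^ 3 := by
      have : 99 / 100 * (t : ℝ) ≤ (t : ℝ) - 1 := by linarith
      gcongr
    rcases Nat.lt_or_ge s₀ t with h0 | h0
    · have hF := hreg t h0
      have hKt := hK t h0
      have hup := hF.up
      have hbig := hF.big
      have h1 : (Fintype.card V : ℝ) * (99 / 100 * (t : ℝ)) ^ 3 ≤ 864 * ((t : ℝ) ^ 4 / 64) := by
        have hh : (Fintype.card V : ℝ) * (99 / 100 * (t : ℝ)) ^ 3 ≤
            (Fintype.card V : ℝ) * ((t : ℝ) - 1) ^ 3 := by gcongr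
        linarith
      have h2 : (Fintype.card V : ℝ) ≤ 16 * t := by
        by_contra hcc
        push Not at hcc
        have h3 : (16 * t : ℝ) * (99 / 100 * (t : ℝ)) ^ 3 ≤
            (Fintype.card V : ℝ) * (99 / 100 * (t : ℝ)) ^ 3 := by gcongr
        have h4 : (0 : ℝ) < (t : ℝ) ^ 4 := by positivity
        have h5 : (16 * t : ℝ) * (99 / 100 * (t : ℝ)) ^ 3 = 16 * (99 / 100) ^ 3 * (t : ℝ) ^ 4 := by
          ring
        rw [h5] at h3
        norm_num at h3 h1
        linarith
      have hn : Fintype.card V ≤ 16 * t := by exact_mod_cast h2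
      obtain ⟨D, hfin, hgood, hopt⟩ := exists_good G
      have hsys := sys_all hm hF hn D hfin hgood hopt hKt
      have hW1 := W_le hm hF D hopt
      have hW2 := W_ge hm hF hn D hopt
      have h5 : (Fintype.card V : ℝ) ≤ 17 * ∑ v, wt2 D F t v := by
        have : (16 : ℝ) * t ≤ 17 * ((1 - 1 / 10 ^ 10) * t) := by
          have : (0 : ℝ) ≤ t := by linarith
          nlinarith
        linarith
      by_cases hg : 100 * Fintype.card V ≤ 159 * t
      · refine gal_range IH' hm hKt hg ?_
        have : (10 ^ 7 : ℝ) ≤ t := by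
          refine le_trans ?_ hbig
          norm_num
        exact_mod_cast this
      · push Not at hg
        have hg' : (159 : ℝ) * t < 100 * Fintype.card V := by exact_mod_cast hg
        refine Crt.range hsys ?_ (uni hsys h5)
        linarith
    · have h1 := hbase t h0
      have h2 : (t : ℝ) * (99 / 100 * (t : ℝ)) ^ 3 ≤ 864 * crossingNumber G := by
        calc (t : ℝ) * (99 / 100 * (t : ℝ)) ^ 3 ≤
            (Fintype.card V : ℝ) * ((t : ℝ) - 1) ^ 3 := by gcongr
          _ ≤ _ := hcl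
      have h3 : (t : ℝ) * (99 / 100 * (t : ℝ)) ^ 3 = (99 / 100) ^ 3 * (t : ℝ) ^ 4 := by ring
      rw [h3] at h2
      have h4 : (0 : ℝ) < (t : ℝ) ^ 4 := by positivity
      norm_num at h2
      linarith

end Pool.Agent.H466.AB
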