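import Pool.Agent.H466.AB.Smp
import Pool.Agent.H466.AB.Col
import Pool.Agent.H466.AL.Kappa

set_option autoImplicit false

/-!
A minimal counterexample and its vertex weights.
-/

open Set Classical
open Pool.Agent.Helper770.Crossing Pool.Agent.NH90.CN
open Pool.Agent.H466.AL (exists_good cr_mono DX_good K)

namespace Pool.Agent.H466.AB

variable {V : Type} [Fintype V]

/-- a minimal counterexample to `F (χ) ≤ cr` -/
structure MinC (G : SimpleGraph V) (F : ℕ → ℝ) (t : ℕ) : Prop where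
  sub : ∀ X : Finset V, X ≠ Finset.univ → ∀ j, ¬ Cb G X j →
    F (j + 1) ≤ crossingNumber (G.comap (Subtype.val : {x // x ∈ X} → V))
  hi : ¬ Cb G Finset.univ (t - 1)
  lt : (crossingNumber G : ℝ) < F t
  ht : 2 ≤ t

/-- closed neighbourhood -/
noncomputable def cn (G : SimpleGraph V) (v : V) : Finset V :=
  Finset.univ.filter (fun u => v = u ∨ G.Adj v u)

theorem mem_cn {G : SimpleGraph V} {v u : V} : u ∈ cn G v ↔ v = u ∨ G.Adj v u := by
  unfold cn; simp

theorem cr_sub_le (G : SimpleGraph V) (X : Finset V) :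
    crossingNumber (G.comap (Subtype.val : {x // x ∈ X} → V)) ≤ crossingNumber G :=
  cr_mono (Function.Embedding.subtype (fun x => x ∈ X)) _ le_rfl

variable {G : SimpleGraph V} {F : ℕ → ℝ} {t : ℕ}

theorem MinC.crit (h : MinC G F t) (X : Finset V) (hX : X ≠ Finset.univ) : Cb G X (t - 1) := by
  by_contra hc
  have h1 := h.sub X hX (t - 1) hc
  have h2 : t - 1 + 1 = t := by have := h.ht; omega
  rw [h2] at h1
  have h3 : (crossingNumber (G.comap (Subtype.val : {x // x ∈ X} → V)) : ℝ) ≤ crossingNumber G := by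
    exact_mod_cast cr_sub_le G X
  have h4 := h.lt
  linarith

theorem MinC.deg (h : MinC G F t) (v : V) : t ≤ (cn G v).card := by
  by_contra hc
  push Not at hc
  have hne : (Finset.univ.erase v : Finset V) ≠ Finset.univ := by
    intro h'
    have : v ∈ (Finset.univ.erase v : Finset V) := by rw [h']; exact Finset.mem_univ v
    exact (Finset.notMem_erase v _) this
  obtain ⟨c, h1, h2⟩ := h.crit _ hne
  set N := (Finset.univ.filter (fun u => G.Adj v u)) with hN
  have hcn : (cn G v).card = N.card + 1 := by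
    have : cn G v = insert v N := by
      ext u
      rw [mem_cn, Finset.mem_insert, hN, Finset.mem_filter]
      constructor
      · rintro (h | h)
        · exact Or.inl h.symm
        · exact Or.inr ⟨Finset.mem_univ _, h⟩
      · rintro (h | h)
        · exact Or.inl h.symm
        · exact Or.inr h.2
    rw [this, Finset.card_insert_of_notMem]
    rw [hN, Finset.mem_filter]
    exact fun h' => G.irrefl h'.2
  have hNlt : N.card < t - 1 := by omega
  by_cases hcard : ((Finset.univ.erase v).image c).card ≤ t - 2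
  · apply h.hi
    have h3 : Cb G (Finset.univ.erase v) (t - 2) := ⟨c, h1, hcard⟩
    have h4 := h3.union (Cb.indep (G := G) (S := {v}) (by
      intro x hx y hy
      rw [Finset.mem_singleton.1 hx, Finset.mem_singleton.1 hy]
      exact G.irrefl))
    refine h4.mono ?_ (by have := h.ht; omega)
    intro x _
    by_cases hx : x = v
    · rw [hx]; simp
    · simp [hx]
  · push Not at hcard
    have h3 : (N.image c).card < ((Finset.univ.erase v).image c).card :=
      lt_of_le_of_lt Finset.card_image_le (by omega)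
    obtain ⟨a, ha, ha'⟩ := Finset.exists_mem_notMem_of_card_lt_card h3
    apply h.hi
    refine ⟨Function.update c v a, ?_, ?_⟩
    · intro x _ y _ hxy
      by_cases hx : x = v
      · subst hx
        rw [Function.update_self, Function.update_of_ne hxy.ne']
        intro h'
        apply ha'
        rw [h']
        exact Finset.mem_image_of_mem _ (Finset.mem_filter.2 ⟨Finset.mem_univ _, hxy⟩)
      · by_cases hy : y = v
        · subst hy
          rw [Function.update_self, Function.update_of_ne hxy.ne]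
          intro h'
          apply ha'
          rw [← h']
          exact Finset.mem_image_of_mem _ (Finset.mem_filter.2 ⟨Finset.mem_univ _, hxy.symm⟩)
        · rw [Function.update_of_ne hx, Function.update_of_ne hy]
          exact h1 x (by simp [hx]) y (by simp [hy]) hxy
    · refine le_trans (Finset.card_le_card ?_) h2
      intro b hb
      obtain ⟨x, -, rfl⟩ := Finset.mem_image.1 hb
      by_cases hx : x = v
      · rw [hx, Function.update_self]; exact ha
      · rw [Function.update_of_ne hx]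
        exact Finset.mem_image_of_mem _ (by simp [hx])

theorem MinC.card_ge (h : MinC G F t) : t ≤ Fintype.card V := by
  have hne : Nonempty V := by
    by_contra hc
    rw [not_nonempty_iff] at hc
    apply h.hi
    refine ⟨fun _ => 0, fun x => (hc.false x).elim, ?_⟩
    have : (Finset.univ : Finset V) = ∅ := Finset.univ_eq_empty
    rw [this]; simp
  obtain ⟨v⟩ := hne
  exact (h.deg v).trans (Finset.card_le_univ _)

theorem four_le {g b y : ℝ} (hb : 0 < b) (hy : 0 ≤ y) (h : 27 ≤ 256 * g * b ^ 3) :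
    y ≤ b + g * y ^ 4 := by
  have h1 : 0 ≤ (3 * y - 4 * b) ^ 2 * (3 * y ^ 2 + 8 * b * y + 16 * b ^ 2) := by positivity
  have h2 : 27 * y ^ 4 ≤ 256 * g * b ^ 3 * y ^ 4 :=
    mul_le_mul_of_nonneg_right h (by positivity)
  have h3 : 0 ≤ 256 * b ^ 3 * (b + g * y ^ 4 - y) := by nlinarith
  have h4 : 0 < 256 * b ^ 3 := by positivity
  by_contra hc
  push Not at hc
  have h5 : 256 * b ^ 3 * (b + g * y ^ 4 - y) < 0 := mul_neg_of_pos_of_neg h4 (by linarith)
  linarith

/-- admissible slopes -/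
def adm (g b : ℝ) : Prop := 0 < g ∧ g ≤ 100 ∧ 0 < b ∧ b ≤ 10 ∧ 27.01 ≤ 256 * g * b ^ 3

theorem adm.b_ge {g b : ℝ} (h : adm g b) : 0.1 ≤ b := by
  obtain ⟨h1, h2, h3, h4, h5⟩ := h
  by_contra hc
  push Not at hc
  have h6 : b ^ 3 ≤ 0.1 ^ 3 := by gcongr
  have h7 : 256 * g * b ^ 3 ≤ 256 * 100 * 0.1 ^ 3 := by gcongr
  norm_num at h7
  linarith

/-- regularity of the bound function at `t` -/
structure FReg (F : ℕ → ℝ) (t : ℕ) : Prop where
  big : (10 : ℝ) ^ 50 ≤ t
  lo : (t : ℝ) ^ 4 / 10000 ≤ F t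
  up : F t ≤ (t : ℝ) ^ 4 / 64
  inc : F t - F (t - 1) ≤ 4 * (1 + 1 / 10 ^ 12) * (F t / t)
  reg : ∀ c : ℕ, c ≤ t → (((c : ℝ) / t) ^ 4 - 1 / 10 ^ 12) * F t ≤ F c

/-- normalisation -/
noncomputable def M2 (F : ℕ → ℝ) (t : ℕ) : ℝ := 8 * (1 + 2 / 10 ^ 12) * (F t / t)

theorem FReg.tpos (h : FReg F t) : (0 : ℝ) < t := lt_of_lt_of_le (by positivity) h.big

theorem FReg.Fpos (h : FReg F t) : 0 < F t := by
  have h1 := h.lo
  have h2 := h.tpos
  have h3 : 0 < (t : ℝ) ^ 4 / 10000 := by positivity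
  linarith

theorem FReg.M2pos (h : FReg F t) : 0 < M2 F t := by
  unfold M2
  have h1 := h.tpos
  have h2 := h.Fpos
  positivity

/-- the weight of a vertex -/
noncomputable def wt2 (D : Drawing G) (F : ℕ → ℝ) (t : ℕ) (v : V) : ℝ :=
  if R4 D v / M2 F t < 1 / 10 ^ 12 then 0 else R4 D v / M2 F t

theorem wt2_nonneg (D : Drawing G) (h : FReg F t) (v : V) : 0 ≤ wt2 D F t v := by
  unfold wt2
  split_ifs
  · exact le_rfl
  · exact div_nonneg (R4_nonneg D v) h.M2pos.le

theorem wt2_le (D : Drawing G) (h : FReg F t) (v : V) : wt2 D F t v ≤ R4 D v / M2 F t := by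
  unfold wt2
  split_ifs
  · exact div_nonneg (R4_nonneg D v) h.M2pos.le
  · exact le_rfl

theorem wt2_ge (D : Drawing G) (v : V) :
    R4 D v / M2 F t ≤ wt2 D F t v + 1 / 10 ^ 12 := by
  unfold wt2
  split_ifs with h1
  · linarith
  · have : (0 : ℝ) ≤ 1 / 10 ^ 12 := by positivity
    linarith

theorem wt2_alt (D : Drawing G) (v : V) : wt2 D F t v = 0 ∨ 1 / 10 ^ 12 ≤ wt2 D F t v := by
  unfold wt2
  split_ifs with h1
  · exact Or.inl rfl
  · exact Or.inr (not_lt.1 h1)

section weights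

variable (hm : MinC G F t) (hF : FReg F t) (hn : Fintype.card V ≤ 16 * t) (D : Drawing G)
  (hfin : D.crossings.Finite) (hgood : Good D)
  (hopt : 2 * crossingNumber G = ∑ e : Sym2 V, ∑ f : Sym2 V, DX D e f)

include hm hF hn hfin hgood hopt in
/-- independent sets of bounded size -/
theorem ind_small (J : Finset V) (hJ : ∀ x ∈ J, ∀ y ∈ J, ¬ G.Adj x y) (hne : J.Nonempty)
    (hc : J.card ≤ 10 ^ 12 + 1) : ∑ v ∈ J, wt2 D F t v ≤ 1 := by
  have h1 := indep_R4 D hfin hgood hopt J hJ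
  have hX : (Jᶜ : Finset V) ≠ Finset.univ := by
    intro h'
    obtain ⟨x, hx⟩ := hne
    have : x ∈ (Jᶜ : Finset V) := by rw [h']; exact Finset.mem_univ x
    exact (Finset.mem_compl.1 this) hx
  have hnc : ¬ Cb G (Jᶜ : Finset V) (t - 2) := by
    intro h'
    apply hm.hi
    have h4 := h'.union (Cb.indep (G := G) (S := J) hJ)
    refine h4.mono ?_ (by have := hm.ht; omega)
    intro x _
    by_cases hx : x ∈ J
    · exact Finset.mem_union_right _ hx
    · exact Finset.mem_union_left _ (Finset.mem_compl.2 hx)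
  have h2 := hm.sub _ hX (t - 2) hnc
  have h3 : t - 2 + 1 = t - 1 := by have := hm.ht; omega
  rw [h3] at h2
  have h4 := hm.lt
  have h5 := hF.inc
  have ht := hF.tpos
  have hFp := hF.Fpos
  have hn' : (Fintype.card V : ℝ) ≤ 16 * t := by exact_mod_cast hn
  have hc' : (J.card : ℝ) ≤ 10 ^ 12 + 1 := by exact_mod_cast hc
  have h6 : 13 * (J.card : ℝ) ^ 2 * (Fintype.card V : ℝ) ^ 2 ≤
      13 * (10 ^ 12 + 1) ^ 2 * (16 * t) ^ 2 := by gcongr
  have h7 : 13 * ((10 : ℝ) ^ 12 + 1) ^ 2 * (16 * t) ^ 2 ≤ 8 * (1 / 10 ^ 12) * (F t / t) := by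
    have g1 := hF.lo
    have g2 := hF.big
    have g3 : (t : ℝ) ^ 3 / 10000 ≤ F t / t := by
      rw [le_div_iff₀ ht]
      calc (t : ℝ) ^ 3 / 10000 * t = (t : ℝ) ^ 4 / 10000 := by ring
        _ ≤ F t := g1
    have g4 : 13 * ((10 : ℝ) ^ 12 + 1) ^ 2 * (16 * t) ^ 2 ≤ 8 * (1 / 10 ^ 12) * ((t : ℝ) ^ 3 / 10000) := by
      have g5 : 13 * ((10 : ℝ) ^ 12 + 1) ^ 2 * 256 ≤ 8 * (1 / 10 ^ 12) * ((10 : ℝ) ^ 50 / 10000) := by
        norm_num
      have g6 : 8 * (1 / (10 : ℝ) ^ 12) * ((10 : ℝ) ^ 50 / 10000) ≤ 8 * (1 / (10 : ℝ) ^ 12) * (t / 10000) := by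
        gcongr
      have g7 : (13 * ((10 : ℝ) ^ 12 + 1) ^ 2 * 256) * (t : ℝ) ^ 2 ≤
          (8 * (1 / (10 : ℝ) ^ 12) * (t / 10000)) * (t : ℝ) ^ 2 :=
        mul_le_mul_of_nonneg_right (g5.trans g6) (by positivity)
      calc 13 * ((10 : ℝ) ^ 12 + 1) ^ 2 * (16 * t) ^ 2
          = (13 * ((10 : ℝ) ^ 12 + 1) ^ 2 * 256) * (t : ℝ) ^ 2 := by ring
        _ ≤ _ := g7
        _ = 8 * (1 / 10 ^ 12) * ((t : ℝ) ^ 3 / 10000) := by ring
    refine g4.trans ?_
    gcongr
  have h8 : ∑ v ∈ J, R4 D v ≤ M2 F t := by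
    unfold M2
    have e1 : 8 * (1 + 2 / 10 ^ 12) * (F t / t) = 2 * (4 * (1 + 1 / 10 ^ 12) * (F t / t)) +
        8 * (1 / 10 ^ 12) * (F t / t) := by ring
    rw [e1]
    linarith
  calc ∑ v ∈ J, wt2 D F t v ≤ ∑ v ∈ J, R4 D v / M2 F t :=
        Finset.sum_le_sum fun v _ => wt2_le D hF v
    _ = (∑ v ∈ J, R4 D v) / M2 F t := by rw [Finset.sum_div]
    _ ≤ 1 := by rw [div_le_one hF.M2pos]; exact h8

include hm hF hn hfin hgood hopt in
/-- independent sets -/
theorem ind_le (J : Finset V) (hJ : ∀ x ∈ J, ∀ y ∈ J, ¬ G.Adj x y) :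
    ∑ v ∈ J, wt2 D F t v ≤ 1 := by
  set J' := J.filter (fun v => wt2 D F t v ≠ 0) with hJ'
  have h1 : ∑ v ∈ J, wt2 D F t v = ∑ v ∈ J', wt2 D F t v := by
    rw [hJ', Finset.sum_filter_ne_zero]
  rw [h1]
  by_cases hne : J'.Nonempty
  · by_cases hc : J'.card ≤ 10 ^ 12 + 1
    · exact ind_small hm hF hn D hfin hgood hopt J'
        (fun x hx y hy => hJ x (Finset.mem_filter.1 hx).1 y (Finset.mem_filter.1 hy).1) hne hc
    · exfalso
      push Not at hc
      obtain ⟨T, hT, hTc⟩ := Finset.exists_subset_card_eq hc.le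
      have hTs : ∀ x ∈ T, x ∈ J ∧ wt2 D F t x ≠ 0 := fun x hx => Finset.mem_filter.1 (hT hx)
      have h2 := ind_small hm hF hn D hfin hgood hopt T
        (fun x hx y hy => hJ x (hTs x hx).1 y (hTs y hy).1)
        (by rw [← Finset.card_pos, hTc]; positivity) (by omega)
      have h3 : (T.card : ℝ) * (1 / 10 ^ 12) ≤ ∑ v ∈ T, wt2 D F t v := by
        rw [← nsmul_eq_mul]
        refine Finset.card_nsmul_le_sum _ _ _ fun x hx => ?_
        exact (wt2_alt D x).resolve_left (hTs x hx).2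
      rw [hTc] at h3
      push_cast at h3
      norm_num at h3
      linarith
  · rw [Finset.not_nonempty_iff_eq_empty] at hne
    rw [hne]; simp

include hm hF hopt in
theorem W_le : ∑ v, wt2 D F t v ≤ t := by
  have h1 : ∑ v, wt2 D F t v ≤ (∑ v, R4 D v) / M2 F t := by
    rw [Finset.sum_div]
    exact Finset.sum_le_sum fun v _ => wt2_le D hF v
  rw [sum_R4 D hopt] at h1
  refine h1.trans ?_
  rw [div_le_iff₀ hF.M2pos]
  have h2 := hm.lt
  have ht := hF.tpos
  have h3 : (t : ℝ) * M2 F t = 8 * (1 + 2 / 10 ^ 12) * F t := by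
    unfold M2
    field_simp
  rw [h3]
  have h4 := hF.Fpos
  have h5 : 8 * F t ≤ 8 * (1 + 2 / 10 ^ 12) * F t := by
    have : (0 : ℝ) ≤ 8 * (2 / 10 ^ 12) * F t := by positivity
    linarith
  linarith

include hm hF hn hopt in
theorem W_ge : (1 - 1 / 10 ^ 10) * (t : ℝ) ≤ ∑ v, wt2 D F t v := by
  have ht := hF.tpos
  have hFp := hF.Fpos
  have hn' : (Fintype.card V : ℝ) ≤ 16 * t := by exact_mod_cast hn
  have h1 : (∑ v, R4 D v) / M2 F t ≤ ∑ v, wt2 D F t v + (Fintype.card V : ℝ) * (1 / 10 ^ 12) := by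
    rw [Finset.sum_div]
    calc ∑ v, R4 D v / M2 F t ≤ ∑ v : V, (wt2 D F t v + 1 / 10 ^ 12) :=
          Finset.sum_le_sum fun v _ => wt2_ge D v
      _ = _ := by rw [Finset.sum_add_distrib, Finset.sum_const, nsmul_eq_mul, Finset.card_univ]
  rw [sum_R4 D hopt] at h1
  -- lower bound for the crossing number
  have hne : Nonempty V := by
    have := hm.card_ge
    have h2 := hm.ht
    exact Fintype.card_pos_iff.1 (by omega)
  obtain ⟨v⟩ := hne
  have h2 : F (t - 1) ≤ crossingNumber G := by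
    have hX : (Finset.univ.erase v : Finset V) ≠ Finset.univ := by
      intro h'
      have : v ∈ (Finset.univ.erase v : Finset V) := by rw [h']; exact Finset.mem_univ v
      exact (Finset.notMem_erase v _) this
    have hnc : ¬ Cb G (Finset.univ.erase v : Finset V) (t - 2) := by
      intro h'
      apply hm.hi
      have h4 := h'.union (Cb.indep (G := G) (S := {v}) (by
        intro x hx y hy
        rw [Finset.mem_singleton.1 hx, Finset.mem_singleton.1 hy]
        exact G.irrefl))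
      refine h4.mono ?_ (by have := hm.ht; omega)
      intro x _
      by_cases hx : x = v
      · rw [hx]; simp
      · simp [hx]
    have h3 := hm.sub _ hX (t - 2) hnc
    have h4 : t - 2 + 1 = t - 1 := by have := hm.ht; omega
    rw [h4] at h3
    have h5 : (crossingNumber (G.comap (Subtype.val : {x // x ∈ (Finset.univ.erase v : Finset V)} → V)) : ℝ)
      ≤ crossingNumber G := by exact_mod_cast cr_sub_le G _
    linarith
  have h3 := hF.inc
  have h4 : 8 * (F t - 4 * (1 + 1 / 10 ^ 12) * (F t / t)) / M2 F t ≤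
      8 * (crossingNumber G : ℝ) / M2 F t := by
    rw [div_le_div_iff_of_pos_right hF.M2pos]
    linarith
  have h5 : 8 * (F t - 4 * (1 + 1 / 10 ^ 12) * (F t / t)) / M2 F t =
      (t - 4 * (1 + 1 / 10 ^ 12)) / (1 + 2 / 10 ^ 12) := by
    unfold M2
    have : F t ≠ 0 := hFp.ne'
    field_simp
  rw [h5] at h4
  have h6 : (1 - 2 / 10 ^ 12) * (t : ℝ) - 5 ≤ (t - 4 * (1 + 1 / 10 ^ 12)) / (1 + 2 / 10 ^ 12) := by
    rw [le_div_iff₀ (by norm_num)]
    have : (0 : ℝ) ≤ t := ht.le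
    norm_num
    nlinarith
  have h7 := hF.big
  have h8 : (5 : ℝ) ≤ 1 / 10 ^ 12 * t := by
    have : (1 : ℝ) / 10 ^ 12 * 10 ^ 50 ≤ 1 / 10 ^ 12 * t := by gcongr
    norm_num at this ⊢
    linarith
  have h9 : (1 - 2 / 10 ^ 12) * (t : ℝ) - 5 - 16 * t * (1 / 10 ^ 12) ≤ ∑ v, wt2 D F t v := by
    have : (Fintype.card V : ℝ) * (1 / 10 ^ 12) ≤ 16 * t * (1 / 10 ^ 12) := by gcongr
    linarith
  norm_num at h8 h9 ⊢
  linarith

include hm hF hn hfin hopt in
/-- colouring proper subsets -/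
theorem col_sub (X : Finset V) (hX : X ≠ Finset.univ) (g b : ℝ) (ha : adm g b) :
    ∃ c : ℕ, Cb G X c ∧ (c : ℝ) ≤ b * (∑ v, wt2 D F t v) + g * ∑ v ∈ X, wt2 D F t v := by
  have hex : ∃ c, Cb G X c := ⟨_, Cb.card G X⟩
  have ht := hF.tpos
  have hFp := hF.Fpos
  have hn' : (Fintype.card V : ℝ) ≤ 16 * t := by exact_mod_cast hn
  obtain ⟨hg0, hg1, hb0, hb1, hgb⟩ := ha
  have hbge := adm.b_ge ⟨hg0, hg1, hb0, hb1, hgb⟩
  have hW0 : 0 ≤ ∑ v, wt2 D F t v := Finset.sum_nonneg fun v _ => wt2_nonneg D hF v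
  have hX0 : 0 ≤ ∑ v ∈ X, wt2 D F t v := Finset.sum_nonneg fun v _ => wt2_nonneg D hF v
  refine ⟨Nat.find hex, Nat.find_spec hex, ?_⟩
  set c := Nat.find hex with hc
  rcases Nat.eq_zero_or_pos c with h0 | hpos
  · rw [h0]; push_cast; positivity
  have h1 : ¬ Cb G X (c - 1) := Nat.find_min hex (by omega)
  have h2 := hm.sub X hX (c - 1) h1
  have h3 : c - 1 + 1 = c := by omega
  rw [h3] at h2
  have hct : c ≤ t := by
    have := Nat.find_min' hex (hm.crit X hX)
    omega
  have h4 := hF.reg c hct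
  have h5 := sub_R4 D hfin X
  have h6 : ∑ a ∈ X, R4 D a ≤ M2 F t * (∑ v ∈ X, wt2 D F t v + 16 * t * (1 / 10 ^ 12)) := by
    calc ∑ a ∈ X, R4 D a ≤ ∑ a ∈ X, M2 F t * (wt2 D F t a + 1 / 10 ^ 12) := by
          refine Finset.sum_le_sum fun a _ => ?_
          have := wt2_ge D (F := F) (t := t) a
          rw [div_le_iff₀ hF.M2pos] at this
          linarith
      _ = M2 F t * (∑ v ∈ X, wt2 D F t v + X.card * (1 / 10 ^ 12)) := by
          rw [← Finset.mul_sum, Finset.sum_add_distrib, Finset.sum_const, nsmul_eq_mul]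
      _ ≤ _ := by
          have : (X.card : ℝ) ≤ 16 * t := by
            refine le_trans ?_ hn'
            exact_mod_cast Finset.card_le_univ X
          have := hF.M2pos
          gcongr
  set x := ∑ v ∈ X, wt2 D F t v with hx
  have h7 : (((c : ℝ) / t) ^ 4 - 1 / 10 ^ 12) * F t ≤
      (1 + 2 / 10 ^ 12) * (F t / t) * (x + 16 * t * (1 / 10 ^ 12)) := by
    have : M2 F t * (x + 16 * t * (1 / 10 ^ 12)) =
        8 * ((1 + 2 / 10 ^ 12) * (F t / t) * (x + 16 * t * (1 / 10 ^ 12))) := by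
      unfold M2; ring
    rw [this] at h6
    linarith
  have h8 : (1 + 2 / 10 ^ 12) * (F t / t) * (x + 16 * t * (1 / 10 ^ 12)) =
      ((1 + 2 / 10 ^ 12) * (x / t + 16 * (1 / 10 ^ 12))) * F t := by
    field_simp
  rw [h8] at h7
  have h9 := le_of_mul_le_mul_right h7 hFp
  have hxt : x ≤ t := by
    have h10 := W_le hm hF D hopt
    refine le_trans ?_ h10
    exact Finset.sum_le_sum_of_subset_of_nonneg (Finset.subset_univ _)
      (fun v _ _ => wt2_nonneg D hF v)
  have hxt1 : x / t ≤ 1 := by rw [div_le_one ht]; exact hxt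
  have h10 : ((c : ℝ) / t) ^ 4 ≤ x / t + 30 / 10 ^ 12 := by
    have : 0 ≤ x / t := div_nonneg hX0 ht.le
    norm_num at h9 ⊢
    nlinarith
  -- linearise
  have hb' : 0 < b * (1 - 1 / 10000) := by positivity
  have h11 : 27 ≤ 256 * g * (b * (1 - 1 / 10000)) ^ 3 := by
    have : 256 * g * (b * (1 - 1 / 10000)) ^ 3 = 256 * g * b ^ 3 * (1 - 1 / 10000) ^ 3 := by ring
    rw [this]
    have h12 : 27.01 * (1 - 1 / 10000 : ℝ) ^ 3 ≤ 256 * g * b ^ 3 * (1 - 1 / 10000) ^ 3 := by gcongr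
    refine le_trans ?_ h12
    norm_num
  have h12 := four_le hb' (div_nonneg (Nat.cast_nonneg c) ht.le) h11
  have h13 : (c : ℝ) / t ≤ b * (1 - 1 / 10000) + g * (x / t + 30 / 10 ^ 12) := by
    refine h12.trans ?_
    gcongr
  have h14 : (c : ℝ) ≤ (b * (1 - 1 / 10000) + g * (x / t + 30 / 10 ^ 12)) * t := by
    rw [div_le_iff₀ ht] at h13
    exact h13
  have h15 : (b * (1 - 1 / 10000) + g * (x / t + 30 / 10 ^ 12)) * t =
      b * (1 - 1 / 10000) * t + g * x + g * (30 / 10 ^ 12) * t := by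
    have h15' : x / t * t = x := div_mul_cancel₀ x ht.ne'
    linear_combination g * h15'
  rw [h15] at h14
  have h16 := W_ge hm hF hn D hopt
  have h17 : b * ((1 - 1 / 10 ^ 10) * (t : ℝ)) ≤ b * ∑ v, wt2 D F t v := by gcongr
  have h18 : g * (30 / 10 ^ 12) * t ≤ 100 * (30 / 10 ^ 12) * t := by gcongr
  have h19 : 100 * (30 / 10 ^ 12) * (t : ℝ) ≤ b * (1 / 10000 - 1 / 10 ^ 10) * t := by
    have : (0.1 : ℝ) * (1 / 10000 - 1 / 10 ^ 10) * t ≤ b * (1 / 10000 - 1 / 10 ^ 10) * t := by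
      have : (0 : ℝ) ≤ 1 / 10000 - 1 / 10 ^ 10 := by norm_num
      gcongr
    refine le_trans ?_ this
    norm_num
    nlinarith
  linarith

end weights

end Pool.Agent.H466.AB
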