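import Pool.Agent.H466.AB.Unx2

set_option autoImplicit false

/-!
Planarising one crossing of a family of polylines.
-/

open Set Classical
open Pool.Agent.Helper770.Crossing Pool.Agent.Helper770.Sep Pool.Agent.NH90.CN
open Pool.Agent.NH90.CN.UNX

namespace Pool.Agent.H466.AB

theorem btw_anti {u p z : ℂ} (h1 : p ∈ segment ℝ z u) (h2 : z ∈ segment ℝ p u) : p = z := by
  rw [mem_segment_iff_wbtw] at h1 h2
  exact (wbtw_swap_left_iff ℝ u).1 ⟨h2, h1⟩ |>.symm ▸ rfl

theorem xs_half {u1 u2 p : ℂ} {s : Sym2 ℂ} (hp : p ∈ segment ℝ u1 u2) (hps : p ∉ sg s)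
    (hsd : ¬ s.IsDiag) (h1 : ∀ q ∈ s, q ∈ segment ℝ u1 u2 → q = u1 ∨ q = u2)
    (h2 : u1 ∈ sg s → u1 ∈ s) (h : Xs s s(p, u1)) : Xs s s(u1, u2) := by
  obtain ⟨k1, z, hz, hz'⟩ := h
  rw [sg_mk] at hz'
  have hu1 : u1 ∉ s := fun h' => k1 u1 h' (by simp)
  have hsub : segment ℝ p u1 ⊆ segment ℝ u1 u2 :=
    (convex_segment u1 u2).segment_subset hp (left_mem_segment ℝ u1 u2)
  have hu2 : u2 ∉ s := by
    intro hmem
    obtain ⟨d, rfl⟩ := Sym2.mem_iff_exists.1 hmem
    have hd : d ≠ u2 := fun h => hsd (by rw [h]; exact Sym2.mk_isDiag_iff.2 rfl)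
    rw [sg_mk] at hz h2 hps
    have hz2 : z ≠ u2 := by
      rintro rfl
      have : p = z := btw_anti (by rw [segment_symm]; exact hp) hz'
      apply hps
      rw [this]
      exact left_mem_segment ℝ z d
    rcases share hz2 (c := u1) (d := d) (by rw [segment_symm]; exact hsub hz') hz with h' | h'
    · exact hu1 (h2 h')
    · rw [segment_symm] at h'
      rcases h1 d (by simp) h' with h' | h'
      · apply hu1; rw [← h']; simp
      · exact hd h'
  refine ⟨fun q hq hq' => ?_, z, hz, by rw [sg_mk]; exact hsub hz'⟩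
  rw [Sym2.mem_iff] at hq'
  rcases hq' with rfl | rfl
  · exact hu1 hq
  · exact hu2 hq

theorem xs_excl {u1 u2 p : ℂ} {s : Sym2 ℂ} (hp : p ∈ segment ℝ u1 u2) (hps : p ∉ sg s) :
    ¬ (Xs s s(p, u1) ∧ Xs s s(p, u2)) := by
  rintro ⟨⟨-, z1, a1, a2⟩, ⟨-, z2, b1, b2⟩⟩
  rw [sg_mk] at a2 b2
  rw [mem_segment_iff_wbtw] at a2 b2 hp
  have c1 : Wbtw ℝ z1 p u2 := hp.trans_left_right a2.symm
  have c2 : Wbtw ℝ z1 p z2 := c1.trans_right_left b2
  apply hps
  have hc : Convex ℝ (sg s) := convex_convexHull ℝ _
  exact hc.segment_subset a1 b1 (mem_segment_iff_wbtw.2 c2)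

/-- zero if `P` -/
noncomputable def zite (P : Prop) (n : ℕ) : ℕ := @ite ℕ P (Classical.propDecidable P) 0 n

theorem zite_pos {P : Prop} (h : P) (n : ℕ) : zite P n = 0 := by unfold zite; rw [if_pos h]
theorem zite_neg {P : Prop} (h : ¬ P) (n : ℕ) : zite P n = n := by unfold zite; rw [if_neg h]

theorem TT_zite {I : Type} (A : Finset I) (W : I → List ℂ) :
    TT A W = ∑ i ∈ A, ∑ j ∈ A, zite (i = j) (Nx (W i) (W j)) := rfl

variable {V : Type} [Fintype V]

/-- the graph in which the crossing of `e` and `f` has become a vertex -/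
def plg (G : SimpleGraph V) (e f : Sym2 V) : SimpleGraph (Option V) where
  Adj x y := (∃ a b, x = some a ∧ y = some b ∧ G.Adj a b ∧ s(a, b) ≠ e ∧ s(a, b) ≠ f) ∨
    (x = none ∧ ∃ a, y = some a ∧ (a ∈ e ∨ a ∈ f)) ∨ (y = none ∧ ∃ a, x = some a ∧ (a ∈ e ∨ a ∈ f))
  symm := ⟨by
    rintro x y (⟨a, b, h1, h2, h3, h4, h5⟩ | h | h)
    · left
      exact ⟨b, a, h2, h1, h3.symm, by rw [Sym2.eq_swap]; exact h4, by rw [Sym2.eq_swap]; exact h5⟩
    · right; right; exact h
    · right; left; exact h⟩
  loopless := ⟨by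
    rintro x (⟨a, b, h1, h2, h3, -⟩ | ⟨h1, a, h2, -⟩ | ⟨h1, a, h2, -⟩)
    · rw [h1] at h2
      exact h3.ne (Option.some.inj h2)
    · rw [h1] at h2; exact absurd h2 (by simp)
    · rw [h1] at h2; exact absurd h2 (by simp)⟩

/-- the pieces -/
theorem planar {G : SimpleGraph V} {hd tl : Sym2 V → V}
    (he : ∀ e ∈ G.edgeSet, s(hd e, tl e) = e) (loc : V → ℂ) (W : Sym2 V → List ℂ)
    (hPL : PL (eF G) W) (hPO : PO (eF G) W) (hNT : NT (eF G) W) (hDS : DS (eF G) W)
    (h0 : ∀ i ∈ eF G, Nx (W i) (W i) = 0) (hL : Lb (eF G) hd tl loc W) (e f : Sym2 V)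
    (hee : e ∈ G.edgeSet) (hff : f ∈ G.edgeSet) (hdj : ∀ v, v ∈ e → v ∉ f)
    (hN : Nx (W e) (W f) ≠ 0) :
    ∃ c : Bool → Bool → ℕ, (∑ b, ∑ b', c b b') + 1 ≤ Nx (W e) (W f) ∧
      ∀ b b', 2 * crossingNumber (plg G e f) + 2 * c b b' + 2 * Nx (W e) (W f) ≤
        TT (eF G) W + 2 * ∑ b, ∑ b', c b b' := by
  have mem : ∀ {e : Sym2 V}, e ∈ G.edgeSet → e ∈ eF G := fun {e} h =>
    Finset.mem_filter.2 ⟨Finset.mem_univ _, h⟩
  have heA := mem hee
  have hfA := mem hff
  have hef : e ≠ f := by
    rintro rfl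
    induction e with
    | _ x y => exact hdj x (by simp) (by simp)
  obtain ⟨e0, he0, f0, hf0, hX⟩ := cc_pos (by rw [← Nx_eq]; exact hN)
  obtain ⟨U1, u1, u2, U2, hWe, hee0⟩ := mem_segL he0
  obtain ⟨W1, w1, w2, W2, hWf, hff0⟩ := mem_segL hf0
  obtain ⟨p, hpe, hpf⟩ := hX.2
  -- uniform data
  set spl : Sym2 V → Prop := fun g => g = e ∨ g = f with hspl
  set a : Sym2 V → Bool → ℂ := fun g b =>
    if g = e then (if b then u1 else u2) else (if b then w1 else w2) with ha
  set r : Sym2 V → Bool → List ℂ := fun g b =>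
    if g = e then (if b then U1.reverse else U2) else (if b then W1.reverse else W2) with hr
  set m0 : Sym2 V → Sym2 ℂ := fun g => if g = e then e0 else f0 with hm0
  have hfe : ¬ (f = e) := fun h => hef h.symm
  have hW : ∀ g, spl g → W g = (a g true :: r g true).reverse ++ (a g false :: r g false) := by
    rintro g (rfl | rfl)
    · simp [ha, hr, hWe]
    · simp [ha, hr, hWf, hfe]
  have hmid : ∀ g, spl g → m0 g = s(a g true, a g false) := by
    rintro g (rfl | rfl)
    · simp [ha, hm0, hee0]
    · simp [ha, hm0, hff0, hfe]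
  have gA : ∀ g, spl g → g ∈ eF G := by
    rintro g (rfl | rfl)
    · exact heA
    · exact hfA
  have m0seg : ∀ g, spl g → m0 g ∈ segL (W g) := by
    rintro g (rfl | rfl)
    · simp [hm0, he0]
    · simp only [hm0, if_neg hfe]; exact hf0
  have hpm : ∀ g, spl g → p ∈ sg (m0 g) := by
    rintro g (rfl | rfl)
    · simp only [hm0, if_true]; exact hpe
    · simp only [hm0, if_neg hfe]; exact hpf
  have hpseg : ∀ g, spl g → p ∈ segment ℝ (a g true) (a g false) := by
    intro g hg
    rw [← sg_mk, ← hmid g hg]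
    exact hpm g hg
  -- membership
  have memh : ∀ g, spl g → ∀ x, x ∈ W g ↔ (x ∈ a g true :: r g true ∨ x ∈ a g false :: r g false) := by
    intro g hg x
    rw [hW g hg, List.mem_append, List.mem_reverse]
  have memb : ∀ g, spl g → ∀ b, ∀ x ∈ a g b :: r g b, x ∈ W g := by
    intro g hg b x hx
    rw [memh g hg]
    cases b
    · exact Or.inr hx
    · exact Or.inl hx
  have nodh : ∀ g, spl g → (a g true :: r g true).Nodup ∧ (a g false :: r g false).Nodup ∧
      ∀ x, x ∈ a g true :: r g true → x ∈ a g false :: r g false → False := by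
    intro g hg
    have h1 := hPL.nd g (gA g hg)
    rw [hW g hg, List.nodup_append, List.nodup_reverse] at h1
    refine ⟨h1.1, h1.2.1, fun x hx hx' => h1.2.2 x ?_ x hx' rfl⟩
    rw [List.mem_reverse]
    exact hx
  have nodb : ∀ g, spl g → ∀ b, (a g b :: r g b).Nodup := by
    intro g hg b
    cases b
    · exact (nodh g hg).2.1
    · exact (nodh g hg).1
  have ane : ∀ g, spl g → a g true ≠ a g false := by
    intro g hg h
    exact (nodh g hg).2.2 (a g true) (by simp) (by rw [h]; simp)
  -- `p` is not a point of the family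
  have hpQ : ∀ k ∈ eF G, p ∉ W k := by
    intro k hk hpk
    exact hX.1 p (hPO e heA k hk _ he0 p hpk hpe) (hPO f hfA k hk _ hf0 p hpk hpf)
  have hpa : ∀ g, spl g → ∀ b, p ≠ a g b := by
    intro g hg b h
    exact hpQ g (gA g hg) (memb g hg b p (by rw [h]; simp))
  have nd0 : ∀ k ∈ eF G, ∀ s ∈ segL (W k), ¬ s.IsDiag := by
    intro k hk s hs
    obtain ⟨l₁, x, y, l₂, h1, rfl⟩ := mem_segL hs
    have := hPL.nd k hk
    rw [h1] at this
    rw [Sym2.mk_isDiag_iff]
    rintro rfl
    simp [List.nodup_append] at this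
  -- `p` is on no other segment
  have hpS : ∀ k ∈ eF G, ∀ s ∈ segL (W k), s ≠ e0 → s ≠ f0 → p ∉ sg s := by
    intro k hk s hs hse hsf hps
    have third : ∀ g, spl g → s ≠ m0 g → Xs (m0 g) s := by
      intro g hg hne
      have hgA := gA g hg
      have c := not_mem_third (ane g hg) (hpseg g hg) (hpa g hg true) (hpa g hg false) hps
        (nd0 k hk s hs) (by rw [← hmid g hg]; exact hne)
        (fun x hx hx2 => by
          have := hPO g hgA k hk _ (m0seg g hg) x (mem_of_mem_segL hs hx)
            (by rw [hmid g hg, sg_mk]; exact hx2)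
          rw [hmid g hg, Sym2.mem_iff] at this
          exact this)
        (fun h' => hPO k hk g hgA s hs _ (memb g hg true _ (by simp)) h')
        (fun h' => hPO k hk g hgA s hs _ (memb g hg false _ (by simp)) h')
      refine ⟨fun x hx => ?_, ⟨p, hpm g hg, hps⟩⟩
      rw [hmid g hg, Sym2.mem_iff] at hx
      rcases hx with rfl | rfl
      · exact c.1
      · exact c.2
    have x1 : Xs e0 s := by
      have := third e (Or.inl rfl) (by simp only [hm0, if_true]; exact hse)
      simpa [hm0] using this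
    have x2 : Xs f0 s := by
      have := third f (Or.inr rfl) (by simp only [hm0, if_neg hfe]; exact hsf)
      simpa [hm0, hfe] using this
    have := hNT e heA f hfA k hk _ he0 _ hf0 _ hs hX x2 x1
    exact (Set.eq_empty_iff_forall_notMem.1 this) p ⟨⟨hpe, hpf⟩, hps⟩
  -- segments of the halves
  have segW : ∀ g, spl g → segL (W g) = (segL (a g true :: r g true)).reverse ++
      ([m0 g] ++ segL (a g false :: r g false)) := by
    intro g hg
    rw [hW g hg, List.reverse_cons, List.append_assoc, List.singleton_append]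
    have h1 : (r g true).reverse ++ a g true :: a g false :: r g false =
        (r g true).reverse ++ a g true :: (a g false :: r g false) := rfl
    rw [h1, segL_append, hmid g hg, ← segL_reverse, List.reverse_cons]
    rfl
  have segb : ∀ g, spl g → ∀ b, ∀ s ∈ segL (a g b :: r g b), s ∈ segL (W g) ∧ s ≠ e0 ∧ s ≠ f0 := by
    intro g hg b s hs
    have h1 : s ∈ segL (W g) := by
      rw [segW g hg]
      cases b
      · simp only [List.mem_append]; right; right; exact hs
      · simp only [List.mem_append, List.mem_reverse]; left; exact hs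
    have h2 : s ≠ m0 g := by
      rintro rfl
      rw [hmid g hg] at hs
      have m1 := mem_of_mem_segL hs (q := a g true) (by simp)
      have m2 := mem_of_mem_segL hs (q := a g false) (by simp)
      cases b
      · exact (nodh g hg).2.2 (a g true) (by simp) m1
      · exact (nodh g hg).2.2 (a g false) m2 (by simp)
    refine ⟨h1, ?_, ?_⟩
    · intro h3
      rcases hg with rfl | rfl
      · apply h2; simp only [hm0, if_true]; exact h3
      · exact hDS g hfA e heA hfe s h1 (by rw [h3]; exact he0)
    · intro h3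
      rcases hg with rfl | rfl
      · exact hDS g heA f hfA hef s h1 (by rw [h3]; exact hf0)
      · apply h2; simp only [hm0, if_neg hfe]; exact h3
  -- new family
  set W' : Sym2 V × Bool → List ℂ := fun x =>
    if spl x.1 then p :: a x.1 x.2 :: r x.1 x.2 else W x.1 with hW'
  have W's : ∀ g, spl g → ∀ b, W' (g, b) = p :: a g b :: r g b := by
    intro g hg b; simp only [hW']; rw [if_pos hg]
  have W'n : ∀ g, ¬ spl g → ∀ b, W' (g, b) = W g := by
    intro g hg b; simp only [hW']; rw [if_neg hg]
  have segs : ∀ g, spl g → ∀ b, segL (W' (g, b)) = [s(p, a g b)] ++ segL (a g b :: r g b) := by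
    intro g hg b
    rw [W's g hg b]
    rfl
  -- a halved segment against other segments
  have half : ∀ g, spl g → ∀ b, ∀ k ∈ eF G, ∀ s ∈ segL (W k), s ≠ e0 → s ≠ f0 →
      Xs s s(p, a g b) → Xs s (m0 g) := by
    intro g hg b k hk s hs hse hsf hx
    have hgA := gA g hg
    rw [hmid g hg]
    have q1 : ∀ x ∈ s, x ∈ segment ℝ (a g true) (a g false) → x = a g true ∨ x = a g false := by
      intro x hx hx2
      have := hPO g hgA k hk _ (m0seg g hg) x (mem_of_mem_segL hs hx)
            (by rw [hmid g hg, sg_mk]; exact hx2)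
      rw [hmid g hg, Sym2.mem_iff] at this
      exact this
    cases b
    · rw [Sym2.eq_swap (a := a g true)]
      refine xs_half (by rw [segment_symm]; exact hpseg g hg) (hpS k hk s hs hse hsf)
        (nd0 k hk s hs) ?_ (fun h' => hPO k hk g hgA s hs _ (memb g hg false _ (by simp)) h') hx
      intro x hx hx2
      rw [segment_symm] at hx2
      exact (q1 x hx hx2).symm
    · exact xs_half (hpseg g hg) (hpS k hk s hs hse hsf)
        (nd0 k hk s hs) q1 (fun h' => hPO k hk g hgA s hs _ (memb g hg true _ (by simp)) h') hx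
  have pair : ∀ g, spl g → ∀ κ : List (Sym2 ℂ),
      (∀ s ∈ κ, ∃ k ∈ eF G, s ∈ segL (W k) ∧ s ≠ e0 ∧ s ≠ f0) →
      cc κ [s(p, a g true)] + cc κ [s(p, a g false)] ≤ cc κ [m0 g] := by
    intro g hg κ hκ
    refine cc_single_pair ?_ ?_ ?_
    · intro s hs hx
      obtain ⟨k, hk, h1, h2, h3⟩ := hκ s hs
      exact half g hg true k hk s h1 h2 h3 hx
    · intro s hs hx
      obtain ⟨k, hk, h1, h2, h3⟩ := hκ s hs
      exact half g hg false k hk s h1 h2 h3 hx
    · intro s hs
      obtain ⟨k, hk, h1, h2, h3⟩ := hκ s hs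
      exact xs_excl (hpseg g hg) (hpS k hk s h1 h2 h3)
  have nsp : ∀ k ∈ eF G, ¬ spl k → ∀ s ∈ segL (W k), ∃ k ∈ eF G, s ∈ segL (W k) ∧ s ≠ e0 ∧ s ≠ f0 := by
    intro k hk hks s hs
    refine ⟨k, hk, hs, ?_, ?_⟩
    · rintro rfl
      exact hDS k hk e heA (fun h => hks (Or.inl h)) _ hs he0
    · rintro rfl
      exact hDS k hk f hfA (fun h => hks (Or.inr h)) _ hs hf0
  have hsp : ∀ g, spl g → ∀ b, ∀ s ∈ segL (a g b :: r g b),
      ∃ k ∈ eF G, s ∈ segL (W k) ∧ s ≠ e0 ∧ s ≠ f0 := by
    intro g hg b s hs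
    obtain ⟨h1, h2, h3⟩ := segb g hg b s hs
    exact ⟨g, gA g hg, h1, h2, h3⟩
  have zpp : ∀ x y : ℂ, cc [s(p, x)] [s(p, y)] = 0 := by
    intro x y
    have : ¬ Xs s(p, x) s(p, y) := fun h => h.1 p (by simp) (by simp)
    simp [cc, this]
  -- counts
  have N1 : ∀ k ∈ eF G, ¬ spl k → ∀ g, spl g →
      Nx (W k) (W' (g, true)) + Nx (W k) (W' (g, false)) ≤ Nx (W k) (W g) := by
    intro k hk hks g hg
    rw [Nx_eq, Nx_eq, Nx_eq, segs g hg, segs g hg, segW g hg]
    simp only [cc_append_right, cc_reverse_right]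
    have := pair g hg (segL (W k)) (nsp k hk hks)
    omega
  have spe : spl e := Or.inl rfl
  have spf : spl f := Or.inr rfl
  have m0e : m0 e = e0 := by simp [hm0]
  have m0f : m0 f = f0 := by simp [hm0, hfe]
  have N2 : (∑ b, ∑ b', Nx (W' (e, b)) (W' (f, b'))) + 1 ≤ Nx (W e) (W f) := by
    simp only [Fintype.sum_bool, Nx_eq, segs e spe, segs f spf, segW e spe, segW f spf]
    simp only [cc_append_left, cc_append_right, cc_reverse_left, cc_reverse_right, zpp, m0e, m0f]
    have p1 := pair e spe (segL (a f true :: r f true)) (hsp f spf true)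
    have p2 := pair e spe (segL (a f false :: r f false)) (hsp f spf false)
    have p3 := pair f spf (segL (a e true :: r e true)) (hsp e spe true)
    have p4 := pair f spf (segL (a e false :: r e false)) (hsp e spe false)
    have z5 : cc [e0] [f0] = 1 := by simp [cc, hX]
    rw [m0e] at p1 p2
    rw [m0f] at p3 p4
    rw [cc_comm _ [s(p, a e true)], cc_comm _ [s(p, a e false)], cc_comm _ [e0]] at p1 p2
    rw [z5]
    omega
  have N3 : ∀ g, spl g → Nx (W' (g, true)) (W' (g, false)) = 0 := by
    intro g hg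
    have h1 := h0 g (gA g hg)
    rw [Nx_eq, segW g hg] at h1
    simp only [cc_append_left, cc_append_right, cc_reverse_left, cc_reverse_right] at h1
    rw [Nx_eq, segs g hg, segs g hg]
    simp only [cc_append_left, cc_append_right, zpp]
    have p1 := pair g hg (segL (a g true :: r g true)) (hsp g hg true)
    have p2 := pair g hg (segL (a g false :: r g false)) (hsp g hg false)
    rw [cc_comm _ [s(p, a g true)], cc_comm _ [s(p, a g false)], cc_comm _ [m0 g]] at p2
    omega
  -- the index set
  set A' : Finset (Sym2 V × Bool) :=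
    ((eF G) ×ˢ (Finset.univ : Finset Bool)).filter (fun x => x.2 = true ∨ spl x.1) with hA'
  have mA' : ∀ g b, (g, b) ∈ A' ↔ g ∈ eF G ∧ (b = true ∨ spl g) := by
    intro g b
    rw [hA', Finset.mem_filter, Finset.mem_product]
    simp
  have enlast : ∀ g, spl g → ∀ b, ∀ q ∈ a g b :: r g b, En (W g) q →
      (a g b :: r g b).getLast? = some q := by
    intro g hg b q hq hEn
    have hh : (W g).head? = (a g true :: r g true).getLast? := by
      rw [hW g hg, List.head?_append_of_ne_nil _ (by simp), List.head?_reverse]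
    have hl : (W g).getLast? = (a g false :: r g false).getLast? := by
      rw [hW g hg, List.getLast?_append_of_ne_nil _ (by simp)]
    rcases hEn with h1 | h1
    · rw [hh] at h1
      cases b
      · exact ((nodh g hg).2.2 q (List.mem_of_mem_getLast? h1) hq).elim
      · exact h1
    · rw [hl] at h1
      cases b
      · exact h1
      · exact ((nodh g hg).2.2 q hq (List.mem_of_mem_getLast? h1)).elim
  have ens : ∀ g, spl g → ∀ b, ∀ q ∈ a g b :: r g b, En (W g) q → En (W' (g, b)) q := by
    intro g hg b q hq hEn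
    right
    rw [W's g hg b, List.getLast?_cons_cons]
    exact enlast g hg b q hq hEn
  have hPL' : PL A' W' := by
    refine ⟨?_, ?_, ?_⟩
    · rintro ⟨g, b⟩ hg
      by_cases hs : spl g
      · rw [W's g hs b]; simp
      · rw [W'n g hs b]; exact hPL.len g ((mA' g b).1 hg).1
    · rintro ⟨g, b⟩ hg
      by_cases hs : spl g
      · rw [W's g hs b, List.nodup_cons]
        exact ⟨fun h => hpQ g (gA g hs) (memb g hs b p h), nodb g hs b⟩
      · rw [W'n g hs b]; exact hPL.nd g ((mA' g b).1 hg).1
    · rintro ⟨g, b⟩ hg ⟨g', b'⟩ hg' hne q hq hq'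
      have hgA := ((mA' g b).1 hg).1
      have hgA' := ((mA' g' b').1 hg').1
      by_cases hqp : q = p
      · subst hqp
        have s1 : spl g := by
          by_contra hs
          rw [W'n g hs b] at hq
          exact hpQ g hgA hq
        have s2 : spl g' := by
          by_contra hs
          rw [W'n g' hs b'] at hq'
          exact hpQ g' hgA' hq'
        rw [W's g s1 b, W's g' s2 b']
        exact ⟨Or.inl rfl, Or.inl rfl⟩
      · have red : ∀ g b, (g, b) ∈ A' → q ∈ W' (g, b) → q ∈ W g ∧ (En (W g) q → En (W' (g, b)) q) := by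
          intro g b hg hq
          by_cases hs : spl g
          · rw [W's g hs b] at hq
            rcases List.mem_cons.1 hq with h | h
            · exact absurd h hqp
            · exact ⟨memb g hs b q h, fun hE => ens g hs b q h hE⟩
          · rw [W'n g hs b] at hq ⊢
            exact ⟨hq, fun h => h⟩
        obtain ⟨r1, r2⟩ := red g b hg hq
        obtain ⟨r3, r4⟩ := red g' b' hg' hq'
        by_cases hgg : g = g'
        · subst hgg
          exfalso
          by_cases hs : spl g
          · rw [W's g hs b] at hq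
            rw [W's g hs b'] at hq'
            have h1 := (List.mem_cons.1 hq).resolve_left hqp
            have h2 := (List.mem_cons.1 hq').resolve_left hqp
            have hbb : b ≠ b' := fun h => hne (by rw [h])
            cases b <;> cases b' <;> simp only [ne_eq, not_true_eq_false, reduceCtorEq,
              not_false_eq_true] at hbb
            · exact (nodh g hs).2.2 q h2 h1
            · exact (nodh g hs).2.2 q h1 h2
          · have h1 := ((mA' g b).1 hg).2.resolve_right hs
            have h2 := ((mA' g b').1 hg').2.resolve_right hs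
            exact hne (by rw [h1, h2])
        · obtain ⟨e1, e2⟩ := hPL.sep g hgA g' hgA' hgg q r1 r3
          exact ⟨r2 e1, r4 e2⟩
  -- labels
  set hd' : Sym2 V × Bool → Option V := fun x => if spl x.1 then none else some (hd x.1) with hhd'
  set tl' : Sym2 V × Bool → Option V := fun x =>
    if spl x.1 then some (if x.2 then hd x.1 else tl x.1) else some (tl x.1) with htl'
  set loc' : Option V → ℂ := fun o => o.elim p loc with hloc'
  have labmem : ∀ g b, (g, b) ∈ A' → ∀ u ∈ s(hd' (g, b), tl' (g, b)), u = none ∨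
      ∃ v, u = some v ∧ v ∈ s(hd g, tl g) := by
    intro g b hg u hu
    simp only [hhd', htl'] at hu
    by_cases hs : spl g
    · rw [if_pos hs, if_pos hs, Sym2.mem_iff] at hu
      rcases hu with hu | hu
      · exact Or.inl hu
      · right
        refine ⟨_, hu, ?_⟩
        split_ifs <;> simp
    · rw [if_neg hs, if_neg hs, Sym2.mem_iff] at hu
      right
      rcases hu with hu | hu
      · exact ⟨_, hu, by simp⟩
      · exact ⟨_, hu, by simp⟩
  have hLh : ∀ g ∈ eF G, ∀ v ∈ s(hd g, tl g), loc v ∈ W g := fun g hg v hv =>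
    GOOD.en_mem (GOOD.lb_en hL hg hv)
  have hLb' : Lb A' hd' tl' loc' W' := by
    refine ⟨?_, ?_, ?_⟩
    · rintro ⟨g, b⟩ hg ⟨g', b'⟩ hg' u hu v hv huv
      have hgA := ((mA' g b).1 hg).1
      have hgA' := ((mA' g' b').1 hg').1
      rcases labmem g b hg u hu with rfl | ⟨u', rfl, hu'⟩
      · rcases labmem g' b' hg' v hv with rfl | ⟨v', rfl, hv'⟩
        · rfl
        · exfalso
          have : p = loc v' := huv
          exact hpQ g' hgA' (by rw [this]; exact hLh g' hgA' v' hv')
      · rcases labmem g' b' hg' v hv with rfl | ⟨v', rfl, hv'⟩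
        · exfalso
          have : loc u' = p := huv
          exact hpQ g hgA (by rw [← this]; exact hLh g hgA u' hu')
        · have : loc u' = loc v' := huv
          rw [hL.inj g hgA g' hgA' u' hu' v' hv' this]
    · rintro ⟨g, b⟩ hg
      by_cases hs : spl g
      · rw [W's g hs b]
        simp only [hhd', if_pos hs]
        rfl
      · rw [W'n g hs b]
        simp only [hhd', if_neg hs]
        exact hL.head g ((mA' g b).1 hg).1
    · rintro ⟨g, b⟩ hg
      have hgA := ((mA' g b).1 hg).1
      by_cases hs : spl g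
      · rw [W's g hs b, List.getLast?_cons_cons]
        simp only [htl', if_pos hs]
        cases b
        · have h1 : (W g).getLast? = (a g false :: r g false).getLast? := by
            rw [hW g hs, List.getLast?_append_of_ne_nil _ (by simp)]
          rw [← h1]
          exact hL.last g hgA
        · have h1 : (W g).head? = (a g true :: r g true).getLast? := by
            rw [hW g hs, List.head?_append_of_ne_nil _ (by simp), List.head?_reverse]
          rw [← h1]
          exact hL.head g hgA
      · rw [W'n g hs b]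
        simp only [htl', if_neg hs]
        exact hL.last g hgA
  -- relabelling
  set lab : Sym2 V × Bool → Sym2 (Option V) := fun x => s(hd' x, tl' x) with hlab
  have labs : ∀ g, spl g → ∀ b, lab (g, b) = s(none, some (if b then hd g else tl g)) := by
    intro g hs b
    simp only [hlab, hhd', htl', if_pos hs]
  have labn : ∀ g ∈ eF G, ¬ spl g → ∀ b, lab (g, b) = g.map some := by
    intro g hg hs b
    simp only [hlab, hhd', htl', if_neg hs]
    have h1 := he g (DEL.mem_eF.1 hg)
    conv_rhs => rw [← h1]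
    rfl
  have notnone : ∀ g : Sym2 V, none ∉ g.map some := by
    intro g h
    rw [Sym2.mem_map] at h
    obtain ⟨x, -, hx⟩ := h
    exact absurd hx (by simp)
  have ends : ∀ g, spl g → ∀ b : Bool, (if b then hd g else tl g) ∈ g := by
    intro g hs b
    have h1 := he g (DEL.mem_eF.1 (gA g hs))
    have h2 : (if b = true then hd g else tl g) ∈ s(hd g, tl g) := by
      cases b <;> simp
    rw [h1] at h2
    exact h2
  have hdtl : ∀ g ∈ eF G, hd g ≠ tl g := by
    intro g hg h
    have h1 := he g (DEL.mem_eF.1 hg)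
    apply G.not_isDiag_of_mem_edgeSet (DEL.mem_eF.1 hg)
    rw [← h1, h]
    exact Sym2.mk_isDiag_iff.2 rfl
  have lab_inj : ∀ x ∈ A', ∀ y ∈ A', lab x = lab y → x = y := by
    rintro ⟨g, b⟩ hg ⟨g', b'⟩ hg' h
    have hgA := ((mA' g b).1 hg).1
    have hgA' := ((mA' g' b').1 hg').1
    by_cases hs : spl g
    · by_cases hs' : spl g'
      · rw [labs g hs, labs g' hs'] at h
        have h1 : (if b = true then hd g else tl g) = (if b' = true then hd g' else tl g') := by
          rcases Sym2.eq_iff.1 h with h | h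
          · exact Option.some.inj h.2
          · exact absurd h.1 (by simp)
        have h2 := ends g hs b
        have h3 := ends g' hs' b'
        rw [h1] at h2
        have hgg : g = g' := by
          rcases hs with rfl | rfl
          · rcases hs' with rfl | rfl
            · rfl
            · exact (hdj _ h2 h3).elim
          · rcases hs' with rfl | rfl
            · exact (hdj _ h3 h2).elim
            · rfl
        subst hgg
        have := hdtl g hgA
        cases b <;> cases b' <;> simp only [if_true, Bool.false_eq_true, if_false] at h1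
        · rfl
        · exact absurd h1.symm this
        · exact absurd h1 this
        · rfl
      · exfalso
        rw [labs g hs, labn g' hgA' hs'] at h
        apply notnone g'
        rw [← h]
        simp
    · by_cases hs' : spl g'
      · exfalso
        rw [labs g' hs', labn g hgA hs] at h
        apply notnone g
        rw [h]
        simp
      · rw [labn g hgA hs, labn g' hgA' hs'] at h
        have h1 : g = g' := Sym2.map.injective (Option.some_injective V) h
        have h2 := ((mA' g b).1 hg).2.resolve_right hs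
        have h3 := ((mA' g' b').1 hg').2.resolve_right hs'
        rw [h1, h2, h3]
  have lab_sur : ∀ x ∈ (plg G e f).edgeSet, ∃ i ∈ A', lab i = x := by
    intro x hx
    have star : ∀ c : V, (c ∈ e ∨ c ∈ f) → ∃ i ∈ A', lab i = s(none, some c) := by
      intro c hc
      have : ∀ g, spl g → c ∈ g → ∃ i ∈ A', lab i = s(none, some c) := by
        intro g hs hcg
        have h1 := he g (DEL.mem_eF.1 (gA g hs))
        rw [← h1, Sym2.mem_iff] at hcg
        rcases hcg with rfl | rfl
        · exact ⟨(g, true), (mA' _ _).2 ⟨gA g hs, Or.inl rfl⟩, by rw [labs g hs]; simp⟩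
        · exact ⟨(g, false), (mA' _ _).2 ⟨gA g hs, Or.inr hs⟩, by rw [labs g hs]; simp⟩
      rcases hc with hc | hc
      · exact this e spe hc
      · exact this f spf hc
    induction x with
    | _ x y =>
      rcases hx with ⟨c, d, rfl, rfl, h3, h4, h5⟩ | ⟨rfl, c, rfl, hc⟩ | ⟨rfl, c, rfl, hc⟩
      · have hs : ¬ spl s(c, d) := by
          rintro (h | h)
          · exact h4 h
          · exact h5 h
        refine ⟨(s(c, d), true), (mA' _ _).2 ⟨DEL.mem_eF.2 h3, Or.inl rfl⟩, ?_⟩
        rw [labn _ (DEL.mem_eF.2 h3) hs]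
        rfl
      · exact star c hc
      · rw [Sym2.eq_swap]
        exact star c hc
  have hne0 : Nonempty (Sym2 V × Bool) := ⟨(e, true)⟩
  choose! un hun1 hun2 using lab_sur
  have un_inj : ∀ x ∈ eF (plg G e f), ∀ y ∈ eF (plg G e f), un x = un y → x = y := by
    intro x hx y hy h
    rw [← hun2 x (DEL.mem_eF.1 hx), ← hun2 y (DEL.mem_eF.1 hy), h]
  set W2' : Sym2 (Option V) → List ℂ := fun x => W' (un x) with hW2'
  have hPL2 : PL (eF (plg G e f)) W2' := by
    refine ⟨fun i hi => hPL'.len _ (hun1 i (DEL.mem_eF.1 hi)),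
      fun i hi => hPL'.nd _ (hun1 i (DEL.mem_eF.1 hi)), fun i hi j hj hij q hq hq' => ?_⟩
    exact hPL'.sep _ (hun1 i (DEL.mem_eF.1 hi)) _ (hun1 j (DEL.mem_eF.1 hj))
      (fun h => hij (un_inj i hi j hj h)) q hq hq'
  have hLb2 : Lb (eF (plg G e f)) (fun x => hd' (un x)) (fun x => tl' (un x)) loc' W2' := by
    refine ⟨fun i hi j hj => hLb'.inj _ (hun1 i (DEL.mem_eF.1 hi)) _ (hun1 j (DEL.mem_eF.1 hj)),
      fun i hi => hLb'.head _ (hun1 i (DEL.mem_eF.1 hi)),
      fun i hi => hLb'.last _ (hun1 i (DEL.mem_eF.1 hi))⟩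
  have he2 : ∀ x ∈ (plg G e f).edgeSet, s(hd' (un x), tl' (un x)) = x := fun x hx => hun2 x hx
  have unlab : ∀ i ∈ A', lab i ∈ (plg G e f).edgeSet → un (lab i) = i := by
    intro i hi h
    exact lab_inj _ (hun1 _ h) i hi (hun2 _ h)
  have labedge : ∀ g, spl g → ∀ b, lab (g, b) ∈ (plg G e f).edgeSet := by
    intro g hs b
    rw [labs g hs]
    right; left
    refine ⟨rfl, _, rfl, ?_⟩
    have := ends g hs b
    rcases hs with rfl | rfl
    · exact Or.inl this
    · exact Or.inr this
  have memA's : ∀ g, spl g → ∀ b, (g, b) ∈ A' := fun g hs b => (mA' g b).2 ⟨gA g hs, Or.inr hs⟩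
  have hTT2 : TT (eF (plg G e f)) W2' ≤ TT A' W' := by
    rw [TT_zite, TT_zite]
    have hsub : ∀ h : Sym2 V × Bool → ℕ, ∑ x ∈ eF (plg G e f), h (un x) ≤ ∑ i ∈ A', h i := by
      intro h
      rw [← Finset.sum_image (f := h) (g := un) (fun x hx y hy hxy => un_inj x hx y hy hxy)]
      refine Finset.sum_le_sum_of_subset ?_
      intro i hi
      obtain ⟨x, hx, rfl⟩ := Finset.mem_image.1 hi
      exact hun1 x (DEL.mem_eF.1 hx)
    calc ∑ i ∈ eF (plg G e f), ∑ j ∈ eF (plg G e f), zite (i = j) (Nx (W2' i) (W2' j))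
        = ∑ i ∈ eF (plg G e f), ∑ j ∈ eF (plg G e f),
            zite (un i = un j) (Nx (W' (un i)) (W' (un j))) := by
          refine Finset.sum_congr rfl fun i hi => Finset.sum_congr rfl fun j hj => ?_
          by_cases hij : i = j
          · rw [zite_pos hij, zite_pos (by rw [hij])]
          · rw [zite_neg hij, zite_neg (fun h => hij (un_inj i hi j hj h))]
      _ ≤ ∑ i ∈ eF (plg G e f), ∑ j ∈ A', zite (un i = j) (Nx (W' (un i)) (W' j)) :=
          Finset.sum_le_sum fun i _ => hsub (fun j => zite (un i = j) (Nx (W' (un i)) (W' j)))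
      _ ≤ ∑ i ∈ A', ∑ j ∈ A', zite (i = j) (Nx (W' i) (W' j)) :=
          hsub (fun i => ∑ j ∈ A', zite (i = j) (Nx (W' i) (W' j)))
  -- total count
  set ok : Sym2 V → Bool → Prop := fun g b => b = true ∨ spl g with hok
  set R : Sym2 V → Sym2 V → ℕ := fun g g' => ∑ b, ∑ b', if ok g b ∧ ok g' b' ∧ (g, b) ≠ (g', b')
    then Nx (W' (g, b)) (W' (g', b')) else 0 with hR
  have hRs : ∀ g g', R g g' = R g' g := by
    intro g g'
    simp only [hR]
    rw [Finset.sum_comm]
    refine Finset.sum_congr rfl fun b _ => Finset.sum_congr rfl fun b' _ => ?_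
    have : (ok g b' ∧ ok g' b ∧ (g, b') ≠ (g', b)) ↔ (ok g' b ∧ ok g b' ∧ (g', b) ≠ (g, b')) := by
      constructor
      · rintro ⟨h1, h2, h3⟩; exact ⟨h2, h1, h3.symm⟩
      · rintro ⟨h1, h2, h3⟩; exact ⟨h2, h1, h3.symm⟩
    simp only [this]
    split_ifs
    · simp only [Nx_eq]; exact cc_comm _ _
    · rfl
  have hRd : ∀ g, R g g = 0 := by
    intro g
    simp only [hR, Fintype.sum_bool]
    by_cases hs : spl g
    · have n3 := N3 g hs
      have n3' : Nx (W' (g, false)) (W' (g, true)) = 0 := by
        rw [← n3]; simp only [Nx_eq]; exact cc_comm _ _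
      simp [n3, n3']
    · simp [hok, hs]
  have hTTR : TT A' W' = ∑ g ∈ eF G, ∑ g' ∈ eF G, zite (g = g') (R g g') := by
    rw [TT_zite, hA', Finset.sum_filter, Finset.sum_product]
    refine Finset.sum_congr rfl fun g hg => ?_
    have e1 : ∀ b : Bool, (if (g, b).2 = true ∨ spl (g, b).1 then
        ∑ j ∈ ((eF G) ×ˢ (Finset.univ : Finset Bool)).filter (fun x => x.2 = true ∨ spl x.1),
          zite ((g, b) = j) (Nx (W' (g, b)) (W' j)) else 0) =
        ∑ g' ∈ eF G, ∑ b', if ok g b ∧ ok g' b' ∧ (g, b) ≠ (g', b')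
          then Nx (W' (g, b)) (W' (g', b')) else 0 := by
      intro b
      by_cases hb : ok g b
      · rw [if_pos (show (g, b).2 = true ∨ spl (g, b).1 from hb), Finset.sum_filter,
          Finset.sum_product]
        refine Finset.sum_congr rfl fun g' _ => Finset.sum_congr rfl fun b' _ => ?_
        by_cases hb' : ok g' b'
        · rw [if_pos (show (g', b').2 = true ∨ spl (g', b').1 from hb')]
          by_cases h3 : (g, b) = (g', b')
          · rw [zite_pos h3, if_neg (fun h => h.2.2 h3)]
          · rw [zite_neg h3, if_pos ⟨hb, hb', h3⟩]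
        · rw [if_neg (show ¬ ((g', b').2 = true ∨ spl (g', b').1) from hb'),
            if_neg (fun h => hb' h.2.1)]
      · rw [if_neg (show ¬ ((g, b).2 = true ∨ spl (g, b).1) from hb)]
        symm
        refine Finset.sum_eq_zero fun g' _ => Finset.sum_eq_zero fun b' _ => ?_
        rw [if_neg (fun h => hb h.1)]
    rw [Finset.sum_congr rfl fun b _ => e1 b, Finset.sum_comm]
    refine Finset.sum_congr rfl fun g' hg' => ?_
    by_cases hgg : g = g'
    · rw [zite_pos hgg, ← hgg]
      exact hRd g
    · rw [zite_neg hgg]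
  have hcount := sum_le2 (eF G) e f heA hfA hef (fun k l => Nx (W k) (W l)) R
    (fun k l => by simp only [Nx_eq]; exact cc_comm _ _) hRs
    (by
      intro k hk l hl h1 h2 h3 h4
      have s1 : ¬ spl k := by rintro (h | h); exacts [h1 h, h2 h]
      have s2 : ¬ spl l := by rintro (h | h); exacts [h3 h, h4 h]
      simp only [hR, Fintype.sum_bool, hok, s1, s2, W'n k s1, W'n l s2]
      simp only [or_false, true_and, Bool.false_eq_true, false_and, if_false, add_zero]
      split_ifs
      · exact le_rfl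
      · exact Nat.zero_le _)
    (by
      intro k hk h1 h2
      have s1 : ¬ spl k := by rintro (h | h); exacts [h1 h, h2 h]
      have hke : k ≠ e := h1
      have hkf : k ≠ f := h2
      have r1 : ∀ g, spl g → k ≠ g → R k g = Nx (W k) (W' (g, true)) + Nx (W k) (W' (g, false)) := by
        intro g hg hkg
        simp only [hR, Fintype.sum_bool, hok, s1, hg, W'n k s1]
        simp [hkg]
      rw [r1 e spe hke, r1 f spf hkf]
      exact Nat.add_le_add (N1 k hk s1 e spe) (N1 k hk s1 f spf))
  have hRef : R e f = ∑ b, ∑ b', Nx (W' (e, b)) (W' (f, b')) := by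
    simp only [hR]
    refine Finset.sum_congr rfl fun b _ => Finset.sum_congr rfl fun b' _ => ?_
    rw [if_pos]
    refine ⟨Or.inr spe, Or.inr spf, ?_⟩
    intro h
    exact hef (congrArg Prod.fst h)
  refine ⟨fun b b' => Nx (W' (e, b)) (W' (f, b')), N2, ?_⟩
  intro b b'
  have hle1 := labedge e spe b
  have hle2 := labedge f spf b'
  have hlne : lab (e, b) ≠ lab (f, b') := by
    intro h
    exact hef (congrArg Prod.fst (lab_inj _ (memA's e spe b) _ (memA's f spf b') h))
  have hsv := adj_save he2 (lab (e, b)) (lab (f, b')) hle1 hle2 hlne none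
    (by rw [labs e spe]; simp) (by rw [labs f spf]; simp) _ loc' W2' hPL2 hLb2 le_rfl
  have q1 : W2' (lab (e, b)) = W' (e, b) := by
    simp only [hW2']; rw [unlab _ (memA's e spe b) hle1]
  have q2 : W2' (lab (f, b')) = W' (f, b') := by
    simp only [hW2']; rw [unlab _ (memA's f spf b') hle2]
  rw [q1, q2] at hsv
  rw [hRef] at hcount
  rw [hTTR] at hTT2
  have hcount2 : (∑ k ∈ eF G, ∑ l ∈ eF G, zite (k = l) (R k l)) + 2 * Nx (W e) (W f) ≤
      TT (eF G) W + 2 * ∑ b, ∑ b', Nx (W' (e, b)) (W' (f, b')) := hcount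
  show 2 * crossingNumber (plg G e f) + 2 * Nx (W' (e, b)) (W' (f, b')) + 2 * Nx (W e) (W f) ≤
    TT (eF G) W + 2 * ∑ b, ∑ b', Nx (W' (e, b)) (W' (f, b'))
  clear_value R W' W2' A' lab tl' hd' loc'
  omega

end Pool.Agent.H466.AB
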