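import Pool.Agent.H466.AB.Plan

set_option autoImplicit false

/-!
In an optimal drawing two edges cross a bounded number of times.
-/

open Set Classical
open Pool.Agent.Helper770.Crossing Pool.Agent.Helper770.Sep Pool.Agent.NH90.CN
open Pool.Agent.H466.AL

namespace Pool.Agent.H466.AB

/-- going back from a planarised graph -/
theorem unplan_gen {O : Type} [Fintype O] (H T : SimpleGraph O) (o : O) (E F : Sym2 O)
    (hT : ∀ x ∈ T.edgeSet, x ∉ H.edgeSet → x = E ∨ x = F) (hTo : ∀ x ∈ T.edgeSet, o ∉ x)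
    (hE : ∀ v ∈ E, H.Adj v o) (hF : ∀ v ∈ F, H.Adj v o) (hEF : ∀ v, v ∈ E → v ∉ F) :
    crossingNumber T ≤ crossingNumber H + 4 := by
  obtain ⟨D, h1, h2, h3⟩ := exists_good H
  set mid : Sym2 O → O := fun _ => o with hmid
  have hspec : ∀ x ∈ eF T, x ∉ H.edgeSet → x = E ∨ x = F := fun x hx => hT x (DEL.mem_eF.1 hx)
  have hTn : ∀ x ∈ eF T, o ∉ x := fun x hx => hTo x (DEL.mem_eF.1 hx)
  have hr := reroute D mid h1 h2 T (by
    intro x hx hxH v hv
    rcases hspec x hx hxH with rfl | rfl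
    · exact hE v hv
    · exact hF v hv)
  -- the paths
  have hp : ∀ x ∈ eF T, ∀ z ∈ pth H mid x, (x ∈ H.edgeSet ∧ z = x) ∨
      (x ∉ H.edgeSet ∧ ∃ v ∈ x, z = s(v, o)) := by
    intro x hx z hz
    unfold pth at hz
    split_ifs at hz with h
    · exact Or.inl ⟨h, Finset.mem_singleton.1 hz⟩
    · right
      obtain ⟨v, hv, rfl⟩ := Finset.mem_image.1 hz
      exact ⟨h, v, Sym2.mem_toFinset.1 hv, rfl⟩
  have hdis : (↑(eF T) : Set (Sym2 O)).PairwiseDisjoint (pth H mid) := by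
    intro x hx y hy hxy
    rw [Function.onFun, Finset.disjoint_left]
    intro z hz hz'
    have hx := Finset.mem_coe.1 hx
    have hy := Finset.mem_coe.1 hy
    rcases hp x hx z hz with ⟨a1, a2⟩ | ⟨a1, v, a2, a3⟩
    · rcases hp y hy z hz' with ⟨b1, b2⟩ | ⟨b1, w, b2, b3⟩
      · exact hxy (a2.symm.trans b2)
      · apply hTn x hx
        rw [← a2, b3]; simp
    · rcases hp y hy z hz' with ⟨b1, b2⟩ | ⟨b1, w, b2, b3⟩
      · apply hTn y hy
        rw [← b2, a3]; simp
      · have hvw : v = w := by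
          rw [a3] at b3
          rcases Sym2.eq_iff.1 b3 with h | h
          · exact h.1
          · rw [h.1, ← h.2]
        subst hvw
        rcases hspec x hx a1 with rfl | rfl
        · rcases hspec y hy b1 with rfl | rfl
          · exact hxy rfl
          · exact hEF v a2 b2
        · rcases hspec y hy b1 with rfl | rfl
          · exact hEF v b2 a2
          · exact hxy rfl
  have hlcc : ∀ x ∈ eF T, ∀ y ∈ (eF T).erase x, lcc H mid x y ≤
      (if x = E ∧ y = F then 4 else 0) + (if x = F ∧ y = E then 4 else 0) := by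
    intro x hx y hy
    obtain ⟨hyx, hy⟩ := Finset.mem_erase.1 hy
    unfold lcc
    have n1 : ¬ (x ∉ H.edgeSet ∧ mid x ∈ y) := fun h => hTn y hy h.2
    have n2 : ¬ (y ∉ H.edgeSet ∧ mid y ∈ x) := fun h => hTn x hx h.2
    rw [if_neg n1, if_neg n2, zero_add, zero_add]
    by_cases h3 : x ∉ H.edgeSet ∧ y ∉ H.edgeSet ∧ mid x = mid y
    · rcases hspec x hx h3.1 with h6 | h6
      · rcases hspec y hy h3.2.1 with h7 | h7
        · exact absurd (h7.trans h6.symm) hyx
        · rw [if_pos h3, if_pos ⟨h6, h7⟩]; omega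
      · rcases hspec y hy h3.2.1 with h7 | h7
        · rw [if_pos h3, if_pos (c := x = F ∧ y = E) ⟨h6, h7⟩]; omega
        · exact absurd (h7.trans h6.symm) hyx
    · rw [if_neg h3]; exact Nat.zero_le _
  have hsum1 : ∑ x ∈ eF T, ∑ y ∈ (eF T).erase x, lcc H mid x y ≤ 8 := by
    have e1 : ∑ x ∈ eF T, ∑ y ∈ (eF T).erase x, lcc H mid x y ≤
        ∑ x : Sym2 O, ∑ y : Sym2 O,
          ((if x = E ∧ y = F then 4 else 0) + (if x = F ∧ y = E then 4 else 0)) :=
      (Finset.sum_le_sum fun x hx => (Finset.sum_le_sum fun y hy => hlcc x hx y hy).trans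
        (Finset.sum_le_sum_of_subset (Finset.subset_univ _))).trans
        (Finset.sum_le_sum_of_subset (Finset.subset_univ _))
    refine e1.trans (le_of_eq ?_)
    simp only [Finset.sum_add_distrib]
    have e2 : ∀ p q : Sym2 O, ∑ x : Sym2 O, ∑ y : Sym2 O,
        (if x = p ∧ y = q then 4 else 0) = 4 := by
      intro p q
      rw [Finset.sum_eq_single p, Finset.sum_eq_single q]
      · simp
      · intro y _ hy; rw [if_neg (fun h => hy h.2)]
      · intro h; exact absurd (Finset.mem_univ _) h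
      · intro x _ hx
        exact Finset.sum_eq_zero fun y _ => by rw [if_neg (fun h => hx h.1)]
      · intro h; exact absurd (Finset.mem_univ _) h
    rw [e2, e2]
  have hsum2 : ∑ x ∈ eF T, ∑ y ∈ (eF T).erase x, ∑ a ∈ pth H mid x, ∑ b ∈ pth H mid y, DX D a b ≤
      ∑ x : Sym2 O, ∑ y : Sym2 O, DX D x y := by
    calc ∑ x ∈ eF T, ∑ y ∈ (eF T).erase x, ∑ a ∈ pth H mid x, ∑ b ∈ pth H mid y, DX D a b
        ≤ ∑ x ∈ eF T, ∑ y ∈ eF T, ∑ a ∈ pth H mid x, ∑ b ∈ pth H mid y, DX D a b :=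
          Finset.sum_le_sum fun x _ => Finset.sum_le_sum_of_subset (Finset.erase_subset _ _)
      _ = ∑ x ∈ eF T, ∑ a ∈ pth H mid x, ∑ y ∈ eF T, ∑ b ∈ pth H mid y, DX D a b :=
          Finset.sum_congr rfl fun x _ => Finset.sum_comm
      _ = ∑ x ∈ eF T, ∑ a ∈ pth H mid x, ∑ b ∈ (eF T).biUnion (pth H mid), DX D a b := by
          refine Finset.sum_congr rfl fun x _ => Finset.sum_congr rfl fun a _ => ?_
          rw [Finset.sum_biUnion hdis]
      _ = ∑ a ∈ (eF T).biUnion (pth H mid), ∑ b ∈ (eF T).biUnion (pth H mid), DX D a b := by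
          rw [Finset.sum_biUnion hdis]
      _ ≤ ∑ a ∈ (eF T).biUnion (pth H mid), ∑ b : Sym2 O, DX D a b :=
          Finset.sum_le_sum fun x _ => Finset.sum_le_sum_of_subset (Finset.subset_univ _)
      _ ≤ ∑ x : Sym2 O, ∑ y : Sym2 O, DX D x y :=
          Finset.sum_le_sum_of_subset (Finset.subset_univ _)
  have hcst : ∑ x ∈ eF T, ∑ y ∈ (eF T).erase x, cst D mid x y =
      (∑ x ∈ eF T, ∑ y ∈ (eF T).erase x, ∑ a ∈ pth H mid x, ∑ b ∈ pth H mid y, DX D a b) +
      ∑ x ∈ eF T, ∑ y ∈ (eF T).erase x, lcc H mid x y := by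
    rw [← Finset.sum_add_distrib]
    refine Finset.sum_congr rfl fun x _ => ?_
    rw [← Finset.sum_add_distrib]
    rfl
  omega

variable {V : Type} [Fintype V]

/-- going back from the planarised graph -/
theorem unplan {G : SimpleGraph V} (e f : Sym2 V) (hdj : ∀ v, v ∈ e → v ∉ f) :
    crossingNumber G ≤ crossingNumber (plg G e f) + 4 := by
  obtain ⟨T, hT⟩ : ∃ T : SimpleGraph (Option V), ∀ x y, T.Adj x y ↔ ∃ a b, x = some a ∧ y = some b ∧
      G.Adj a b := by
    refine ⟨⟨fun x y => ∃ a b, x = some a ∧ y = some b ∧ G.Adj a b, ⟨?_⟩, ⟨?_⟩⟩, fun x y => Iff.rfl⟩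
    · rintro x y ⟨a, b, h1, h2, h3⟩
      exact ⟨b, a, h2, h1, h3.symm⟩
    · rintro x ⟨a, b, h1, h2, h3⟩
      rw [h1] at h2
      exact h3.ne (Option.some.inj h2)
  have hmono : crossingNumber G ≤ crossingNumber T := by
    refine cr_mono Function.Embedding.some G ?_
    intro x y hxy
    exact (hT _ _).2 ⟨x, y, rfl, rfl, hxy⟩
  refine hmono.trans (unplan_gen (plg G e f) T none (e.map some) (f.map some) ?_ ?_ ?_ ?_ ?_)
  · intro x hx hxH
    induction x with
    | _ x y =>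
      obtain ⟨a, b, rfl, rfl, h3⟩ := (hT x y).1 hx
      by_contra hc
      push Not at hc
      apply hxH
      left
      refine ⟨a, b, rfl, rfl, h3, fun h => hc.1 ?_, fun h => hc.2 ?_⟩
      · rw [← h]; rfl
      · rw [← h]; rfl
  · intro x hx h
    induction x with
    | _ x y =>
      obtain ⟨a, b, rfl, rfl, h3⟩ := (hT x y).1 hx
      rw [Sym2.mem_iff] at h
      rcases h with h | h <;> exact absurd h (by simp)
  · intro v hv
    rw [Sym2.mem_map] at hv
    obtain ⟨a, ha, rfl⟩ := hv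
    exact Or.inr (Or.inr ⟨rfl, a, rfl, Or.inl ha⟩)
  · intro v hv
    rw [Sym2.mem_map] at hv
    obtain ⟨a, ha, rfl⟩ := hv
    exact Or.inr (Or.inr ⟨rfl, a, rfl, Or.inr ha⟩)
  · intro v hv hv'
    rw [Sym2.mem_map] at hv hv'
    obtain ⟨p, hp1, rfl⟩ := hv
    obtain ⟨q, hq1, hq2⟩ := hv'
    rw [Option.some.inj hq2] at hq1
    exact hdj p hp1 hq1

/-- two disjoint edges cross at most 13 times in an optimal drawing -/
theorem pair_le {G : SimpleGraph V} (D : Drawing G) (hfin : D.crossings.Finite)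
    (hopt : 2 * crossingNumber G = ∑ e : Sym2 V, ∑ f : Sym2 V, DX D e f) (e f : Sym2 V)
    (hdj : ∀ v, v ∈ e → v ∉ f) : DX D e f ≤ 13 := by
  by_cases h0 : DX D e f = 0
  · omega
  obtain ⟨hee, hff, hef⟩ := DX_ne h0
  obtain ⟨hd, tl, he⟩ : ∃ hd tl : Sym2 V → V, ∀ e ∈ G.edgeSet, s(hd e, tl e) = e :=
    ⟨fun e => (Quot.out e).1, fun e => (Quot.out e).2, fun e _ => Quot.out_eq e⟩
  obtain ⟨W0, hP0, hL0, hN0⟩ := p_T1 V G D hd tl hfin he
  obtain ⟨φ, hφ, hP1, hO1, hT1, hN1⟩ := p_GP (Sym2 V) (eF G) W0 hP0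
  have hL1 := GOOD.lb_map hL0 hφ
  obtain ⟨W2, hP2, hO2, hT2, hE2, hS2, hN2⟩ := t_SIMP (Sym2 V) (eF G) _ hP1 hO1 hT1
  have hL2 := GOOD.lb_of hL1 hE2
  have hD2 := GOOD.ds_of he hP2 hL2
  have mem : ∀ {e : Sym2 V}, e ∈ G.edgeSet → e ∈ eF G := fun {e} h =>
    Finset.mem_filter.2 ⟨Finset.mem_univ _, h⟩
  have hle : ∀ k ∈ eF G, ∀ l ∈ eF G, k ≠ l → Nx (W2 k) (W2 l) ≤ DX D k l := fun k hk l hl hkl =>
    (hN2 k hk l hl).trans ((hN1 k hk l hl).trans (hN0 k (DEL.mem_eF.1 hk) l (DEL.mem_eF.1 hl) hkl))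
  have c1 := sum_le2 (eF G) e f (mem hee) (mem hff) hef (fun k l => DX D k l)
    (fun k l => zite (k = l) (Nx (W2 k) (W2 l))) (fun k l => DEL.DX_comm D _ _)
    (fun k l => by
      by_cases h : k = l
      · rw [zite_pos h, zite_pos h.symm]
      · rw [zite_neg h, zite_neg (fun h' => h h'.symm)]
        simp only [UNX.Nx_eq]; exact UNX.cc_comm _ _)
    (fun k hk l hl _ _ _ _ => by
      by_cases h : k = l
      · rw [zite_pos h]; exact Nat.zero_le _
      · rw [zite_neg h]; exact hle k hk l hl h)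
    (fun k hk h1 h2 => by
      rw [zite_neg h1, zite_neg h2]
      exact Nat.add_le_add (hle k hk e (mem hee) h1) (hle k hk f (mem hff) h2))
  have c2 : (∑ k ∈ eF G, ∑ l ∈ eF G, @ite ℕ (k = l) (Classical.propDecidable _) 0
      (zite (k = l) (Nx (W2 k) (W2 l)))) = TT (eF G) W2 := by
    rw [TT_zite]
    refine Finset.sum_congr rfl fun k _ => Finset.sum_congr rfl fun l _ => ?_
    by_cases h : k = l
    · rw [if_pos h, zite_pos h]
    · rw [if_neg h]
  rw [c2] at c1
  have c3 : (∑ k ∈ eF G, ∑ l ∈ eF G, @ite ℕ (k = l) (Classical.propDecidable _) 0 (DX D k l)) =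
      2 * crossingNumber G := by
    rw [hopt, GOOD.sumDX]
    refine Finset.sum_congr rfl fun k _ => Finset.sum_congr rfl fun l _ => ?_
    congr
  rw [c3, zite_neg hef] at c1
  obtain ⟨D3, hf3, hD3⟩ := p_T3 V G hd tl _ W2 he hP2 hO2 hL2
  have g1 := (t_CNT V G D3).2 hf3
  have g2 := GOOD.sum_le D3 hD3
  have g3 := GOOD.cr_le D3 hf3
  have g4 : TT (eF G) W2 ≤ 2 * crossingNumber G := by
    rw [hopt]
    exact GOOD.le_sum D fun k hk l hl hkl => hle k (mem hk) l (mem hl) hkl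
  by_cases hN : Nx (W2 e) (W2 f) = 0
  · omega
  obtain ⟨c, q1, q2⟩ := planar he _ W2 hP2 hO2 hT2 hD2 hS2 hL2 e f hee hff hdj hN
  have q3 := unplan (G := G) e f hdj
  have b1 := q2 true true
  have b2 := q2 true false
  have b3 := q2 false true
  have b4 := q2 false false
  simp only [Fintype.sum_bool] at q1 b1 b2 b3 b4
  omega

end Pool.Agent.H466.AB
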