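import Pool.Agent.H466.AB.Sys

set_option autoImplicit false

/-!
Minimal counterexamples have fewer than `4.5 t` vertices (for large `t`).
-/

open Set Classical

namespace Pool.Agent.H466.AB

variable {V : Type} [Fintype V] {G : SimpleGraph V} {w : V → ℝ} {W : ℝ}

theorem Sys.Wpos (h : Sys G w W) : 0 < W := lt_of_lt_of_le (by positivity) h.big

theorem Sys.le_card (h : Sys G w W) : W ≤ Fintype.card V := by
  rw [← h.sum]
  calc ∑ v, w v ≤ ∑ _v : V, (1 : ℝ) := Finset.sum_le_sum fun v _ => h.w1 v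
    _ = _ := by rw [Finset.sum_const, nsmul_eq_mul, Finset.card_univ, mul_one]

theorem uni_aux (h : Sys G w W) (m : ℕ) (h4 : 4 ≤ m) (h200 : m ≤ 200) (x : ℝ)
    (hx : x = Fintype.card V / W) :
    x ^ 3 ≤ 7 * ((m : ℝ) - 2) / ((m : ℝ) * ((m : ℝ) - 1)) * x ^ 4 +
      ((m : ℝ) - 2) * ((m : ℝ) - 3) / 64 + 1 / 10 ^ 5 * x ^ 2 := by
  have hW := h.Wpos
  have h1 := h.c5 m h4 h200 (fun _ => 1) (fun _ => le_rfl) (fun _ => by norm_num)
  simp only [Finset.sum_const, nsmul_eq_mul, mul_one, one_pow, h.sum, Finset.card_univ] at h1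
  set n : ℝ := (Fintype.card V : ℝ) with hn
  have h2 : n * W ≤ ∑ u : V, ((cn G u).card : ℝ) := by
    calc n * W = ∑ _u : V, W := by rw [Finset.sum_const, nsmul_eq_mul, Finset.card_univ]
      _ ≤ _ := Finset.sum_le_sum fun u _ => h.c0 u
  have hn0 : 0 ≤ n := Nat.cast_nonneg _
  have hnx : n = x * W := by rw [hx]; field_simp
  have h3 : n ^ 2 * (n * W) ≤ n ^ 2 * ∑ u : V, ((cn G u).card : ℝ) := by gcongr
  have h4 := h3.trans h1
  rw [hnx] at h4
  have h5 : (x ^ 3) * W ^ 4 ≤ (7 * ((m : ℝ) - 2) / ((m : ℝ) * ((m : ℝ) - 1)) * x ^ 4 +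
      ((m : ℝ) - 2) * ((m : ℝ) - 3) / 64 + 1 / 10 ^ 5 * x ^ 2) * W ^ 4 := by
    calc (x ^ 3) * W ^ 4 = (x * W) ^ 2 * (x * W * W) := by ring
      _ ≤ _ := h4
      _ = _ := by ring
  exact le_of_mul_le_mul_right h5 (by positivity)


theorem uni (h : Sys G w W) (hn : (Fintype.card V : ℝ) ≤ 17 * W) :
    (Fintype.card V : ℝ) < 4.5 * W := by
  have hW := h.Wpos
  by_contra hc
  push Not at hc
  obtain ⟨x, hx⟩ : ∃ x : ℝ, x = Fintype.card V / W := ⟨_, rfl⟩
  have hx1 : 4.5 ≤ x := by rw [hx, le_div_iff₀ hW]; exact hc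
  have hx2 : x ≤ 17 := by rw [hx, div_le_iff₀ hW]; exact hn
  have key := fun m h4 h200 => uni_aux h m h4 h200 x hx
  rcases le_total x 5.1 with h1 | h1
  · have := key 44 (by norm_num) (by norm_num)
    norm_num at this
    nlinarith [mul_nonneg (sub_nonneg.2 hx1) (sub_nonneg.2 h1), mul_nonneg (mul_nonneg (sub_nonneg.2 hx1) (sub_nonneg.2 h1)) (sq_nonneg x), mul_nonneg (mul_nonneg (sub_nonneg.2 hx1) (sub_nonneg.2 h1)) (by linarith : (0:ℝ) ≤ x)]
  rcases le_total x 6 with h2 | h2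
  · have := key 50 (by norm_num) (by norm_num)
    norm_num at this
    nlinarith [mul_nonneg (sub_nonneg.2 h1) (sub_nonneg.2 h2), mul_nonneg (mul_nonneg (sub_nonneg.2 h1) (sub_nonneg.2 h2)) (sq_nonneg x), mul_nonneg (mul_nonneg (sub_nonneg.2 h1) (sub_nonneg.2 h2)) (by linarith : (0:ℝ) ≤ x)]
  rcases le_total x 7.5 with h3 | h3
  · have := key 60 (by norm_num) (by norm_num)
    norm_num at this
    nlinarith [mul_nonneg (sub_nonneg.2 h2) (sub_nonneg.2 h3), mul_nonneg (mul_nonneg (sub_nonneg.2 h2) (sub_nonneg.2 h3)) (sq_nonneg x), mul_nonneg (mul_nonneg (sub_nonneg.2 h2) (sub_nonneg.2 h3)) (by linarith : (0:ℝ) ≤ x)]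
  rcases le_total x 9.5 with h4 | h4
  · have := key 75 (by norm_num) (by norm_num)
    norm_num at this
    nlinarith [mul_nonneg (sub_nonneg.2 h3) (sub_nonneg.2 h4), mul_nonneg (mul_nonneg (sub_nonneg.2 h3) (sub_nonneg.2 h4)) (sq_nonneg x), mul_nonneg (mul_nonneg (sub_nonneg.2 h3) (sub_nonneg.2 h4)) (by linarith : (0:ℝ) ≤ x)]
  rcases le_total x 13 with h5 | h5
  · have := key 100 (by norm_num) (by norm_num)
    norm_num at this
    nlinarith [mul_nonneg (sub_nonneg.2 h4) (sub_nonneg.2 h5), mul_nonneg (mul_nonneg (sub_nonneg.2 h4) (sub_nonneg.2 h5)) (sq_nonneg x), mul_nonneg (mul_nonneg (sub_nonneg.2 h4) (sub_nonneg.2 h5)) (by linarith : (0:ℝ) ≤ x)]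
  · have := key 130 (by norm_num) (by norm_num)
    norm_num at this
    nlinarith [mul_nonneg (sub_nonneg.2 h5) (sub_nonneg.2 hx2), mul_nonneg (mul_nonneg (sub_nonneg.2 h5) (sub_nonneg.2 hx2)) (sq_nonneg x), mul_nonneg (mul_nonneg (sub_nonneg.2 h5) (sub_nonneg.2 hx2)) (by linarith : (0:ℝ) ≤ x)]

end Pool.Agent.H466.AB
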