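import Pool.Agent.H466.AB.Cert2
import Pool.Agent.H466.AB.Tab1
import Pool.Agent.H466.AB.Tab2
import Pool.Agent.H466.AB.Tab3
import Pool.Agent.H466.AB.Tab4
import Pool.Agent.H466.AB.Uni

set_option autoImplicit false

/-!
No minimal counterexample has between `1.59 t` and `4.5 t` vertices.
-/

open Set Classical

namespace Pool.Agent.H466.AB.Crt

variable {V : Type} [Fintype V] {G : SimpleGraph V} {w : V → ℝ} {W : ℝ}

theorem A_lt (i : ℕ) (hi : i < 18) : A i < A (i + 1) := by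
  revert hi; revert i; decide

theorem A_zero : A 0 = 0 := by decide
theorem A_top : A 18 = 240000 := by decide

theorem Q_bd' (i : ℕ) (hi : i ≤ 18) : 240000 ≤ Q i ∧ Q i ≤ 348000 := by
  interval_cases i <;> decide

theorem cell (x : ℝ) (hx0 : 0 ≤ x) (hx1 : x ≤ 240000) :
    ∃ (k : ℕ) (s : ℝ), k < 18 ∧ 0 ≤ s ∧ s ≤ 1 ∧ wh k s = x ∧ (1 ≤ k → (A k : ℝ) < x) := by
  have hex : ∃ k : ℕ, x ≤ (A (k + 1) : ℝ) := ⟨17, by rw [A_top]; exact_mod_cast hx1⟩
  set k := Nat.find hex with hk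
  have h1 : x ≤ (A (k + 1) : ℝ) := Nat.find_spec hex
  have h2 : k < 18 := by
    have : k ≤ 17 := Nat.find_min' hex (by rw [A_top]; exact_mod_cast hx1)
    omega
  have h3 : 1 ≤ k → (A k : ℝ) < x := by
    intro h
    by_contra hc
    push Not at hc
    have : k ≤ k - 1 := Nat.find_min' hex (by
      have e : k - 1 + 1 = k := by omega
      rw [e]; exact hc)
    omega
  have h4 : (A k : ℝ) ≤ x := by
    rcases Nat.eq_zero_or_pos k with h | h
    · rw [h, A_zero]; exact_mod_cast hx0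
    · exact (h3 h).le
  have h5 : (A k : ℝ) < A (k + 1) := by exact_mod_cast A_lt k h2
  have h6 : (0 : ℝ) < A (k + 1) - A k := by linarith
  refine ⟨k, (x - A k) / (A (k + 1) - A k), h2, ?_, ?_, ?_, h3⟩
  · exact div_nonneg (by linarith) h6.le
  · rw [div_le_one h6]; linarith
  · unfold wh lv
    field_simp
    ring

theorem range (h : Sys G w W) (h1 : 1.59 * W ≤ Fintype.card V)
    (h2 : (Fintype.card V : ℝ) < 4.5 * W) : False := by
  have hc : ∀ v, ∃ (k : ℕ) (s : ℝ), k < 18 ∧ 0 ≤ s ∧ s ≤ 1 ∧ wh k s = 240000 * w v ∧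
      (1 ≤ k → (A k : ℝ) < 240000 * w v) := fun v =>
    cell _ (by have := h.w0 v; positivity) (by have := h.w1 v; linarith)
  choose k s hk hs0 hs1 hw hgt using hc
  have hqb : ∀ v, 240000 ≤ qh (k v) (s v) ∧ qh (k v) (s v) ≤ 348000 := by
    intro v
    have h1 := Q_bd' (k v) (by have := hk v; omega)
    have h2 := Q_bd' (k v + 1) (by have := hk v; omega)
    have a1 : (240000 : ℝ) ≤ Q (k v) := by exact_mod_cast h1.1
    have a2 : (Q (k v) : ℝ) ≤ 348000 := by exact_mod_cast h1.2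
    have a3 : (240000 : ℝ) ≤ Q (k v + 1) := by exact_mod_cast h2.1
    have a4 : (Q (k v + 1) : ℝ) ≤ 348000 := by exact_mod_cast h2.2
    unfold qh lv
    have b1 := hs0 v
    have b2 : 0 ≤ 1 - s v := by linarith [hs1 v]
    constructor
    · nlinarith [mul_le_mul_of_nonneg_left a1 b2, mul_le_mul_of_nonneg_left a3 b1]
    · nlinarith [mul_le_mul_of_nonneg_left a2 b2, mul_le_mul_of_nonneg_left a4 b1]
  obtain ⟨S, hS⟩ : ∃ S : ℝ, ∑ v, qh (k v) (s v) = 240000 * S :=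
    ⟨(∑ v, qh (k v) (s v)) / 240000, by ring⟩
  have hS1 : (240000 : ℝ) * Fintype.card V ≤ 240000 * S := by
    rw [← hS]
    calc (240000 : ℝ) * Fintype.card V = ∑ _v : V, (240000 : ℝ) := by
          rw [Finset.sum_const, nsmul_eq_mul, Finset.card_univ]; ring
      _ ≤ _ := Finset.sum_le_sum fun v _ => (hqb v).1
  have hS2 : 240000 * S ≤ 348000 * Fintype.card V := by
    rw [← hS]
    calc ∑ v, qh (k v) (s v) ≤ ∑ _v : V, (348000 : ℝ) := Finset.sum_le_sum fun v _ => (hqb v).2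
      _ = _ := by rw [Finset.sum_const, nsmul_eq_mul, Finset.card_univ]; ring
  have hlo : (381600 : ℤ) * W ≤ 240000 * S := by push_cast; linarith
  have hhi : 240000 * S ≤ (1572000 : ℤ) * W := by push_cast; linarith [h.Wpos]
  have go := fun (d : Dat) (hd : check d = true) => sound d hd h k s hk hs0 hs1 hw hgt S hS
  by_cases c1 : 240000 * S ≤ (d1.Q2 : ℤ) * W
  · exact go d1 d1_ok hlo c1
  by_cases c2 : 240000 * S ≤ (d2.Q2 : ℤ) * W
  · exact go d2 d2_ok (not_le.1 c1).le c2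
  by_cases c3 : 240000 * S ≤ (d3.Q2 : ℤ) * W
  · exact go d3 d3_ok (not_le.1 c2).le c3
  by_cases c4 : 240000 * S ≤ (d4.Q2 : ℤ) * W
  · exact go d4 d4_ok (not_le.1 c3).le c4
  by_cases c5 : 240000 * S ≤ (d5.Q2 : ℤ) * W
  · exact go d5 d5_ok (not_le.1 c4).le c5
  by_cases c6 : 240000 * S ≤ (d6.Q2 : ℤ) * W
  · exact go d6 d6_ok (not_le.1 c5).le c6
  by_cases c7 : 240000 * S ≤ (d7.Q2 : ℤ) * W
  · exact go d7 d7_ok (not_le.1 c6).le c7
  by_cases c8 : 240000 * S ≤ (d8.Q2 : ℤ) * W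
  · exact go d8 d8_ok (not_le.1 c7).le c8
  by_cases c9 : 240000 * S ≤ (d9.Q2 : ℤ) * W
  · exact go d9 d9_ok (not_le.1 c8).le c9
  by_cases c10 : 240000 * S ≤ (d10.Q2 : ℤ) * W
  · exact go d10 d10_ok (not_le.1 c9).le c10
  by_cases c11 : 240000 * S ≤ (d11.Q2 : ℤ) * W
  · exact go d11 d11_ok (not_le.1 c10).le c11
  by_cases c12 : 240000 * S ≤ (d12.Q2 : ℤ) * W
  · exact go d12 d12_ok (not_le.1 c11).le c12
  by_cases c13 : 240000 * S ≤ (d13.Q2 : ℤ) * W
  · exact go d13 d13_ok (not_le.1 c12).le c13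
  by_cases c14 : 240000 * S ≤ (d14.Q2 : ℤ) * W
  · exact go d14 d14_ok (not_le.1 c13).le c14
  · exact go d15 d15_ok (not_le.1 c14).le hhi

end Pool.Agent.H466.AB.Crt
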