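import Pool.Agent.H466.AB.X4
import Pool.Agent.H466.AL.Rer

set_option autoImplicit false

/-!
Subdividing an edge of a drawing near one of its ends.
-/

open Set Classical
open Pool.Agent.Helper770.Crossing Pool.Agent.NH90.CN
open Pool.Agent.H466.AL

namespace Pool.Agent.H466.AB

variable {V : Type} {G : SimpleGraph V}

/-- subdividing the edge `vu` -/
def sdv (G : SimpleGraph V) (v u : V) : SimpleGraph (Option V) where
  Adj x y := (∃ a b, x = some a ∧ y = some b ∧ G.Adj a b ∧ s(a, b) ≠ s(v, u)) ∨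
    (x = none ∧ (y = some v ∨ y = some u)) ∨ (y = none ∧ (x = some v ∨ x = some u))
  symm := ⟨fun x y h => by
    rcases h with ⟨a, b, h1, h2, h3, h4⟩ | h | h
    · exact Or.inl ⟨b, a, h2, h1, h3.symm, by rw [Sym2.eq_swap]; exact h4⟩
    · exact Or.inr (Or.inr h)
    · exact Or.inr (Or.inl h)⟩
  loopless := ⟨fun x h => by
    rcases h with ⟨a, b, h1, h2, h3, h4⟩ | h | h
    · rw [h1] at h2
      exact h3.ne (Option.some_injective V h2)
    · rw [h.1] at h
      rcases h.2 with h | h <;> exact absurd h (by simp)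
    · rw [h.1] at h
      rcases h.2 with h | h <;> exact absurd h (by simp)⟩

theorem mem_sdv {v u : V} {e : Sym2 (Option V)} : e ∈ (sdv G v u).edgeSet ↔
    (∃ x ∈ G.edgeSet, x ≠ s(v, u) ∧ e = toC x) ∨ e = arm v ∨ e = arm u := by
  induction e using Sym2.ind with
  | _ x y =>
    rw [SimpleGraph.mem_edgeSet]
    constructor
    · rintro (⟨a, b, h1, h2, h3, h4⟩ | ⟨h1, h2 | h2⟩ | ⟨h1, h2 | h2⟩)
      · exact Or.inl ⟨s(a, b), h3, h4, by rw [h1, h2]; rfl⟩
      · rw [h1, h2]; exact Or.inr (Or.inl rfl)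
      · rw [h1, h2]; exact Or.inr (Or.inr rfl)
      · rw [h1, h2]; exact Or.inr (Or.inl Sym2.eq_swap)
      · rw [h1, h2]; exact Or.inr (Or.inr Sym2.eq_swap)
    · rintro (⟨z, h1, h2, h3⟩ | h | h)
      · induction z using Sym2.ind with
        | _ a b =>
          unfold toC at h3
          rw [Sym2.map_mk, Sym2.eq_iff] at h3
          rcases h3 with ⟨h3, h4⟩ | ⟨h3, h4⟩
          · exact Or.inl ⟨a, b, h3, h4, h1, h2⟩
          · exact Or.inl ⟨b, a, h3, h4, (show G.Adj a b from h1).symm, by rw [Sym2.eq_swap]; exact h2⟩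
      · unfold arm at h
        rw [Sym2.eq_iff] at h
        rcases h with ⟨h3, h4⟩ | ⟨h3, h4⟩
        · exact Or.inr (Or.inl ⟨h3, Or.inl h4⟩)
        · exact Or.inr (Or.inr ⟨h4, Or.inl h3⟩)
      · unfold arm at h
        rw [Sym2.eq_iff] at h
        rcases h with ⟨h3, h4⟩ | ⟨h3, h4⟩
        · exact Or.inr (Or.inl ⟨h3, Or.inr h4⟩)
        · exact Or.inr (Or.inr ⟨h4, Or.inr h3⟩)

/-- identifying the new vertex with `v` -/
def psi (v : V) (x : Sym2 (Option V)) : Sym2 V := x.map (fun o => o.getD v)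

theorem psi_toC (v : V) (x : Sym2 V) : psi v (toC x) = x := by
  induction x using Sym2.ind with
  | _ a b => rfl

theorem psi_arm (v w : V) : psi v (arm w) = s(v, w) := rfl

/-- the arcs of the subdivided drawing -/
noncomputable def sarc (D : Drawing G) (v u : V) (β : ℝ → ℂ) (δ : ℝ) (x : Sym2 (Option V)) :
    ℝ → ℂ :=
  if x = arm v then fun r => β (δ * r) else
    if x = arm u then fun r => β (δ + (1 - δ) * r) else D.arc (psi v x)

variable (D : Drawing G) {v u : V} {β : ℝ → ℂ} {δ : ℝ}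

theorem sarc_toC (x : Sym2 V) : sarc D v u β δ (toC x) = D.arc x := by
  unfold sarc
  rw [if_neg (CNC.toC_ne_arm x v), if_neg (CNC.toC_ne_arm x u), psi_toC]

theorem sarc_v : sarc D v u β δ (arm v) = fun r => β (δ * r) := by
  unfold sarc; rw [if_pos rfl]

theorem sarc_u (huv : u ≠ v) : sarc D v u β δ (arm u) = fun r => β (δ + (1 - δ) * r) := by
  unfold sarc; rw [if_neg (fun h => huv (CNC.arm_injective h)), if_pos rfl]

theorem arm_v_Ioo (hδ0 : 0 < δ) {z : ℂ} (hz : z ∈ (fun r => β (δ * r)) '' Ioo (0 : ℝ) 1) :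
    ∃ r, 0 < r ∧ r < δ ∧ β r = z := by
  obtain ⟨r, ⟨h1, h2⟩, rfl⟩ := hz
  exact ⟨δ * r, mul_pos hδ0 h1, by nlinarith, rfl⟩

theorem arm_u_Ioo (hδ1 : δ < 1) {z : ℂ} (hz : z ∈ (fun r => β (δ + (1 - δ) * r)) '' Ioo (0 : ℝ) 1) :
    ∃ r, δ < r ∧ r < 1 ∧ β r = z := by
  obtain ⟨r, ⟨h1, h2⟩, rfl⟩ := hz
  refine ⟨δ + (1 - δ) * r, ?_, ?_, rfl⟩ <;> nlinarith

/-- the subdivided drawing -/
noncomputable def sdr (huv : u ≠ v) (hadj : G.Adj v u) (hβc : ContinuousOn β (Icc 0 1))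
    (hβi : InjOn β (Icc 0 1)) (h0 : β 0 = D.pos v) (h1 : β 1 = D.pos u)
    (him : β '' Ioo (0 : ℝ) 1 = D.arc s(v, u) '' Ioo (0 : ℝ) 1) (hδ0 : 0 < δ) (hδ1 : δ < 1)
    (hδ : ∀ f ∈ G.edgeSet, f ≠ s(v, u) → β δ ∉ D.arc f '' Ioo (0 : ℝ) 1) :
    Drawing (sdv G v u) where
  pos o := o.elim (β δ) D.pos
  pos_injective := by
    have key : ∀ a, β δ ≠ D.pos a := by
      intro a h
      have h2 : β δ ∈ D.arc s(v, u) '' Ioo (0 : ℝ) 1 := by
        rw [← him]; exact ⟨δ, ⟨hδ0, hδ1⟩, rfl⟩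
      obtain ⟨r, hr, hr'⟩ := h2
      exact D.arc_avoids _ hadj r hr a (hr'.trans h)
    intro x y hxy
    cases x with
    | none =>
      cases y with
      | none => rfl
      | some b => exact absurd hxy (key b)
    | some a =>
      cases y with
      | none => exact absurd hxy.symm (key a)
      | some b => exact congrArg some (D.pos_injective hxy)
  arc := sarc D v u β δ
  arc_continuousOn := by
    intro e he
    rcases mem_sdv.1 he with ⟨x, hx, -, rfl⟩ | rfl | rfl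
    · rw [sarc_toC]; exact D.arc_continuousOn x hx
    · rw [sarc_v]
      refine hβc.comp (by fun_prop) ?_
      intro r hr
      exact ⟨mul_nonneg hδ0.le hr.1, by nlinarith [hr.1, hr.2]⟩
    · rw [sarc_u D huv]
      refine hβc.comp (by fun_prop) ?_
      intro r hr
      constructor <;> nlinarith [hr.1, hr.2]
  arc_injOn := by
    intro e he
    rcases mem_sdv.1 he with ⟨x, hx, -, rfl⟩ | rfl | rfl
    · rw [sarc_toC]; exact D.arc_injOn x hx
    · rw [sarc_v]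
      intro r hr r' hr' h
      have h2 := hβi (show δ * r ∈ Icc (0 : ℝ) 1 from ⟨mul_nonneg hδ0.le hr.1, by nlinarith [hr.1, hr.2]⟩)
        (show δ * r' ∈ Icc (0 : ℝ) 1 from ⟨mul_nonneg hδ0.le hr'.1, by nlinarith [hr'.1, hr'.2]⟩) h
      exact mul_left_cancel₀ hδ0.ne' h2
    · rw [sarc_u D huv]
      intro r hr r' hr' h
      have h2 := hβi (show δ + (1 - δ) * r ∈ Icc (0 : ℝ) 1 from by
          constructor <;> nlinarith [hr.1, hr.2])
        (show δ + (1 - δ) * r' ∈ Icc (0 : ℝ) 1 from by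
          constructor <;> nlinarith [hr'.1, hr'.2]) h
      exact mul_left_cancel₀ (show (1 - δ) ≠ 0 by linarith) (by linarith : (1 - δ) * r = (1 - δ) * r')
  arc_ends := by
    intro x y hxy
    rcases hxy with ⟨a, b, rfl, rfl, h3, h4⟩ | ⟨rfl, rfl | rfl⟩ | ⟨rfl, rfl | rfl⟩
    · have : s(some a, some b) = toC s(a, b) := rfl
      rw [this, sarc_toC]
      exact D.arc_ends a b h3
    · right
      have : s(none, some v) = arm v := rfl
      rw [this, sarc_v]
      simp [h0]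
    · left
      have : s(none, some u) = arm u := rfl
      rw [this, sarc_u D huv]
      simp [h1]
    · left
      have : s(some v, none) = arm v := Sym2.eq_swap
      rw [this, sarc_v]
      simp [h0]
    · right
      have : s(some u, none) = arm u := Sym2.eq_swap
      rw [this, sarc_u D huv]
      simp [h1]
  arc_avoids := by
    have key : ∀ r, 0 < r → r < 1 → ∀ a, β r ≠ D.pos a := by
      intro r hr0 hr1 a h
      have h2 : β r ∈ D.arc s(v, u) '' Ioo (0 : ℝ) 1 := by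
        rw [← him]; exact ⟨r, ⟨hr0, hr1⟩, rfl⟩
      obtain ⟨r', hr, hr'⟩ := h2
      exact D.arc_avoids _ hadj r' hr a (hr'.trans h)
    have key2 : ∀ r, 0 < r → r < 1 → r ≠ δ → β r ≠ β δ := by
      intro r hr0 hr1 hne h
      exact hne (hβi ⟨hr0.le, hr1.le⟩ ⟨hδ0.le, hδ1.le⟩ h)
    intro e he r hr w
    rcases mem_sdv.1 he with ⟨x, hx, hx', rfl⟩ | rfl | rfl
    · rw [sarc_toC]
      cases w with
      | none => exact fun h => hδ x hx hx' ⟨r, hr, h⟩
      | some w => exact D.arc_avoids x hx r hr w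
    · rw [sarc_v]
      have g1 : 0 < δ * r := mul_pos hδ0 hr.1
      have g2 : δ * r < δ := by nlinarith [hr.2]
      cases w with
      | none => exact key2 _ g1 (by linarith) g2.ne
      | some w => exact key _ g1 (by linarith) w
    · rw [sarc_u D huv]
      have g1 : δ < δ + (1 - δ) * r := by nlinarith [hr.1]
      have g2 : δ + (1 - δ) * r < 1 := by nlinarith [hr.2]
      cases w with
      | none => exact key2 _ (by linarith) g2 g1.ne'
      | some w => exact key _ (by linarith) g2 w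

theorem exists_beta (hadj : G.Adj v u) : ∃ β : ℝ → ℂ, ContinuousOn β (Icc 0 1) ∧
    InjOn β (Icc 0 1) ∧ β 0 = D.pos v ∧ β 1 = D.pos u ∧
    β '' Ioo (0 : ℝ) 1 = D.arc s(v, u) '' Ioo (0 : ℝ) 1 := by
  have hmem : s(v, u) ∈ G.edgeSet := hadj
  rcases D.arc_ends v u hadj with ⟨h0, h1⟩ | ⟨h0, h1⟩
  · exact ⟨D.arc s(v, u), D.arc_continuousOn _ hmem, D.arc_injOn _ hmem, h0, h1, rfl⟩
  · refine ⟨fun r => D.arc s(v, u) (1 - r), ?_, ?_, ?_, ?_, ?_⟩
    · refine (D.arc_continuousOn _ hmem).comp (by fun_prop) ?_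
      intro r hr
      exact ⟨by linarith [hr.2], by linarith [hr.1]⟩
    · intro r hr r' hr' h
      have h2 := D.arc_injOn _ hmem (show 1 - r ∈ Icc (0 : ℝ) 1 from
          ⟨by linarith [hr.2], by linarith [hr.1]⟩)
        (show 1 - r' ∈ Icc (0 : ℝ) 1 from ⟨by linarith [hr'.2], by linarith [hr'.1]⟩) h
      linarith
    · simp [h1]
    · simp [h0]
    · ext z
      constructor
      · rintro ⟨r, ⟨hr0, hr1⟩, rfl⟩
        exact ⟨1 - r, ⟨by linarith, by linarith⟩, rfl⟩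
      · rintro ⟨r, ⟨hr0, hr1⟩, rfl⟩
        exact ⟨1 - r, ⟨by linarith, by linarith⟩, by simp⟩

theorem exists_sdr [Fintype V] (hfin : D.crossings.Finite) (hg : Good D) (hadj : G.Adj v u) :
    ∃ D' : Drawing (sdv G v u), D'.crossings.Finite ∧ Good D' ∧
      (∀ f, DX D' (arm v) f = 0) ∧ ∀ e f, DX D' e f ≤ DX D (psi v e) (psi v f) := by
  obtain ⟨β, hβc, hβi, h0, h1, him⟩ := exists_beta D hadj
  have huv : u ≠ v := hadj.ne'
  have hfin' := (t_CNT V G D).1.1 hfin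
  have hmem : s(v, u) ∈ G.edgeSet := hadj
  -- the crossings on the edge
  set T : Set ℝ := {r | r ∈ Ioo (0 : ℝ) 1 ∧ ∃ f ∈ G.edgeSet, f ≠ s(v, u) ∧
    β r ∈ D.arc f '' Ioo (0 : ℝ) 1} with hT
  have hTfin : T.Finite := by
    have h2 : (β '' T).Finite := by
      have h3 : β '' T ⊆ ⋃ f : Sym2 V, {z | f ∈ G.edgeSet ∧ f ≠ s(v, u) ∧
          z ∈ D.arc s(v, u) '' Ioo (0 : ℝ) 1 ∩ D.arc f '' Ioo (0 : ℝ) 1} := by
        rintro _ ⟨r, ⟨hr, f, hf, hf', hz⟩, rfl⟩
        rw [mem_iUnion]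
        refine ⟨f, hf, hf', ?_, hz⟩
        rw [← him]
        exact ⟨r, hr, rfl⟩
      refine (Set.finite_iUnion fun f => ?_).subset h3
      by_cases hf : f ∈ G.edgeSet ∧ f ≠ s(v, u)
      · exact (hfin' _ hmem f hf.1 hf.2.symm).subset fun z hz => hz.2.2
      · convert Set.finite_empty
        ext z
        simp only [mem_setOf_eq, mem_empty_iff_false, iff_false]
        exact fun hz => hf ⟨hz.1, hz.2.1⟩
    refine h2.of_finite_image ?_
    have hTI : T ⊆ Icc (0 : ℝ) 1 := fun r hr => ⟨hr.1.1.le, hr.1.2.le⟩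
    exact hβi.mono hTI
  obtain ⟨δ, hδ0, hδ1, hδT⟩ : ∃ δ : ℝ, 0 < δ ∧ δ < 1 ∧ ∀ r ∈ T, δ < r := by
    have h2 : ∀ᶠ δ : ℝ in nhdsWithin 0 (Ioi 0), ∀ r ∈ T, δ < r := by
      rw [Filter.eventually_all_finite hTfin]
      intro r hr
      exact nhdsWithin_le_nhds (gt_mem_nhds hr.1.1)
    have h3 : ∀ᶠ δ : ℝ in nhdsWithin 0 (Ioi 0), δ < 1 :=
      nhdsWithin_le_nhds (gt_mem_nhds one_pos)
    obtain ⟨δ, h4, h5, h6⟩ := (h2.and (h3.and self_mem_nhdsWithin)).exists
    exact ⟨δ, h6, h5, h4⟩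
  have hδ : ∀ f ∈ G.edgeSet, f ≠ s(v, u) → ∀ r, 0 < r → r ≤ δ →
      β r ∉ D.arc f '' Ioo (0 : ℝ) 1 := by
    intro f hf hf' r hr0 hr1 hz
    have := hδT r ⟨⟨hr0, by linarith⟩, f, hf, hf', hz⟩
    linarith
  set D' := sdr D huv hadj hβc hβi h0 h1 him hδ0 hδ1
    (fun f hf hf' => hδ f hf hf' δ hδ0 le_rfl) with hD'
  have harc : ∀ x, D'.arc x = sarc D v u β δ x := fun _ => rfl
  -- the interior of the short arc
  have hshort : ∀ f ∈ (sdv G v u).edgeSet, f ≠ arm v →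
      D'.arc (arm v) '' Ioo (0 : ℝ) 1 ∩ D'.arc f '' Ioo (0 : ℝ) 1 = ∅ := by
    intro f hf hfv
    rw [Set.eq_empty_iff_forall_notMem]
    rintro z ⟨hz1, hz2⟩
    rw [harc, sarc_v] at hz1
    obtain ⟨r, hr0, hr1, rfl⟩ := arm_v_Ioo hδ0 hz1
    rcases mem_sdv.1 hf with ⟨x, hx, hx', rfl⟩ | rfl | rfl
    · rw [harc, sarc_toC] at hz2
      exact hδ x hx hx' r hr0 hr1.le hz2
    · exact hfv rfl
    · rw [harc, sarc_u D huv] at hz2
      obtain ⟨r', hr0', hr1', h⟩ := arm_u_Ioo hδ1 hz2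
      have := hβi (show r' ∈ Icc (0 : ℝ) 1 from ⟨by linarith, hr1'.le⟩)
        (show r ∈ Icc (0 : ℝ) 1 from ⟨hr0.le, by linarith⟩) h
      linarith
  have hsub : ∀ f ∈ (sdv G v u).edgeSet, f ≠ arm v → psi v f ∈ G.edgeSet ∧
      D'.arc f '' Ioo (0 : ℝ) 1 ⊆ D.arc (psi v f) '' Ioo (0 : ℝ) 1 := by
    intro f hf hfv
    rcases mem_sdv.1 hf with ⟨x, hx, hx', rfl⟩ | rfl | rfl
    · rw [harc, sarc_toC, psi_toC]; exact ⟨hx, Subset.rfl⟩
    · exact absurd rfl hfv
    · rw [harc, sarc_u D huv, psi_arm]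
      refine ⟨hmem, ?_⟩
      intro z hz
      obtain ⟨r', hr0', hr1', rfl⟩ := arm_u_Ioo hδ1 hz
      rw [← him]
      exact ⟨r', ⟨by linarith, hr1'⟩, rfl⟩
  have hpsi : ∀ e ∈ (sdv G v u).edgeSet, ∀ f ∈ (sdv G v u).edgeSet, e ≠ arm v → f ≠ arm v →
      e ≠ f → psi v e ≠ psi v f := by
    intro e he f hf hev hfv hef h
    rcases mem_sdv.1 he with ⟨x, hx, hx', rfl⟩ | rfl | rfl
    · rcases mem_sdv.1 hf with ⟨y, hy, hy', rfl⟩ | rfl | rfl
      · rw [psi_toC, psi_toC] at h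
        exact hef (by rw [h])
      · exact hfv rfl
      · rw [psi_toC, psi_arm] at h
        exact hx' h
    · exact hev rfl
    · rcases mem_sdv.1 hf with ⟨y, hy, hy', rfl⟩ | rfl | rfl
      · rw [psi_toC, psi_arm] at h
        exact hy' h.symm
      · exact hfv rfl
      · exact hef rfl
  have hfin2 : ∀ e ∈ (sdv G v u).edgeSet, ∀ f ∈ (sdv G v u).edgeSet, e ≠ f →
      (D'.arc e '' Ioo (0 : ℝ) 1 ∩ D'.arc f '' Ioo (0 : ℝ) 1).Finite := by
    intro e he f hf hef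
    by_cases hev : e = arm v
    · rw [hev, hshort f hf (fun h => hef (hev.trans h.symm))]
      exact Set.finite_empty
    by_cases hfv : f = arm v
    · rw [Set.inter_comm, hfv, hshort e he hev]
      exact Set.finite_empty
    obtain ⟨a1, a2⟩ := hsub e he hev
    obtain ⟨b1, b2⟩ := hsub f hf hfv
    exact (hfin' _ a1 _ b1 (hpsi e he f hf hev hfv hef)).subset (Set.inter_subset_inter a2 b2)
  have hz : ∀ f, DX D' (arm v) f = 0 := by
    intro f
    unfold DX
    by_cases h : arm v ∈ (sdv G v u).edgeSet ∧ f ∈ (sdv G v u).edgeSet ∧ arm v ≠ f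
    · rw [if_pos h, hshort f h.2.1 (Ne.symm h.2.2), Set.ncard_empty]
    · rw [if_neg h]
  refine ⟨D', (t_CNT _ _ D').1.2 hfin2, ?_, hz, ?_⟩
  · intro e he f hf hef w hwe hwf
    by_cases hev : e = arm v
    · rw [hev, hshort f hf (fun h => hef (hev.trans h.symm))]
    by_cases hfv : f = arm v
    · rw [Set.inter_comm, hfv, hshort e he hev]
    obtain ⟨a1, a2⟩ := hsub e he hev
    obtain ⟨b1, b2⟩ := hsub f hf hfv
    rw [Set.eq_empty_iff_forall_notMem]
    intro z hz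
    have h2 := Set.inter_subset_inter a2 b2 hz
    rw [hg _ a1 _ b1 (hpsi e he f hf hev hfv hef) (w.getD v)
      (Sym2.mem_map.2 ⟨w, hwe, rfl⟩) (Sym2.mem_map.2 ⟨w, hwf, rfl⟩)] at h2
    exact h2
  · intro e f
    by_cases h : e ∈ (sdv G v u).edgeSet ∧ f ∈ (sdv G v u).edgeSet ∧ e ≠ f
    · by_cases hev : e = arm v
      · rw [hev, hz]; exact Nat.zero_le _
      by_cases hfv : f = arm v
      · rw [hfv, DEL.DX_comm, hz]; exact Nat.zero_le _
      obtain ⟨a1, a2⟩ := hsub e h.1 hev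
      obtain ⟨b1, b2⟩ := hsub f h.2.1 hfv
      have h3 := hpsi e h.1 f h.2.1 hev hfv h.2.2
      unfold DX
      rw [if_pos h, if_pos ⟨a1, b1, h3⟩]
      exact Set.ncard_le_ncard (Set.inter_subset_inter a2 b2) (hfin' _ a1 _ b1 h3)
    · have : DX D' e f = 0 := by unfold DX; rw [if_neg h]
      rw [this]; exact Nat.zero_le _

end Pool.Agent.H466.AB
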