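import Pool.Agent.H466.AB.X4
import Pool.Agent.H466.AL.OnePl

set_option autoImplicit false

/-!
Weighted sampling with replacement.
-/

open Set Classical
open Pool.Agent.Helper770.Crossing Pool.Agent.NH90.CN
open Pool.Agent.H466.AL

namespace Pool.Agent.H466.AB

section marg

variable {V : Type} [Fintype V]

theorem prod_sum_const {C : Type} [Fintype C] [DecidableEq C] (q : V → ℝ) :
    ∑ χ : C → V, ∏ c : C, q (χ c) = (∑ v, q v) ^ Fintype.card C := by
  have h := Finset.prod_univ_sum (fun _ : C => (Finset.univ : Finset V)) (fun _ v => q v)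
  rw [Fintype.piFinset_univ] at h
  rw [← h, Finset.prod_const, Finset.card_univ]

/-- marginals of a product measure -/
theorem marg {A B : Type} [Fintype A] [Fintype B] [DecidableEq A] [DecidableEq B] (p : A → B) (hp : Function.Injective p)
    (q : V → ℝ) (h : (A → V) → ℝ) :
    ∑ φ : B → V, (∏ x, q (φ x)) * h (fun a => φ (p a)) =
      (∑ v, q v) ^ (Fintype.card B - Fintype.card A) * ∑ ψ : A → V, (∏ y, q (ψ y)) * h ψ := by
  let e : A ⊕ {x // ¬ x ∈ Set.range p} ≃ B :=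
    (Equiv.sumCongr (Equiv.ofInjective p hp) (Equiv.refl _)).trans (Equiv.sumCompl (· ∈ Set.range p))
  have he1 : ∀ a, e (Sum.inl a) = p a := fun a => rfl
  have he2 : ∀ a, e.symm (p a) = Sum.inl a := fun a => by rw [← he1, Equiv.symm_apply_apply]
  have hcard : Fintype.card {x // ¬ x ∈ Set.range p} = Fintype.card B - Fintype.card A := by
    have := Fintype.card_congr e
    rw [Fintype.card_sum] at this
    omega
  rw [← (Equiv.arrowCongr e (Equiv.refl V)).sum_comp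
    (fun φ : B → V => (∏ x, q (φ x)) * h (fun a => φ (p a))),
    ← (Equiv.sumArrowEquivProdArrow A {x // ¬ x ∈ Set.range p} V).symm.sum_comp, Fintype.sum_prod_type]
  have key : ∀ (ψ : A → V) (χ : {x // ¬ x ∈ Set.range p} → V),
      (∏ x, q (((Equiv.arrowCongr e (Equiv.refl V))
        ((Equiv.sumArrowEquivProdArrow A {x // ¬ x ∈ Set.range p} V).symm (ψ, χ))) x)) *
        h (fun a => ((Equiv.arrowCongr e (Equiv.refl V))
          ((Equiv.sumArrowEquivProdArrow A {x // ¬ x ∈ Set.range p} V).symm (ψ, χ))) (p a)) =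
      (∏ c, q (χ c)) * ((∏ y, q (ψ y)) * h ψ) := by
    intro ψ χ
    have h1 : (fun a => ((Equiv.arrowCongr e (Equiv.refl V))
          ((Equiv.sumArrowEquivProdArrow A {x // ¬ x ∈ Set.range p} V).symm (ψ, χ))) (p a)) = ψ := by
      funext a
      simp only [Equiv.arrowCongr_apply, Function.comp_apply, he2]
      rfl
    have h2 : (∏ x, q (((Equiv.arrowCongr e (Equiv.refl V))
        ((Equiv.sumArrowEquivProdArrow A {x // ¬ x ∈ Set.range p} V).symm (ψ, χ))) x)) =
        (∏ c, q (χ c)) * (∏ y, q (ψ y)) := by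
      rw [← e.prod_comp, Fintype.prod_sum_type, mul_comm]
      congr 1
      · refine Finset.prod_congr rfl fun c _ => ?_
        simp only [Equiv.arrowCongr_apply, Function.comp_apply, Equiv.symm_apply_apply]
        rfl
      · refine Finset.prod_congr rfl fun c _ => ?_
        simp only [Equiv.arrowCongr_apply, Function.comp_apply, Equiv.symm_apply_apply]
        rfl
    rw [h1, h2]
    ring
  rw [Finset.sum_congr rfl fun ψ _ => Finset.sum_congr rfl fun χ _ => key ψ χ]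
  simp only [← Finset.sum_mul]
  rw [← Finset.mul_sum, prod_sum_const, hcard]

theorem sum_fin_succ {n : ℕ} (F : (Fin (n + 1) → V) → ℝ) :
    ∑ ψ : Fin (n + 1) → V, F ψ = ∑ a : V, ∑ ψ : Fin n → V, F (Fin.cons a ψ) := by
  rw [← (Fin.consEquiv (fun _ => V)).sum_comp, Fintype.sum_prod_type]
  rfl

theorem sum_fin2 (F : (Fin 2 → V) → ℝ) : ∑ ψ : Fin 2 → V, F ψ = ∑ a : V, ∑ b : V, F ![a, b] := by
  rw [sum_fin_succ]
  refine Finset.sum_congr rfl fun a _ => ?_
  rw [sum_fin_succ]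
  refine Finset.sum_congr rfl fun b _ => ?_
  rw [Fintype.sum_unique]
  congr 1

theorem sum_fin4 (F : (Fin 4 → V) → ℝ) : ∑ ψ : Fin 4 → V, F ψ =
    ∑ a : V, ∑ b : V, ∑ c : V, ∑ d : V, F ![a, b, c, d] := by
  rw [sum_fin_succ]
  refine Finset.sum_congr rfl fun a _ => ?_
  rw [sum_fin_succ]
  refine Finset.sum_congr rfl fun b _ => ?_
  rw [sum_fin_succ]
  refine Finset.sum_congr rfl fun c _ => ?_
  rw [sum_fin_succ]
  refine Finset.sum_congr rfl fun d _ => ?_
  rw [Fintype.sum_unique]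
  congr 1

theorem marg2 {m : ℕ} (i j : Fin m) (hij : i ≠ j) (q : V → ℝ) (h : V → V → ℝ) :
    ∑ φ : Fin m → V, (∏ x, q (φ x)) * h (φ i) (φ j) =
      (∑ v, q v) ^ (m - 2) * ∑ a, ∑ b, q a * q b * h a b := by
  have hp : Function.Injective (![i, j] : Fin 2 → Fin m) := by
    intro x y hxy
    fin_cases x <;> fin_cases y <;> simp_all
  have h1 := marg (![i, j]) hp q (fun ψ => h (ψ 0) (ψ 1))
  simp only [Fintype.card_fin] at h1
  rw [sum_fin2] at h1
  simp only [Fin.prod_univ_two, Matrix.cons_val_zero, Matrix.cons_val_one] at h1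
  exact h1

theorem marg4 {m : ℕ} (i j k l : Fin m) (h1 : i ≠ j) (h2 : i ≠ k) (h3 : i ≠ l) (h4 : j ≠ k)
    (h5 : j ≠ l) (h6 : k ≠ l) (q : V → ℝ) (h : V → V → V → V → ℝ) :
    ∑ φ : Fin m → V, (∏ x, q (φ x)) * h (φ i) (φ j) (φ k) (φ l) =
      (∑ v, q v) ^ (m - 4) * ∑ a, ∑ b, ∑ c, ∑ d, q a * q b * q c * q d * h a b c d := by
  have hp : Function.Injective (![i, j, k, l] : Fin 4 → Fin m) := by
    intro x y hxy
    fin_cases x <;> fin_cases y <;> simp_all
  have h1 := marg (![i, j, k, l]) hp q (fun ψ => h (ψ 0) (ψ 1) (ψ 2) (ψ 3))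
  simp only [Fintype.card_fin] at h1
  rw [sum_fin4] at h1
  simp only [Fin.prod_univ_four] at h1
  exact h1

end marg

variable {V : Type} [Fintype V]

/-- number of adjacent ordered pairs in a sample -/
noncomputable def smA (G : SimpleGraph V) {m : ℕ} (φ : Fin m → V) : ℝ :=
  ∑ i : Fin m, ∑ j : Fin m, if G.Adj (φ i) (φ j) then (1 : ℝ) else 0

/-- number of crossings in a sample -/
noncomputable def smX {G : SimpleGraph V} (D : Drawing G) {m : ℕ} (φ : Fin m → V) : ℝ :=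
  ∑ i : Fin m, ∑ j : Fin m, ∑ k : Fin m, ∑ l : Fin m, (X4 D (φ i) (φ j) (φ k) (φ l) : ℝ)

/-- number of coincidences -/
noncomputable def smC {m : ℕ} (φ : Fin m → V) : ℝ :=
  ∑ i : Fin m, ∑ j : Fin m, if i ≠ j ∧ φ i = φ j then (1 : ℝ) else 0

theorem smC_nonneg {m : ℕ} (φ : Fin m → V) : 0 ≤ smC φ :=
  Finset.sum_nonneg fun _ _ => Finset.sum_nonneg fun _ _ => by split_ifs <;> norm_num

theorem smX_nonneg {G : SimpleGraph V} (D : Drawing G) {m : ℕ} (φ : Fin m → V) : 0 ≤ smX D φ :=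
  Finset.sum_nonneg fun _ _ => Finset.sum_nonneg fun _ _ => Finset.sum_nonneg fun _ _ =>
    Finset.sum_nonneg fun _ _ => Nat.cast_nonneg _

theorem sm_point {G : SimpleGraph V} (D : Drawing G) (hfin : D.crossings.Finite) {m : ℕ}
    (hm : 3 ≤ m) (φ : Fin m → V) :
    8 * (smA G φ - 7 * ((m : ℝ) - 2)) ≤ smX D φ + 8 * (m : ℝ) ^ 2 * smC φ := by
  by_cases hφ : Function.Injective φ
  · have h1 := cr_emb D hfin ⟨φ, hφ⟩
    have h2 := cr_ge (G.comap (⟨φ, hφ⟩ : Fin m ↪ V)) (by rw [Fintype.card_fin]; exact hm)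
    rw [Fintype.card_fin] at h2
    have h3 : smA G φ = 2 * ((eF (G.comap (⟨φ, hφ⟩ : Fin m ↪ V))).card : ℝ) := by
      have h4 := sum_pairs_eq (V := Fin m)
        (fun e => if e ∈ (G.comap (⟨φ, hφ⟩ : Fin m ↪ V)).edgeSet then 1 else 0) (fun e he => by
          rw [if_neg]
          intro h
          exact (G.comap (⟨φ, hφ⟩ : Fin m ↪ V)).not_isDiag_of_mem_edgeSet h he)
      have h5 : ∑ e : Sym2 (Fin m), (if e ∈ (G.comap (⟨φ, hφ⟩ : Fin m ↪ V)).edgeSet then 1 else 0) =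
          (eF (G.comap (⟨φ, hφ⟩ : Fin m ↪ V))).card := by
        rw [← Finset.sum_filter, Finset.sum_const, smul_eq_mul, mul_one]
        rfl
      rw [h5] at h4
      have h6 : smA G φ = ((∑ a : Fin m, ∑ b : Fin m,
          (if s(a, b) ∈ (G.comap (⟨φ, hφ⟩ : Fin m ↪ V)).edgeSet then 1 else 0) : ℕ) : ℝ) := by
        unfold smA
        push_cast
        refine Finset.sum_congr rfl fun i _ => Finset.sum_congr rfl fun j _ => ?_
        rfl
      rw [h6, h4]
      push_cast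
      ring
    have h7 : ((∑ i : Fin m, ∑ j : Fin m, ∑ k : Fin m, ∑ l : Fin m,
        X4 D (φ i) (φ j) (φ k) (φ l) : ℕ) : ℝ) = smX D φ := by
      unfold smX; push_cast; rfl
    have h8 : 8 * (crossingNumber (G.comap (⟨φ, hφ⟩ : Fin m ↪ V)) : ℝ) ≤ smX D φ := by
      rw [← h7]
      exact_mod_cast h1
    have h9 : 2 * ((eF (G.comap (⟨φ, hφ⟩ : Fin m ↪ V))).card : ℝ) + 14 ≤ 7 * (m : ℝ) +
        crossingNumber (G.comap (⟨φ, hφ⟩ : Fin m ↪ V)) := by exact_mod_cast h2
    have h10 := smC_nonneg φ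
    have h11 : 0 ≤ 8 * (m : ℝ) ^ 2 * smC φ := by positivity
    rw [h3]
    linarith
  · have h1 : 1 ≤ smC φ := by
      rw [Function.Injective] at hφ
      push Not at hφ
      obtain ⟨i, j, h2, h3⟩ := hφ
      unfold smC
      calc (1 : ℝ) = if i ≠ j ∧ φ i = φ j then (1 : ℝ) else 0 := by rw [if_pos ⟨h3, h2⟩]
        _ ≤ ∑ j' : Fin m, if i ≠ j' ∧ φ i = φ j' then (1 : ℝ) else 0 :=
            Finset.single_le_sum (f := fun j' => if i ≠ j' ∧ φ i = φ j' then (1 : ℝ) else 0)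
              (fun _ _ => by split_ifs <;> norm_num) (Finset.mem_univ j)
        _ ≤ _ := Finset.single_le_sum
            (f := fun i' => ∑ j' : Fin m, if i' ≠ j' ∧ φ i' = φ j' then (1 : ℝ) else 0)
            (fun _ _ => Finset.sum_nonneg fun _ _ => by split_ifs <;> norm_num) (Finset.mem_univ i)
    have h2 : smA G φ ≤ (m : ℝ) ^ 2 := by
      unfold smA
      calc ∑ i : Fin m, ∑ j : Fin m, (if G.Adj (φ i) (φ j) then (1 : ℝ) else 0)
          ≤ ∑ _i : Fin m, ∑ _j : Fin m, (1 : ℝ) :=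
            Finset.sum_le_sum fun _ _ => Finset.sum_le_sum fun _ _ => by split_ifs <;> norm_num
        _ = (m : ℝ) ^ 2 := by
            simp only [Finset.sum_const, Finset.card_univ, Fintype.card_fin, nsmul_eq_mul, mul_one]
            ring
    have h3 := smX_nonneg D φ
    have h4 : (3 : ℝ) ≤ m := by exact_mod_cast hm
    have h5 : 0 ≤ 8 * (m : ℝ) ^ 2 := by positivity
    nlinarith [mul_le_mul_of_nonneg_left h1 h5]

/-- weighted number of adjacent ordered pairs -/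
noncomputable def wE (G : SimpleGraph V) (q : V → ℝ) : ℝ :=
  ∑ a, ∑ b, q a * q b * (if G.Adj a b then (1 : ℝ) else 0)

/-- weighted number of crossings -/
noncomputable def wY {G : SimpleGraph V} (D : Drawing G) (q : V → ℝ) : ℝ :=
  ∑ a, ∑ b, ∑ c, ∑ d, q a * q b * q c * q d * (X4 D a b c d : ℝ)

theorem wY_le {G : SimpleGraph V} (D : Drawing G) (q : V → ℝ) :
    wY D q ≤ ∑ a, q a ^ 4 * R4 D a := by
  have h1 : wY D q = SX D (fun a b c d => q a * q b * q c * q d) := rfl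
  have h2 : SX D (fun a b c d => q a * q b * q c * q d) ≤
      SX D (fun a b c d => (1 / 4) * ((q a ^ 4 + q b ^ 4) + (q c ^ 4 + q d ^ 4))) := by
    refine SX_mono D fun a b c d _ => ?_
    nlinarith [sq_nonneg (q a * q b - q c * q d), sq_nonneg (q a ^ 2 - q b ^ 2),
      sq_nonneg (q c ^ 2 - q d ^ 2)]
  have h3 : SX D (fun a b c d => (1 / 4) * ((q a ^ 4 + q b ^ 4) + (q c ^ 4 + q d ^ 4))) =
      SX D (fun a _ _ _ => q a ^ 4) := by
    rw [SX_smul D (1 / 4) (fun a b c d => (q a ^ 4 + q b ^ 4) + (q c ^ 4 + q d ^ 4)),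
      SX_add D (fun a b _ _ => q a ^ 4 + q b ^ 4) (fun _ _ c d => q c ^ 4 + q d ^ 4),
      SX_sw D (fun a b _ _ => q a ^ 4 + q b ^ 4),
      SX_add D (fun a _ _ _ => q a ^ 4) (fun _ b _ _ => q b ^ 4),
      SX_s12 D (fun a _ _ _ => q a ^ 4)]
    ring
  rw [h1, ← SX_R4]
  linarith

theorem sum_erase_const {m : ℕ} (c : ℝ) (hm : 4 ≤ m) :
    ∑ i : Fin m, ∑ _j ∈ Finset.univ.erase i, c = (m : ℝ) * ((m : ℝ) - 1) * c := by
  have h1 : ∀ i : Fin m, ((Finset.univ.erase i).card : ℝ) = (m : ℝ) - 1 := by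
    intro i
    rw [Finset.card_erase_of_mem (Finset.mem_univ i), Finset.card_univ, Fintype.card_fin]
    rw [Nat.cast_sub (by omega)]
    simp
  simp only [Finset.sum_const, nsmul_eq_mul, h1, Finset.card_univ, Fintype.card_fin]
  ring

theorem wsamp {G : SimpleGraph V} (D : Drawing G) (hfin : D.crossings.Finite) (hgood : Good D)
    (q : V → ℝ) (hq : ∀ v, 0 ≤ q v) {m : ℕ} (hm : 4 ≤ m) (S : ℝ) (hS : S = ∑ v, q v)
    (hS0 : 0 < S) :
    S ^ 2 * wE G q ≤ 7 * ((m : ℝ) - 2) / ((m : ℝ) * ((m : ℝ) - 1)) * S ^ 4 +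
      ((m : ℝ) - 2) * ((m : ℝ) - 3) / 8 * ∑ a, q a ^ 4 * R4 D a +
      (m : ℝ) ^ 2 * S ^ 2 * ∑ a, q a ^ 2 := by
  have hmr : (4 : ℝ) ≤ m := by exact_mod_cast hm
  -- weights
  have hw : ∀ φ : Fin m → V, 0 ≤ ∏ x, q (φ x) := fun φ => Finset.prod_nonneg fun x _ => hq _
  have h1 : ∑ φ : Fin m → V, (∏ x, q (φ x)) * (8 * (smA G φ - 7 * ((m : ℝ) - 2))) ≤
      ∑ φ : Fin m → V, (∏ x, q (φ x)) * (smX D φ + 8 * (m : ℝ) ^ 2 * smC φ) :=
    Finset.sum_le_sum fun φ _ => mul_le_mul_of_nonneg_left (sm_point D hfin (by omega) φ) (hw φ)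
  have h2 : ∑ φ : Fin m → V, (∏ x, q (φ x)) = S ^ m := by
    rw [prod_sum_const, Fintype.card_fin, hS]
  -- adjacency
  have h3 : ∑ φ : Fin m → V, (∏ x, q (φ x)) * smA G φ =
      (m : ℝ) * ((m : ℝ) - 1) * (S ^ (m - 2) * wE G q) := by
    rw [← sum_erase_const _ hm]
    unfold smA
    simp only [Finset.mul_sum]
    rw [Finset.sum_comm]
    refine Finset.sum_congr rfl fun i _ => ?_
    rw [Finset.sum_comm, ← Finset.add_sum_erase _ _ (Finset.mem_univ i)]
    have z : ∑ φ : Fin m → V, (∏ x, q (φ x)) * (if G.Adj (φ i) (φ i) then (1 : ℝ) else 0) = 0 :=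
      Finset.sum_eq_zero fun φ _ => by rw [if_neg (G.irrefl), mul_zero]
    rw [z, zero_add]
    refine Finset.sum_congr rfl fun j hj => ?_
    rw [marg2 i j (Finset.ne_of_mem_erase hj).symm q (fun a b => if G.Adj a b then (1 : ℝ) else 0),
      hS]
    rfl
  -- coincidences
  have h4 : ∑ φ : Fin m → V, (∏ x, q (φ x)) * smC φ =
      (m : ℝ) * ((m : ℝ) - 1) * (S ^ (m - 2) * ∑ a, q a ^ 2) := by
    rw [← sum_erase_const _ hm]
    unfold smC
    simp only [Finset.mul_sum]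
    rw [Finset.sum_comm]
    refine Finset.sum_congr rfl fun i _ => ?_
    rw [Finset.sum_comm, ← Finset.add_sum_erase _ _ (Finset.mem_univ i)]
    have z : ∑ φ : Fin m → V, (∏ x, q (φ x)) * (if i ≠ i ∧ φ i = φ i then (1 : ℝ) else 0) = 0 :=
      Finset.sum_eq_zero fun φ _ => by rw [if_neg (fun h => h.1 rfl), mul_zero]
    rw [z, zero_add]
    refine Finset.sum_congr rfl fun j hj => ?_
    have hij : i ≠ j := (Finset.ne_of_mem_erase hj).symm
    have e1 : ∀ φ : Fin m → V, (∏ x, q (φ x)) * (if i ≠ j ∧ φ i = φ j then (1 : ℝ) else 0) =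
        (∏ x, q (φ x)) * (fun a b : V => if a = b then (1 : ℝ) else 0) (φ i) (φ j) := by
      intro φ
      by_cases h : φ i = φ j
      · rw [if_pos ⟨hij, h⟩]; simp only [h, if_true]
      · rw [if_neg (fun h' => h h'.2)]; simp only [h, if_false]
    rw [Finset.sum_congr rfl fun φ _ => e1 φ,
      marg2 i j hij q (fun a b : V => if a = b then (1 : ℝ) else 0), ← hS, ← Finset.mul_sum]
    congr 1
    refine Finset.sum_congr rfl fun a _ => ?_
    rw [Finset.sum_eq_single a]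
    · simp only [if_true]; ring
    · intro b _ hb
      simp only [if_neg (Ne.symm hb), mul_zero]
    · intro h; exact absurd (Finset.mem_univ _) h
  -- crossings
  have h5 : ∑ φ : Fin m → V, (∏ x, q (φ x)) * smX D φ ≤
      (m : ℝ) * ((m : ℝ) - 1) * ((m : ℝ) - 2) * ((m : ℝ) - 3) * (S ^ (m - 4) * wY D q) := by
    have hY0 : 0 ≤ S ^ (m - 4) * wY D q := by
      refine mul_nonneg (pow_nonneg hS0.le _) ?_
      refine Finset.sum_nonneg fun a _ => Finset.sum_nonneg fun b _ => Finset.sum_nonneg fun c _ =>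
        Finset.sum_nonneg fun d _ => mul_nonneg (mul_nonneg (mul_nonneg (mul_nonneg (hq a) (hq b))
          (hq c)) (hq d)) (Nat.cast_nonneg _)
    have zero : ∀ i j k l : Fin m, (i = j ∨ i = k ∨ i = l ∨ j = k ∨ j = l ∨ k = l) →
        ∑ φ : Fin m → V, (∏ x, q (φ x)) * (X4 D (φ i) (φ j) (φ k) (φ l) : ℝ) = 0 := by
      intro i j k l h
      refine Finset.sum_eq_zero fun φ _ => ?_
      have : X4 D (φ i) (φ j) (φ k) (φ l) = 0 := by
        by_contra hc
        obtain ⟨a1, a2, a3⟩ := DX_good hgood hc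
        have b1 := a3 (φ i) (by simp)
        have b2 := a3 (φ j) (by simp)
        rw [Sym2.mem_iff] at b1 b2
        push Not at b1 b2
        have a1' : G.Adj (φ i) (φ j) := a1
        have a2' : G.Adj (φ k) (φ l) := a2
        rcases h with rfl | rfl | rfl | rfl | rfl | rfl
        · exact a1'.ne rfl
        · exact b1.1 rfl
        · exact b1.2 rfl
        · exact b2.1 rfl
        · exact b2.2 rfl
        · exact a2'.ne rfl
      rw [this]; simp
    have pt : ∀ i j k l : Fin m, ∑ φ : Fin m → V, (∏ x, q (φ x)) *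
        (X4 D (φ i) (φ j) (φ k) (φ l) : ℝ) ≤ if (i ≠ j ∧ (i ≠ k ∧ j ≠ k) ∧ (i ≠ l ∧ j ≠ l ∧ k ≠ l))
          then S ^ (m - 4) * wY D q else 0 := by
      intro i j k l
      by_cases h : i ≠ j ∧ (i ≠ k ∧ j ≠ k) ∧ (i ≠ l ∧ j ≠ l ∧ k ≠ l)
      · rw [if_pos h, marg4 i j k l h.1 h.2.1.1 h.2.2.1 h.2.1.2 h.2.2.2.1 h.2.2.2.2 q
          (fun a b c d => (X4 D a b c d : ℝ)), hS]
        rfl
      · rw [if_neg h, zero i j k l (by tauto)]
    have e1 : ∑ φ : Fin m → V, (∏ x, q (φ x)) * smX D φ = ∑ i : Fin m, ∑ j : Fin m, ∑ k : Fin m,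
        ∑ l : Fin m, ∑ φ : Fin m → V, (∏ x, q (φ x)) * (X4 D (φ i) (φ j) (φ k) (φ l) : ℝ) := by
      unfold smX
      simp only [Finset.mul_sum]
      rw [Finset.sum_comm]
      refine Finset.sum_congr rfl fun i _ => ?_
      rw [Finset.sum_comm]
      refine Finset.sum_congr rfl fun j _ => ?_
      rw [Finset.sum_comm]
      refine Finset.sum_congr rfl fun k _ => ?_
      rw [Finset.sum_comm]
    rw [e1]
    refine (Finset.sum_le_sum fun i _ => Finset.sum_le_sum fun j _ => Finset.sum_le_sum fun k _ =>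
      Finset.sum_le_sum fun l _ => pt i j k l).trans ?_
    -- counting
    set c := S ^ (m - 4) * wY D q with hc
    have cl : ∀ i j k : Fin m, i ≠ j → (i ≠ k ∧ j ≠ k) →
        ∑ l : Fin m, (if (i ≠ j ∧ (i ≠ k ∧ j ≠ k) ∧ (i ≠ l ∧ j ≠ l ∧ k ≠ l)) then c else 0) =
          ((m : ℝ) - 3) * c := by
      intro i j k hij hk
      have : ∀ l : Fin m, (if (i ≠ j ∧ (i ≠ k ∧ j ≠ k) ∧ (i ≠ l ∧ j ≠ l ∧ k ≠ l)) then c else 0) =
          if l ∈ ((Finset.univ.erase i).erase j).erase k then c else 0 := by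
        intro l
        have : (i ≠ j ∧ (i ≠ k ∧ j ≠ k) ∧ (i ≠ l ∧ j ≠ l ∧ k ≠ l)) ↔
            l ∈ ((Finset.univ.erase i).erase j).erase k := by
          simp only [Finset.mem_erase, Finset.mem_univ, and_true, ne_eq]
          constructor
          · rintro ⟨-, -, a, b, c⟩
            exact ⟨fun h => c h.symm, fun h => b h.symm, fun h => a h.symm⟩
          · rintro ⟨a, b, c⟩
            exact ⟨hij, hk, fun h => c h.symm, fun h => b h.symm, fun h => a h.symm⟩
        simp only [this]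
      rw [Finset.sum_congr rfl fun l _ => this l, Finset.sum_ite_mem, Finset.univ_inter,
        Finset.sum_const, nsmul_eq_mul]
      congr 1
      rw [Finset.card_erase_of_mem, Finset.card_erase_of_mem, Finset.card_erase_of_mem,
        Finset.card_univ, Fintype.card_fin]
      · have : m - 1 - 1 - 1 = m - 3 := by omega
        rw [this, Nat.cast_sub (by omega)]
        norm_num
      · simp
      · simp [hij.symm]
      · simp [hk.1.symm, hk.2.symm]
    have ck : ∀ i j : Fin m, i ≠ j → ∑ k : Fin m, ∑ l : Fin m,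
        (if (i ≠ j ∧ (i ≠ k ∧ j ≠ k) ∧ (i ≠ l ∧ j ≠ l ∧ k ≠ l)) then c else 0) =
          ((m : ℝ) - 2) * (((m : ℝ) - 3) * c) := by
      intro i j hij
      have : ∀ k : Fin m, (∑ l : Fin m,
          (if (i ≠ j ∧ (i ≠ k ∧ j ≠ k) ∧ (i ≠ l ∧ j ≠ l ∧ k ≠ l)) then c else 0)) =
          if k ∈ (Finset.univ.erase i).erase j then ((m : ℝ) - 3) * c else 0 := by
        intro k
        by_cases hk : i ≠ k ∧ j ≠ k
        · rw [cl i j k hij hk, if_pos]
          simp only [Finset.mem_erase, Finset.mem_univ, and_true, ne_eq]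
          exact ⟨fun h => hk.2 h.symm, fun h => hk.1 h.symm⟩
        · rw [Finset.sum_eq_zero fun l _ => if_neg (fun h => hk h.2.1), if_neg]
          simp only [Finset.mem_erase, Finset.mem_univ, and_true, ne_eq]
          intro h
          exact hk ⟨fun h' => h.2 h'.symm, fun h' => h.1 h'.symm⟩
      rw [Finset.sum_congr rfl fun k _ => this k, Finset.sum_ite_mem, Finset.univ_inter,
        Finset.sum_const, nsmul_eq_mul]
      congr 1
      rw [Finset.card_erase_of_mem, Finset.card_erase_of_mem, Finset.card_univ, Fintype.card_fin]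
      · have : m - 1 - 1 = m - 2 := by omega
        rw [this, Nat.cast_sub (by omega)]
        norm_num
      · simp
      · simp [hij.symm]
    have cj : ∀ i : Fin m, ∑ j : Fin m, ∑ k : Fin m, ∑ l : Fin m,
        (if (i ≠ j ∧ (i ≠ k ∧ j ≠ k) ∧ (i ≠ l ∧ j ≠ l ∧ k ≠ l)) then c else 0) =
          ((m : ℝ) - 1) * (((m : ℝ) - 2) * (((m : ℝ) - 3) * c)) := by
      intro i
      have : ∀ j : Fin m, (∑ k : Fin m, ∑ l : Fin m,
          (if (i ≠ j ∧ (i ≠ k ∧ j ≠ k) ∧ (i ≠ l ∧ j ≠ l ∧ k ≠ l)) then c else 0)) =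
          if j ∈ Finset.univ.erase i then ((m : ℝ) - 2) * (((m : ℝ) - 3) * c) else 0 := by
        intro j
        by_cases hj : i ≠ j
        · rw [ck i j hj, if_pos]
          simp only [Finset.mem_erase, Finset.mem_univ, and_true, ne_eq]
          exact fun h => hj h.symm
        · rw [Finset.sum_eq_zero fun k _ => Finset.sum_eq_zero fun l _ => if_neg (fun h => hj h.1),
            if_neg]
          simp only [Finset.mem_erase, Finset.mem_univ, and_true, ne_eq]
          intro h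
          exact hj (fun h' => h h'.symm)
      rw [Finset.sum_congr rfl fun j _ => this j, Finset.sum_ite_mem, Finset.univ_inter,
        Finset.sum_const, nsmul_eq_mul]
      congr 1
      rw [Finset.card_erase_of_mem (Finset.mem_univ i), Finset.card_univ, Fintype.card_fin,
        Nat.cast_sub (by omega)]
      norm_num
    rw [Finset.sum_congr rfl fun i _ => cj i, Finset.sum_const, nsmul_eq_mul, Finset.card_univ,
      Fintype.card_fin]
    apply le_of_eq
    ring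
  -- conclusion
  have e0 : ∑ φ : Fin m → V, (∏ x, q (φ x)) * (8 * (smA G φ - 7 * ((m : ℝ) - 2))) =
      8 * (∑ φ : Fin m → V, (∏ x, q (φ x)) * smA G φ) - 56 * ((m : ℝ) - 2) * S ^ m := by
    rw [← h2, Finset.mul_sum, Finset.mul_sum, ← Finset.sum_sub_distrib]
    refine Finset.sum_congr rfl fun φ _ => ?_
    ring
  have e1 : ∑ φ : Fin m → V, (∏ x, q (φ x)) * (smX D φ + 8 * (m : ℝ) ^ 2 * smC φ) =
      ∑ φ : Fin m → V, (∏ x, q (φ x)) * smX D φ +
        8 * (m : ℝ) ^ 2 * ∑ φ : Fin m → V, (∏ x, q (φ x)) * smC φ := by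
    rw [Finset.mul_sum, ← Finset.sum_add_distrib]
    refine Finset.sum_congr rfl fun φ _ => ?_
    ring
  rw [e0, e1, h3, h4] at h1
  have hY := wY_le D q
  have p4 : S ^ (m - 2) = S ^ (m - 4) * S ^ 2 := by rw [← pow_add]; congr 1; omega
  have p5 : S ^ m = S ^ (m - 4) * S ^ 4 := by rw [← pow_add]; congr 1; omega
  rw [p4, p5] at h1
  set Y := ∑ a, q a ^ 4 * R4 D a with hYd
  set E := wE G q with hE
  set Q2 := ∑ a, q a ^ 2 with hQ2
  set P := S ^ (m - 4) with hP
  have hP0 : 0 < P := pow_pos hS0 _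
  have hmm : 0 < (m : ℝ) * ((m : ℝ) - 1) := by nlinarith
  have k1 : (m : ℝ) * ((m : ℝ) - 1) * ((m : ℝ) - 2) * ((m : ℝ) - 3) * (P * wY D q) ≤
      (m : ℝ) * ((m : ℝ) - 1) * ((m : ℝ) - 2) * ((m : ℝ) - 3) * (P * Y) := by
    refine mul_le_mul_of_nonneg_left (mul_le_mul_of_nonneg_left hY hP0.le) ?_
    have : (0 : ℝ) ≤ (m : ℝ) - 2 := by linarith
    have : (0 : ℝ) ≤ (m : ℝ) - 3 := by linarith
    positivity
  have k2 : P * (8 * ((m : ℝ) * ((m : ℝ) - 1)) * (S ^ 2 * E)) ≤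
      P * (56 * ((m : ℝ) - 2) * S ^ 4 + (m : ℝ) * ((m : ℝ) - 1) * (((m : ℝ) - 2) * ((m : ℝ) - 3)) * Y +
        8 * ((m : ℝ) * ((m : ℝ) - 1)) * ((m : ℝ) ^ 2 * S ^ 2 * Q2)) := by
    linarith
  have k3 := le_of_mul_le_mul_left k2 hP0
  have k4 : 7 * ((m : ℝ) - 2) / ((m : ℝ) * ((m : ℝ) - 1)) * S ^ 4 +
      ((m : ℝ) - 2) * ((m : ℝ) - 3) / 8 * Y + (m : ℝ) ^ 2 * S ^ 2 * Q2 =
      (56 * ((m : ℝ) - 2) * S ^ 4 + (m : ℝ) * ((m : ℝ) - 1) * (((m : ℝ) - 2) * ((m : ℝ) - 3)) * Y +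
        8 * ((m : ℝ) * ((m : ℝ) - 1)) * ((m : ℝ) ^ 2 * S ^ 2 * Q2)) /
        (8 * ((m : ℝ) * ((m : ℝ) - 1))) := by
    have m0 : (m : ℝ) ≠ 0 := by linarith
    have m1 : (m : ℝ) - 1 ≠ 0 := by linarith
    field_simp
    ring
  rw [k4, le_div_iff₀ (by positivity)]
  linarith

end Pool.Agent.H466.AB
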