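import Pool.Agent.H466.AL.Rer

set_option autoImplicit false

/-!
Uncrossing two polylines with a common end, with an account of the number of crossings; the number
of crossings saved by an adjacent pair of edges.
-/

open Set Classical
open Pool.Agent.Helper770.Crossing Pool.Agent.Helper770.Sep Pool.Agent.NH90.CN
open Pool.Agent.NH90.CN.UNX

namespace Pool.Agent.H466.AB

theorem sum_le2 {I : Type} (A : Finset I) (i j : I) (hi : i ∈ A) (hj : j ∈ A) (hij : i ≠ j)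
    (F F' : I → I → ℕ) (hs : ∀ k l, F k l = F l k) (hs' : ∀ k l, F' k l = F' l k)
    (h1 : ∀ k ∈ A, ∀ l ∈ A, k ≠ i → k ≠ j → l ≠ i → l ≠ j → F' k l ≤ F k l)
    (h2 : ∀ k ∈ A, k ≠ i → k ≠ j → F' k i + F' k j ≤ F k i + F k j) :
    (∑ k ∈ A, ∑ l ∈ A, if k = l then 0 else F' k l) + 2 * F i j ≤
      (∑ k ∈ A, ∑ l ∈ A, if k = l then 0 else F k l) + 2 * F' i j := by
  rw [sum_split A i j hi hj hij F hs, sum_split A i j hi hj hij F' hs']
  have a1 : (∑ k ∈ (A.erase i).erase j, (F' k i + F' k j)) ≤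
      ∑ k ∈ (A.erase i).erase j, (F k i + F k j) := by
    apply Finset.sum_le_sum
    intro k hk
    simp only [Finset.mem_erase] at hk
    exact h2 k hk.2.2 hk.2.1 hk.1
  have a2 : (∑ k ∈ (A.erase i).erase j, ∑ l ∈ (A.erase i).erase j, if k = l then 0 else F' k l) ≤
      ∑ k ∈ (A.erase i).erase j, ∑ l ∈ (A.erase i).erase j, if k = l then 0 else F k l := by
    apply Finset.sum_le_sum
    intro k hk
    apply Finset.sum_le_sum
    intro l hl
    simp only [Finset.mem_erase] at hk hl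
    split_ifs
    · exact le_rfl
    · exact h1 k hk.2.2 l hl.2.2 hk.2.1 hk.1 hl.2.1 hl.1
  omega

theorem TT_le2 {I : Type} (A : Finset I) (W W' : I → List ℂ) (i j : I) (hi : i ∈ A) (hj : j ∈ A)
    (hij : i ≠ j) (h : ∀ k ∈ A, ∀ l ∈ A, Nx (W' k) (W' l) ≤ Nx (W k) (W l)) :
    TT A W' + 2 * Nx (W i) (W j) ≤ TT A W + 2 * Nx (W' i) (W' j) := by
  unfold TT
  refine sum_le2 A i j hi hj hij (fun k l => Nx (W k) (W l)) (fun k l => Nx (W' k) (W' l))
      (fun k l => ?_) (fun k l => ?_) ?_ ?_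
  · simp only [Nx_eq]; exact cc_comm _ _
  · simp only [Nx_eq]; exact cc_comm _ _
  · intro k hk l hl _ _ _ _
    exact h k hk l hl
  · intro k hk _ _
    exact Nat.add_le_add (h k hk i hi) (h k hk j hj)

/-- the case of a common first point -/
theorem main2 (h : S_SM) {I : Type} (A : Finset I) (W : I → List ℂ) (hPL : PL A W) (hPO : PO A W)
    (hNT : NT A W) (hDS : DS A W) (h0 : ∀ i ∈ A, Nx (W i) (W i) = 0) (i : I) (hi : i ∈ A)
    (j : I) (hj : j ∈ A) (hij : i ≠ j) (q : ℂ) (hqi : (W i).head? = some q)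
    (hqj : (W j).head? = some q) (hN : Nx (W i) (W j) ≠ 0) :
    ∃ W' : I → List ℂ, PL A W' ∧ PO A W' ∧
      (∀ k ∈ A, (W' k).head? = (W k).head? ∧ (W' k).getLast? = (W k).getLast?) ∧
      Nx (W' i) (W' j) < Nx (W i) (W j) ∧
      TT A W' + 2 * Nx (W i) (W j) ≤ TT A W + 2 * Nx (W' i) (W' j) := by
  obtain ⟨e, he, f, hf, hX⟩ := cc_pos (by rw [← Nx_eq]; exact hN)
  have heI := he
  have hfJ := hf
  obtain ⟨U1, u1, u2, U2, hWi, rfl⟩ := mem_segL he
  obtain ⟨W1, w1, w2, W2, hWj, rfl⟩ := mem_segL hf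
  -- parts
  have hWi' : W i = (U1 ++ [u1]) ++ (u2 :: U2) := by rw [hWi]; simp
  have hWj' : W j = (W1 ++ [w1]) ++ (w2 :: W2) := by rw [hWj]; simp
  have ndi := hPL.nd i hi
  have ndj := hPL.nd j hj
  rw [hWi', List.nodup_append] at ndi
  rw [hWj', List.nodup_append] at ndj
  obtain ⟨ndi1, ndi2, ndi3⟩ := ndi
  obtain ⟨ndj1, ndj2, ndj3⟩ := ndj
  set Pi := U1 ++ [u1] with hPi
  set Pj := W1 ++ [w1] with hPj
  set Ti := u2 :: U2 with hTi
  set Tj := w2 :: W2 with hTj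
  have di : ∀ x, x ∈ Pi → x ∈ Ti → False := fun x h1 h2 => ndi3 x h1 x h2 rfl
  have dj : ∀ x, x ∈ Pj → x ∈ Tj → False := fun x h1 h2 => ndj3 x h1 x h2 rfl
  have u1P : u1 ∈ Pi := by rw [hPi]; simp
  have w1P : w1 ∈ Pj := by rw [hPj]; simp
  have u2T : u2 ∈ Ti := by rw [hTi]; simp
  have w2T : w2 ∈ Tj := by rw [hTj]; simp
  have hPi0 : Pi ≠ [] := by rw [hPi]; simp
  have hPj0 : Pj ≠ [] := by rw [hPj]; simp
  have mi : ∀ x, x ∈ W i ↔ x ∈ Pi ∨ x ∈ Ti := fun x => by rw [hWi', List.mem_append]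
  have mj : ∀ x, x ∈ W j ↔ x ∈ Pj ∨ x ∈ Tj := fun x => by rw [hWj', List.mem_append]
  have hu : u1 ≠ u2 := fun h => di u1 u1P (h ▸ u2T)
  have hw : w1 ≠ w2 := fun h => dj w1 w1P (h ▸ w2T)
  have qPi : q ∈ Pi := by
    rw [hWi', List.head?_append_of_ne_nil _ hPi0] at hqi
    exact List.mem_of_mem_head? hqi
  have qPj : q ∈ Pj := by
    rw [hWj', List.head?_append_of_ne_nil _ hPj0] at hqj
    exact List.mem_of_mem_head? hqj
  have lasti : ∀ x, (W i).getLast? = some x → x ∈ Ti := by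
    intro x hx
    rw [hWi', List.getLast?_append_of_ne_nil _ (by rw [hTi]; simp)] at hx
    exact List.mem_of_mem_getLast? hx
  have lastj : ∀ x, (W j).getLast? = some x → x ∈ Tj := by
    intro x hx
    rw [hWj', List.getLast?_append_of_ne_nil _ (by rw [hTj]; simp)] at hx
    exact List.mem_of_mem_getLast? hx
  -- points and segments
  set Q : Finset ℂ := A.biUnion (fun k => (W k).toFinset) with hQ
  have mQ : ∀ x, x ∈ Q ↔ ∃ k ∈ A, x ∈ W k := by
    intro x; rw [hQ]; simp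
  set S : Finset (Sym2 ℂ) :=
    (A.biUnion (fun k => (segL (W k)).toFinset)).filter
      (fun s => s ≠ s(u1, u2) ∧ s ≠ s(w1, w2)) with hS
  have mS : ∀ s, s ∈ S ↔ (∃ k ∈ A, s ∈ segL (W k)) ∧ s ≠ s(u1, u2) ∧ s ≠ s(w1, w2) := by
    intro x; rw [hS]; simp
  obtain ⟨p, hpe, hpf⟩ := hX.2
  have hpQ : p ∉ Q := by
    intro hp
    obtain ⟨k, hk, hpk⟩ := (mQ p).1 hp
    exact hX.1 p (hPO i hi k hk _ heI p hpk hpe) (hPO j hj k hk _ hfJ p hpk hpf)
  have Qi : ∀ x ∈ W i, x ∈ Q := fun x hx => (mQ x).2 ⟨i, hi, hx⟩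
  have Qj : ∀ x ∈ W j, x ∈ Q := fun x hx => (mQ x).2 ⟨j, hj, hx⟩
  have u1Q := Qi u1 ((mi u1).2 (Or.inl u1P))
  have u2Q := Qi u2 ((mi u2).2 (Or.inr u2T))
  have w1Q := Qj w1 ((mj w1).2 (Or.inl w1P))
  have w2Q := Qj w2 ((mj w2).2 (Or.inr w2T))
  have POe : ∀ x ∈ Q, x ∈ segment ℝ u1 u2 → x = u1 ∨ x = u2 := by
    intro x hx hx2
    obtain ⟨k, hk, hxk⟩ := (mQ x).1 hx
    rw [← sg_mk] at hx2
    exact Sym2.mem_iff.1 (hPO i hi k hk _ heI x hxk hx2)
  have POf : ∀ x ∈ Q, x ∈ segment ℝ w1 w2 → x = w1 ∨ x = w2 := by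
    intro x hx hx2
    obtain ⟨k, hk, hxk⟩ := (mQ x).1 hx
    rw [← sg_mk] at hx2
    exact Sym2.mem_iff.1 (hPO j hj k hk _ hfJ x hxk hx2)
  have POS : ∀ s ∈ S, ∀ x ∈ Q, x ∈ sg s → x ∈ s := by
    intro s hs x hx hx2
    obtain ⟨⟨k, hk, hsk⟩, -⟩ := (mS s).1 hs
    obtain ⟨l, hl, hxl⟩ := (mQ x).1 hx
    exact hPO k hk l hl s hsk x hxl hx2
  have SQ : ∀ s ∈ S, ∀ x ∈ s, x ∈ Q := by
    intro s hs x hx
    obtain ⟨⟨k, hk, hsk⟩, -⟩ := (mS s).1 hs
    exact (mQ x).2 ⟨k, hk, mem_of_mem_segL hsk hx⟩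
  have pu1 : p ≠ u1 := fun h => hpQ (by rw [h]; exact u1Q)
  have pu2 : p ≠ u2 := fun h => hpQ (by rw [h]; exact u2Q)
  have pw1 : p ≠ w1 := fun h => hpQ (by rw [h]; exact w1Q)
  have pw2 : p ≠ w2 := fun h => hpQ (by rw [h]; exact w2Q)
  have hpS : ∀ s ∈ S, p ∉ sg s := by
    intro s hs hps
    obtain ⟨⟨k, hk, hsk⟩, hse, hsf⟩ := (mS s).1 hs
    have hsd : ¬ s.IsDiag := by
      obtain ⟨l₁, a, b, l₂, h1, rfl⟩ := mem_segL hsk
      have := hPL.nd k hk
      rw [h1] at this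
      rw [Sym2.mk_isDiag_iff]
      rintro rfl
      simp [List.nodup_append] at this
    have c1 := not_mem_third hu (by rw [← sg_mk]; exact hpe) pu1
      pu2 hps hsd hse (fun x hx hx2 => POe x (SQ s hs x hx) hx2)
      (POS s hs u1 u1Q) (POS s hs u2 u2Q)
    have c2 := not_mem_third hw (by rw [← sg_mk]; exact hpf) pw1
      pw2 hps hsd hsf (fun x hx hx2 => POf x (SQ s hs x hx) hx2)
      (POS s hs w1 w1Q) (POS s hs w2 w2Q)
    have x1 : Xs s(u1, u2) s := by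
      refine ⟨fun x hx => ?_, ⟨p, hpe, hps⟩⟩
      rcases Sym2.mem_iff.1 hx with rfl | rfl
      · exact c1.1
      · exact c1.2
    have x2 : Xs s(w1, w2) s := by
      refine ⟨fun x hx => ?_, ⟨p, hpf, hps⟩⟩
      rcases Sym2.mem_iff.1 hx with rfl | rfl
      · exact c2.1
      · exact c2.2
    have := hNT i hi j hj k hk _ heI _ hfJ _ hsk hX x2 x1
    exact (Set.eq_empty_iff_forall_notMem.1 this) p ⟨⟨hpe, hpf⟩, hps⟩
  obtain ⟨b, b', hbb, hbQ, hbQ', hbS, hQ4, hdis, hcount⟩ := h u1 u2 w1 w2 p Q S u1Q u2Q w1Q w2Q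
    hu hw hX (by rw [← sg_mk]; exact hpe) (by rw [← sg_mk]; exact hpf) POe POf
    (fun s hs => ⟨hpS s hs, SQ s hs, POS s hs⟩)
  -- the parts consist of segments of `S`
  have segi : segL (W i) = segL Pi ++ s(u1, u2) :: segL Ti := by
    rw [hWi, segL_append]; rfl
  have segj : segL (W j) = segL Pj ++ s(w1, w2) :: segL Tj := by
    rw [hWj, segL_append]; rfl
  have Sk : ∀ k ∈ A, k ≠ i → k ≠ j → ∀ s ∈ segL (W k), s ∈ S := by
    intro k hk hki hkj s hs
    refine (mS s).2 ⟨⟨k, hk, hs⟩, ?_, ?_⟩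
    · rintro rfl; exact hDS k hk i hi hki _ hs heI
    · rintro rfl; exact hDS k hk j hj hkj _ hs hfJ
  have Si : ∀ s ∈ segL (W i), s ≠ s(u1, u2) → s ∈ S := by
    intro s hs hne
    refine (mS s).2 ⟨⟨i, hi, hs⟩, hne, ?_⟩
    rintro rfl; exact hDS i hi j hj hij _ hs hfJ
  have Sj : ∀ s ∈ segL (W j), s ≠ s(w1, w2) → s ∈ S := by
    intro s hs hne
    refine (mS s).2 ⟨⟨j, hj, hs⟩, ?_, hne⟩
    rintro rfl; exact hDS j hj i hi hij.symm _ hs heI
  have SPi : ∀ s ∈ segL Pi, s ∈ S := by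
    intro s hs
    refine Si s (by rw [segi]; simp [hs]) ?_
    rintro rfl; exact di u2 (mem_of_mem_segL hs (by simp)) u2T
  have STi : ∀ s ∈ segL Ti, s ∈ S := by
    intro s hs
    refine Si s (by rw [segi]; simp [hs]) ?_
    rintro rfl; exact di u1 u1P (mem_of_mem_segL hs (by simp))
  have SPj : ∀ s ∈ segL Pj, s ∈ S := by
    intro s hs
    refine Sj s (by rw [segj]; simp [hs]) ?_
    rintro rfl; exact dj w2 (mem_of_mem_segL hs (by simp)) w2T
  have STj : ∀ s ∈ segL Tj, s ∈ S := by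
    intro s hs
    refine Sj s (by rw [segj]; simp [hs]) ?_
    rintro rfl; exact dj w1 w1P (mem_of_mem_segL hs (by simp))
  have segi' : segL (Pj ++ b :: Ti) = segL Pj ++ s(w1, b) :: s(b, u2) :: segL Ti := by
    rw [segL_append, hPj, List.append_assoc, List.singleton_append, segL_append, hTi]
    simp [segL]
  have segj' : segL (Pi ++ b' :: Tj) = segL Pi ++ s(u1, b') :: s(b', w2) :: segL Tj := by
    rw [segL_append, hPi, List.append_assoc, List.singleton_append, segL_append, hTj]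
    simp [segL]
  -- common points
  have hK : ∀ x, x ∈ W i → x ∈ W j → x = q ∨ (x ∈ Ti ∧ x ∈ Tj ∧ (W i).getLast? = some x ∧
      (W j).getLast? = some x) := by
    intro x hx hx'
    obtain ⟨h1, h2⟩ := hPL.sep i hi j hj hij x hx hx'
    rcases h1 with h1 | h1
    · left; rw [hqi] at h1; exact (Option.some.inj h1).symm
    · rcases h2 with h2 | h2
      · left; rw [hqj] at h2; exact (Option.some.inj h2).symm
      · right; exact ⟨lasti x h1, lastj x h2, h1, h2⟩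
  have x1 : ∀ x, x ∈ Pj → x ∈ Ti → False := by
    intro x h1 h2
    rcases hK x ((mi x).2 (Or.inr h2)) ((mj x).2 (Or.inl h1)) with rfl | h3
    · exact di _ qPi h2
    · exact dj x h1 h3.2.1
  have x2 : ∀ x, x ∈ Pi → x ∈ Tj → False := by
    intro x h1 h2
    rcases hK x ((mi x).2 (Or.inl h1)) ((mj x).2 (Or.inr h2)) with rfl | h3
    · exact dj _ qPj h2
    · exact di x h1 h3.1
  have hdi : (Pj ++ b :: Ti).head? = some q := by
    rw [List.head?_append_of_ne_nil _ hPj0, ← hqj, hWj', List.head?_append_of_ne_nil _ hPj0]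
  have hdj : (Pi ++ b' :: Tj).head? = some q := by
    rw [List.head?_append_of_ne_nil _ hPi0, ← hqi, hWi', List.head?_append_of_ne_nil _ hPi0]
  have lsi : (Pj ++ b :: Ti).getLast? = (W i).getLast? := by
    rw [hWi', List.getLast?_append_of_ne_nil _ (by simp), List.getLast?_append_of_ne_nil _ (by
      rw [hTi]; simp), hTi, List.getLast?_cons_cons]
  have lsj : (Pi ++ b' :: Tj).getLast? = (W j).getLast? := by
    rw [hWj', List.getLast?_append_of_ne_nil _ (by simp), List.getLast?_append_of_ne_nil _ (by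
      rw [hTj]; simp), hTj, List.getLast?_cons_cons]
  set Wi' := Pj ++ b :: Ti with hWi''
  set Wj' := Pi ++ b' :: Tj with hWj''
  have mi' : ∀ x, x ∈ Wi' ↔ x ∈ Pj ∨ x = b ∨ x ∈ Ti := fun x => by
    rw [hWi'', List.mem_append, List.mem_cons]
  have mj' : ∀ x, x ∈ Wj' ↔ x ∈ Pi ∨ x = b' ∨ x ∈ Tj := fun x => by
    rw [hWj'', List.mem_append, List.mem_cons]
  have Eni : En Wi' q := Or.inl hdi
  have Enj : En Wj' q := Or.inl hdj
  have enPi : ∀ x ∈ Pi, En (W i) x → x = q := by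
    intro x hx h1
    rcases h1 with h1 | h1
    · rw [hqi] at h1; exact (Option.some.inj h1).symm
    · exact absurd (lasti x h1) (fun h2 => di x hx h2)
  have enPj : ∀ x ∈ Pj, En (W j) x → x = q := by
    intro x hx h1
    rcases h1 with h1 | h1
    · rw [hqj] at h1; exact (Option.some.inj h1).symm
    · exact absurd (lastj x h1) (fun h2 => dj x hx h2)
  have enTi : ∀ x ∈ Ti, En (W i) x → En Wi' x := by
    intro x hx h1
    rcases h1 with h1 | h1
    · rw [hqi] at h1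
      have h2 := Option.some.inj h1
      exact (di x (h2 ▸ qPi) hx).elim
    · right; rw [lsi, h1]
  have enTj : ∀ x ∈ Tj, En (W j) x → En Wj' x := by
    intro x hx h1
    rcases h1 with h1 | h1
    · rw [hqj] at h1
      have h2 := Option.some.inj h1
      exact (dj x (h2 ▸ qPj) hx).elim
    · right; rw [lsj, h1]
  have sepi : ∀ k ∈ A, k ≠ i → k ≠ j → ∀ x ∈ Wi', x ∈ W k → En Wi' x ∧ En (W k) x := by
    intro k hk hki hkj x hx hxk
    rcases (mi' x).1 hx with h1 | h1 | h1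
    · obtain ⟨h2, h3⟩ := hPL.sep j hj k hk hkj.symm x ((mj x).2 (Or.inl h1)) hxk
      rw [enPj x h1 h2] at h3 ⊢
      exact ⟨Eni, h3⟩
    · exact (hbQ (h1 ▸ (mQ x).2 ⟨k, hk, hxk⟩)).elim
    · obtain ⟨h2, h3⟩ := hPL.sep i hi k hk hki.symm x ((mi x).2 (Or.inr h1)) hxk
      exact ⟨enTi x h1 h2, h3⟩
  have sepj : ∀ k ∈ A, k ≠ i → k ≠ j → ∀ x ∈ Wj', x ∈ W k → En Wj' x ∧ En (W k) x := by
    intro k hk hki hkj x hx hxk
    rcases (mj' x).1 hx with h1 | h1 | h1
    · obtain ⟨h2, h3⟩ := hPL.sep i hi k hk hki.symm x ((mi x).2 (Or.inl h1)) hxk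
      rw [enPi x h1 h2] at h3 ⊢
      exact ⟨Enj, h3⟩
    · exact (hbQ' (h1 ▸ (mQ x).2 ⟨k, hk, hxk⟩)).elim
    · obtain ⟨h2, h3⟩ := hPL.sep j hj k hk hkj.symm x ((mj x).2 (Or.inr h1)) hxk
      exact ⟨enTj x h1 h2, h3⟩
  have sepij : ∀ x ∈ Wi', x ∈ Wj' → En Wi' x ∧ En Wj' x := by
    intro x hx hx'
    rcases (mi' x).1 hx with h1 | h1 | h1
    · rcases (mj' x).1 hx' with h2 | h2 | h2
      · rcases hK x ((mi x).2 (Or.inl h2)) ((mj x).2 (Or.inl h1)) with h3 | h3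
        · rw [h3]; exact ⟨Eni, Enj⟩
        · exact (di x h2 h3.1).elim
      · exact (hbQ' (h2 ▸ Qj x ((mj x).2 (Or.inl h1)))).elim
      · exact (dj x h1 h2).elim
    · rcases (mj' x).1 hx' with h2 | h2 | h2
      · exact (hbQ (h1 ▸ Qi x ((mi x).2 (Or.inl h2)))).elim
      · exact (hbb (h1.symm.trans h2)).elim
      · exact (hbQ (h1 ▸ Qj x ((mj x).2 (Or.inr h2)))).elim
    · rcases (mj' x).1 hx' with h2 | h2 | h2
      · exact (di x h2 h1).elim
      · exact (hbQ' (h2 ▸ Qi x ((mi x).2 (Or.inr h1)))).elim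
      · rcases hK x ((mi x).2 (Or.inr h1)) ((mj x).2 (Or.inr h2)) with h3 | h3
        · exact (di x (h3 ▸ qPi) h1).elim
        · refine ⟨Or.inr ?_, Or.inr ?_⟩
          · rw [lsi]; exact h3.2.2.1
          · rw [lsj]; exact h3.2.2.2
  have ndi' : Wi'.Nodup := by
    rw [hWi'', List.nodup_append, List.nodup_cons]
    refine ⟨ndj1, ⟨fun hb => hbQ (Qi b ((mi b).2 (Or.inr hb))), ndi2⟩, ?_⟩
    intro x hx y hy hxy
    rw [List.mem_cons] at hy
    rcases hy with hy | hy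
    · exact hbQ (Qj b ((mj b).2 (Or.inl (by rw [← hy, ← hxy]; exact hx))))
    · exact x1 x hx (by rw [hxy]; exact hy)
  have ndj' : Wj'.Nodup := by
    rw [hWj'', List.nodup_append, List.nodup_cons]
    refine ⟨ndi1, ⟨fun hb => hbQ' (Qj b' ((mj b').2 (Or.inr hb))), ndj2⟩, ?_⟩
    intro x hx y hy hxy
    rw [List.mem_cons] at hy
    rcases hy with hy | hy
    · exact hbQ' (Qi b' ((mi b').2 (Or.inl (by rw [← hy, ← hxy]; exact hx))))
    · exact x2 x hx (by rw [hxy]; exact hy)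
  set W' : I → List ℂ := fun k => if k = i then Wi' else if k = j then Wj' else W k with hW'
  have Wi1 : W' i = Wi' := by rw [hW']; simp
  have Wj1 : W' j = Wj' := by rw [hW']; simp [hij.symm]
  have Wk1 : ∀ k, k ≠ i → k ≠ j → W' k = W k := fun k h1 h2 => by rw [hW']; simp [h1, h2]
  -- membership for the new family
  have memQ : ∀ k ∈ A, ∀ x ∈ W' k, x ∈ Q ∨ x = b ∨ x = b' := by
    intro k hk x hx
    by_cases h1 : k = i
    · rw [h1, Wi1] at hx
      rcases (mi' x).1 hx with h2 | h2 | h2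
      · exact Or.inl (Qj x ((mj x).2 (Or.inl h2)))
      · exact Or.inr (Or.inl h2)
      · exact Or.inl (Qi x ((mi x).2 (Or.inr h2)))
    · by_cases h2 : k = j
      · rw [h2, Wj1] at hx
        rcases (mj' x).1 hx with h2 | h2 | h2
        · exact Or.inl (Qi x ((mi x).2 (Or.inl h2)))
        · exact Or.inr (Or.inr h2)
        · exact Or.inl (Qj x ((mj x).2 (Or.inr h2)))
      · rw [Wk1 k h1 h2] at hx
        exact Or.inl ((mQ x).2 ⟨k, hk, hx⟩)
  have memS : ∀ k ∈ A, ∀ s ∈ segL (W' k), s ∈ S ∨ s = s(w1, b) ∨ s = s(b, u2) ∨ s = s(u1, b') ∨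
      s = s(b', w2) := by
    intro k hk s hs
    by_cases h1 : k = i
    · rw [h1, Wi1, segi', List.mem_append, List.mem_cons, List.mem_cons] at hs
      rcases hs with h2 | h2 | h2 | h2
      · exact Or.inl (SPj s h2)
      · exact Or.inr (Or.inl h2)
      · exact Or.inr (Or.inr (Or.inl h2))
      · exact Or.inl (STi s h2)
    · by_cases h2 : k = j
      · rw [h2, Wj1, segj', List.mem_append, List.mem_cons, List.mem_cons] at hs
        rcases hs with h2 | h2 | h2 | h2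
        · exact Or.inl (SPi s h2)
        · exact Or.inr (Or.inr (Or.inr (Or.inl h2)))
        · exact Or.inr (Or.inr (Or.inr (Or.inr h2)))
        · exact Or.inl (STj s h2)
      · rw [Wk1 k h1 h2] at hs
        exact Or.inl (Sk k hk h1 h2 s hs)
  have bl : ∀ y, b ∈ segment ℝ y b := fun y => right_mem_segment ℝ y b
  have br : ∀ y, b ∈ segment ℝ b y := fun y => left_mem_segment ℝ b y
  have bl' : ∀ y, b' ∈ segment ℝ y b' := fun y => right_mem_segment ℝ y b'
  have br' : ∀ y, b' ∈ segment ℝ b' y := fun y => left_mem_segment ℝ b' y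
  refine ⟨W', ⟨?_, ?_, ?_⟩, ?_, ?_, ?_, ?_⟩
  · intro k hk
    by_cases h1 : k = i
    · rw [h1, Wi1, hWi'', hPj, hTi]
      simp only [List.length_append, List.length_cons, List.length_nil]; omega
    · by_cases h2 : k = j
      · rw [h2, Wj1, hWj'', hPi, hTj]
        simp only [List.length_append, List.length_cons, List.length_nil]; omega
      · rw [Wk1 k h1 h2]; exact hPL.len k hk
  · intro k hk
    by_cases h1 : k = i
    · rw [h1, Wi1]; exact ndi'
    · by_cases h2 : k = j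
      · rw [h2, Wj1]; exact ndj'
      · rw [Wk1 k h1 h2]; exact hPL.nd k hk
  · intro k hk l hl hkl x hx hx'
    by_cases h1 : k = i
    · by_cases h2 : l = j
      · rw [h1, Wi1] at hx ⊢
        rw [h2, Wj1] at hx' ⊢
        exact sepij x hx hx'
      · have h3 : l ≠ i := fun h => hkl (h1.trans h.symm)
        rw [h1, Wi1] at hx ⊢
        rw [Wk1 l h3 h2] at hx' ⊢
        exact sepi l hl h3 h2 x hx hx'
    · by_cases h2 : k = j
      · by_cases h3 : l = i
        · rw [h2, Wj1] at hx ⊢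
          rw [h3, Wi1] at hx' ⊢
          exact (sepij x hx' hx).symm
        · have h4 : l ≠ j := fun h => hkl (h2.trans h.symm)
          rw [h2, Wj1] at hx ⊢
          rw [Wk1 l h3 h4] at hx' ⊢
          exact sepj l hl h3 h4 x hx hx'
      · rw [Wk1 k h1 h2] at hx ⊢
        by_cases h3 : l = i
        · rw [h3, Wi1] at hx' ⊢
          exact (sepi k hk h1 h2 x hx' hx).symm
        · by_cases h4 : l = j
          · rw [h4, Wj1] at hx' ⊢
            exact (sepj k hk h1 h2 x hx' hx).symm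
          · rw [Wk1 l h3 h4] at hx' ⊢
            exact hPL.sep k hk l hl hkl x hx hx'
  · intro k hk l hl s hs x hx hxs
    rcases memQ l hl x hx with hx | rfl | rfl
    · rcases memS k hk s hs with h1 | rfl | rfl | rfl | rfl
      · exact POS s h1 x hx hxs
      · rw [sg_mk] at hxs; rw [(hQ4 x hx).1 hxs]; simp
      · rw [sg_mk] at hxs; rw [(hQ4 x hx).2.1 hxs]; simp
      · rw [sg_mk] at hxs; rw [(hQ4 x hx).2.2.1 hxs]; simp
      · rw [sg_mk] at hxs; rw [(hQ4 x hx).2.2.2 hxs]; simp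
    · rcases memS k hk s hs with h1 | rfl | rfl | rfl | rfl
      · exact ((hbS s h1).1 hxs).elim
      · simp
      · simp
      · rw [sg_mk] at hxs; exact (hdis x (Or.inl (bl _)) (Or.inl hxs)).elim
      · rw [sg_mk] at hxs; exact (hdis x (Or.inl (bl _)) (Or.inr hxs)).elim
    · rcases memS k hk s hs with h1 | rfl | rfl | rfl | rfl
      · exact ((hbS s h1).2 hxs).elim
      · rw [sg_mk] at hxs; exact (hdis x (Or.inl hxs) (Or.inl (bl' _))).elim
      · rw [sg_mk] at hxs; exact (hdis x (Or.inr hxs) (Or.inl (bl' _))).elim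
      · simp
      · simp
  · intro k hk
    by_cases h1 : k = i
    · rw [h1, Wi1, hqi]; exact ⟨hdi, lsi⟩
    · by_cases h2 : k = j
      · rw [h2, Wj1, hqj]; exact ⟨hdj, lsj⟩
      · rw [Wk1 k h1 h2]; exact ⟨rfl, rfl⟩
  · rw [Wi1, Wj1, Nx_eq, Nx_eq, segi', segj', segi, segj]
    refine count_pair hX ?_ ?_ ?_ ?_
    · rw [← segi, ← Nx_eq]; exact h0 i hi
    · rw [← segj, ← Nx_eq]; exact h0 j hj
    · intro g hg
      apply hcount g
      rcases hg with h1 | h1 | h1 | h1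
      · exact SPi g h1
      · exact STi g h1
      · exact SPj g h1
      · exact STj g h1
    · intro x hx y hy hxy
      obtain ⟨z, hz1, hz2⟩ := hxy.2
      apply hdis z
      · rcases hx with rfl | rfl
        · left; rw [← sg_mk]; exact hz1
        · right; rw [← sg_mk]; exact hz1
      · rcases hy with rfl | rfl
        · left; rw [← sg_mk]; exact hz2
        · right; rw [← sg_mk]; exact hz2
  · unfold TT
    refine sum_le2 A i j hi hj hij (fun k l => Nx (W k) (W l)) (fun k l => Nx (W' k) (W' l))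
      (fun k l => ?_) (fun k l => ?_) ?_ ?_
    · simp only [Nx_eq]; exact cc_comm _ _
    · simp only [Nx_eq]; exact cc_comm _ _
    · intro k hk l hl h1 h2 h3 h4
      rw [Wk1 k h1 h2, Wk1 l h3 h4]
    · intro k hk h1 h2
      rw [Wk1 k h1 h2, Wi1, Wj1, Nx_eq, Nx_eq, Nx_eq, Nx_eq, segi', segj', segi, segj]
      refine count_other fun g hg => hcount g (Sk k hk h1 h2 g hg)


theorem unx2 (h : S_SM) {I : Type} (A : Finset I) (W : I → List ℂ) (hPL : PL A W) (hPO : PO A W)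
    (hNT : NT A W) (hDS : DS A W) (h0 : ∀ i ∈ A, Nx (W i) (W i) = 0) (i : I) (hi : i ∈ A)
    (j : I) (hj : j ∈ A) (hij : i ≠ j) (hq : ∃ q, En (W i) q ∧ En (W j) q)
    (hN : Nx (W i) (W j) ≠ 0) :
    ∃ W' : I → List ℂ, PL A W' ∧ PO A W' ∧
      (∀ k ∈ A, (W' k).head? = (W k).head? ∧ (W' k).getLast? = (W k).getLast?) ∧
      Nx (W' i) (W' j) < Nx (W i) (W j) ∧
      TT A W' + 2 * Nx (W i) (W j) ≤ TT A W + 2 * Nx (W' i) (W' j) := by
  obtain ⟨q, hq1, hq2⟩ := hq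
  set t : I → Prop := fun k => (k = i ∨ k = j) ∧ (W k).head? ≠ some q with ht
  have key : ∀ k, (k = i ∨ k = j) → En (W k) q → (UNX.rv t W k).head? = some q := by
    intro k hk hEn
    unfold UNX.rv
    split_ifs with h1
    · rw [List.head?_reverse]
      rcases hEn with h2 | h2
      · exact absurd h2 h1.2
      · exact h2
    · by_contra h2
      exact h1 ⟨hk, h2⟩
  obtain ⟨W', a1, a2, a3, a4, a5⟩ := main2 h A (UNX.rv t W) (UNX.rv_PL t hPL) (UNX.rv_PO t hPO)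
    (UNX.rv_NT t hNT) (UNX.rv_DS t hDS) (fun k hk => by rw [UNX.rv_Nx]; exact h0 k hk) i hi j hj hij q
    (key i (Or.inl rfl) hq1) (key j (Or.inr rfl) hq2) (by rw [UNX.rv_Nx]; exact hN)
  refine ⟨UNX.rv t W', UNX.rv_PL t a1, UNX.rv_PO t a2, fun k hk => ?_, ?_, ?_⟩
  · have h3 := a3 k hk
    unfold UNX.rv at h3 ⊢
    split_ifs at h3 ⊢ with h4
    · rw [List.head?_reverse, List.getLast?_reverse] at h3 ⊢
      exact ⟨h3.2, h3.1⟩
    · exact h3
  · rw [UNX.rv_Nx] at a4 ⊢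
    exact a4
  · rw [UNX.rv_Nx, UNX.rv_TT] at a5 ⊢
    exact a5

variable {V : Type} [Fintype V]

/-- the saving for an adjacent pair -/
theorem adj_save {G : SimpleGraph V} {hd tl : Sym2 V → V}
    (he : ∀ e ∈ G.edgeSet, s(hd e, tl e) = e) (e f : Sym2 V) (hee : e ∈ G.edgeSet)
    (hff : f ∈ G.edgeSet) (hef : e ≠ f) (v : V) (hve : v ∈ e) (hvf : v ∈ f) :
    ∀ (N : ℕ) (loc : V → ℂ) (W : Sym2 V → List ℂ), PL (eF G) W →
      Lb (eF G) hd tl loc W → Nx (W e) (W f) ≤ N →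
      2 * crossingNumber G + 2 * Nx (W e) (W f) ≤ TT (eF G) W := by
  have mem : ∀ {e : Sym2 V}, e ∈ G.edgeSet → e ∈ eF G := fun {e} h =>
    Finset.mem_filter.2 ⟨Finset.mem_univ _, h⟩
  intro N
  induction N using Nat.strong_induction_on with
  | _ N ih =>
    intro loc W hP hL hN
    obtain ⟨φ, hφ, hP1, hO1, hT1, hN1⟩ := p_GP (Sym2 V) (eF G) W hP
    have hL1 := GOOD.lb_map hL hφ
    obtain ⟨W2, hP2, hO2, hT2, hE2, hS2, hN2⟩ := t_SIMP (Sym2 V) (eF G) _ hP1 hO1 hT1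
    have hL2 := GOOD.lb_of hL1 hE2
    have hD2 := GOOD.ds_of he hP2 hL2
    have hle : ∀ k ∈ eF G, ∀ l ∈ eF G, Nx (W2 k) (W2 l) ≤ Nx (W k) (W l) := fun k hk l hl =>
      (hN2 k hk l hl).trans (hN1 k hk l hl)
    have h1 := TT_le2 (eF G) W W2 e f (mem hee) (mem hff) hef hle
    have h2 := hle e (mem hee) f (mem hff)
    by_cases h0 : Nx (W2 e) (W2 f) = 0
    · obtain ⟨D3, hf3, hD3⟩ := p_T3 V G hd tl _ W2 he hP2 hO2 hL2
      have g1 := (t_CNT V G D3).2 hf3
      have g2 := GOOD.sum_le D3 hD3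
      have g3 := GOOD.cr_le D3 hf3
      omega
    · obtain ⟨W3, hP3, hO3, hE3, hlt, hT3⟩ := unx2 t_SM (eF G) W2 hP2 hO2 hT2 hD2 hS2 e (mem hee) f
        (mem hff) hef ⟨_, GOOD.lb_en hL2 (mem hee) (u := v) (by rw [he e hee]; exact hve),
          GOOD.lb_en hL2 (mem hff) (u := v) (by rw [he f hff]; exact hvf)⟩ h0
      have hL3 := GOOD.lb_of hL2 hE3
      have h3 := ih (Nx (W3 e) (W3 f)) (by omega) _ W3 hP3 hL3 le_rfl
      omega

end Pool.Agent.H466.AB
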