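import Pool.Agent.H466.AB.Px

set_option autoImplicit false

/-!
Crossings indexed by ordered quadruples of vertices.
-/

open Set Classical
open Pool.Agent.Helper770.Crossing Pool.Agent.NH90.CN
open Pool.Agent.H466.AL

namespace Pool.Agent.H466.AB

variable {V : Type} [Fintype V]

theorem fib_card {x y : V} (h : x ≠ y) :
    ((Finset.univ : Finset (V × V)).filter (fun p => s(p.1, p.2) = s(x, y))).card = 2 := by
  have : (Finset.univ : Finset (V × V)).filter (fun p => s(p.1, p.2) = s(x, y)) =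
      {(x, y), (y, x)} := by
    ext ⟨a, b⟩
    simp only [Finset.mem_filter, Finset.mem_univ, true_and, Sym2.eq_iff, Finset.mem_insert,
      Finset.mem_singleton, Prod.mk.injEq]
  rw [this, Finset.card_pair]
  intro h'
  exact h (congrArg Prod.fst h')

theorem sum_pairs_fib (h : Sym2 V → ℕ) : ∑ a : V, ∑ b : V, h s(a, b) =
    ∑ e : Sym2 V, ((Finset.univ : Finset (V × V)).filter (fun p => s(p.1, p.2) = e)).card * h e := by
  rw [← Fintype.sum_prod_type' (f := fun a b => h s(a, b)),
    ← Finset.sum_fiberwise_of_maps_to (s := (Finset.univ : Finset (V × V)))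
    (t := (Finset.univ : Finset (Sym2 V))) (g := fun p => s(p.1, p.2)) (fun _ _ => Finset.mem_univ _)]
  refine Finset.sum_congr rfl fun e _ => ?_
  rw [Finset.sum_congr rfl (g := fun _ => h e) (fun p hp => by rw [(Finset.mem_filter.1 hp).2]),
    Finset.sum_const, smul_eq_mul]

theorem sum_pairs_eq (h : Sym2 V → ℕ) (hd : ∀ e : Sym2 V, e.IsDiag → h e = 0) :
    ∑ a : V, ∑ b : V, h s(a, b) = 2 * ∑ e : Sym2 V, h e := by
  rw [sum_pairs_fib, Finset.mul_sum]
  refine Finset.sum_congr rfl fun e _ => ?_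
  by_cases hde : e.IsDiag
  · rw [hd e hde]; simp
  · induction e with
    | _ x y =>
      rw [fib_card]
      intro hxy
      exact hde (by rw [hxy]; exact Sym2.mk_isDiag_iff.2 rfl)

theorem sum_pairs_le (T : Finset (Sym2 V)) (hT : ∀ e ∈ T, ¬ e.IsDiag) (h : Sym2 V → ℕ) :
    2 * ∑ e ∈ T, h e ≤ ∑ a : V, ∑ b : V, h s(a, b) := by
  rw [sum_pairs_fib, Finset.mul_sum]
  refine le_trans (Finset.sum_le_sum (g := fun e =>
    ((Finset.univ : Finset (V × V)).filter (fun p => s(p.1, p.2) = e)).card * h e) fun e he => ?_)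
    (Finset.sum_le_sum_of_subset (Finset.subset_univ _))
  have hde := hT e he
  induction e with
  | _ x y =>
    rw [fib_card]
    intro hxy
    exact hde (by rw [hxy]; exact Sym2.mk_isDiag_iff.2 rfl)

/-- crossings of `ab` with `cd` -/
noncomputable def X4 {G : SimpleGraph V} (D : Drawing G) (a b c d : V) : ℕ := DX D s(a, b) s(c, d)

omit [Fintype V] in
theorem DX_diag {G : SimpleGraph V} (D : Drawing G) (e f : Sym2 V) (h : e.IsDiag ∨ f.IsDiag) :
    DX D e f = 0 := by
  by_contra hc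
  obtain ⟨h1, h2, -⟩ := DX_ne hc
  rcases h with h | h
  · exact G.not_isDiag_of_mem_edgeSet h1 h
  · exact G.not_isDiag_of_mem_edgeSet h2 h

theorem X4_total {G : SimpleGraph V} (D : Drawing G)
    (hopt : 2 * crossingNumber G = ∑ e : Sym2 V, ∑ f : Sym2 V, DX D e f) :
    ∑ a : V, ∑ b : V, ∑ c : V, ∑ d : V, X4 D a b c d = 8 * crossingNumber G := by
  have h1 : ∀ e : Sym2 V, ∑ c : V, ∑ d : V, DX D e s(c, d) = 2 * ∑ f : Sym2 V, DX D e f :=
    fun e => sum_pairs_eq (fun f => DX D e f) (fun f hf => DX_diag D e f (Or.inr hf))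
  unfold X4
  rw [Finset.sum_congr rfl fun a _ => Finset.sum_congr rfl fun b _ => h1 s(a, b),
    sum_pairs_eq (fun e => 2 * ∑ f : Sym2 V, DX D e f) (fun e he => by
      rw [Finset.sum_eq_zero fun f _ => DX_diag D e f (Or.inl he), mul_zero]), ← Finset.mul_sum]
  omega

theorem cr_emb {W : Type} [Fintype W] {G : SimpleGraph V} (D : Drawing G)
    (hD : D.crossings.Finite) (F : W ↪ V) :
    8 * crossingNumber (G.comap F) ≤
      ∑ i : W, ∑ j : W, ∑ k : W, ∑ l : W, X4 D (F i) (F j) (F k) (F l) := by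
  have h0 := cr_le_sum D hD F (G.comap F) le_rfl
  have hnd : ∀ e ∈ eF (G.comap F), ¬ e.IsDiag := fun e he =>
    (G.comap F).not_isDiag_of_mem_edgeSet (DEL.mem_eF.1 he)
  have h1 : ∀ e : Sym2 W, 2 * ∑ f ∈ eF (G.comap F), DX D (e.map F) (f.map F) ≤
      ∑ k : W, ∑ l : W, DX D (e.map F) (s(k, l).map F) := fun e =>
    sum_pairs_le (eF (G.comap F)) hnd (fun f => DX D (e.map F) (f.map F))
  have h2 := sum_pairs_le (eF (G.comap F)) hnd
    (fun e => ∑ k : W, ∑ l : W, DX D (e.map F) (s(k, l).map F))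
  have h3 : 2 * ∑ e ∈ eF (G.comap F), ∑ f ∈ eF (G.comap F), DX D (e.map F) (f.map F) ≤
      ∑ e ∈ eF (G.comap F), ∑ k : W, ∑ l : W, DX D (e.map F) (s(k, l).map F) := by
    rw [Finset.mul_sum]
    exact Finset.sum_le_sum fun e _ => h1 e
  have h4 : ∑ i : W, ∑ j : W, ∑ k : W, ∑ l : W, X4 D (F i) (F j) (F k) (F l) =
      ∑ i : W, ∑ j : W, ∑ k : W, ∑ l : W, DX D (s(i, j).map F) (s(k, l).map F) := rfl
  rw [h4]
  omega

omit [Fintype V] in
theorem X4_adj {G : SimpleGraph V} {D : Drawing G} {a b c d : V} (h : X4 D a b c d ≠ 0) :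
    G.Adj a b ∧ G.Adj c d := by
  obtain ⟨h1, h2, -⟩ := DX_ne h
  exact ⟨h1, h2⟩

omit [Fintype V] in
theorem X4_s12 {G : SimpleGraph V} (D : Drawing G) (a b c d : V) : X4 D b a c d = X4 D a b c d := by
  unfold X4; rw [Sym2.eq_swap]

omit [Fintype V] in
theorem X4_s34 {G : SimpleGraph V} (D : Drawing G) (a b c d : V) : X4 D a b d c = X4 D a b c d := by
  unfold X4; rw [Sym2.eq_swap (a := d)]

omit [Fintype V] in
theorem X4_sw {G : SimpleGraph V} (D : Drawing G) (a b c d : V) : X4 D c d a b = X4 D a b c d := by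
  unfold X4; exact DEL.DX_comm D _ _

/-- the number of crossings on the edges at `a` (with multiplicity 2) -/
noncomputable def R4 {G : SimpleGraph V} (D : Drawing G) (a : V) : ℝ :=
  ∑ b : V, ∑ c : V, ∑ d : V, (X4 D a b c d : ℝ)

/-- weighted number of crossings -/
noncomputable def SX {G : SimpleGraph V} (D : Drawing G) (f : V → V → V → V → ℝ) : ℝ :=
  ∑ a : V, ∑ b : V, ∑ c : V, ∑ d : V, f a b c d * (X4 D a b c d : ℝ)

variable {G : SimpleGraph V} (D : Drawing G)

theorem SX_s12 (f : V → V → V → V → ℝ) : SX D (fun a b c d => f b a c d) = SX D f := by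
  unfold SX
  rw [Finset.sum_comm]
  refine Finset.sum_congr rfl fun a _ => Finset.sum_congr rfl fun b _ => ?_
  refine Finset.sum_congr rfl fun c _ => Finset.sum_congr rfl fun d _ => ?_
  rw [X4_s12]

theorem SX_sw (f : V → V → V → V → ℝ) : SX D (fun a b c d => f c d a b) = SX D f := by
  unfold SX
  calc ∑ a : V, ∑ b : V, ∑ c : V, ∑ d : V, f c d a b * (X4 D a b c d : ℝ)
      = ∑ a : V, ∑ c : V, ∑ b : V, ∑ d : V, f c d a b * (X4 D a b c d : ℝ) :=
        Finset.sum_congr rfl fun a _ => Finset.sum_comm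
    _ = ∑ c : V, ∑ a : V, ∑ b : V, ∑ d : V, f c d a b * (X4 D a b c d : ℝ) := Finset.sum_comm
    _ = ∑ c : V, ∑ a : V, ∑ d : V, ∑ b : V, f c d a b * (X4 D a b c d : ℝ) :=
        Finset.sum_congr rfl fun c _ => Finset.sum_congr rfl fun a _ => Finset.sum_comm
    _ = ∑ c : V, ∑ d : V, ∑ a : V, ∑ b : V, f c d a b * (X4 D a b c d : ℝ) :=
        Finset.sum_congr rfl fun c _ => Finset.sum_comm
    _ = _ := by
        refine Finset.sum_congr rfl fun c _ => Finset.sum_congr rfl fun d _ => ?_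
        refine Finset.sum_congr rfl fun a _ => Finset.sum_congr rfl fun b _ => ?_
        rw [X4_sw]

theorem SX_s34 (f : V → V → V → V → ℝ) : SX D (fun a b c d => f a b d c) = SX D f := by
  rw [← SX_sw D (fun a b c d => f a b d c), ← SX_sw D f]
  exact SX_s12 D (fun a b c d => f c d a b)

theorem SX_add (f g : V → V → V → V → ℝ) :
    SX D (fun a b c d => f a b c d + g a b c d) = SX D f + SX D g := by
  unfold SX
  simp only [add_mul, Finset.sum_add_distrib]

theorem SX_smul (k : ℝ) (f : V → V → V → V → ℝ) :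
    SX D (fun a b c d => k * f a b c d) = k * SX D f := by
  unfold SX
  simp only [mul_assoc, Finset.mul_sum]

theorem SX_congr {f g : V → V → V → V → ℝ}
    (h : ∀ a b c d, X4 D a b c d ≠ 0 → f a b c d = g a b c d) : SX D f = SX D g := by
  unfold SX
  refine Finset.sum_congr rfl fun a _ => Finset.sum_congr rfl fun b _ => ?_
  refine Finset.sum_congr rfl fun c _ => Finset.sum_congr rfl fun d _ => ?_
  by_cases h0 : X4 D a b c d = 0
  · rw [h0]; simp
  · rw [h a b c d h0]

theorem SX_mono {f g : V → V → V → V → ℝ}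
    (h : ∀ a b c d, X4 D a b c d ≠ 0 → f a b c d ≤ g a b c d) : SX D f ≤ SX D g := by
  unfold SX
  refine Finset.sum_le_sum fun a _ => Finset.sum_le_sum fun b _ => ?_
  refine Finset.sum_le_sum fun c _ => Finset.sum_le_sum fun d _ => ?_
  by_cases h0 : X4 D a b c d = 0
  · rw [h0]; simp
  · exact mul_le_mul_of_nonneg_right (h a b c d h0) (Nat.cast_nonneg _)

theorem SX_R4 (p : V → ℝ) : SX D (fun a _ _ _ => p a) = ∑ a, p a * R4 D a := by
  unfold SX R4
  refine Finset.sum_congr rfl fun a _ => ?_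
  simp only [Finset.mul_sum]

theorem SX_one (hopt : 2 * crossingNumber G = ∑ e : Sym2 V, ∑ f : Sym2 V, DX D e f) :
    SX D (fun _ _ _ _ => 1) = 8 * (crossingNumber G : ℝ) := by
  have h := X4_total D hopt
  unfold SX
  simp only [one_mul]
  exact_mod_cast h

theorem R4_nonneg (a : V) : 0 ≤ R4 D a :=
  Finset.sum_nonneg fun _ _ => Finset.sum_nonneg fun _ _ => Finset.sum_nonneg fun _ _ =>
    Nat.cast_nonneg _

theorem sum_R4 (hopt : 2 * crossingNumber G = ∑ e : Sym2 V, ∑ f : Sym2 V, DX D e f) :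
    ∑ a, R4 D a = 8 * (crossingNumber G : ℝ) := by
  rw [← SX_one D hopt]
  have := SX_R4 D (fun _ => 1)
  rw [this]
  simp

/-- indicator of a set of vertices -/
noncomputable def ch (J : Finset V) (a : V) : ℝ := if a ∈ J then 1 else 0

omit [Fintype V] in
theorem ch_nonneg (J : Finset V) (a : V) : 0 ≤ ch J a := by unfold ch; split_ifs <;> norm_num
omit [Fintype V] in
theorem ch_le (J : Finset V) (a : V) : ch J a ≤ 1 := by unfold ch; split_ifs <;> norm_num

theorem cr_sub (hfin : D.crossings.Finite) (X : Finset V) :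
    8 * (crossingNumber (G.comap (Subtype.val : {x // x ∈ X} → V)) : ℝ) ≤
      SX D (fun a b c d => ch X a * ch X b * (ch X c * ch X d)) := by
  have h := cr_emb D hfin (Function.Embedding.subtype (fun x => x ∈ X))
  have h2 : ∑ i : {x // x ∈ X}, ∑ j : {x // x ∈ X}, ∑ k : {x // x ∈ X}, ∑ l : {x // x ∈ X},
      (X4 D i.1 j.1 k.1 l.1 : ℝ) = SX D (fun a b c d => ch X a * ch X b * (ch X c * ch X d)) := by
    unfold SX
    have key : ∀ g : V → ℝ, ∑ i : {x // x ∈ X}, g i.1 = ∑ a, ch X a * g a := by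
      intro g
      unfold ch
      simp only [ite_mul, one_mul, zero_mul]
      rw [Finset.sum_ite_mem, Finset.univ_inter]
      exact Finset.sum_coe_sort X g
    rw [key (fun a => ∑ j : {x // x ∈ X}, ∑ k : {x // x ∈ X}, ∑ l : {x // x ∈ X},
      (X4 D a j.1 k.1 l.1 : ℝ))]
    refine Finset.sum_congr rfl fun a _ => ?_
    rw [key (fun b => ∑ k : {x // x ∈ X}, ∑ l : {x // x ∈ X}, (X4 D a b k.1 l.1 : ℝ)),
      Finset.mul_sum]
    refine Finset.sum_congr rfl fun b _ => ?_
    rw [key (fun c => ∑ l : {x // x ∈ X}, (X4 D a b c l.1 : ℝ)), Finset.mul_sum, Finset.mul_sum]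
    refine Finset.sum_congr rfl fun c _ => ?_
    rw [key (fun d => (X4 D a b c d : ℝ)), Finset.mul_sum, Finset.mul_sum, Finset.mul_sum]
    refine Finset.sum_congr rfl fun d _ => ?_
    ring
  rw [← h2]
  exact_mod_cast h

/-- crossings on the edges at a set -/
theorem sub_R4 (hfin : D.crossings.Finite) (X : Finset V) :
    8 * (crossingNumber (G.comap (Subtype.val : {x // x ∈ X} → V)) : ℝ) ≤ ∑ a ∈ X, R4 D a := by
  refine (cr_sub D hfin X).trans ?_
  have h1 : SX D (fun a b c d => ch X a * ch X b * (ch X c * ch X d)) ≤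
      SX D (fun a _ _ _ => ch X a) := by
    refine SX_mono D fun a b c d _ => ?_
    have h1 := ch_nonneg X a
    have h2 := ch_nonneg X b
    have h3 := ch_nonneg X c
    have h4 := ch_nonneg X d
    have k2 := ch_le X b
    have k3 := ch_le X c
    have k4 := ch_le X d
    calc ch X a * ch X b * (ch X c * ch X d) ≤ ch X a * 1 * (1 * 1) := by gcongr
      _ = ch X a := by ring
  refine h1.trans (le_of_eq ?_)
  rw [SX_R4]
  unfold ch
  simp only [ite_mul, one_mul, zero_mul]
  rw [Finset.sum_ite_mem, Finset.univ_inter]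

/-- crossings on the edges at an independent set -/
theorem indep_R4 (hfin : D.crossings.Finite) (hgood : Good D)
    (hopt : 2 * crossingNumber G = ∑ e : Sym2 V, ∑ f : Sym2 V, DX D e f) (J : Finset V)
    (hJ : ∀ x ∈ J, ∀ y ∈ J, ¬ G.Adj x y) :
    ∑ a ∈ J, R4 D a ≤ 2 * ((crossingNumber G : ℝ) -
      crossingNumber (G.comap (Subtype.val : {x // x ∈ (Jᶜ : Finset V)} → V))) +
      13 * (J.card : ℝ) ^ 2 * (Fintype.card V : ℝ) ^ 2 := by
  have h1 := cr_sub D hfin (Jᶜ)
  have hc : ∀ a, ch (Jᶜ : Finset V) a = 1 - ch J a := by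
    intro a
    unfold ch
    by_cases h : a ∈ J
    · simp [h]
    · simp [h]
  have e1 : SX D (fun a b c d => ch (Jᶜ : Finset V) a * ch (Jᶜ : Finset V) b *
      (ch (Jᶜ : Finset V) c * ch (Jᶜ : Finset V) d)) =
      SX D (fun a b c d => (1 + (-1) * (ch J a + ch J b)) + ((-1) * (ch J c + ch J d) +
        (ch J a + ch J b) * (ch J c + ch J d))) := by
    refine SX_congr D fun a b c d h => ?_
    obtain ⟨h2, h3⟩ := X4_adj h
    have h4 : ch J a * ch J b = 0 := by
      unfold ch
      by_cases ha : a ∈ J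
      · by_cases hb : b ∈ J
        · exact absurd h2 (hJ a ha b hb)
        · simp [hb]
      · simp [ha]
    have h5 : ch J c * ch J d = 0 := by
      unfold ch
      by_cases ha : c ∈ J
      · by_cases hb : d ∈ J
        · exact absurd h3 (hJ c ha d hb)
        · simp [hb]
      · simp [ha]
    rw [hc, hc, hc, hc]
    have h6 : (1 - ch J a) * (1 - ch J b) = 1 - (ch J a + ch J b) := by linear_combination h4
    have h7 : (1 - ch J c) * (1 - ch J d) = 1 - (ch J c + ch J d) := by linear_combination h5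
    rw [h6, h7]
    ring
  have e2 : SX D (fun a b _ _ => ch J a + ch J b) = 2 * SX D (fun a _ _ _ => ch J a) := by
    rw [SX_add D (fun a _ _ _ => ch J a) (fun _ b _ _ => ch J b),
      SX_s12 D (fun a _ _ _ => ch J a)]
    ring
  have e3 : SX D (fun _ _ c d => ch J c + ch J d) = 2 * SX D (fun a _ _ _ => ch J a) := by
    rw [SX_sw D (fun a b _ _ => ch J a + ch J b), e2]
  have e4 : SX D (fun a b c d => (ch J a + ch J b) * (ch J c + ch J d)) =
      4 * SX D (fun a _ c _ => ch J a * ch J c) := by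
    have g1 : SX D (fun a b c d => (ch J a + ch J b) * (ch J c + ch J d)) =
        (SX D (fun a _ c _ => ch J a * ch J c) + SX D (fun _ b c _ => ch J b * ch J c)) +
        (SX D (fun a _ _ d => ch J a * ch J d) + SX D (fun _ b _ d => ch J b * ch J d)) := by
      rw [← SX_add, ← SX_add, ← SX_add]
      refine SX_congr D fun a b c d _ => ?_
      ring
    rw [g1, SX_s12 D (fun a _ c _ => ch J a * ch J c), SX_s34 D (fun a _ c _ => ch J a * ch J c),
      SX_s12 D (fun a _ _ d => ch J a * ch J d), SX_s34 D (fun a _ c _ => ch J a * ch J c)]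
    ring
  have e5 : SX D (fun a b c d => (1 + (-1) * (ch J a + ch J b)) + ((-1) * (ch J c + ch J d) +
        (ch J a + ch J b) * (ch J c + ch J d))) = 8 * (crossingNumber G : ℝ) -
        4 * SX D (fun a _ _ _ => ch J a) + 4 * SX D (fun a _ c _ => ch J a * ch J c) := by
    rw [SX_add D (fun a b _ _ => 1 + (-1) * (ch J a + ch J b)) (fun a b c d =>
      (-1) * (ch J c + ch J d) + (ch J a + ch J b) * (ch J c + ch J d)),
      SX_add D (fun _ _ _ _ => 1) (fun a b _ _ => (-1) * (ch J a + ch J b)),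
      SX_add D (fun _ _ c d => (-1) * (ch J c + ch J d))
        (fun a b c d => (ch J a + ch J b) * (ch J c + ch J d)),
      SX_smul D (-1) (fun a b _ _ => ch J a + ch J b),
      SX_smul D (-1) (fun _ _ c d => ch J c + ch J d), e2, e3, e4, SX_one D hopt]
    ring
  rw [e1, e5] at h1
  have e6 : SX D (fun a _ _ _ => ch J a) = ∑ a ∈ J, R4 D a := by
    rw [SX_R4]
    unfold ch
    simp only [ite_mul, one_mul, zero_mul]
    rw [Finset.sum_ite_mem, Finset.univ_inter]
  have e7 : SX D (fun a _ c _ => ch J a * ch J c) ≤ 13 * (J.card : ℝ) ^ 2 *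
      (Fintype.card V : ℝ) ^ 2 := by
    have g1 : ∀ a b c d, (X4 D a b c d : ℝ) ≤ 13 := by
      intro a b c d
      by_cases h0 : X4 D a b c d = 0
      · rw [h0]; norm_num
      · have := pair_le D hfin hopt s(a, b) s(c, d) (DX_good hgood h0).2.2
        exact_mod_cast this
    calc SX D (fun a _ c _ => ch J a * ch J c)
        ≤ ∑ a : V, ∑ _b : V, ∑ c : V, ∑ _d : V, (ch J a * ch J c) * 13 := by
          unfold SX
          refine Finset.sum_le_sum fun a _ => Finset.sum_le_sum fun b _ => ?_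
          refine Finset.sum_le_sum fun c _ => Finset.sum_le_sum fun d _ => ?_
          exact mul_le_mul_of_nonneg_left (g1 a b c d) (mul_nonneg (ch_nonneg _ _) (ch_nonneg _ _))
      _ = 13 * (∑ a, ch J a) * (∑ c, ch J c) * (Fintype.card V : ℝ) ^ 2 := by
          simp only [Finset.sum_const, Finset.card_univ, nsmul_eq_mul, ← Finset.mul_sum,
            ← Finset.sum_mul]
          ring
      _ = 13 * (J.card : ℝ) ^ 2 * (Fintype.card V : ℝ) ^ 2 := by
          have : ∑ a, ch J a = (J.card : ℝ) := by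
            unfold ch
            rw [Finset.sum_ite_mem, Finset.univ_inter, Finset.sum_const, nsmul_eq_mul, mul_one]
          rw [this]
          ring
  rw [e6] at h1
  linarith

end Pool.Agent.H466.AB
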